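import Pool.Agent.MP_122b1e_ag.Flag

set_option autoImplicit false

namespace Pool.Agent.MP_122b1e_ag

variable {κ V : Type} [Field κ] [AddCommGroup V] [Module κ V]

structure Chain (k l : ℕ) (p : ℕ → ℕ) (E F : ℕ → Fl κ V) : Prop where
  pair : ∀ t, t ≤ l → Pair k (E t) (F t)
  step : ∀ t, t < l → Step k (p t) (E t) (F t) (E (t + 1)) (F (t + 1))
  fin : Pair k (E 0) (F l)

/-- Idempotents preserving every flag of the chain. -/
structure Alg (l : ℕ) (E F : ℕ → Fl κ V) (π : V →ₗ[κ] V) : Prop where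
  idem : Idem π
  pE : ∀ t, t ≤ l → PresF π (E t)
  pF : ∀ t, t ≤ l → PresF π (F t)

section
variable {k l : ℕ} {p : ℕ → ℕ} {E F : ℕ → Fl κ V}

lemma Alg.comm (h : Chain k l p E F) {π π' : V →ₗ[κ] V} (a : Alg l E F π) (b : Alg l E F π') :
    Comm π π' :=
  h.fin.comm (a.pE 0 (by omega)) (a.pF l le_rfl) (b.pE 0 (by omega)) (b.pF l le_rfl)

lemma Alg.comp (h : Chain k l p E F) {π π' : V →ₗ[κ] V} (a : Alg l E F π) (b : Alg l E F π') :
    Alg l E F (π ∘ₗ π') where
  idem y := by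
    simp only [LinearMap.comp_apply]
    rw [← a.comm h b, a.idem, b.idem]
  pE t ht r := (a.pE t ht r).comp (b.pE t ht r)
  pF t ht r := (a.pF t ht r).comp (b.pF t ht r)

lemma Alg.compl {π : V →ₗ[κ] V} (a : Alg l E F π) : Alg l E F (LinearMap.id - π) where
  idem := a.idem.compl
  pE t ht r := (a.pE t ht r).compl
  pF t ht r := (a.pF t ht r).compl

lemma alg_id : Alg l E F (LinearMap.id : V →ₗ[κ] V) :=
  ⟨fun _ => rfl, fun _ _ _ _ h => h, fun _ _ _ _ h => h⟩

/-- `θ` is the atom of the algebra containing `v`. -/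
structure Atom (l : ℕ) (E F : ℕ → Fl κ V) (θ : V →ₗ[κ] V) (v : V) : Prop where
  alg : Alg l E F θ
  fix : θ v = v
  one : ∀ π, Alg l E F π → π v = v → ∀ y, θ y = y → π y = y

lemma Atom.zero {θ : V →ₗ[κ] V} {v : V} (a : Atom l E F θ v) {π : V →ₗ[κ] V}
    (hπ : Alg l E F π) (hv : π v = 0) {y : V} (hy : θ y = y) : π y = 0 := by
  have := a.one _ hπ.compl (by simp [hv]) y hy
  simpa using this

lemma exists_atom [FiniteDimensional κ V] (h : Chain k l p E F) (v : V) :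
    ∃ θ, Atom l E F θ v := by
  obtain ⟨G, hG⟩ := exists_minimal_of_wellFoundedLT
    (fun G : Submodule κ V => ∃ θ, Alg l E F θ ∧ θ v = v ∧ G = LinearMap.range θ)
    ⟨_, LinearMap.id, alg_id, rfl, rfl⟩
  obtain ⟨θ, h1, h2, rfl⟩ := hG.prop
  refine ⟨θ, h1, h2, fun π hπ hv y hy => ?_⟩
  have hle : LinearMap.range (π ∘ₗ θ) ≤ LinearMap.range θ := by
    rintro _ ⟨x, rfl⟩
    exact ⟨π x, by simp only [LinearMap.comp_apply]; exact h1.comm h hπ x⟩
  have := hG.le_of_le ⟨π ∘ₗ θ, hπ.comp h h1, by simp [h2, hv], rfl⟩ hle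
  obtain ⟨x, hx⟩ := this ⟨y, hy⟩
  rw [← hx]
  exact hπ.idem _

end

/-- Two levels that agree on the image of `θ`. -/
def Same (θ : V →ₗ[κ] V) (A B A' B' : Submodule κ V) : Prop :=
  ∀ y, θ y = y → (y ∈ A ↔ y ∈ A') ∧ (y ∈ B ↔ y ∈ B')

lemma Same.refl (θ : V →ₗ[κ] V) (A B : Submodule κ V) : Same θ A B A B :=
  fun _ _ => ⟨Iff.rfl, Iff.rfl⟩

lemma Same.symm {θ : V →ₗ[κ] V} {A B A' B' : Submodule κ V} (h : Same θ A B A' B') :
    Same θ A' B' A B := fun y hy => ⟨(h y hy).1.symm, (h y hy).2.symm⟩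

lemma Same.trans {θ : V →ₗ[κ] V} {A B A' B' A'' B'' : Submodule κ V} (h : Same θ A B A' B')
    (h' : Same θ A' B' A'' B'') : Same θ A B A'' B'' :=
  fun y hy => ⟨(h y hy).1.trans (h' y hy).1, (h y hy).2.trans (h' y hy).2⟩

def Fixes (θ : V →ₗ[κ] V) (C C' : Submodule κ V) : Prop := ∀ y ∈ C, y ∈ C' → θ y = y

lemma Cov.fix_mem {A B : Submodule κ V} (h : Cov A B) {θ : V →ₗ[κ] V} (hA : Pres θ A) {x y : V}
    (hx : x ∈ B) (hx' : x ∉ A) (h0 : θ x = 0) (hy : y ∈ B) (hy' : θ y = y) : y ∈ A := by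
  obtain ⟨c, hc⟩ := h.line x hx hx' y hy
  have := hA _ hc
  rwa [map_sub, map_smul, h0, smul_zero, sub_zero, hy'] at this

lemma Pair.shift {k q : ℕ} {E F : Fl κ V} (h : Pair k E F) (hq : q + 1 < k) {θ : V →ₗ[κ] V}
    (hi : Idem θ) (gE : PresF θ E) (gF : PresF θ F) (hn : ¬ Fixes θ (F (q + 2)) (E q)) :
    ∃ r, r ≠ q + 1 ∧ Same θ (F (q + 1)) (E (q + 1)) (F r) (E r) := by
  obtain ⟨x, h1, h2, h0⟩ := (h.covF q (by omega)).exists_line (h.cpl q)
  obtain ⟨x', h1', h2', h0'⟩ := (h.covF (q + 1) hq).exists_line (h.cpl (q + 1))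
  obtain ⟨c, hc⟩ := h.eig gE gF (by omega) h1 h2
  obtain ⟨c', hc'⟩ := h.eig gE gF hq h1' h2'
  rcases hi.eig hc with e | e
  · rcases hi.eig hc' with e' | e'
    · refine absurd (fun y hy hy' => ?_) hn
      obtain ⟨a, ha, b, hb, rfl⟩ := cpl_decomp (h.cpl (q + 1)) y
      have ha' : a ∈ E q := by simpa using (E q).sub_mem hy' (h.antiE (by omega) hb)
      have hb' : b ∈ F (q + 2) := by simpa using (F (q + 2)).sub_mem hy (h.monoF (by omega) ha)
      obtain ⟨d, rfl⟩ := (h.covF q (by omega)).on_line (h.disj q) h1 h2 h0 ha ha'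
      obtain ⟨d', rfl⟩ := (h.covF (q + 1) hq).on_line (h.disj _) h1' h2' h0' hb' hb
      simp [e, e']
    · refine ⟨q + 2, by omega, fun y hy => ⟨⟨fun H => h.monoF (by omega) H, fun H => ?_⟩,
        ⟨fun H => ?_, fun H => h.antiE (by omega) H⟩⟩⟩
      · exact (h.covF (q + 1) hq).fix_mem (gF _) h1' (fun H' => h0' (h.zero H' h2')) e' H hy
      · exact (h.covE (q + 1) hq).fix_mem (gE _) h2' (fun H' => h0' (h.zero h1' H')) e' H hy
  · refine ⟨q, by omega, fun y hy => ⟨⟨fun H => ?_, fun H => h.monoF (by omega) H⟩,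
        ⟨fun H => h.antiE (by omega) H, fun H => ?_⟩⟩⟩
    · exact (h.covF q (by omega)).fix_mem (gF _) h1 (fun H' => h0 (h.zero H' h2)) e H hy
    · exact (h.covE q (by omega)).fix_mem (gE _) h2 (fun H' => h0 (h.zero h1 H')) e H hy

lemma Step.shift {k q : ℕ} {E F E' F' : Fl κ V} (h : Step k q E F E' F') {θ : V →ₗ[κ] V}
    (hi : Idem θ) (gE : PresF θ E) (gF : PresF θ F) (hn : ¬ Fixes θ (F (q + 2)) (E q)) (r : ℕ) :
    ∃ r', Same θ (F r) (E r) (F' r') (E' r') := by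
  by_cases hr : r = q + 1
  · obtain ⟨r', h1, h2⟩ := h.a.shift h.lt hi gE gF hn
    exact ⟨r', by rw [hr, h.adjF r' h1, h.adjE r' h1]; exact h2⟩
  · exact ⟨r, by rw [h.adjF r hr, h.adjE r hr]; exact Same.refl _ _ _⟩

lemma Step.shift' {k q : ℕ} {E F E' F' : Fl κ V} (h : Step k q E F E' F') {θ : V →ₗ[κ] V}
    (hi : Idem θ) (gE : PresF θ E') (gF : PresF θ F') (hn : ¬ Fixes θ (F (q + 2)) (E q))
    (r : ℕ) : ∃ r', Same θ (F r') (E r') (F' r) (E' r) := by
  by_cases hr : r = q + 1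
  · rw [← h.adjF (q + 2) (by omega), ← h.adjE q (by omega)] at hn
    obtain ⟨r', h1, h2⟩ := h.b.shift h.lt hi gE gF hn
    exact ⟨r', by rw [hr, ← h.adjF r' h1, ← h.adjE r' h1]; exact h2.symm⟩
  · exact ⟨r, by rw [h.adjF r hr, h.adjE r hr]; exact Same.refl _ _ _⟩

section
variable {k l : ℕ} {p : ℕ → ℕ} {E F : ℕ → Fl κ V}

/-- A level common to all times gives an idempotent of the algebra. -/
lemma alg_of_same (h : Chain k l p E F) {θ P : V →ₗ[κ] V} (a : Alg l E F θ) {j r : ℕ}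
    (hj : j ≤ l) (hP : IsPr P (F j r) (E j r))
    (hs : ∀ s, s ≤ l → ∃ r', Same θ (F j r) (E j r) (F s r') (E s r')) : Alg l E F (P ∘ₗ θ) := by
  have hc : Comm θ P := hP.comm (a.pF j hj r) (a.pE j hj r)
  have key : ∀ s, s ≤ l → ∃ r' P', IsPr P' (F s r') (E s r') ∧ ∀ y, P (θ y) = P' (θ y) := by
    intro s hsl
    obtain ⟨r', hr'⟩ := hs s hsl
    obtain ⟨P', hP'⟩ := exists_isPr ((h.pair s hsl).cpl r')
    refine ⟨r', P', hP', fun y => ?_⟩
    have e1 : θ (P (θ y)) = P (θ y) := by rw [hc, a.idem]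
    have e2 : θ (θ y - P (θ y)) = θ y - P (θ y) := by rw [map_sub, a.idem, e1]
    have t1 := hP'.one _ ((hr' _ e1).1.1 (hP.mem _))
    have t2 := hP'.zero _ ((hr' _ e2).2.1 (hP.sub_mem _))
    rw [map_sub, t1] at t2
    exact (sub_eq_zero.1 t2).symm
  refine ⟨fun y => ?_, fun s hsl r' y hy => ?_, fun s hsl r' y hy => ?_⟩
  · simp only [LinearMap.comp_apply]
    rw [hc, a.idem, hP.idem]
  · obtain ⟨r'', P', hP', e⟩ := key s hsl
    rw [LinearMap.comp_apply, e]
    exact (h.pair s hsl).prE hP' _ _ (a.pE s hsl _ _ hy)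
  · obtain ⟨r'', P', hP', e⟩ := key s hsl
    rw [LinearMap.comp_apply, e]
    exact (h.pair s hsl).prF hP' _ _ (a.pF s hsl _ _ hy)

/-- Levels can be transported across an initial range without internal crossings. -/
lemma same_init (h : Chain k l p E F) {θ : V →ₗ[κ] V} (a : Alg l E F θ) {j : ℕ} (hj : j ≤ l)
    (hn : ∀ s, s < j → ¬ Fixes θ (F s (p s + 2)) (E s (p s))) (s : ℕ) (hs : s ≤ j) :
    (∀ r, ∃ r', Same θ (F s r) (E s r) (F j r') (E j r')) ∧
    (∀ r', ∃ r, Same θ (F s r) (E s r) (F j r') (E j r')) := by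
  induction hs using Nat.decreasingInduction with
  | self => exact ⟨fun r => ⟨r, Same.refl _ _ _⟩, fun r => ⟨r, Same.refl _ _ _⟩⟩
  | of_succ s hs ih =>
    have st := h.step s (by omega)
    constructor
    · intro r
      obtain ⟨r1, h1⟩ := st.shift a.idem (a.pE s (by omega)) (a.pF s (by omega)) (hn s hs) r
      obtain ⟨r2, h2⟩ := ih.1 r1
      exact ⟨r2, h1.trans h2⟩
    · intro r
      obtain ⟨r1, h1⟩ := ih.2 r
      obtain ⟨r2, h2⟩ := st.shift' a.idem (a.pE (s + 1) (by omega)) (a.pF (s + 1) (by omega))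
        (hn s hs) r1
      exact ⟨r2, h2.trans h1⟩

lemma decomp_fix {A B : Submodule κ V} (hc : IsCompl A B) {θ : V →ₗ[κ] V} (hi : Idem θ)
    (hA : Pres θ A) (hB : Pres θ B) {y : V} (hy : θ y = y) :
    ∃ a ∈ A, ∃ b ∈ B, θ a = a ∧ θ b = b ∧ a + b = y := by
  obtain ⟨a, ha, b, hb, hab⟩ := cpl_decomp hc y
  exact ⟨θ a, hA a ha, θ b, hB b hb, hi a, hi b, by rw [← map_add, hab, hy]⟩

/-- The atom of `α` lies in every later level containing `α`. -/
lemma atom_top (h : Chain k l p E F) {θ : V →ₗ[κ] V} {α : V} (a : Atom l E F θ α) {j q : ℕ}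
    (hj : j ≤ l) (hq : q < k) (h1 : α ∈ F j (q + 1)) (h2 : α ∈ E j q) (h0 : α ≠ 0)
    (hn : ∀ s, s < j → ¬ Fixes θ (F s (p s + 2)) (E s (p s)))
    (hL : ∀ s, j ≤ s → s < l → Fixes θ (F s (p s + 2)) (E s (p s)) → α ∈ F s (p s + 1) →
      α ∈ F s (p s)) :
    ∀ s, j ≤ s → s ≤ l → ∀ r, α ∈ F s r → ∀ y, θ y = y → y ∈ F s r := by
  let G : ℕ → V → Prop := fun s y => θ y = y ∧ ∀ r, α ∈ F s r → y ∈ F s r
  have mono1 : ∀ s, j ≤ s → s < l → ∀ y, G (s + 1) y → G s y := by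
    intro s hs hs' y hy
    have st := h.step s hs'
    refine ⟨hy.1, fun r hr => ?_⟩
    by_cases e : r = p s + 1
    · subst e
      by_cases hf : Fixes θ (F s (p s + 2)) (E s (p s))
      · have := hL s hs hs' hf hr
        rw [← st.adjF _ (by omega)] at this
        have := hy.2 _ this
        rw [st.adjF _ (by omega)] at this
        exact st.a.monoF (by omega) this
      · obtain ⟨r', e1, e2⟩ := st.a.shift st.lt a.alg.idem (a.alg.pE s hs'.le) (a.alg.pF s hs'.le)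
          hf
        have := (e2 α a.fix).1.1 hr
        rw [← st.adjF _ e1] at this
        have := hy.2 _ this
        rw [st.adjF _ e1] at this
        exact (e2 y hy.1).1.2 this
    · rw [← st.adjF r e] at hr ⊢
      exact hy.2 r hr
  have mono : ∀ s s', j ≤ s → s ≤ s' → s' ≤ l → ∀ y, G s' y → G s y := by
    intro s s' hs hss'
    induction hss' with
    | refl => exact fun _ _ h => h
    | @step n hn ih =>
      exact fun hl y hy => ih (by omega) y (mono1 n (hs.trans hn) (by omega) y hy)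
  have pj := h.pair j hj
  have Gj : ∀ y, G j y ↔ θ y = y ∧ y ∈ F j (q + 1) := by
    intro y
    refine ⟨fun H => ⟨H.1, H.2 _ h1⟩, fun H => ⟨H.1, fun r hr => ?_⟩⟩
    refine pj.monoF ?_ H.2
    by_contra hlt
    exact h0 (pj.zero (pj.monoF (by omega) hr) h2)
  have fin : ∀ y, G j y → G l y := by
    intro y hy
    obtain ⟨r₀, e⟩ := (same_init h a.alg hj hn 0 (by omega)).2 q
    have hα : α ∉ F l r₀ := fun H => h0 (h.fin.zero H ((e α a.fix).2.2 h2))
    obtain ⟨x, hx, b, hb, fx, fb, rfl⟩ := decomp_fix (h.fin.cpl r₀) a.alg.idem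
      (a.alg.pF l le_rfl r₀) (a.alg.pE 0 (by omega) r₀) hy.1
    have gx : G l x := ⟨fx, fun r hr => h.fin.monoF (by
      by_contra hlt
      exact hα (h.fin.monoF (by omega) hr)) hx⟩
    have gx' := ((Gj x).1 (mono j l le_rfl hj le_rfl x gx)).2
    have hb' : b ∈ F j (q + 1) := by
      simpa using (F j (q + 1)).sub_mem ((Gj _).1 hy).2 gx'
    obtain ⟨c, rfl⟩ := (pj.covF q hq).on_line (pj.disj q) h1 h2 h0 hb' ((e b fb).2.1 hb)
    exact ⟨hy.1, fun r hr => (F l r).add_mem (gx.2 r hr) ((F l r).smul_mem c hr)⟩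
  have lev : ∀ s, j ≤ s → s ≤ l →
      ∃ r', Same θ (F j (q + 1)) (E j (q + 1)) (F s r') (E s r') := by
    intro s hs
    induction hs with
    | refl => exact fun _ => ⟨q + 1, Same.refl _ _ _⟩
    | @step s hs ih =>
      intro hsl
      have hs' : s < l := hsl
      obtain ⟨r, e⟩ := ih hs'.le
      have st := h.step s hs'
      by_cases hf : Fixes θ (F s (p s + 2)) (E s (p s))
      · refine ⟨r, ?_⟩
        have hr : r ≠ p s + 1 := by
          rintro rfl
          have t1 := hL s hs hs' hf ((e α a.fix).1.1 h1)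
          obtain ⟨x, x1, x2, x0⟩ := (st.a.covF (p s) (by have := st.lt; omega)).exists_line
            (st.a.cpl (p s))
          have fx := hf x (st.a.monoF (by omega) x1) x2
          have gx := mono s l hs hs'.le le_rfl x (fin x ((Gj x).2 ⟨fx, (e x fx).1.2 x1⟩))
          exact x0 (st.a.zero (gx.2 _ t1) x2)
        rw [st.adjF r hr, st.adjE r hr]; exact e
      · obtain ⟨r', e'⟩ := st.shift a.alg.idem (a.alg.pE s hs'.le) (a.alg.pF s hs'.le) hf r
        exact ⟨r', e.trans e'⟩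
  obtain ⟨P, hP⟩ := exists_isPr (pj.cpl (q + 1))
  have aP := alg_of_same h a.alg hj hP (fun s hs => by
    rcases le_total j s with e | e
    · exact lev s e hs
    · obtain ⟨r, e'⟩ := (same_init h a.alg hj hn s e).2 (q + 1)
      exact ⟨r, e'.symm⟩)
  intro s hs hsl r hr y hy
  have t := a.one _ aP (by simp [a.fix, hP.one α h1]) y hy
  rw [LinearMap.comp_apply, hy] at t
  exact (mono s l hs hsl le_rfl y (fin y ((Gj y).2 ⟨hy, t ▸ hP.mem y⟩))).2 r hr

/-- The atom of `β'` meets trivially every later level killed by `β`. -/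
lemma atom_bot (h : Chain k l p E F) {θ : V →ₗ[κ] V} {b : V} {β : V →ₗ[κ] κ}
    (a : Atom l E F θ b) {j q : ℕ}
    (hj : j ≤ l) (hq : q < k) (h1 : b ∈ F j (q + 1)) (h2 : b ∈ E j q) (h0 : β b = 1)
    (k1 : Kills β (F j q)) (k2 : Kills β (E j (q + 1))) (hθ : ∀ y, β (θ y) = β y)
    (hn : ∀ s, s < j → ¬ Fixes θ (F s (p s + 2)) (E s (p s)))
    (hL : ∀ s, j ≤ s → s < l → Fixes θ (F s (p s + 2)) (E s (p s)) →
      Kills β (F s (p s + 1)) → Kills β (F s (p s + 2))) :
    ∀ s, j ≤ s → s ≤ l → ∀ r, Kills β (F s r) → ∀ y, θ y = y → y ∈ F s r → y = 0 := by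
  let G : ℕ → V → Prop := fun s y => θ y = y ∧ ∃ r, Kills β (F s r) ∧ y ∈ F s r
  have ks : ∀ {A A' : Submodule κ V}, Pres θ A' → (∀ y, θ y = y → y ∈ A' → y ∈ A) → Kills β A →
      Kills β A' := by
    intro A A' hp hs hk y hy
    rw [← hθ]
    exact hk _ (hs _ (a.alg.idem y) (hp y hy))
  have mono1 : ∀ s, j ≤ s → s < l → ∀ y, G s y → G (s + 1) y := by
    rintro s hs hs' y ⟨fy, r, kr, hr⟩
    have st := h.step s hs'
    refine ⟨fy, ?_⟩
    by_cases e : r = p s + 1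
    · subst e
      by_cases hf : Fixes θ (F s (p s + 2)) (E s (p s))
      · refine ⟨p s + 2, ?_⟩
        rw [st.adjF _ (by omega)]
        exact ⟨hL s hs hs' hf kr, st.a.monoF (by omega) hr⟩
      · obtain ⟨r', e1, e2⟩ := st.a.shift st.lt a.alg.idem (a.alg.pE s hs'.le) (a.alg.pF s hs'.le)
          hf
        refine ⟨r', ?_⟩
        rw [st.adjF _ e1]
        exact ⟨ks (a.alg.pF s hs'.le r') (fun x fx => (e2 x fx).1.2) kr, (e2 y fy).1.1 hr⟩
    · exact ⟨r, by rw [st.adjF r e]; exact ⟨kr, hr⟩⟩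
  have mono : ∀ s s', j ≤ s → s ≤ s' → s' ≤ l → ∀ y, G s y → G s' y := by
    intro s s' hs hss'
    induction hss' with
    | refl => exact fun _ _ h => h
    | @step n hn ih =>
      exact fun hl y hy => mono1 n (hs.trans hn) (by omega) y (ih (by omega) y hy)
  have pj := h.pair j hj
  have nk : ¬ Kills β (F j (q + 1)) := fun H => by
    have := H b h1
    rw [h0] at this
    exact one_ne_zero this
  have fin : ∀ y, G l y → y ∈ F j q := by
    obtain ⟨r₀, e⟩ := (same_init h a.alg hj hn 0 (by omega)).2 (q + 1)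
    have kE : Kills β (E 0 r₀) := ks (a.alg.pE 0 (by omega) r₀) (fun x fx => (e x fx).2.1) k2
    have nF : ¬ Kills β (F l r₀) := fun H => by
      obtain ⟨x, hx, x', hx', e'⟩ := cpl_decomp (h.fin.cpl r₀) b
      rw [← e', map_add, H x hx, kE x' hx', add_zero] at h0
      exact zero_ne_one h0
    have inF : ∀ y, G l y → y ∈ F l r₀ := by
      rintro y ⟨_, r, kr, hr⟩
      refine h.fin.monoF ?_ hr
      by_contra hlt
      exact nF fun x hx => kr x (h.fin.monoF (by omega) hx)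
    intro y hy
    obtain ⟨x, hx, x', hx', fx, fx', rfl⟩ := decomp_fix (pj.cpl (q + 1)) a.alg.idem
      (a.alg.pF j hj _) (a.alg.pE j hj _) hy.1
    have hβ : β x = 0 := by
      obtain ⟨_, r, kr, hr⟩ := hy
      have := kr _ hr
      rwa [map_add, k2 x' hx', add_zero] at this
    have hx1 : x ∈ F j q := (pj.covF q hq).mem_of_kills k1 nk hx hβ
    have hx2 := inF x (mono j l le_rfl hj le_rfl x ⟨fx, q, k1, hx1⟩)
    have hx3 : x' ∈ F l r₀ := by simpa using (F l r₀).sub_mem (inF _ hy) hx2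
    rw [h.fin.zero hx3 ((e x' fx').2.2 hx'), add_zero]
    exact hx1
  have lev : ∀ s, j ≤ s → s ≤ l → ∃ r', Same θ (F j q) (E j q) (F s r') (E s r') := by
    intro s hs
    induction hs with
    | refl => exact fun _ => ⟨q, Same.refl _ _ _⟩
    | @step s hs ih =>
      intro hsl
      have hs' : s < l := hsl
      obtain ⟨r, e⟩ := ih hs'.le
      have st := h.step s hs'
      by_cases hf : Fixes θ (F s (p s + 2)) (E s (p s))
      · refine ⟨r, ?_⟩
        have hr : r ≠ p s + 1 := by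
          rintro rfl
          have t1 := hL s hs hs' hf (ks (a.alg.pF s hs'.le _) (fun x fx => (e x fx).1.2) k1)
          obtain ⟨x, x1, x2, x0⟩ := (st.a.covF (p s + 1) st.lt).exists_line (st.a.cpl (p s + 1))
          have fx := hf x x1 (st.a.antiE (by omega) x2)
          have gx := fin x (mono s l hs hs'.le le_rfl x ⟨fx, _, t1, x1⟩)
          exact x0 (st.a.zero ((e x fx).1.1 gx) x2)
        rw [st.adjF r hr, st.adjE r hr]; exact e
      · obtain ⟨r', e'⟩ := st.shift a.alg.idem (a.alg.pE s hs'.le) (a.alg.pF s hs'.le) hf r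
        exact ⟨r', e.trans e'⟩
  obtain ⟨P, hP⟩ := exists_isPr (pj.cpl q)
  have aP := alg_of_same h a.alg hj hP (fun s hs => by
    rcases le_total j s with e | e
    · exact lev s e hs
    · obtain ⟨r, e'⟩ := (same_init h a.alg hj hn s e).2 q
      exact ⟨r, e'.symm⟩)
  intro s hs hsl r hr y hy hy'
  have t := a.zero aP (by simp [a.fix, hP.zero b h2]) hy
  rw [LinearMap.comp_apply, hy, hP.one y (fin y (mono s l hs hsl le_rfl y ⟨hy, r, hr, hy'⟩))] at t
  exact t

end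

end Pool.Agent.MP_122b1e_ag
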