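import Pool.Agent.MP_122b1e_ag.Frames

set_option autoImplicit false

namespace Pool.Agent.MP_122b1e_ag

def blk {R : Type} (c : ℕ → R) : ℕ → List (ℕ × R)
  | 0 => []
  | p + 1 => (p, c p) :: blk c p

def wrd {R : Type} (c : ℕ → ℕ → R) (p : ℕ) : ℕ → List (ℕ × R)
  | 0 => []
  | μ + 1 => blk (c μ) p ++ wrd c p μ

lemma tops_append {R : Type} (w w' : List (ℕ × R)) : tops (w ++ w') = tops w ++ tops w' :=
  List.map_append

lemma cnt_blk {R : Type} (c : ℕ → R) (p r : ℕ) :
    cnt r (tops (blk c p)) = if 1 ≤ r ∧ r ≤ p then 1 else 0 := by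
  induction p with
  | zero => simp [blk, tops, cnt]; omega
  | succ p ih =>
    have : tops (blk c (p + 1)) = .top p (c p) :: tops (blk c p) := rfl
    rw [this, cnt, ih, Letter.pos]
    split_ifs <;> omega

lemma cnt_wrd {R : Type} (c : ℕ → ℕ → R) (p μ r : ℕ) :
    cnt r (tops (wrd c p μ)) = if 1 ≤ r ∧ r ≤ p then μ else 0 := by
  induction μ with
  | zero => simp [wrd, tops, cnt]
  | succ μ ih =>
    rw [wrd, tops_append, cnt_append, cnt_blk, ih]
    split_ifs <;> omega

lemma mem_blk {R : Type} (c : ℕ → R) (p : ℕ) : ∀ e ∈ blk c p, e.1 < p := by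
  induction p with
  | zero => simp [blk]
  | succ p ih =>
    intro e he
    rcases List.mem_cons.1 he with rfl | he
    · simp
    · have := ih e he; omega

lemma mem_wrd {R : Type} (c : ℕ → ℕ → R) (p μ : ℕ) : ∀ e ∈ wrd c p μ, e.1 < p := by
  induction μ with
  | zero => simp [wrd]
  | succ μ ih =>
    intro e he
    rcases List.mem_append.1 he with he | he
    · exact mem_blk _ _ e he
    · exact ih e he

lemma mapW_blk {R R' : Type} (f : R → R') (c : ℕ → R) (p : ℕ) :
    mapW f (blk c p) = blk (fun a => f (c a)) p := by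
  induction p with
  | zero => rfl
  | succ p ih => simp only [blk, ← ih]; rfl

lemma mapW_wrd {R R' : Type} (f : R → R') (c : ℕ → ℕ → R) (p μ : ℕ) :
    mapW f (wrd c p μ) = wrd (fun ν a => f (c ν a)) p μ := by
  induction μ with
  | zero => rfl
  | succ μ ih =>
    simp only [wrd, ← ih, ← mapW_blk]
    exact List.map_append

lemma runV_blk {R W : Type} [CommRing R] [AddCommGroup W] [Module R W] (c : ℕ → R) (p : ℕ)
    (g : ℕ → W) (b : ℕ) : runV g (blk c p) b =
      if b = 0 then (∑ a ∈ Finset.range p, c a • g a) + g p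
      else if b ≤ p then -g (b - 1) else g b := by
  induction p generalizing g with
  | zero =>
    simp only [blk, runV]
    split_ifs with h1 h2
    · simp [h1]
    · omega
    · rfl
  | succ p ih =>
    simp only [blk, runV, ih]
    split_ifs with h1 h2 h3 h4
    · rw [Finset.sum_range_succ, add_assoc]
      congr 1
      · refine Finset.sum_congr rfl fun a ha => ?_
        have := Finset.mem_range.1 ha
        simp only [opV]
        rw [if_neg (by omega), if_neg (by omega)]
      · simp [opV]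
    · simp only [opV]
      rw [if_neg (by omega), if_neg (by omega)]
    · omega
    · have : b = p + 1 := by omega
      simp [opV, this]
    · simp only [opV]
      rw [if_neg (by omega), if_neg (by omega)]

lemma wrd_split {R W : Type} [CommRing R] [AddCommGroup W] [Module R W] (c : ℕ → ℕ → R)
    (p N : ℕ) (g : ℕ → ℕ → W) (hg : ∀ μ, μ < N → runV (g (μ + 1)) (blk (c μ) p) = g μ)
    (ν μ : ℕ) (h : ν ≤ μ) : μ ≤ N →
      ∃ pre, wrd c p μ = pre ++ wrd c p ν ∧ runV (g μ) pre = g ν := by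
  induction h with
  | refl => exact fun _ => ⟨[], rfl, rfl⟩
  | @step μ _ ih =>
    intro hμ
    obtain ⟨pre, h1, h2⟩ := ih (Nat.le_of_succ_le hμ)
    exact ⟨blk (c μ) p ++ pre, by rw [wrd, h1, List.append_assoc], by
      rw [runV_append, hg μ hμ, h2]⟩

variable {K : Type} [Field K]

omit [Field K] in
lemma mB_blk (c : ℕ → K) (p : ℕ) (post : List (Letter K)) (u v : Name) :
    mB (tops (blk c p) ++ post) u v = (∑ q ∈ Finset.range p,
      triB (q + 1, cnt (q + 1) post + 1) (q + 1, cnt (q + 1) post) (q + 2, cnt (q + 2) post) u v) +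
      mB post u v := by
  induction p with
  | zero => simp [blk, tops]
  | succ p ih =>
    have : tops (blk c (p + 1)) = .top p (c p) :: tops (blk c p) := rfl
    rw [this, List.cons_append, mB, ih, Finset.sum_range_succ, triS]
    simp only [cnt_append, cnt_blk]
    rw [if_neg (by omega), if_neg (by omega)]
    simp only [zero_add]
    ring

lemma mY_blk (c : ℕ → K) (p : ℕ) (post : List (Letter K)) (M : Mat K) (v : Name) :
    mY M (tops (blk c p) ++ post) v = (∏ q ∈ Finset.range p,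
      triY (q + 1, cnt (q + 1) post + 1) (q + 1, cnt (q + 1) post) (q + 2, cnt (q + 2) post)
        (lead (q + 1) M) (lead (q + 1) (run M (tops (blk c p))))
        (lead (q + 2) (run M (tops (blk c p)))) v) *
      mY (run M (tops (blk c p))) post v := by
  induction p generalizing M with
  | zero => simp [blk, tops, run]
  | succ p ih =>
    have : tops (blk c (p + 1)) = .top p (c p) :: tops (blk c p) := rfl
    rw [this, List.cons_append, mY, ih, Finset.prod_range_succ, triYS]
    simp only [cnt_append, cnt_blk, run, Letter.step]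
    rw [if_neg (by omega), if_neg (by omega), lead_run (r := p + 1) (by rw [cnt_blk]; simp),
      lead_run (r := p + 2) (by rw [cnt_blk]; simp), lead_colOp (r := p + 2) (by omega)]
    simp only [zero_add]
    rw [← mul_assoc, mul_comm (triY _ _ _ _ _ _ _)]
    congr 2
    refine Finset.prod_congr rfl fun q hq => ?_
    rw [lead_colOp (by have := Finset.mem_range.1 hq; omega)]

omit [Field K] in
lemma mB_wrd_sum (c : ℕ → ℕ → K) (p μ : ℕ) (u v : Name) :
    mB (tops (wrd c p μ)) u v = ∑ ν ∈ Finset.range μ, ∑ q ∈ Finset.range p,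
      triB (q + 1, ν + 1) (q + 1, ν) (q + 2, if q + 2 ≤ p then ν else 0) u v := by
  induction μ with
  | zero => simp [wrd, tops, mB]
  | succ μ ih =>
    rw [wrd, tops_append, mB_blk, ih, Finset.sum_range_succ, add_comm]
    congr 1
    refine Finset.sum_congr rfl fun q hq => ?_
    have := Finset.mem_range.1 hq
    simp only [cnt_wrd]
    rw [if_pos (by omega)]
    simp

lemma mY_wrd_prod (c : ℕ → ℕ → K) (p N : ℕ) (M : ℕ → Mat K)
    (hM : ∀ μ, μ < N → run (M (μ + 1)) (tops (blk (c μ) p)) = M μ) (μ : ℕ) (hμ : μ ≤ N)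
    (v : Name) :
    mY (M μ) (tops (wrd c p μ)) v = ∏ ν ∈ Finset.range μ, ∏ q ∈ Finset.range p,
      triY (q + 1, ν + 1) (q + 1, ν) (q + 2, if q + 2 ≤ p then ν else 0)
        (lead (q + 1) (M (ν + 1))) (lead (q + 1) (M ν)) (lead (q + 2) (M ν)) v := by
  induction μ with
  | zero => simp [wrd, tops, mY]
  | succ μ ih =>
    rw [wrd, tops_append, mY_blk, hM μ hμ, ih (by omega), Finset.prod_range_succ, mul_comm]
    congr 1
    refine Finset.prod_congr rfl fun q hq => ?_
    have := Finset.mem_range.1 hq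
    simp only [cnt_wrd]
    rw [if_pos (by omega)]
    simp

lemma mX_wrd (c : ℕ → ℕ → K) (p N : ℕ) (M : ℕ → Mat K)
    (hM : ∀ μ, μ < N → run (M (μ + 1)) (tops (blk (c μ) p)) = M μ) (μ : ℕ) (hμ : μ ≤ N)
    {r m : ℕ} (h1 : 1 ≤ r) (h2 : r ≤ p) (hm : m ≤ μ) :
    mX (M μ) (tops (wrd c p μ)) (r, m) = lead r (M m) := by
  induction hm with
  | refl => rw [mX_big _ _ (by simp [cnt_wrd, h1, h2])]
  | @step μ hm ih =>
    rw [wrd, tops_append, mX_append _ _ _ (by simpa [cnt_wrd, h1, h2] using hm), hM μ hμ,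
      ih (Nat.le_of_succ_le hμ)]

lemma prod_prod_single {A : Type} [CommMonoid A] (μ p : ℕ) (P : ℕ → ℕ → Prop)
    [∀ ν q, Decidable (P ν q)] (g : ℕ → ℕ → A) (ν₀ q₀ : ℕ) (Q : Prop) [Decidable Q]
    (h1 : ∀ ν q, ν < μ → q < p → P ν q → ν = ν₀ ∧ q = q₀ ∧ Q)
    (h2 : Q → ν₀ < μ ∧ q₀ < p ∧ P ν₀ q₀) :
    (∏ ν ∈ Finset.range μ, ∏ q ∈ Finset.range p, if P ν q then g ν q else 1) =
      if Q then g ν₀ q₀ else 1 := by
  split_ifs with hQ
  · obtain ⟨a, b, c⟩ := h2 hQ
    rw [Finset.prod_eq_single ν₀, Finset.prod_eq_single q₀, if_pos c]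
    · intro q hq hne
      exact if_neg fun H => hne (h1 _ _ a (Finset.mem_range.1 hq) H).2.1
    · intro H; exact absurd (Finset.mem_range.2 b) H
    · intro ν hν hne
      refine Finset.prod_eq_one fun q hq => if_neg fun H => hne ?_
      exact (h1 _ _ (Finset.mem_range.1 hν) (Finset.mem_range.1 hq) H).1
    · intro H; exact absurd (Finset.mem_range.2 a) H
  · refine Finset.prod_eq_one fun ν hν => Finset.prod_eq_one fun q hq => if_neg fun H => hQ ?_
    exact (h1 _ _ (Finset.mem_range.1 hν) (Finset.mem_range.1 hq) H).2.2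

lemma sum_sum_single (μ p : ℕ) (P : ℕ → ℕ → Prop)
    [∀ ν q, Decidable (P ν q)] (ν₀ q₀ : ℕ) (Q : Prop) [Decidable Q]
    (h1 : ∀ ν q, ν < μ → q < p → P ν q → ν = ν₀ ∧ q = q₀ ∧ Q)
    (h2 : Q → ν₀ < μ ∧ q₀ < p ∧ P ν₀ q₀) :
    (∑ ν ∈ Finset.range μ, ∑ q ∈ Finset.range p, if P ν q then (1 : ℤ) else 0) =
      if Q then 1 else 0 := by
  have := prod_prod_single (A := Multiplicative ℤ) μ p P (fun _ _ => Multiplicative.ofAdd 1)
    ν₀ q₀ Q h1 h2
  have e := congrArg Multiplicative.toAdd this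
  simpa [toAdd_prod, apply_ite Multiplicative.toAdd] using e

omit [Field K] in
lemma mB_wrd (c : ℕ → ℕ → K) (p μ : ℕ) {r m r' m' : ℕ} (h1 : 1 ≤ r) (h2 : r ≤ p) (h3 : m < μ)
    (h1' : 1 ≤ r') (h2' : r' ≤ p) (h3' : m' < μ) :
    mB (tops (wrd c p μ)) (r, m) (r', m') =
      (if r = r' ∧ m = m' + 1 then 1 else 0) + (if r' = r + 1 ∧ m = m' then 1 else 0) +
      (if r = r' + 1 ∧ m' = m + 1 then 1 else 0) - (if r = r' ∧ m' = m + 1 then 1 else 0) -
      (if r = r' + 1 ∧ m = m' then 1 else 0) - (if r' = r + 1 ∧ m = m' + 1 then 1 else 0) := by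
  rw [mB_wrd_sum]
  simp only [triB, Finset.sum_add_distrib, Finset.sum_sub_distrib, Prod.mk.injEq]
  rw [sum_sum_single μ p _ m' (r - 1) (r = r' ∧ m = m' + 1) (by intros; omega) (by omega),
    sum_sum_single μ p _ m (r - 1) (r' = r + 1 ∧ m = m')
      (by intro ν q _ _; split_ifs <;> omega) (by split_ifs <;> omega),
    sum_sum_single μ p _ m (r' - 1) (r = r' + 1 ∧ m' = m + 1)
      (by intro ν q _ _; split_ifs <;> omega) (by split_ifs <;> omega),
    sum_sum_single μ p _ m (r - 1) (r = r' ∧ m' = m + 1) (by intros; omega) (by omega),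
    sum_sum_single μ p _ m (r' - 1) (r = r' + 1 ∧ m = m')
      (by intro ν q _ _; split_ifs <;> omega) (by split_ifs <;> omega),
    sum_sum_single μ p _ m' (r - 1) (r' = r + 1 ∧ m = m' + 1)
      (by intro ν q _ _; split_ifs <;> omega) (by split_ifs <;> omega)]

lemma mY_wrd (c : ℕ → ℕ → K) (p N : ℕ) (M : ℕ → Mat K)
    (hM : ∀ μ, μ < N → run (M (μ + 1)) (tops (blk (c μ) p)) = M μ) {r m : ℕ}
    (h2 : r + 1 ≤ p) (h3 : m + 1 < N) :
    mY (M N) (tops (wrd c p N)) (r + 1, m + 1) =
      lead (r + 2) (M m) / lead (r + 1) (M m) *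
      (lead (r + 1) (M (m + 2)) / lead (r + 2) (M (m + 1))) *
      (lead r (M (m + 1)) / lead r (M (m + 2))) := by
  rw [mY_wrd_prod c p N M hM N le_rfl]
  simp only [triY, Finset.prod_mul_distrib, Prod.mk.injEq]
  rw [prod_prod_single N p _ _ m r True (by intros; refine ⟨?_, ?_, trivial⟩ <;> omega)
      (by omega),
    prod_prod_single N p _ _ (m + 1) r True (by intros; refine ⟨?_, ?_, trivial⟩ <;> omega)
      (by omega),
    prod_prod_single N p _ _ (m + 1) (r - 1) (1 ≤ r) (by intro ν q _ _; split_ifs <;> omega)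
      (by split_ifs <;> omega)]
  simp only [if_true]
  congr 1
  split_ifs with h
  · rw [show r - 1 + 1 = r by omega]
  · rw [show r = 0 by omega]; simp

end Pool.Agent.MP_122b1e_ag
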