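import Pool.Agent.MP_122b1e_ag.Main

set_option autoImplicit false

namespace Pool.Agent.MP_122b1e_ag

section Eigen
variable {ι K : Type} [Fintype ι] [DecidableEq ι] [Field K]

/-- All variables are eigenvectors of `σ` with eigenvalues in `L`, not all equal to one, and the
y-hat variables are invariant. -/
def Eig (σ : K →+* K) (L : UnitSet K) (mu : ι → Prop) (S : Seed ι K) : Prop :=
  ∃ lam : ι → K, (∀ v, L.mem (lam v) ∧ σ (S.x v) = lam v * S.x v) ∧
    (∀ m, mu m → σ (S.yhat m) = S.yhat m) ∧ ∃ v, lam v ≠ 1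

lemma Eig.mutate {σ : K →+* K} {L : UnitSet K} {mu : ι → Prop} {S : Seed ι K}
    (h : Eig σ L mu S) (hs : S.Skew) (hx : ∀ u, S.x u ≠ 0) {m : ι} (hm : mu m) :
    Eig σ L mu (S.mutate m) := by
  obtain ⟨lam, h1, h2, h3⟩ := h
  refine ⟨fun v => if v = m then (∏ u, lam u ^ (-S.B u m).toNat) * (lam m)⁻¹ else lam v,
    fun v => ?_, fun v hv => ?_, ?_⟩
  · by_cases e : v = m
    · subst e
      simp only [if_true]
      refine ⟨L.mul _ _ (Finset.prod_induction _ L.mem L.mul L.one fun u _ => ?_)
        (L.inv _ (h1 v).1), ?_⟩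
      · have := (UnitSet.eqv_one.2 (h1 u).1).pow (-S.B u v).toNat
        rw [one_pow] at this
        exact UnitSet.eqv_one.1 this
      · rw [S.mutate_x_self hx, map_div₀, map_mul, map_add, map_one, h2 v hm, map_prod, (h1 v).2]
        simp only [map_pow, (h1 _).2, mul_pow, Finset.prod_mul_distrib]
        have := L.ne _ (h1 v).1
        have := hx v
        field_simp
    · simp only [e, if_false, S.mutate_x_ne e]
      exact h1 v
  · by_cases e : v = m
    · subst e
      rw [S.yhat_mutate_self hs, map_inv₀, h2 v hv]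
    · rw [S.yhat_mutate_ne hs hx e]
      simp only [map_mul, map_zpow₀, map_add, map_one, h2 v hv, h2 m hm]
  · by_contra hn
    push Not at hn
    obtain ⟨v, hv⟩ := h3
    have a1 : ∀ u, u ≠ m → lam u = 1 := fun u hu => by simpa [hu] using hn u
    by_cases e : v = m
    · subst e
      have a2 := hn v
      simp only [if_true] at a2
      rw [Finset.prod_eq_one, one_mul, inv_eq_one] at a2
      · exact hv a2
      · intro u _
        by_cases e : u = v
        · rw [e, hs.diag]; simp
        · rw [a1 u e, one_pow]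
    · exact hv (a1 v e)

end Eigen

lemma Pl_twist {R : Type} [CommRing R] {k : ℕ} (t : ℕ → Rˣ) (G : Matrix (Fin k) (Fin k) R)
    (v : ℕ → Fin k → R) (i j : ℕ) :
    Pl (fun m => (t m : R) • G.mulVec (v m)) i j = G.det * tau t k i j * Pl v i j := by
  have e : (Matrix.of fun a b : Fin k => ((t (ix k i j b) : R) • G.mulVec (v (ix k i j b))) a) =
      Matrix.of fun a b : Fin k => (t (ix k i j b) : R) *
        (G * Matrix.of fun a b : Fin k => v (ix k i j b) a) a b := by
    ext a b
    simp [Matrix.mul_apply, Matrix.mulVec, dotProduct]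
  rw [Pl, e, Matrix.det_mul_row, Matrix.det_mul, tau, Units.coe_prod,
    ← Fin.prod_univ_eq_prod_range (fun b => (t (ix k i j b) : R)), Pl]
  ring

variable {k n : ℕ}

/-- The substitution `X ↦ g X D`. -/
noncomputable def sub (g : Matrix (Fin k) (Fin k) ℂ) (d : ℕ → ℂ) :
    MvPolynomial (Fin k × Fin n) ℂ →ₐ[ℂ] MvPolynomial (Fin k × Fin n) ℂ :=
  MvPolynomial.aeval fun e => ∑ b, MvPolynomial.C (d e.2 * g e.1 b) * MvPolynomial.X (b, e.2)

lemma sub_inj {g g' : Matrix (Fin k) (Fin k) ℂ} (hg : g * g' = 1) (d : ℕ → ℂˣ) :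
    Function.Injective (sub (n := n) g fun m => d m) := by
  have : (sub (n := n) g' fun m => ((d m)⁻¹ : ℂˣ)).comp (sub g fun m => d m) = AlgHom.id _ _ := by
    ext1 ⟨a, m⟩
    simp only [sub, AlgHom.comp_apply, MvPolynomial.aeval_X, map_sum, map_mul,
      MvPolynomial.aeval_C, MvPolynomial.algebraMap_eq, AlgHom.id_apply, Finset.mul_sum]
    rw [Finset.sum_comm]
    have e : ∀ c, (∑ b, MvPolynomial.C (d m : ℂ) * MvPolynomial.C (g a b) *
        (MvPolynomial.C (((d m)⁻¹ : ℂˣ) : ℂ) * MvPolynomial.C (g' b c) *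
          MvPolynomial.X (c, m)) : MvPolynomial (Fin k × Fin n) ℂ) =
        MvPolynomial.C ((g * g') a c) * MvPolynomial.X (c, m) := by
      intro c
      rw [Matrix.mul_apply, map_sum, Finset.sum_mul]
      refine Finset.sum_congr rfl fun b _ => ?_
      have : (MvPolynomial.C (d m : ℂ) * MvPolynomial.C (((d m)⁻¹ : ℂˣ) : ℂ) :
          MvPolynomial (Fin k × Fin n) ℂ) = 1 := by rw [← map_mul, Units.mul_inv, map_one]
      rw [map_mul]
      linear_combination (MvPolynomial.C (g a b) * MvPolynomial.C (g' b c) *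
        MvPolynomial.X (c, m)) * this
    simp only [e, hg, Matrix.one_apply]
    rw [Finset.sum_eq_single a] <;> simp +contextual [eq_comm]
  intro p q h
  have e := fun p => AlgHom.congr_fun this p
  simp only [AlgHom.comp_apply, AlgHom.id_apply] at e
  rw [← e p, h, e q]

lemma exists_twist (hk : 1 ≤ k) (hkn : k < n) {X : Matrix (Fin k) (Fin n) ℂ} (hX : InOpenCell X)
    (hd : MatroidDisconnected X) :
    ∃ (g g' : Matrix (Fin k) (Fin k) ℂ) (d : ℕ → ℂˣ), g * g' = 1 ∧
      (∀ m : Fin n, (d m : ℂ) • g.mulVec (X.col m) = X.col m) ∧ ∃ m m' : Fin n, d m ≠ d m' := by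
  classical
  obtain ⟨A, ⟨m₁, h1⟩, ⟨m₂, h2⟩, hr⟩ := hd
  have top : Submodule.span ℂ (X.col '' A) ⊔ Submodule.span ℂ (X.col '' Aᶜ) = ⊤ := by
    rw [← Submodule.span_union, ← Set.image_union, Set.union_compl_self, Set.image_univ,
      eq_top_iff]
    intro y _
    have hu := (Matrix.isUnit_iff_isUnit_det _).2 (isUnit_iff_ne_zero.2 (hX ⟨0, by omega⟩))
    obtain ⟨c, rfl⟩ := Matrix.mulVec_surjective_iff_isUnit.2 hu y
    rw [Matrix.mulVec_eq_sum]
    refine Submodule.sum_mem _ fun b _ => ?_
    rw [op_smul_eq_smul]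
    exact Submodule.smul_mem _ _ (Submodule.subset_span ⟨_, rfl⟩)
  have cpl : IsCompl (Submodule.span ℂ (X.col '' A)) (Submodule.span ℂ (X.col '' Aᶜ)) := by
    refine ⟨disjoint_iff.2 ?_, codisjoint_iff.2 top⟩
    have := Submodule.finrank_sup_add_finrank_inf_eq (Submodule.span ℂ (X.col '' A))
      (Submodule.span ℂ (X.col '' Aᶜ))
    rw [top, hr] at this
    simpa using this
  obtain ⟨P, hP⟩ := exists_isPr cpl
  refine ⟨LinearMap.toMatrix' (LinearMap.id - (2 : ℂ)⁻¹ • P), LinearMap.toMatrix' (LinearMap.id + P),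
    fun m => if ∃ h : m < n, (⟨m, h⟩ : Fin n) ∈ A then Units.mk0 2 two_ne_zero else 1, ?_, ?_,
    m₁, m₂, ?_⟩
  · rw [← LinearMap.toMatrix'_comp, ← LinearMap.toMatrix'_id]
    congr 1
    refine LinearMap.ext fun y => ?_
    simp only [LinearMap.comp_apply, LinearMap.sub_apply, LinearMap.add_apply, LinearMap.id_apply,
      LinearMap.smul_apply, map_add, hP.idem y]
    module
  · intro m
    rw [LinearMap.toMatrix'_mulVec]
    simp only [Fin.is_lt, Fin.eta, exists_const, LinearMap.sub_apply, LinearMap.id_apply,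
      LinearMap.smul_apply]
    split_ifs with h
    · rw [hP.one _ (Submodule.subset_span ⟨m, h, rfl⟩), Units.val_mk0]
      module
    · rw [hP.zero _ (Submodule.subset_span ⟨m, h, rfl⟩)]
      simp
  · simp only [Fin.is_lt, Fin.eta, exists_const]
    rw [if_pos h1, if_neg h2]
    intro e
    have := congrArg Units.val e
    norm_num at this

lemma tau_const {R : Type} [CommRing R] (t : ℕ → Rˣ) (hk : 1 ≤ k) (hkn : k < n)
    (h : ∀ i j, i ≤ k → j ≤ n - k → tau t k i j = tau t k 0 0) {m : ℕ} (hm : m < n) :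
    t m = t k := by
  have h0 : tau t k 0 0 = TT t k := by simpa using tau_eq t k 0 0
  have s : ∀ a, TT t (a + 1) = TT t a * t a := fun a => Finset.prod_range_succ _ _
  have low : ∀ a, a ≤ k → t a = t k := by
    intro a ha
    obtain ⟨i, rfl⟩ : ∃ i, k = a + i := ⟨k - a, by omega⟩
    have := h i 1 (by omega) (by omega)
    rw [tau_eq, h0, s, s, div_eq_iff_eq_mul, mul_left_comm, mul_right_inj, mul_right_inj] at this
    exact this.symm
  rcases le_total m k with e | e
  · exact low m e
  · obtain ⟨a, rfl⟩ : ∃ a, k = a + 1 := ⟨k - 1, by omega⟩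
    obtain ⟨j, rfl⟩ : ∃ j, m = a + j := ⟨m - a, by omega⟩
    have := h 1 j (by omega) (by omega)
    rw [tau_eq, h0, show a + 1 + j = a + j + 1 by omega, s, s, div_eq_iff_eq_mul,
      mul_comm (TT t (a + j)), ← mul_assoc, mul_left_inj, mul_right_inj] at this
    rw [this]; exact low a (by omega)

/-- A point of the open cell with disconnected matroid lies in no cluster torus. -/
theorem disconnected_not_in_torus (hk : 1 ≤ k) (hkn : k < n) (X : Matrix (Fin k) (Fin n) ℂ)
    (hX : InOpenCell X) (hd : MatroidDisconnected X) :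
    ¬ ∃ S, Reachable IsMutable (rectSeed hkn) S ∧ ∀ v, NonzeroAt (S.x v) X := by
  rintro ⟨S, hS, hnz⟩
  obtain ⟨g, g', d, hg, hfix, m₁, m₂, hne⟩ := exists_twist hk hkn hX hd
  let P := MvPolynomial (Fin k × Fin n) ℂ
  have inj := IsFractionRing.injective P (RatFn k n)
  let s : P →ₐ[ℂ] P := sub g fun m => d m
  let σ : RatFn k n →+* RatFn k n :=
    IsFractionRing.lift (g := (algebraMap P (RatFn k n)).comp s.toRingHom)
      (inj.comp (sub_inj hg d))
  have hσ : ∀ p, σ (algebraMap P _ p) = algebraMap P _ (s p) := fun p =>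
    IsFractionRing.lift_algebraMap _ _
  let cc : ℂ →+* RatFn k n := (algebraMap P (RatFn k n)).comp MvPolynomial.C
  let L : UnitSet (RatFn k n) :=
    ⟨fun f => ∃ c, c ≠ 0 ∧ f = cc c, ⟨1, one_ne_zero, by simp⟩,
      by rintro _ _ ⟨a, ha, rfl⟩ ⟨b, hb, rfl⟩; exact ⟨a * b, mul_ne_zero ha hb, by simp⟩,
      by rintro _ ⟨a, ha, rfl⟩; exact ⟨a⁻¹, inv_ne_zero ha, by simp⟩,
      by rintro _ ⟨a, ha, rfl⟩; exact (map_ne_zero cc).2 ha⟩
  have g0 : g.det ≠ 0 := (Matrix.isUnit_det_of_right_inverse hg).ne_zero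
  have nz : ∀ u, (rectSeed hkn).x u ≠ 0 := reach_ne_zero hkn _ Reachable.refl
  have init : ∀ i j, i ≤ k → j ≤ n - k → σ ((rectSeed hkn).x (nu k n i j)) =
      cc (g.det * tau d k i j) * (rectSeed hkn).x (nu k n i j) := by
    intro i j hi hj
    simp only [rectSeed]
    rw [det_rectCol hkn _ hi hj, hσ]
    have e : (fun m a => s.toRingHom (colv (Matrix.mvPolynomialX (Fin k) (Fin n) ℂ) m a)) =
        fun m => ((Units.map (MvPolynomial.C : ℂ →+* P).toMonoidHom (d m) : Pˣ) : P) •
          (g.map MvPolynomial.C).mulVec (colv (Matrix.mvPolynomialX (Fin k) (Fin n) ℂ) m) := by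
      funext m a
      by_cases h : m < n
      · simp [colv, h, s, sub, Matrix.mulVec, dotProduct, Finset.mul_sum, mul_assoc]
        exact MvPolynomial.bind₁_X_right _ _
      · simp [colv, h, Matrix.mulVec, dotProduct]
    have := Pl_map s.toRingHom (colv (Matrix.mvPolynomialX (Fin k) (Fin n) ℂ)) i j
    rw [e, Pl_twist] at this
    rw [show s _ = _ from this, map_mul]
    congr 1
    simp only [cc, RingHom.comp_apply, map_mul]
    congr 2
    · exact (RingHom.map_det _ _).symm
    · simp [tau]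
  have form : ∀ v : Vertex k n, ∃ i j, i ≤ k ∧ j ≤ n - k ∧ v = nu k n i j := by
    rintro (_ | ⟨i, j⟩)
    · exact ⟨0, 0, by omega, by omega, none_eq_nu.2 (by omega)⟩
    · exact ⟨i + 1, j + 1, i.2, j.2, some_eq_nu.2 ⟨rfl, rfl⟩⟩
  have E0 : Eig σ L IsMutable (rectSeed hkn) := by
    refine ⟨fun v => σ ((rectSeed hkn).x v) / (rectSeed hkn).x v, fun v => ⟨?_, ?_⟩, ?_, ?_⟩
    · obtain ⟨i, j, hi, hj, rfl⟩ := form v
      exact ⟨_, mul_ne_zero g0 (tau d k i j).ne_zero, by
        simp only [init i j hi hj, mul_div_cancel_right₀ _ (nz _)]⟩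
    · rw [div_mul_cancel₀ _ (nz v)]
    · rintro (_ | ⟨i, j⟩) hm
      · exact absurd hm id
      · have h1 : i.val + 1 < k := hm.1
        have h2 : j.val + 1 < n - k := hm.2
        rw [some_eq_nu.2 ⟨rfl, rfl⟩, rect_yhat hkn nz (by omega) (by omega)]
        simp only [map_div₀, map_mul]
        rw [init _ _ (by omega) (by omega), init _ _ (by omega) (by omega),
          init _ _ (by omega) (by omega), init _ _ (by omega) (by omega),
          init _ _ (by omega) (by omega), init _ _ (by omega) (by omega)]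
        have bal := congrArg (fun u : ℂˣ => cc u) (tau_balance d (k := k) (r := i) (by omega) j)
        simp only [Units.val_mul, map_mul] at bal ⊢
        have := (map_ne_zero cc).2 g0
        have := (map_ne_zero cc).2 (tau d k (i + 2) (j + 1)).ne_zero
        have := (map_ne_zero cc).2 (tau d k (i + 1) (j + 2)).ne_zero
        have := (map_ne_zero cc).2 (tau d k i j).ne_zero
        have := nz (nu k n (i + 2) (j + 1))
        have := nz (nu k n (i + 1) (j + 2))
        have := nz (nu k n i j)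
        field_simp
        linear_combination ((rectSeed hkn).x (nu k n i (j + 1)) *
          (rectSeed hkn).x (nu k n (i + 1) j) * (rectSeed hkn).x (nu k n (i + 2) (j + 2))) * bal
    · by_contra hn
      push Not at hn
      have h1 : ∀ i j, i ≤ k → j ≤ n - k → g.det * tau d k i j = 1 := by
        intro i j hi hj
        have := hn (nu k n i j)
        simp only [init i j hi hj, mul_div_cancel_right₀ _ (nz _)] at this
        exact cc.injective (by rw [this, map_one])
      have h2 : ∀ i j, i ≤ k → j ≤ n - k → tau d k i j = tau d k 0 0 := fun i j hi hj =>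
        Units.ext (mul_left_cancel₀ g0 (by rw [h1 i j hi hj, h1 0 0 (by omega) (by omega)]))
      exact hne (by rw [tau_const d hk hkn h2 m₁.2, tau_const d hk hkn h2 m₂.2])
  have ES : Eig σ L IsMutable S := by
    clear hnz
    induction hS with
    | refl => exact E0
    | step m hS' hm ih =>
      exact ih.mutate (hS'.skew (rect_skew hkn)) (reach_ne_zero hkn _ hS') hm
  obtain ⟨lam, h1, -, v, hv⟩ := ES
  obtain ⟨⟨c, -, hc⟩, e⟩ := h1 v
  obtain ⟨p, q, hp, hq, hx⟩ := hnz v
  have evs : ∀ p : P, MvPolynomial.eval (fun e => X e.1 e.2) (s p) =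
      MvPolynomial.eval (fun e => X e.1 e.2) p := by
    have : (MvPolynomial.aeval (fun e : Fin k × Fin n => X e.1 e.2)).comp s =
        MvPolynomial.aeval (fun e : Fin k × Fin n => X e.1 e.2) := by
      ext1 ⟨a, m⟩
      have := congrFun (hfix m) a
      simpa [s, sub, Matrix.mulVec, dotProduct, Finset.mul_sum, mul_assoc] using this
    intro p
    exact AlgHom.congr_fun this p
  have q0 : algebraMap P (RatFn k n) q ≠ 0 := fun e =>
    hq (by rw [(map_eq_zero_iff _ inj).1 e, map_zero])
  have q1 : algebraMap P (RatFn k n) (s q) ≠ 0 := fun e =>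
    hq (by rw [← evs, (map_eq_zero_iff _ inj).1 e, map_zero])
  rw [hx, map_div₀, hσ, hσ, hc, ← mul_div_assoc, div_eq_div_iff q1 q0] at e
  have e' : s p * q = MvPolynomial.C c * p * s q := inj (by simpa [cc] using e)
  have e'' := congrArg (MvPolynomial.eval fun e => X e.1 e.2) e'
  simp only [map_mul, evs, MvPolynomial.eval_C] at e''
  have : c = 1 := mul_right_cancel₀ (mul_ne_zero hp hq) (by linear_combination -e'')
  exact hv (by rw [hc, this, map_one])

end Pool.Agent.MP_122b1e_ag
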