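import Pool.Agent.MP_122b1e_ag.NoAB

set_option autoImplicit false

namespace Pool.Agent.MP_122b1e_ag

variable {κ V : Type} [Field κ] [AddCommGroup V] [Module κ V]

/-- The transvection `y ↦ y + β(y) α`. -/
def tv (α : V) (β : V →ₗ[κ] κ) (h : β α = 0) : V ≃ₗ[κ] V :=
  LinearEquiv.ofLinear (LinearMap.id + β.smulRight α) (LinearMap.id - β.smulRight α)
    (by ext y; simp [h]) (by ext y; simp [h])

lemma tv_apply (α : V) (β : V →ₗ[κ] κ) (h : β α = 0) (y : V) : tv α β h y = y + β y • α := rfl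

lemma mem_tv {α : V} {β : V →ₗ[κ] κ} {h : β α = 0} {G : Submodule κ V} {y : V} :
    y ∈ G.comap (tv α β h : V →ₗ[κ] V) ↔ y + β y • α ∈ G := Iff.rfl

lemma tv_fix {α : V} {β : V →ₗ[κ] κ} (h : β α = 0) {G : Submodule κ V}
    (hG : α ∈ G ∨ Kills β G) : G.comap (tv α β h : V →ₗ[κ] V) = G := by
  ext y
  rw [mem_tv]
  rcases hG with hG | hG
  · exact ⟨fun H => by simpa using G.sub_mem H (G.smul_mem (β y) hG),
      fun H => G.add_mem H (G.smul_mem _ hG)⟩
  · constructor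
    · intro H
      have := hG _ H
      rw [map_add, map_smul, h, smul_zero, add_zero] at this
      simpa [this] using H
    · intro H; simpa [hG y H] using H

lemma tv_move {α b : V} {β : V →ₗ[κ] κ} (h : β α = 0) (hb : β b = 1) {A B B' : Submodule κ V}
    (c : Cov A B) (c' : Cov A B') (k : Kills β A) (h1 : b ∈ B) (h2 : α + b ∈ B') :
    B'.comap (tv α β h : V →ₗ[κ] V) = B := by
  ext y
  rw [mem_tv]
  constructor
  · intro H
    obtain ⟨d, hd⟩ := c'.line _ h2 (fun H' => by simpa [h, hb] using k _ H') _ H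
    have e := k _ hd
    simp only [map_sub, map_add, map_smul, h, hb, smul_eq_mul, mul_zero, add_zero, zero_add,
      mul_one, sub_eq_zero] at e
    rw [e] at hd
    refine mem_of_sub_smul (c := d) (c.le ?_) h1
    convert hd using 1
    rw [smul_add]; abel
  · intro H
    obtain ⟨d, hd⟩ := c.line _ h1 (fun H' => by simpa [hb] using k _ H') _ H
    have e := k _ hd
    simp only [map_sub, map_smul, hb, smul_eq_mul, mul_one, sub_eq_zero] at e
    rw [e]
    refine mem_of_sub_smul (c := d) (c'.le ?_) h2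
    convert hd using 1
    rw [smul_add]; abel

lemma SU.fix {k : ℕ} {E F : Fl κ V} (hp : Pair k E F) {α : V} {β : V →ₗ[κ] κ} (h : β α = 0)
    (su : SU α β F) : cm (tv α β h) F = F := by
  funext r
  refine tv_fix h ?_
  rcases r with _ | r
  · right; rw [hp.bot]; intro y hy; rw [(Submodule.mem_bot κ).1 hy, map_zero]
  · exact (su r).imp (fun H => hp.monoF (by omega) H) id

lemma SL.fix {k : ℕ} {E F : Fl κ V} (hp : Pair k E F) {b : V} {a : V →ₗ[κ] κ} (h : a b = 0)
    (sl : SL b a E) : cm (tv b a h) E = E := by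
  funext r
  exact tv_fix h ((sl r).imp (fun H => hp.antiE (by omega) H) id)

lemma Step.su {k q : ℕ} {E F E' F' : Fl κ V} (h : Step k q E F E' F') {α : V} {β : V →ₗ[κ] κ}
    (su : SU α β F) (hn : ¬ SU α β F') :
    α ∈ F (q + 1) ∧ α ∉ F q ∧ Kills β (F (q + 1)) ∧ ¬ Kills β (F (q + 2)) := by
  unfold SU at hn
  push Not at hn
  obtain ⟨r, h1, h2⟩ := hn
  have key : α ∉ F q ∧ ¬ Kills β (F (q + 2)) := by
    by_cases e : r = q + 1
    · subst e
      rw [h.adjF _ (by omega)] at h2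
      exact ⟨fun H => h1 (h.cov1.le H), h2⟩
    · by_cases e' : r = q
      · subst e'
        rw [h.adjF _ (by omega)] at h1
        exact ⟨h1, fun H => h2 fun y hy => H y (h.cov2.le hy)⟩
      · rw [h.adjF _ (by omega)] at h1 h2
        exact absurd (su r) (by tauto)
  exact ⟨(su (q + 1)).resolve_right key.2, key.1, (su q).resolve_left key.1, key.2⟩

lemma Step.sl {k q : ℕ} {E F E' F' : Fl κ V} (h : Step k q E F E' F') {b : V} {a : V →ₗ[κ] κ}
    (sl : SL b a E') (hn : ¬ SL b a E) :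
    b ∈ E' (q + 1) ∧ b ∉ E (q + 2) ∧ Kills a (E' (q + 1)) ∧ ¬ Kills a (E q) := by
  unfold SL at hn
  push Not at hn
  obtain ⟨r, h1, h2⟩ := hn
  have key : b ∉ E (q + 2) ∧ ¬ Kills a (E q) := by
    by_cases e : r = q + 1
    · subst e
      exact ⟨h1, fun H => h2 fun y hy => H y (h.a.antiE (by omega) hy)⟩
    · by_cases e' : r = q
      · subst e'
        exact ⟨fun H => h1 (h.a.antiE (by omega) H), h2⟩
      · rw [← h.adjE _ (by omega)] at h1 h2
        exact absurd (sl r) (by tauto)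
  have s1 := sl q
  have s2 := sl (q + 1)
  rw [h.adjE q (by omega)] at s1
  rw [h.adjE (q + 1 + 1) (by omega)] at s2
  exact ⟨s1.resolve_right key.2, key.1, s2.resolve_left key.1, key.2⟩

lemma pres_tv_form {α : V} {β : V →ₗ[κ] κ} (h : β α = 0) {G : Submodule κ V} {π : V →ₗ[κ] V}
    (hp : Pres π (G.comap (tv α β h : V →ₗ[κ] V))) :
    ∀ y ∈ G, ∃ y' ∈ G, π (y - β y • α) = y' - β y' • α := by
  intro y hy
  have := hp (y - β y • α) (by rw [mem_tv]; simpa [h] using hy)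
  rw [mem_tv] at this
  exact ⟨_, this, by simp [h]⟩

/-- An endomorphism preserving `E`, `F` and the transvected `E` commutes with the transvection. -/
lemma eig_of_pres {k : ℕ} {E F : Fl κ V} (hp : Pair k E F) {α b : V} {β : V →ₗ[κ] κ}
    (h : β α = 0) (hb : β b = 1) (h0 : α ≠ 0) (su : SU α β F) {π : V →ₗ[κ] V} (pE : PresF π E)
    (pF : PresF π F) (pE' : PresF π (cm (tv α β h) E)) :
    ∃ c : κ, π α = c • α ∧ ∀ y, β (π y) = c * β y := by
  have hp' := hp.cm (tv α β h)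
  rw [su.fix hp h] at hp'
  have key : ∀ y, β y • π α = β (π y) • α := by
    intro y
    refine hp.ext (g := β.smulRight (π α)) (g' := (β ∘ₗ π).smulRight α) (fun r hr y h1 h2 => ?_) y
    simp only [LinearMap.smulRight_apply, LinearMap.comp_apply]
    obtain ⟨c, hc⟩ := hp.eig pE pF hr h1 h2
    have m1 : β y • α ∈ F r := by
      rcases su r with H | H
      · exact (F r).smul_mem _ H
      · rw [H y h1, zero_smul]; exact (F r).zero_mem
    obtain ⟨c', hc'⟩ := hp'.eig pE' pF hr (y := y - β y • α)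
      ((F (r + 1)).sub_mem h1 (hp.monoF (by omega) m1))
      (by rw [mem_cm, tv_apply]; simpa [h] using h2)
    rw [map_sub, hc, map_smul] at hc'
    have m2 := pF r _ m1
    rw [map_smul] at m2
    have m3 : (c - c') • y ∈ F r := by
      have := (F r).sub_mem m2 ((F r).smul_mem c' m1)
      convert this using 1
      rw [sub_smul, sub_eq_iff_eq_add.1 hc', smul_sub]; abel
    by_cases hy : y ∈ F r
    · rw [hp.zero hy h2]; simp
    · have := sub_eq_zero.1 (mem_of_smul m3 hy)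
      subst this
      rw [smul_sub, sub_right_inj] at hc'
      rw [hc', hc, map_smul, smul_smul, smul_eq_mul]
  refine ⟨β (π b), by simpa [hb] using key b, fun y => ?_⟩
  have e := key y
  have e' : π α = β (π b) • α := by simpa [hb] using key b
  rw [e', smul_smul] at e
  have := smul_left_injective κ h0 e
  rw [← this]; ring

variable {k : ℕ}

lemma Chain.back {l : ℕ} {p : ℕ → ℕ} {E F : ℕ → Fl κ V} (h : Chain k l p E F) {j : ℕ}
    (hj : j ≤ l) (hz : ∀ s, s < j → ¬ NZ (p s) (E s) (F (s + 1))) {g : V →ₗ[κ] V}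
    (gE : PresF g (E j)) (gF : PresF g (F j)) (s : ℕ) (hs : s ≤ j) :
    PresF g (E s) ∧ PresF g (F s) := by
  induction hs using Nat.decreasingInduction with
  | self => exact ⟨gE, gF⟩
  | of_succ s hs ih =>
    exact ⟨(h.step s (by omega)).bwdE (hz s hs) ih.1 ih.2, (h.step s (by omega)).bwdF ih.1 ih.2⟩

lemma Chain.forw {l : ℕ} {p : ℕ → ℕ} {E F : ℕ → Fl κ V} (h : Chain k l p E F) {j : ℕ}
    {g : V →ₗ[κ] V} (gE : PresF g (E j)) (gF : ∀ s, j ≤ s → s ≤ l → PresF g (F s)) (s : ℕ)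
    (hs : j ≤ s) : s ≤ l → PresF g (E s) := by
  induction hs with
  | refl => exact fun _ => gE
  | @step s hs ih =>
    exact fun hl => (h.step s hl).fwdE (ih (Nat.le_of_succ_le hl)) (gF s hs (Nat.le_of_succ_le hl))

def Bad (l : ℕ) (p : ℕ → ℕ) (E F : ℕ → Fl κ V) (t : ℕ) : Prop :=
  ∃ π : V →ₗ[κ] V, Idem π ∧ (∀ s, s ≤ t → PresF π (E s)) ∧
    (∀ s, t + 1 ≤ s → s ≤ l → PresF π (F s)) ∧ ¬ Pres π (F t (p t + 1))

lemma all_zero {l : ℕ} {p : ℕ → ℕ} {E F : ℕ → Fl κ V} (h : Chain k l p E F)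
    (hz : ∀ s, s < l → ¬ NZ (p s) (E s) (F (s + 1))) {s : ℕ} (hs : s < l) :
    ∃ π, Alg l E F π ∧ ¬ Scalar π (F s (p s + 2)) (E s (p s)) := by
  have ps := h.pair s hs.le
  obtain ⟨P, hP⟩ := exists_isPr (ps.cpl (p s + 1))
  have fw : ∀ t, s ≤ t → t ≤ l → PresF P (E t) ∧ PresF P (F t) := by
    intro t ht
    induction ht with
    | refl => exact fun _ => ⟨ps.prE hP, ps.prF hP⟩
    | @step t ht ih =>
      intro hl
      have := ih (Nat.le_of_succ_le hl)
      exact ⟨(h.step t hl).fwdE this.1 this.2, (h.step t hl).fwdF (hz t hl) this.1 this.2⟩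
  have all : ∀ t, t ≤ l → PresF P (E t) ∧ PresF P (F t) := by
    intro t ht
    rcases le_total s t with e | e
    · exact fw t e ht
    · exact h.back hs.le (fun t ht => hz t (by omega)) (ps.prE hP) (ps.prF hP) t e
  exact ⟨P, ⟨hP.idem, fun t ht => (all t ht).1, fun t ht => (all t ht).2⟩,
    ps.pr_sep (h.step s hs).lt hP⟩

/-- Data attached to a nonzero bad crossing. -/
lemma bad_data {l : ℕ} {p : ℕ → ℕ} {E F : ℕ → Fl κ V} (h : Chain k l p E F) {j : ℕ} (hj : j < l)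
    (nz : NZ (p j) (E j) (F (j + 1))) (bad : Bad l p E F j) :
    ∃ (α b : V) (a β : V →ₗ[κ] κ) (π : V →ₗ[κ] V),
      α ∈ F (j + 1) (p j + 1) ∧ α ∈ E j (p j) ∧ a α = 1 ∧ Kills a (F j (p j)) ∧
      Kills a (E j (p j + 1)) ∧ b ∈ F (j + 1) (p j + 2) ∧ b ∈ E j (p j + 1) ∧ β b = 1 ∧
      Kills β (F (j + 1) (p j + 1)) ∧ Kills β (E j (p j + 2)) ∧
      α + b ∈ F j (p j + 1) ∧ α + b ∈ E (j + 1) (p j + 1) ∧
      Idem π ∧ (∀ s, s ≤ j → PresF π (E s)) ∧ (∀ s, j + 1 ≤ s → s ≤ l → PresF π (F s)) ∧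
      π α = α ∧ π b = 0 ∧ (∀ y, β (π y) = 0) ∧ (∀ y, a (y - π y) = 0) := by
  have st := h.step j hj
  have hq := st.lt
  have pz := st.pairNZ nz
  obtain ⟨y, y1, y2, y0⟩ := not_disj st.ntr
  obtain ⟨α, α1, b, b2, rfl⟩ := cpl_decomp (pz.cpl (p j + 1)) y
  have α2 : α ∈ E j (p j) := by
    simpa using (E j (p j)).sub_mem (st.cov4.le y2) (pz.antiE (by omega) b2)
  have b1 : b ∈ F (j + 1) (p j + 2) := by
    have := (F j (p j + 2)).sub_mem (st.a.monoF (by omega) y1) (st.cov2.le α1)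
    rw [st.adjF _ (by omega)]
    simpa using this
  have α0 : α ≠ 0 := by
    rintro rfl
    exact y0 (st.a.zero y1 (by simpa using b2))
  have b0 : b ≠ 0 := by
    rintro rfl
    exact y0 (st.b.zero (by simpa using α1) y2)
  have nsup : ∀ r x, x ∈ F (j + 1) (r + 1) → x ∈ E j r → x ≠ 0 →
      x ∉ F (j + 1) r ⊔ E j (r + 1) := by
    intro r x x1 x2 x0 H
    obtain ⟨u, hu, e, he, rfl⟩ := Submodule.mem_sup.1 H
    have : e = 0 := pz.zero (by
      simpa using (F (j + 1) (r + 1)).sub_mem x1 (pz.monoF (by omega) hu)) he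
    subst this
    exact x0 (pz.zero (by simpa using hu) x2)
  obtain ⟨a, a1, a2, a3⟩ := exists_dual (nsup _ α α1 α2 α0)
  obtain ⟨β, β1, β2, β3⟩ := exists_dual (nsup _ b b1 b2 b0)
  have main : ∀ π : V →ₗ[κ] V, (∀ s, s ≤ j → PresF π (E s)) →
      (∀ s, j + 1 ≤ s → s ≤ l → PresF π (F s)) → π α = α → π b = 0 →
      (∀ y, β (π y) = 0) ∧ (∀ y, a (y - π y) = 0) := by
    intro π pE pF e1 e2
    constructor
    · exact dual_zero (pz.cpl (p j + 1)) (pz.covE _ hq) b2 (fun H => b0 (pz.zero b1 H))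
        (φ := β ∘ₗ π) (fun x hx => β2 _ (pF _ le_rfl hj _ x hx))
        (fun x hx => β3 _ (pE _ le_rfl _ x hx)) (by simp [e2])
    · exact dual_zero (pz.cpl (p j)) (pz.covE _ (by omega)) α2 (fun H => α0 (pz.zero α1 H))
        (φ := a ∘ₗ (LinearMap.id - π)) (fun x hx => a2 _ ((pF _ le_rfl hj _).compl x hx))
        (fun x hx => a3 _ ((pE _ le_rfl _).compl x hx)) (by simp [e1])
  rw [st.adjF _ (by omega)] at a2
  obtain ⟨π, hi, pE, pF, hn⟩ := bad
  obtain ⟨c, hc⟩ := pz.eig (pE j le_rfl) (pF _ le_rfl hj) (by omega) α1 α2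
  obtain ⟨c', hc'⟩ := pz.eig (pE j le_rfl) (pF _ le_rfl hj) hq b1 b2
  have np : π (α + b) ∉ F j (p j + 1) := by
    intro H
    refine hn ((st.a.covF (p j) (by omega)).pres ?_ y1 (fun H' => ?_) H)
    · rw [← st.adjF _ (by omega)]; exact pF _ le_rfl hj _
    · exact y0 (st.a.zero H' (st.cov4.le y2))
  rcases hi.eig hc with e1 | e1 <;> rcases hi.eig hc' with e2 | e2
  · exact absurd (by rw [map_add, e1, e2]; exact y1) np
  · exact ⟨α, b, a, β, π, α1, α2, a1, a2, a3, b1, b2, β1, β2, β3, y1, y2, hi, pE, pF, e1, e2,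
      main π pE pF e1 e2⟩
  · have pE' : ∀ s, s ≤ j → PresF (LinearMap.id - π) (E s) := fun s hs r => (pE s hs r).compl
    have pF' : ∀ s, j + 1 ≤ s → s ≤ l → PresF (LinearMap.id - π) (F s) :=
      fun s hs hs' r => (pF s hs hs' r).compl
    exact ⟨α, b, a, β, _, α1, α2, a1, a2, a3, b1, b2, β1, β2, β3, y1, y2, hi.compl, pE', pF',
      by simp [e1], by simp [e2], main _ pE' pF' (by simp [e1]) (by simp [e2])⟩
  · exact absurd (by rw [map_add, e1, e2, add_zero]; exact Submodule.zero_mem _) np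

end Pool.Agent.MP_122b1e_ag
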