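import Mathlib

set_option autoImplicit false

namespace Pool.Agent.MP_122b1e_ag

/-- A seed of geometric type: variables `x v` in a field and an integer exchange matrix `B`
(`B u v` = number of arrows `u → v` minus number of arrows `v → u`). -/
structure Seed (ι K : Type) where
  x : ι → K
  B : ι → ι → ℤ

/-- Fomin–Zelevinsky mutation of a seed at the vertex `m`. -/
noncomputable def Seed.mutate {ι K : Type} [Fintype ι] [DecidableEq ι] [Field K]
    (S : Seed ι K) (m : ι) : Seed ι K where
  x := fun v =>
    if v = m then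
      ((∏ u, S.x u ^ (S.B u m).toNat) + ∏ u, S.x u ^ (-S.B u m).toNat) / S.x m
    else S.x v
  B := fun u v =>
    if u = m ∨ v = m then -S.B u v
    else S.B u v + max (S.B u m) 0 * max (S.B m v) 0 - max (-S.B u m) 0 * max (-S.B m v) 0

/-- Seeds obtained from `S₀` by finitely many mutations at mutable vertices. -/
inductive Reachable {ι K : Type} [Fintype ι] [DecidableEq ι] [Field K]
    (mutable : ι → Prop) (S₀ : Seed ι K) : Seed ι K → Prop
  | refl : Reachable mutable S₀ S₀
  | step {S : Seed ι K} (m : ι) : Reachable mutable S₀ S → mutable m →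
      Reachable mutable S₀ (S.mutate m)

/-- Vertices of the rectangles seed: `none` is the empty rectangle and `some (i, j)` is the
`(i+1) × (j+1)` rectangle inside the `k × (n-k)` box. -/
abbrev Vertex (k n : ℕ) : Type := Option (Fin k × Fin (n - k))

/-- The mutable vertices: rectangles `i × j` with `1 ≤ i < k` and `1 ≤ j < n - k`. -/
def IsMutable {k n : ℕ} : Vertex k n → Prop
  | none => False
  | some (i, j) => i.val + 1 < k ∧ j.val + 1 < n - k

/-- Arrows of the rectangles quiver: `(i,j) → (i,j+1)`, `(i,j) → (i+1,j)`,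
`(i+1,j+1) → (i,j)` and `∅ → (1,1)`. -/
def arrowCount {k n : ℕ} : Vertex k n → Vertex k n → ℤ
  | some (i, j), some (i', j') =>
      if (i'.val = i.val ∧ j'.val = j.val + 1) ∨ (i'.val = i.val + 1 ∧ j'.val = j.val) ∨
        (i.val = i'.val + 1 ∧ j.val = j'.val + 1) then 1 else 0
  | none, some (i', j') => if i'.val = 0 ∧ j'.val = 0 then 1 else 0
  | _, none => 0

/-- The increasing list of columns of the Plücker coordinate of a rectangle `i × j`: in 1-based
terms the set `{1,…,k-i} ∪ {k-i+j+1,…,k+j}`. -/
def rectCol {k n : ℕ} (hkn : k < n) : Vertex k n → Fin k → Fin n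
  | none, a => ⟨a.val, by omega⟩
  | some (i, j), a =>
      if a.val + i.val + 1 < k then ⟨a.val, by omega⟩ else ⟨a.val + j.val + 1, by omega⟩

/-- The field of rational functions in the entries of a `k × n` matrix. -/
abbrev RatFn (k n : ℕ) : Type := FractionRing (MvPolynomial (Fin k × Fin n) ℂ)

/-- The rectangles seed of Plücker coordinates of `G(k,n)`. -/
noncomputable def rectSeed {k n : ℕ} (hkn : k < n) : Seed (Vertex k n) (RatFn k n) where
  x := fun v => algebraMap (MvPolynomial (Fin k × Fin n) ℂ) (RatFn k n)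
    ((Matrix.mvPolynomialX (Fin k) (Fin n) ℂ).submatrix id (rectCol hkn v)).det
  B := fun u v => arrowCount u v - arrowCount v u

/-- The big open positroid cell: all `n` cyclically consecutive maximal minors are nonzero. -/
def InOpenCell {k n : ℕ} (X : Matrix (Fin k) (Fin n) ℂ) : Prop :=
  ∀ i : Fin n, (X.submatrix id fun a : Fin k =>
    (⟨(i.val + a.val) % n, Nat.mod_lt _ i.pos⟩ : Fin n)).det ≠ 0

/-- The rational function `f` is defined and nonzero at the matrix `X`. -/
def NonzeroAt {k n : ℕ} (f : RatFn k n) (X : Matrix (Fin k) (Fin n) ℂ) : Prop :=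
  ∃ p q : MvPolynomial (Fin k × Fin n) ℂ,
    MvPolynomial.eval (fun e => X e.1 e.2) p ≠ 0 ∧ MvPolynomial.eval (fun e => X e.1 e.2) q ≠ 0 ∧
    f = algebraMap _ (RatFn k n) p / algebraMap _ (RatFn k n) q

/-- The linear matroid of the columns of `X` is disconnected. -/
def MatroidDisconnected {k n : ℕ} {F : Type} [Field F] (X : Matrix (Fin k) (Fin n) F) : Prop :=
  ∃ A : Set (Fin n), A.Nonempty ∧ Aᶜ.Nonempty ∧
    Module.finrank F (Submodule.span F (X.col '' A)) +
      Module.finrank F (Submodule.span F (X.col '' Aᶜ)) = k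

end Pool.Agent.MP_122b1e_ag
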