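import Pool.Agent.MP_122b1e_ag.Lin

set_option autoImplicit false

namespace Pool.Agent.MP_122b1e_ag

variable {κ V : Type} [Field κ] [AddCommGroup V] [Module κ V]

abbrev Fl (κ V : Type) [Field κ] [AddCommGroup V] [Module κ V] : Type := ℕ → Submodule κ V

/-- A flag `F` and an opposite flag `E` in general position. -/
structure Pair (k : ℕ) (E F : Fl κ V) : Prop where
  bot : F 0 = ⊥
  top : ∀ r, k ≤ r → F r = ⊤
  covF : ∀ r, r < k → Cov (F r) (F (r + 1))
  covE : ∀ r, r < k → Cov (E (r + 1)) (E r)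
  cpl : ∀ r, IsCompl (F r) (E r)

namespace Pair
variable {k : ℕ} {E F : Fl κ V}

lemma disj (h : Pair k E F) (r : ℕ) : Disjoint (F r) (E r) := (h.cpl r).disjoint

lemma zero (h : Pair k E F) {r : ℕ} {y : V} (h1 : y ∈ F r) (h2 : y ∈ E r) : y = 0 :=
  disj_zero (h.disj r) h1 h2

lemma botE (h : Pair k E F) {r : ℕ} (hr : k ≤ r) : E r = ⊥ := by
  refine eq_bot_iff.2 fun y hy => ?_
  exact h.zero (by rw [h.top r hr]; trivial) hy

lemma topE (h : Pair k E F) : E 0 = ⊤ := by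
  have := (h.cpl 0).sup_eq_top
  rwa [h.bot, bot_sup_eq] at this

lemma monoF (h : Pair k E F) {r r' : ℕ} (hr : r ≤ r') : F r ≤ F r' := by
  refine monotone_nat_of_le_succ (f := F) (fun n => ?_) hr
  by_cases hn : n < k
  · exact (h.covF n hn).le
  · rw [h.top (n + 1) (by omega)]; exact le_top

lemma antiE (h : Pair k E F) {r r' : ℕ} (hr : r ≤ r') : E r' ≤ E r := by
  refine antitone_nat_of_succ_le (f := E) (fun n => ?_) hr
  by_cases hn : n < k
  · exact (h.covE n hn).le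
  · rw [h.botE (r := n + 1) (by omega)]; exact bot_le

lemma ind (h : Pair k E F) (G : Submodule κ V)
    (hG : ∀ r, r < k → ∀ y ∈ F (r + 1), y ∈ E r → y ∈ G) (y : V) : y ∈ G := by
  have : ∀ r, r ≤ k → F r ≤ G := by
    intro r
    induction r with
    | zero => intro _; rw [h.bot]; exact bot_le
    | succ r ih =>
      intro hr y hy
      obtain ⟨a, ha, b, hb, rfl⟩ := cpl_decomp (h.cpl r) y
      refine G.add_mem (ih (by omega) ha) (hG r (by omega) b ?_ hb)
      simpa using (F (r + 1)).sub_mem hy (h.monoF (Nat.le_succ r) ha)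
  exact this k le_rfl (by rw [h.top k le_rfl]; trivial)

lemma ext (h : Pair k E F) {W : Type} [AddCommGroup W] [Module κ W] {g g' : V →ₗ[κ] W}
    (hg : ∀ r, r < k → ∀ y ∈ F (r + 1), y ∈ E r → g y = g' y) (y : V) : g y = g' y :=
  h.ind (LinearMap.eqLocus g g') hg y

lemma eig (h : Pair k E F) {g : V →ₗ[κ] V} (gE : PresF g E) (gF : PresF g F) {r : ℕ}
    (hr : r < k) {y : V} (h1 : y ∈ F (r + 1)) (h2 : y ∈ E r) : ∃ c : κ, g y = c • y := by
  by_cases h0 : y = 0
  · exact ⟨0, by simp [h0]⟩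
  · exact (h.covF r hr).on_line (h.disj r) h1 h2 h0 (gF _ _ h1) (gE _ _ h2)

lemma comm (h : Pair k E F) {g g' : V →ₗ[κ] V} (gE : PresF g E) (gF : PresF g F)
    (gE' : PresF g' E) (gF' : PresF g' F) : Comm g g' := by
  intro y
  refine h.ext (g := g ∘ₗ g') (g' := g' ∘ₗ g) (fun r hr y h1 h2 => ?_) y
  obtain ⟨c, hc⟩ := h.eig gE gF hr h1 h2
  obtain ⟨c', hc'⟩ := h.eig gE' gF' hr h1 h2
  simp only [LinearMap.comp_apply, hc, hc', map_smul, smul_smul, mul_comm]

lemma prF (h : Pair k E F) {P : V →ₗ[κ] V} {r : ℕ} (hP : IsPr P (F r) (E r)) : PresF P F := by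
  intro r' y hy
  rcases le_total r' r with hr | hr
  · rw [hP.one y (h.monoF hr hy)]; exact hy
  · exact h.monoF hr (hP.mem y)

lemma prE (h : Pair k E F) {P : V →ₗ[κ] V} {r : ℕ} (hP : IsPr P (F r) (E r)) : PresF P E := by
  intro r' y hy
  rcases le_total r' r with hr | hr
  · simpa using (E r').sub_mem hy (h.antiE hr (hP.sub_mem y))
  · rw [hP.zero y (h.antiE hr hy)]; exact (E r').zero_mem

lemma nonSepF (h : Pair k E F) {g : V →ₗ[κ] V} (gE : PresF g E) (gF : PresF g F) (q : ℕ) :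
    NonSep g (F q) (F (q + 2)) ↔ Scalar g (F (q + 2)) (E q) :=
  nonSep_iff (h.cpl q) (h.monoF (by omega)) (gF q) (gE q)

lemma nonSepE (h : Pair k E F) {g : V →ₗ[κ] V} (gE : PresF g E) (gF : PresF g F) (q : ℕ) :
    NonSep g (E (q + 2)) (E q) ↔ Scalar g (F (q + 2)) (E q) := by
  rw [nonSep_iff (h.cpl (q + 2)).symm (h.antiE (by omega)) (gE _) (gF _)]
  exact ⟨Scalar.symm, Scalar.symm⟩

lemma pr_sep (h : Pair k E F) {P : V →ₗ[κ] V} {q : ℕ} (hq : q + 1 < k)
    (hP : IsPr P (F (q + 1)) (E (q + 1))) : ¬ Scalar P (F (q + 2)) (E q) := by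
  rintro ⟨c, hc⟩
  obtain ⟨y, h1, h2, h0⟩ := (h.covF q (by omega)).exists_line (h.cpl q)
  obtain ⟨y', h1', h2', h0'⟩ := (h.covF (q + 1) hq).exists_line (h.cpl (q + 1))
  have e1 := hc y (h.monoF (by omega) h1) h2
  have e2 := hc y' h1' (h.antiE (by omega) h2')
  rw [hP.one y h1] at e1
  rw [hP.zero y' h2', eq_comm, smul_eq_zero] at e2
  rcases e2 with rfl | e2
  · exact h0 (by simpa using e1)
  · exact h0' e2

end Pair

/-- Transport of a flag along a linear equivalence. -/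
def cm (e : V ≃ₗ[κ] V) (F : Fl κ V) : Fl κ V := fun r => (F r).comap (e : V →ₗ[κ] V)

lemma mem_cm {e : V ≃ₗ[κ] V} {F : Fl κ V} {r : ℕ} {y : V} : y ∈ cm e F r ↔ e y ∈ F r := Iff.rfl

lemma Cov.comap {A B : Submodule κ V} (h : Cov A B) (e : V ≃ₗ[κ] V) :
    Cov (A.comap (e : V →ₗ[κ] V)) (B.comap (e : V →ₗ[κ] V)) := by
  refine ⟨Submodule.comap_mono h.le, ?_, ?_⟩
  · obtain ⟨y, h1, h2⟩ := h.ex
    exact ⟨e.symm y, by simpa using h1, by simpa using h2⟩
  · intro y h1 h2 x hx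
    obtain ⟨c, hc⟩ := h.line (e y) h1 h2 (e x) hx
    exact ⟨c, by simpa using hc⟩

lemma disjoint_comap {A B : Submodule κ V} (e : V ≃ₗ[κ] V) :
    Disjoint (A.comap (e : V →ₗ[κ] V)) (B.comap (e : V →ₗ[κ] V)) ↔ Disjoint A B := by
  simp only [Submodule.disjoint_def]
  constructor
  · intro h y h1 h2
    have := h (e.symm y) (by simpa using h1) (by simpa using h2)
    simpa using this
  · intro h y h1 h2
    simpa using h (e y) h1 h2

lemma isCompl_comap {A B : Submodule κ V} (h : IsCompl A B) (e : V ≃ₗ[κ] V) :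
    IsCompl (A.comap (e : V →ₗ[κ] V)) (B.comap (e : V →ₗ[κ] V)) := by
  refine ⟨(disjoint_comap e).2 h.disjoint, codisjoint_iff.2 (eq_top_iff.2 fun x _ => ?_)⟩
  obtain ⟨a, ha, b, hb, hab⟩ := cpl_decomp h (e x)
  refine Submodule.mem_sup.2 ⟨e.symm a, by simpa using ha, e.symm b, by simpa using hb, ?_⟩
  rw [← map_add, hab, e.symm_apply_apply]

lemma Pair.cm {k : ℕ} {E F : Fl κ V} (h : Pair k E F) (e : V ≃ₗ[κ] V) :
    Pair k (cm e E) (cm e F) where
  bot := by
    simp only [Pool.Agent.MP_122b1e_ag.cm, h.bot, Submodule.comap_bot, LinearEquiv.ker]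
  top r hr := by simp only [Pool.Agent.MP_122b1e_ag.cm, h.top r hr, Submodule.comap_top]
  covF r hr := (h.covF r hr).comap e
  covE r hr := (h.covE r hr).comap e
  cpl r := isCompl_comap (h.cpl r) e

/-- One crossing at level `q + 1`. -/
structure Step (k q : ℕ) (E F E' F' : Fl κ V) : Prop where
  a : Pair k E F
  b : Pair k E' F'
  lt : q + 1 < k
  adjF : ∀ r, r ≠ q + 1 → F' r = F r
  adjE : ∀ r, r ≠ q + 1 → E' r = E r
  ntr : ¬ Disjoint (F (q + 1)) (E' (q + 1))

def NZ (q : ℕ) (E F' : Fl κ V) : Prop := Disjoint (F' (q + 1)) (E (q + 1))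

lemma NZ.cm {q : ℕ} {E F' : Fl κ V} (e : V ≃ₗ[κ] V) : NZ q (cm e E) (cm e F') ↔ NZ q E F' :=
  disjoint_comap e

lemma presF_adj {q : ℕ} {F F' : Fl κ V} (h : ∀ r, r ≠ q + 1 → F' r = F r) {g : V →ₗ[κ] V}
    (gF : PresF g F) (g1 : Pres g (F' (q + 1))) : PresF g F' := by
  intro r
  by_cases hr : r = q + 1
  · rw [hr]; exact g1
  · rw [h r hr]; exact gF r

/-- A flag adjacent to `F` and not transverse to `E` is preserved. -/
lemma Pair.presF_ntr {k q : ℕ} {E F F' : Fl κ V} (h : Pair k E F) (hq : q + 1 < k)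
    (adj : ∀ r, r ≠ q + 1 → F' r = F r) (c1 : Cov (F' q) (F' (q + 1)))
    (c2 : F' (q + 1) ≤ F' (q + 2)) (hn : ¬ Disjoint (F' (q + 1)) (E (q + 1)))
    {g : V →ₗ[κ] V} (gE : PresF g E) (gF : PresF g F) : PresF g F' := by
  rw [adj q (by omega)] at c1
  rw [adj (q + 2) (by omega)] at c2
  exact presF_adj adj gF (pres_ntr c1 (h.covF (q + 1) hq) (h.monoF (by omega)) c2 (h.disj _) hn
    (gF _) (gF _) (gE _))

lemma Pair.presE_ntr {k q : ℕ} {E F E' : Fl κ V} (h : Pair k E F) (hq : q + 1 < k)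
    (adj : ∀ r, r ≠ q + 1 → E' r = E r) (c1 : Cov (E' (q + 2)) (E' (q + 1)))
    (c2 : E' (q + 1) ≤ E' q) (hn : ¬ Disjoint (F (q + 1)) (E' (q + 1)))
    {g : V →ₗ[κ] V} (gE : PresF g E) (gF : PresF g F) : PresF g E' := by
  rw [adj (q + 2) (by omega)] at c1
  rw [adj q (by omega)] at c2
  exact presF_adj adj gE (pres_ntr c1 (h.covE q (by omega)) (h.antiE (by omega)) c2
    (h.disj _).symm (fun e => hn e.symm) (gE _) (gE _) (gF _))

namespace Step
variable {k q : ℕ} {E F E' F' : Fl κ V}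

lemma cm (h : Step k q E F E' F') (e : V ≃ₗ[κ] V) :
    Step k q (cm e E) (cm e F) (cm e E') (cm e F') where
  a := h.a.cm e
  b := h.b.cm e
  lt := h.lt
  adjF r hr := by simp only [Pool.Agent.MP_122b1e_ag.cm, h.adjF r hr]
  adjE r hr := by simp only [Pool.Agent.MP_122b1e_ag.cm, h.adjE r hr]
  ntr := fun H => h.ntr ((disjoint_comap e).1 H)

lemma fwdE (h : Step k q E F E' F') {g : V →ₗ[κ] V} (gE : PresF g E) (gF : PresF g F) :
    PresF g E' :=
  h.a.presE_ntr h.lt h.adjE (h.b.covE _ h.lt) (h.b.antiE (by omega)) h.ntr gE gF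

lemma bwdF (h : Step k q E F E' F') {g : V →ₗ[κ] V} (gE : PresF g E') (gF : PresF g F') :
    PresF g F :=
  h.b.presF_ntr h.lt (fun r hr => (h.adjF r hr).symm) (h.a.covF _ (by have := h.lt; omega))
    (h.a.monoF (by omega)) h.ntr gE gF

lemma fwdF (h : Step k q E F E' F') (hz : ¬ NZ q E F') {g : V →ₗ[κ] V} (gE : PresF g E)
    (gF : PresF g F) : PresF g F' :=
  h.a.presF_ntr h.lt h.adjF (h.b.covF _ (by have := h.lt; omega)) (h.b.monoF (by omega)) hz gE gF

lemma bwdE (h : Step k q E F E' F') (hz : ¬ NZ q E F') {g : V →ₗ[κ] V} (gE : PresF g E')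
    (gF : PresF g F') : PresF g E :=
  h.b.presE_ntr h.lt (fun r hr => (h.adjE r hr).symm) (h.a.covE _ h.lt) (h.a.antiE (by omega))
    hz gE gF

lemma pairNZ (h : Step k q E F E' F') (hz : NZ q E F') : Pair k E F' where
  bot := h.b.bot
  top := h.b.top
  covF := h.b.covF
  covE := h.a.covE
  cpl r := by
    by_cases hr : r = q + 1
    · subst hr
      have c1 := h.b.covF q (by have := h.lt; omega)
      rw [h.adjF q (by omega)] at c1
      exact isCompl_of_disj c1 (h.a.covE q (by have := h.lt; omega)) (h.a.cpl q) hz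
    · rw [h.adjF r hr]; exact h.a.cpl r

lemma neF (h : Step k q E F E' F') : ¬ F (q + 1) ≤ F' (q + 1) :=
  fun H => h.ntr ((h.b.disj _).mono_left H)

lemma neE (h : Step k q E F E' F') : ¬ E' (q + 1) ≤ E (q + 1) :=
  fun H => h.ntr ((h.a.disj _).mono_right H)

lemma cov1 (h : Step k q E F E' F') : Cov (F q) (F' (q + 1)) := by
  have c1 := h.b.covF q (by have := h.lt; omega)
  rwa [h.adjF q (by omega)] at c1

lemma cov2 (h : Step k q E F E' F') : Cov (F' (q + 1)) (F (q + 2)) := by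
  have c1 := h.b.covF (q + 1) h.lt
  rwa [h.adjF (q + 1 + 1) (by omega)] at c1

lemma cov3 (h : Step k q E F E' F') : Cov (E (q + 2)) (E' (q + 1)) := by
  have c1 := h.b.covE (q + 1) h.lt
  rwa [h.adjE (q + 1 + 1) (by omega)] at c1

lemma cov4 (h : Step k q E F E' F') : Cov (E' (q + 1)) (E q) := by
  have c1 := h.b.covE q (by have := h.lt; omega)
  rwa [h.adjE q (by omega)] at c1

/-- Separated crossing: commuting endomorphisms preserve the old flag. -/
lemma lemma1 (h : Step k q E F E' F') {g g' : V →ₗ[κ] V} (gF : PresF g F) (gF' : PresF g F')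
    (hs : ¬ NonSep g (F q) (F (q + 2))) (hc : Comm g g') (hF : PresF g' F') :
    Pres g' (F (q + 1)) := by
  refine pres_of_comm (h.a.covF q (by have := h.lt; omega)) h.cov1 h.cov2 (h.a.monoF (by omega))
    h.neF (gF _) (gF _) (gF' _) hs hc ?_ ?_
  · rw [← h.adjF q (by omega)]; exact hF _
  · rw [← h.adjF (q + 2) (by omega)]; exact hF _

end Step

end Pool.Agent.MP_122b1e_ag
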