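import Pool.Agent.MP_122b1e_ag.Moves

set_option autoImplicit false

namespace Pool.Agent.MP_122b1e_ag

/-- Configurations over the residue field that can be reduced to the empty word by rotations
and deletions. -/
inductive Good {κ : Type} [Field κ] : Mat κ → List (ℕ × κ) → Prop
  | nil (A : Mat κ) : Good A []
  | rot (A : Mat κ) (p : ℕ) (z ω z' : κ) (w : List (ℕ × κ)) :
      lead (p + 1) (rowOp p ω A) = 0 →
      lead (p + 1) (colOp p z' (run A (tops ((p, z) :: w)))) = 0 →
      Good (rowOp p ω (colOp p z A)) (w ++ [(p, z')]) → Good A ((p, z) :: w)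
  | del (A : Mat κ) (p : ℕ) (z : κ) (w : List (ℕ × κ)) :
      lead (p + 1) (colOp p z A) ≠ 0 → Good (colOp p z A) w → Good A ((p, z) :: w)

def nzU (κ : Type) [Field κ] : UnitSet κ where
  mem a := a ≠ 0
  one := one_ne_zero
  mul _ _ := mul_ne_zero
  inv _ := inv_ne_zero
  ne _ h := h

def mapW {R R' : Type} (f : R → R') (w : List (ℕ × R)) : List (ℕ × R') :=
  w.map fun e => (e.1, f e.2)

lemma mapM_run {R R' : Type} [CommRing R] [CommRing R'] (f : R →+* R') (M : Mat R)
    (w : List (ℕ × R)) : mapM f (run M (tops w)) = run (mapM f M) (tops (mapW f w)) := by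
  induction w generalizing M with
  | nil => rfl
  | cons s w ih =>
    simp only [tops, mapW, List.map_cons, run, Letter.step, ← mapM_colOp]
    exact ih _

lemma Valid.del {K : Type} [Field K] {k : ℕ} {U : UnitSet K} {M : Mat K} {p : ℕ} {z : K}
    {w : List (Letter K)} (hv : Valid k U M (.top p z :: w))
    (hu : U.mem (lead (p + 1) (colOp p z M))) : Valid k U (colOp p z M) w := by
  refine ⟨fun s hs => hv.pos s (by simp [hs]), fun r hr => ?_, hv.stop⟩
  by_cases e : r = p + 1
  · rw [e]; exact hu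
  · rw [lead_colOp e]; exact hv.start r hr

variable {ι K O κ : Type} [Fintype ι] [DecidableEq ι] [Field K] [CommRing O] [Field κ]

lemma valid_lift {k : ℕ} (j : O →+* K) (ρ : O →+* κ) (hρ : ∀ a, ρ a ≠ 0 → IsUnit a)
    {U : UnitSet K} (hU : ∀ a, IsUnit a → U.mem (j a)) {M : Mat O} {w : List (ℕ × O)}
    (hv : Valid k (nzU κ) (mapM ρ M) (tops (mapW ρ w))) :
    Valid k U (mapM j M) (tops (mapW j w)) := by
  refine ⟨?_, fun r hr => ?_, fun r hr => ?_⟩
  · intro s hs
    simp only [tops, mapW, List.map_map, List.mem_map] at hs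
    obtain ⟨e, he, rfl⟩ := hs
    exact hv.pos (.top e.1 (ρ e.2)) (by
      simp only [tops, mapW, List.map_map, List.mem_map]; exact ⟨e, he, rfl⟩)
  · rw [lead_map]
    apply hU; apply hρ
    rw [← lead_map]; exact hv.start r hr
  · rw [← mapM_run, lead_map]
    apply hU; apply hρ
    rw [← lead_map, mapM_run]; exact hv.stop r hr

theorem Good.lift {k : ℕ} (C : Ctx ι K) (j : O →+* K) (ρ : O →+* κ)
    (hρ : ∀ a, ρ a ≠ 0 → IsUnit a) (hU : ∀ a, IsUnit a → C.U.mem (j a))
    {A : Mat κ} {w : List (ℕ × κ)} (hg : Good A w) :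
    ∀ (M : Mat O) (v : List (ℕ × O)), mapM ρ M = A → mapW ρ v = w →
      Valid k (nzU κ) A (tops w) → C.Mod (mapM j M) (tops (mapW j v)) →
      ∃ S, Reachable C.mu C.S₀ S ∧ ∀ u, C.U.mem (S.x u) := by
  induction hg with
  | nil A =>
    intro M v _ hv _ h
    have : v = [] := by simpa [mapW] using hv
    subst this
    exact h.nil
  | rot A p z ω z' w hω hz _ ih =>
    intro M v hM hv hval h
    obtain _ | ⟨⟨q, y⟩, v⟩ := v
    · simp [mapW] at hv
    simp only [mapW, List.map_cons, List.cons.injEq, Prod.mk.injEq] at hv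
    obtain ⟨⟨rfl, rfl⟩, hv⟩ := hv
    subst hM
    have hv' : mapW ρ v = w := hv
    subst hv'
    have hp : q + 1 < k := hval.pos (.top q (ρ y)) (by simp [tops])
    have hvalK : Valid k C.U (mapM j M) (tops (mapW j ((q, y) :: v))) :=
      valid_lift j ρ hρ hU hval
    have s0 : IsUnit (lead q M) := hρ _ (by rw [← lead_map]; exact hval.start q (by omega))
    have s1 : IsUnit (lead (q + 1) M) :=
      hρ _ (by rw [← lead_map]; exact hval.start (q + 1) (by omega))
    have t0 : IsUnit (lead q (run M (tops ((q, y) :: v)))) :=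
      hρ _ (by rw [← lead_map, mapM_run]; exact hval.stop q (by omega))
    have t1 : IsUnit (lead (q + 1) (run M (tops ((q, y) :: v)))) :=
      hρ _ (by rw [← lead_map, mapM_run]; exact hval.stop (q + 1) (by omega))
    obtain ⟨ω₀, hω₀⟩ := exists_rowOp_zero s0 s1
    obtain ⟨z₀, hz₀⟩ := exists_colOp_zero t0 t1
    have e1 : ρ ω₀ = ω := by
      have a1 := congrArg ρ hω₀
      rw [← lead_map, mapM_rowOp, map_zero,
        lead_rowOp_lin (isUnit_iff_ne_zero.2 (hval.start q (by omega)))] at a1
      rw [lead_rowOp_lin (isUnit_iff_ne_zero.2 (hval.start q (by omega)))] at hω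
      have := hval.start (q + 1) (by omega)
      exact mul_right_cancel₀ this (by linear_combination a1 - hω)
    have e2 : ρ z₀ = z' := by
      have a1 := congrArg ρ hz₀
      rw [← lead_map, mapM_colOp, map_zero, mapM_run,
        show mapW ρ ((q, y) :: v) = (q, ρ y) :: mapW ρ v from rfl,
        lead_colOp_lin (isUnit_iff_ne_zero.2 (hval.stop q (by omega)))] at a1
      rw [lead_colOp_lin (isUnit_iff_ne_zero.2 (hval.stop q (by omega)))] at hz
      have := hval.stop (q + 1) (by omega)
      exact mul_right_cancel₀ this (by linear_combination a1 - hz)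
    refine ih (rowOp q ω₀ (colOp q y M)) (v ++ [(q, z₀)]) ?_ ?_ (hval.rot hω hz) ?_
    · rw [mapM_rowOp, mapM_colOp, e1]
    · simp [mapW, e2]
    · have := Ctx.Mod.rot (p := q) (z := j y) (w := mapW j v) (ω := j ω₀) (z' := j z₀) h hvalK
        (by rw [← mapM_rowOp, lead_map, hω₀, map_zero])
        (by
          have : run (mapM j M) (tops ((q, j y) :: mapW j v)) =
            mapM j (run M (tops ((q, y) :: v))) := (mapM_run j M ((q, y) :: v)).symm
          rw [this, ← mapM_colOp, lead_map, hz₀, map_zero])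
      rw [mapM_rowOp, mapM_colOp]
      simpa [mapW] using this
  | del A p z w hu _ ih =>
    intro M v hM hv hval h
    obtain _ | ⟨⟨q, y⟩, v⟩ := v
    · simp [mapW] at hv
    simp only [mapW, List.map_cons, List.cons.injEq, Prod.mk.injEq] at hv
    obtain ⟨⟨rfl, rfl⟩, hv⟩ := hv
    subst hM
    have hv' : mapW ρ v = w := hv
    subst hv'
    refine ih (colOp q y M) v (mapM_colOp _ _ _ _) rfl (Valid.del hval hu) ?_
    rw [mapM_colOp]
    refine Ctx.Mod.delete h ?_
    rw [← mapM_colOp, lead_map]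
    apply hU; apply hρ
    rw [← lead_map, mapM_colOp]; exact hu

end Pool.Agent.MP_122b1e_ag
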