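import Pool.Agent.MP_122b1e_ag.Key
import Pool.Agent.MP_122b1e_ag.Lift

set_option autoImplicit false

namespace Pool.Agent.MP_122b1e_ag

section Op
variable {R W : Type} [CommRing R] [AddCommGroup W] [Module R W]

def opV (p : ℕ) (z : R) (f : ℕ → W) : ℕ → W := fun j =>
  if j = p then z • f p + f (p + 1) else if j = p + 1 then -f p else f j

def runV : (ℕ → W) → List (ℕ × R) → ℕ → W
  | f, [] => f
  | f, e :: w => runV (opV e.1 e.2 f) w

lemma runV_append (f : ℕ → W) (w w' : List (ℕ × R)) : runV f (w ++ w') = runV (runV f w) w' := by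
  induction w generalizing f with
  | nil => rfl
  | cons s w ih => exact ih _

def pairM (ε : ℕ → W →ₗ[R] R) (f : ℕ → W) : Mat R := fun a b => ε a (f b)

lemma pairM_opV (ε : ℕ → W →ₗ[R] R) (f : ℕ → W) (p : ℕ) (z : R) :
    pairM ε (opV p z f) = colOp p z (pairM ε f) := by
  funext a b
  simp only [pairM, opV, colOp]
  split_ifs <;> simp

lemma pairM_opV' (ε : ℕ → W →ₗ[R] R) (f : ℕ → W) (p : ℕ) (z : R) :
    pairM (opV p z ε) f = rowOp p z (pairM ε f) := by
  funext a b
  simp only [pairM, opV, rowOp]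
  split_ifs <;> simp

lemma pairM_runV (ε : ℕ → W →ₗ[R] R) (f : ℕ → W) (w : List (ℕ × R)) :
    pairM ε (runV f w) = run (pairM ε f) (tops w) := by
  induction w generalizing f with
  | nil => rfl
  | cons s w ih => simp only [runV, ih, pairM_opV, tops, List.map_cons, run, Letter.step]

end Op

variable {κ V : Type} [Field κ] [AddCommGroup V] [Module κ V]

def FF (f : ℕ → V) : Fl κ V := fun r => Submodule.span κ (Set.range fun b : Fin r => f b)

def EE (ε : ℕ → V →ₗ[κ] κ) : Fl κ V := fun r => ⨅ a : Fin r, LinearMap.ker (ε a)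

lemma mem_EE {ε : ℕ → V →ₗ[κ] κ} {r : ℕ} {y : V} : y ∈ EE ε r ↔ ∀ a, a < r → ε a y = 0 := by
  simp only [EE, Submodule.mem_iInf, LinearMap.mem_ker]
  exact ⟨fun h a ha => h ⟨a, ha⟩, fun h a => h a a.2⟩

lemma mem_FF {f : ℕ → V} {r : ℕ} {y : V} :
    y ∈ FF (κ := κ) f r ↔ ∃ c : Fin r → κ, ∑ b, c b • f b = y :=
  Submodule.mem_span_range_iff_exists_fun κ

lemma self_mem_FF (f : ℕ → V) {r b : ℕ} (h : b < r) : f b ∈ FF (κ := κ) f r :=
  Submodule.subset_span ⟨⟨b, h⟩, rfl⟩

lemma FF_le {f : ℕ → V} {r : ℕ} {G : Submodule κ V} (h : ∀ b, b < r → f b ∈ G) : FF f r ≤ G := by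
  refine Submodule.span_le.2 ?_
  rintro _ ⟨b, rfl⟩
  exact h b b.2

lemma FF_mono (f : ℕ → V) {r r' : ℕ} (h : r ≤ r') : FF (κ := κ) f r ≤ FF f r' :=
  FF_le fun _ hb => self_mem_FF f (by omega)

lemma FF_succ {f : ℕ → V} {r : ℕ} {y : V} (h : y ∈ FF (κ := κ) f (r + 1)) :
    ∃ c : κ, y - c • f r ∈ FF (κ := κ) f r := by
  obtain ⟨c, rfl⟩ := mem_FF.1 h
  refine ⟨c (Fin.last r), mem_FF.2 ⟨fun b => c b.castSucc, ?_⟩⟩
  rw [Fin.sum_univ_castSucc]; simp

lemma FF_opV {p r : ℕ} (h : r ≠ p + 1) (z : κ) (f : ℕ → V) :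
    FF (κ := κ) (opV p z f) r = FF f r := by
  apply le_antisymm
  · refine FF_le fun b hb => ?_
    simp only [opV]
    split_ifs with h1 h2
    · exact Submodule.add_mem _ (Submodule.smul_mem _ _ (self_mem_FF f (by omega)))
        (self_mem_FF f (by omega))
    · exact Submodule.neg_mem _ (self_mem_FF f (by omega))
    · exact self_mem_FF f hb
  · refine FF_le fun b hb => ?_
    have e1 : opV p z f p = z • f p + f (p + 1) := by simp [opV]
    have e2 : opV p z f (p + 1) = -f p := by simp [opV]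
    by_cases h1 : b = p
    · subst h1
      have := Submodule.neg_mem _ (self_mem_FF (κ := κ) (opV b z f) (r := r) (b := b + 1)
        (by omega))
      rwa [e2, neg_neg] at this
    · by_cases h2 : b = p + 1
      · subst h2
        have := Submodule.add_mem _ (self_mem_FF (κ := κ) (opV p z f) (r := r) (b := p) (by omega))
          (Submodule.smul_mem _ z (self_mem_FF (κ := κ) (opV p z f) (r := r) (b := p + 1) hb))
        rw [e1, e2] at this
        simpa using this
      · have := self_mem_FF (κ := κ) (opV p z f) hb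
        simpa [opV, h1, h2] using this

lemma EE_opV {p r : ℕ} (h : r ≠ p + 1) (z : κ) (ε : ℕ → V →ₗ[κ] κ) :
    EE (opV p z ε) r = EE ε r := by
  ext y
  simp only [mem_EE]
  have e1 : opV p z ε p y = z * ε p y + ε (p + 1) y := by simp [opV]
  have e2 : opV p z ε (p + 1) y = -ε p y := by simp [opV]
  constructor
  · intro H a ha
    by_cases h1 : a = p
    · subst h1
      have := H (a + 1) (by omega)
      rwa [e2, neg_eq_zero] at this
    · by_cases h2 : a = p + 1
      · subst h2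
        have t1 := H p (by omega)
        have t2 := H (p + 1) ha
        rw [e2, neg_eq_zero] at t2
        rwa [e1, t2, mul_zero, zero_add] at t1
      · simpa [opV, h1, h2] using H a ha
  · intro H a ha
    by_cases h1 : a = p
    · subst h1
      rw [e1, H a ha, H (a + 1) (by omega)]; simp
    · by_cases h2 : a = p + 1
      · subst h2
        rw [e2, H p (by omega), neg_zero]
      · simpa [opV, h1, h2] using H a ha

lemma mulVec_pair (ε : ℕ → V →ₗ[κ] κ) (f : ℕ → V) {r : ℕ} (c : Fin r → κ) (a : Fin r) :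
    (Matrix.of fun i j : Fin r => pairM ε f i j).mulVec c a = ε a (∑ b, c b • f b) := by
  simp [Matrix.mulVec, dotProduct, pairM, mul_comm]

lemma coeff_zero {ε : ℕ → V →ₗ[κ] κ} {f : ℕ → V} {r : ℕ} (h : lead r (pairM ε f) ≠ 0)
    {c : Fin r → κ} (hc : (∑ b, c b • f b) ∈ EE ε r) : c = 0 := by
  refine Matrix.eq_zero_of_mulVec_eq_zero h ?_
  funext a
  rw [mulVec_pair]
  exact mem_EE.1 hc a a.2

lemma exists_solve {ε : ℕ → V →ₗ[κ] κ} {f : ℕ → V} {r : ℕ} (h : lead r (pairM ε f) ≠ 0)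
    (d : ℕ → κ) : ∃ y ∈ FF (κ := κ) f r, ∀ a, a < r → ε a y = d a := by
  have hu : IsUnit (Matrix.of fun i j : Fin r => pairM ε f i j) :=
    (Matrix.isUnit_iff_isUnit_det _).2 (isUnit_iff_ne_zero.2 h)
  obtain ⟨c, hc⟩ := Matrix.mulVec_surjective_iff_isUnit.2 hu (fun a => d a)
  refine ⟨_, mem_FF.2 ⟨c, rfl⟩, fun a ha => ?_⟩
  rw [← mulVec_pair ε f c ⟨a, ha⟩, hc]

lemma disjoint_of_lead {ε : ℕ → V →ₗ[κ] κ} {f : ℕ → V} {r : ℕ} (h : lead r (pairM ε f) ≠ 0) :
    Disjoint (FF f r) (EE ε r) := by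
  refine Submodule.disjoint_def.2 fun y h1 h2 => ?_
  obtain ⟨c, rfl⟩ := mem_FF.1 h1
  rw [coeff_zero h h2]; simp

lemma isCompl_of_lead {ε : ℕ → V →ₗ[κ] κ} {f : ℕ → V} {r : ℕ} (h : lead r (pairM ε f) ≠ 0) :
    IsCompl (FF f r) (EE ε r) := by
  refine ⟨disjoint_of_lead h, codisjoint_iff.2 (eq_top_iff.2 fun x _ => ?_)⟩
  obtain ⟨y, h1, h2⟩ := exists_solve h fun a => ε a x
  refine Submodule.mem_sup.2 ⟨y, h1, x - y, mem_EE.2 fun a ha => ?_, by abel⟩
  rw [map_sub, h2 a ha, sub_self]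

lemma lead_of_disjoint {ε ε' : ℕ → V →ₗ[κ] κ} {f : ℕ → V} {r : ℕ} (h : lead r (pairM ε' f) ≠ 0)
    (hd : Disjoint (FF f r) (EE ε r)) : lead r (pairM ε f) ≠ 0 := by
  intro e
  obtain ⟨c, c0, hc⟩ := Matrix.exists_mulVec_eq_zero_iff.2 e
  have : (∑ b, c b • f b) = 0 := disj_zero hd (mem_FF.2 ⟨c, rfl⟩) (mem_EE.2 fun a ha => by
    rw [← mulVec_pair ε f c ⟨a, ha⟩, hc]; rfl)
  exact c0 (coeff_zero h (by rw [this]; exact Submodule.zero_mem _))

lemma pair_of_lead {k : ℕ} {ε : ℕ → V →ₗ[κ] κ} {f : ℕ → V}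
    (h : ∀ r, r ≤ k → lead r (pairM ε f) ≠ 0) (hE : EE ε k = ⊥) : Pair k (EE ε) (FF f) := by
  have top : ∀ r, k ≤ r → FF (κ := κ) f r = ⊤ := by
    intro r hr
    have := (isCompl_of_lead (h k le_rfl)).sup_eq_top
    rw [hE, sup_bot_eq] at this
    exact eq_top_iff.2 (this ▸ FF_mono f hr)
  have ex : ∀ r, r < k → ∃ y ∈ FF (κ := κ) f (r + 1), y ∈ EE ε r ∧ ε r y = 1 := by
    intro r hr
    obtain ⟨y, h1, h2⟩ := exists_solve (h (r + 1) hr) fun a => if a = r then 1 else 0
    refine ⟨y, h1, mem_EE.2 fun a ha => ?_, by simpa using h2 r (by omega)⟩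
    rw [h2 a (by omega), if_neg (by omega)]
  refine ⟨by simp [FF], top, fun r hr => ⟨FF_mono f (by omega), ?_, ?_⟩,
    fun r hr => ⟨fun y hy => mem_EE.2 fun a ha => mem_EE.1 hy a (by omega), ?_, ?_⟩, fun r => ?_⟩
  · obtain ⟨y, h1, h2, h3⟩ := ex r hr
    refine ⟨y, h1, fun H => ?_⟩
    rw [disj_zero (disjoint_of_lead (h r hr.le)) H h2] at h3
    simp at h3
  · intro y h1 h2 x hx
    obtain ⟨c, hc⟩ := FF_succ h1
    obtain ⟨d, hd⟩ := FF_succ hx
    have c0 : c ≠ 0 := by rintro rfl; exact h2 (by simpa using hc)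
    refine ⟨d / c, ?_⟩
    have := Submodule.sub_mem _ hd (Submodule.smul_mem _ (d / c) hc)
    convert this using 1
    rw [smul_sub, smul_smul, div_mul_cancel₀ _ c0]; abel
  · obtain ⟨y, _, h2, h3⟩ := ex r hr
    refine ⟨y, h2, fun H => ?_⟩
    rw [mem_EE.1 H r (by omega)] at h3
    simp at h3
  · intro y h1 h2 x hx
    have y0 : ε r y ≠ 0 := fun e => h2 (mem_EE.2 fun a ha => by
      rcases Nat.lt_succ_iff_lt_or_eq.1 ha with H | H
      · exact mem_EE.1 h1 a H
      · rw [H, e])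
    refine ⟨ε r x / ε r y, mem_EE.2 fun a ha => ?_⟩
    rw [map_sub, map_smul, smul_eq_mul]
    rcases Nat.lt_succ_iff_lt_or_eq.1 ha with H | H
    · rw [mem_EE.1 h1 a H, mem_EE.1 hx a H]; simp
    · rw [H, div_mul_cancel₀ _ y0, sub_self]
  · rcases le_total r k with e | e
    · exact isCompl_of_lead (h r e)
    · have : EE ε r = ⊥ := eq_bot_iff.2 fun y hy => by
        rw [← hE]; exact mem_EE.2 fun a ha => mem_EE.1 hy a (by omega)
      rw [top r e, this]; exact isCompl_top_bot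

/-- A framed configuration. -/
structure Cfg (κ V : Type) [Field κ] [AddCommGroup V] [Module κ V] where
  ε : ℕ → V →ₗ[κ] κ
  f : ℕ → V
  w : List (ℕ × κ)

def Cfg.OK (k : ℕ) (c : Cfg κ V) : Prop :=
  Valid k (nzU κ) (pairM c.ε c.f) (tops c.w) ∧ EE c.ε k = ⊥

def Cfg.hd (c : Cfg κ V) : ℕ := (c.w.headD (0, 0)).1

/-- One rotation. -/
def Cfg.Rot (c c' : Cfg κ V) : Prop := ∃ p z w ω z', c.w = (p, z) :: w ∧
  lead (p + 1) (rowOp p ω (pairM c.ε c.f)) = 0 ∧
  lead (p + 1) (colOp p z' (run (pairM c.ε c.f) (tops c.w))) = 0 ∧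
  c' = ⟨opV p ω c.ε, opV p z c.f, w ++ [(p, z')]⟩

lemma Cfg.exists_rot {k : ℕ} (c : Cfg κ V) (h : c.OK k) (hw : c.w ≠ []) :
    ∃ c', c.Rot c' ∧ c'.OK k ∧ c'.w.length = c.w.length := by
  obtain ⟨ε, f, w⟩ := c
  obtain _ | ⟨⟨p, z⟩, w⟩ := w
  · exact absurd rfl hw
  have hp : p + 1 < k := h.1.pos (.top p z) (by simp [tops])
  obtain ⟨ω, hω⟩ := exists_rowOp_zero (isUnit_iff_ne_zero.2 (h.1.start p (by omega)))
    (isUnit_iff_ne_zero.2 (h.1.start (p + 1) (by omega)))
  obtain ⟨z', hz⟩ := exists_colOp_zero (isUnit_iff_ne_zero.2 (h.1.stop p (by omega)))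
    (isUnit_iff_ne_zero.2 (h.1.stop (p + 1) (by omega)))
  refine ⟨_, ⟨p, z, w, ω, z', rfl, hω, hz, rfl⟩, ⟨?_, ?_⟩, by simp⟩
  · simp only [pairM_opV, pairM_opV']
    rw [← rowOp_colOp]
    exact Valid.rot h.1 hω hz
  · simp only
    rw [EE_opV (by omega)]; exact h.2

def Cfg.H (c : Cfg κ V) : Prop :=
  Conn (EE c.ε) (fun s => FF (runV c.f (c.w.take s))) (fun s => (c.w.getD s (0, 0)).1) 0 c.w.length

lemma conn_congr {E₀ : Fl κ V} {F F' : ℕ → Fl κ V} {p p' : ℕ → ℕ} {b l : ℕ}
    (hF : ∀ s, s ≤ l → F' s = F (b + s)) (hp : ∀ s, s < l → p' s = p (b + s)) :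
    Conn E₀ F p b (b + l) ↔ Conn E₀ F' p' 0 l := by
  constructor
  · intro H π hi pE pF s _ hs
    rw [hF s hs.le, hp s hs]
    refine H π hi pE (fun t h1 h2 => ?_) _ (by omega) (by omega)
    obtain ⟨t, rfl⟩ : ∃ t', t = b + t' := ⟨t - b, by omega⟩
    rw [← hF t (by omega)]; exact pF t (by omega) (by omega)
  · intro H π hi pE pF s h1 h2
    obtain ⟨s, rfl⟩ : ∃ t', s = b + t' := ⟨s - b, by omega⟩
    rw [← hF s (by omega), ← hp s (by omega)]
    refine H π hi pE (fun t _ h2 => ?_) _ (by omega) (by omega)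
    rw [hF t h2]; exact pF _ (by omega) (by omega)

theorem good_of_conn [FiniteDimensional κ V] {k : ℕ} (l : ℕ) :
    ∀ c : Cfg κ V, c.w.length = l → c.OK k → c.H → Good (pairM c.ε c.f) c.w := by
  induction l with
  | zero =>
    intro c hl _ _
    rw [List.length_eq_zero_iff.1 hl]; exact Good.nil _
  | succ l ih =>
  intro c hl hok hH
  have step : ∀ x : {c : Cfg κ V // c.OK k ∧ c.w.length = l + 1},
      ∃ y : {c : Cfg κ V // c.OK k ∧ c.w.length = l + 1}, x.1.Rot y.1 := by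
    rintro ⟨x, h1, h2⟩
    obtain ⟨y, r, h3, h4⟩ := x.exists_rot h1 (by intro e; simp [e] at h2)
    exact ⟨⟨y, h3, h4.trans h2⟩, r⟩
  choose nxt hnxt using step
  let σ : ℕ → Cfg κ V := fun t => (nxt^[t] ⟨c, hok, hl⟩).1
  have σ0 : σ 0 = c := rfl
  have ok : ∀ t, (σ t).OK k := fun t => (nxt^[t] ⟨c, hok, hl⟩).2.1
  have len : ∀ t, (σ t).w.length = l + 1 := fun t => (nxt^[t] ⟨c, hok, hl⟩).2.2
  have rot : ∀ t, (σ t).Rot (σ (t + 1)) := fun t => by
    simp only [σ, Function.iterate_succ_apply']; exact hnxt _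
  clear_value σ
  have win : ∀ s, s ≤ l + 1 → ∀ t, (σ (t + s)).f = runV (σ t).f ((σ t).w.take s) := by
    intro s
    induction s with
    | zero => intro _ t; simp [runV]
    | succ s ih' =>
      intro hs t
      obtain ⟨p, z, w, ω, z', e1, -, -, e2⟩ := rot t
      have hw : w.length = l := by have := len t; rw [e1] at this; simpa using this
      rw [show t + (s + 1) = t + 1 + s by omega, ih' (by omega) (t + 1), e2, e1]
      simp only [List.take_succ_cons, runV]
      rw [List.take_append_of_le_length (by omega)]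
  have winp : ∀ s, s < l + 1 → ∀ t, (σ (t + s)).hd = ((σ t).w.getD s (0, 0)).1 := by
    intro s
    induction s with
    | zero =>
      intro _ t
      obtain ⟨p, z, w, ω, z', e1, -, -, e2⟩ := rot t
      simp [Cfg.hd, e1]
    | succ s ih' =>
      intro hs t
      obtain ⟨p, z, w, ω, z', e1, -, -, e2⟩ := rot t
      have hw : w.length = l := by have := len t; rw [e1] at this; simpa using this
      rw [show t + (s + 1) = t + 1 + s by omega, ih' (by omega) (t + 1), e2, e1]
      simp only [List.getD_cons_succ]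
      rw [List.getD_append _ _ _ _ (by omega)]
  have pr : ∀ t, Pair k (EE (σ t).ε) (FF (σ t).f) := fun t =>
    pair_of_lead (ok t).1.start (ok t).2
  have full : ∀ t, (σ (t + (l + 1))).f = runV (σ t).f (σ t).w := fun t => by
    rw [win _ le_rfl, List.take_of_length_le (len t).le]
  have strip : Strip k (l + 1) (fun t => (σ t).hd) (fun t => EE (σ t).ε)
      (fun t => FF (σ t).f) := by
    refine ⟨fun t => ?_, fun t => ?_, fun t => ?_, fun t => ?_⟩
    · obtain ⟨p, z, w, ω, z', e1, e3, -, e2⟩ := rot t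
      have hp : (σ t).hd = p := by simp [Cfg.hd, e1]
      have hk : p + 1 < k := (ok t).1.pos (.top p z) (by simp [tops, e1])
      simp only [hp]
      refine ⟨pr t, pr (t + 1), hk, fun r hr => ?_, fun r hr => ?_, fun H => ?_⟩
      · rw [e2]; exact FF_opV hr _ _
      · rw [e2]; exact EE_opV hr _ _
      · refine lead_of_disjoint ((ok t).1.start (p + 1) hk.le) H ?_
        rw [e2, pairM_opV']; exact e3
    · simp only [full]
      refine pair_of_lead (fun r hr => ?_) (ok t).2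
      rw [pairM_runV]; exact (ok t).1.stop r hr
    · obtain ⟨p, z, w, ω, z', e1, -, e3, e2⟩ := rot t
      have hp : (σ t).hd = p := by simp [Cfg.hd, e1]
      have hk : p + 1 < k := (ok t).1.pos (.top p z) (by simp [tops, e1])
      simp only [hp, full]
      intro H
      refine lead_of_disjoint (ε' := (σ (t + 1)).ε) ?_ H ?_
      · rw [pairM_runV]; exact (ok (t + 1)).1.stop _ hk.le
      · rw [← e3, e2, e1]
        simp only [runV_append, runV, pairM_opV, pairM_runV, tops, List.map_cons, run,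
          Letter.step]
    · obtain ⟨p, z, w, ω, z', e1, -, e3, e2⟩ := rot t
      have hw : w.length = l := by have := len t; rw [e1] at this; simpa using this
      rw [show t + (l + 1) = t + 1 + l by omega, winp l (by omega), e2]
      simp [Cfg.hd, e1, ← hw]
  have H0 : Conn (EE (σ 0).ε) (fun t => FF (σ t).f) (fun t => (σ t).hd) 0 (0 + (l + 1)) := by
    unfold Cfg.H at hH
    rw [hl, ← σ0] at hH
    exact (conn_congr (fun s hs => by rw [win s hs]) (fun s hs => by rw [winp s hs])).2 hH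
  obtain ⟨t, ht, nz, H1⟩ := key strip (by omega) (by simpa using H0)
  have gt : Good (pairM (σ t).ε (σ t).f) (σ t).w := by
    obtain ⟨p, z, w, ω, z', e1, -, -, e2⟩ := rot t
    have hw : w.length = l := by have := len t; rw [e1] at this; simpa using this
    have hp : (σ t).hd = p := by simp [Cfg.hd, e1]
    have hk : p + 1 < k := (ok t).1.pos (.top p z) (by simp [tops, e1])
    have hu : lead (p + 1) (colOp p z (pairM (σ t).ε (σ t).f)) ≠ 0 := by
      have := lead_of_disjoint ((ok (t + 1)).1.start (p + 1) hk.le) (hp ▸ nz)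
      rwa [e2, pairM_opV] at this
    rw [e1]
    refine Good.del _ _ _ _ hu ?_
    rw [← pairM_opV]
    refine ih ⟨(σ t).ε, opV p z (σ t).f, w⟩ hw ⟨?_, (ok t).2⟩ ?_
    · have := (ok t).1
      rw [e1] at this
      simp only [pairM_opV]
      exact Valid.del this hu
    · unfold Cfg.H
      simp only [hw]
      rw [show t + (l + 1) = t + 1 + l by omega] at H1
      refine (conn_congr (fun s hs => ?_) (fun s hs => ?_)).1 H1
      · rw [win s (by omega), e2]
        simp only
        rw [List.take_append_of_le_length (by omega)]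
      · rw [winp s (by omega), e2]
        simp only
        rw [List.getD_append _ _ _ _ (by omega)]
  have all : ∀ s, s ≤ t → Good (pairM (σ s).ε (σ s).f) (σ s).w := by
    intro s hs
    induction hs using Nat.decreasingInduction with
    | self => exact gt
    | of_succ s hs ih' =>
      obtain ⟨p, z, w, ω, z', e1, e3, e4, e2⟩ := rot s
      rw [e1] at e4 ⊢
      refine Good.rot _ p z ω z' w e3 e4 ?_
      rw [e2] at ih'
      simpa only [pairM_opV, pairM_opV', rowOp_colOp] using ih'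
  simpa only [σ0] using all 0 (by omega)

end Pool.Agent.MP_122b1e_ag
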