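import Pool.Agent.MP_122b1e_ag.Block

set_option autoImplicit false

namespace Pool.Agent.MP_122b1e_ag

variable {R : Type} [CommRing R] {k : ℕ}

def ix (k i j b : ℕ) : ℕ := if b + i < k then b else b + j

/-- Plücker coordinate of the `i × j` rectangle. -/
def Pl (v : ℕ → Fin k → R) (i j : ℕ) : R := (Matrix.of fun a b : Fin k => v (ix k i j b) a).det

def tau (t : ℕ → Rˣ) (k i j : ℕ) : Rˣ := ∏ b ∈ Finset.range k, t (ix k i j b)

def fr (t : ℕ → Rˣ) (v : ℕ → Fin k → R) (j : ℕ) : ℕ → Fin k → R := fun b =>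
  if b < k then ((-1) ^ b * (t (k + j - 1 - b) : R)) • v (k + j - 1 - b) else 0

def eps (G : Matrix (Fin k) (Fin k) R) : ℕ → (Fin k → R) →ₗ[R] R := fun a =>
  if h : a < k then LinearMap.proj (⟨a, h⟩ : Fin k) ∘ₗ G.mulVecLin else 0

def cols (f : ℕ → Fin k → R) : Matrix (Fin k) (Fin k) R := Matrix.of fun a b => f b a

lemma eps_apply (G : Matrix (Fin k) (Fin k) R) (a : Fin k) (y : Fin k → R) :
    eps G a y = G.mulVec y a := by simp [eps]

lemma pair_eps (G : Matrix (Fin k) (Fin k) R) (f : ℕ → Fin k → R) :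
    (Matrix.of fun a b : Fin k => pairM (eps G) f a b) = G * cols f := by
  ext a b
  simp [pairM, eps_apply, cols, Matrix.mul_apply, Matrix.mulVec, dotProduct]

lemma lead_eps (G : Matrix (Fin k) (Fin k) R) (f : ℕ → Fin k → R) :
    lead k (pairM (eps G) f) = G.det * (cols f).det := by
  rw [lead, pair_eps, Matrix.det_mul]

lemma Pl_zero_left (v : ℕ → Fin k → R) (j : ℕ) : Pl v 0 j = Pl v 0 0 := by
  unfold Pl; congr 1; ext a b; simp [ix]

lemma Pl_zero_right (v : ℕ → Fin k → R) (i : ℕ) : Pl v i 0 = Pl v 0 0 := by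
  unfold Pl; congr 1; ext a b; simp [ix]

lemma lead_succ_of_col {m : ℕ} {M : Mat R} (h0 : ∀ a, a < m → M a m = 0) (h1 : M m m = 1) :
    lead (m + 1) M = lead m M := by
  unfold lead
  rw [Matrix.det_succ_column _ (Fin.last m), Finset.sum_eq_single (Fin.last m)]
  · simp only [Fin.val_last, Matrix.of_apply, h1, mul_one, Fin.succAbove_last]
    rw [← two_mul, pow_mul]
    simp only [even_two, Even.neg_pow, one_pow, one_mul]
    rfl
  · intro b _ hb
    have : (b : ℕ) < m := Fin.val_lt_last hb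
    simp [h0 b this]
  · simp

lemma lead_of_cols {r m : ℕ} (hr : r ≤ m) {M : Mat R}
    (h : ∀ a b, r ≤ b → b < m → a < m → M a b = if a = b then 1 else 0) :
    lead m M = lead r M := by
  induction hr with
  | refl => rfl
  | @step m hr ih =>
    rw [lead_succ_of_col, ih fun a b h1 h2 h3 => h a b h1 (by omega) (by omega)]
    · intro a ha
      rw [h a m hr (by omega) (by omega), if_neg (by omega)]
    · rw [h m m hr (by omega) (by omega), if_pos rfl]

def sgn (R : Type) [CommRing R] (k : ℕ) : R :=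
  (∏ b : Fin k, (-1 : R) ^ (b : ℕ)) * ((Equiv.Perm.sign (Fin.revPerm : Equiv.Perm (Fin k)) : ℤˣ) : ℤ)

lemma det_mix (t : ℕ → Rˣ) (v : ℕ → Fin k → R) (r j : ℕ) :
    (cols fun b => if b < r then fr t v j b else fr t v 0 b).det =
      sgn R k * tau t k r j * Pl v r j := by
  have e : (cols fun b => if b < r then fr t v j b else fr t v 0 b) =
      Matrix.of fun a b : Fin k => ((-1) ^ (b : ℕ) * (t (ix k r j (Fin.rev b)) : R)) *
        ((Matrix.of fun a b : Fin k => v (ix k r j b) a).submatrix id Fin.revPerm) a b := by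
    ext a b
    have hb := b.2
    simp only [cols, Matrix.of_apply, fr, hb, if_true, Matrix.submatrix_apply, id,
      Fin.revPerm_apply, Fin.val_rev]
    split_ifs with h
    · have : ix k r j (k - (b + 1)) = k + j - 1 - b := by
        unfold ix; rw [if_neg (by omega)]; omega
      rw [this]; rfl
    · have : ix k r j (k - (b + 1)) = k + 0 - 1 - b := by
        unfold ix; rw [if_pos (by omega)]; omega
      rw [this]; rfl
  rw [e, Matrix.det_mul_row, Matrix.det_permute', Finset.prod_mul_distrib]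
  have : (∏ b : Fin k, (t (ix k r j (Fin.rev b)) : R)) = (tau t k r j : R) := by
    rw [tau, Units.coe_prod, ← Fin.prod_univ_eq_prod_range (fun b => (t (ix k r j b) : R))]
    exact Equiv.prod_comp Fin.revPerm (fun b : Fin k => (t (ix k r j b) : R))
  rw [this, sgn, Pl]
  ring

lemma isUnit_sgn : IsUnit (sgn R k) := by
  refine IsUnit.mul ?_ ?_
  · exact IsUnit.prod_univ_iff.2 fun b => (isUnit_one.neg).pow _
  · exact (Units.isUnit _).map (Int.castRingHom R)

lemma lead_fr {G : Matrix (Fin k) (Fin k) R} {t : ℕ → Rˣ} {v : ℕ → Fin k → R}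
    (hG : G * cols (fr t v 0) = 1) {r : ℕ} (hr : r ≤ k) (j : ℕ) :
    lead r (pairM (eps G) (fr t v j)) = G.det * sgn R k * tau t k r j * Pl v r j := by
  have e1 : lead r (pairM (eps G) (fr t v j)) =
      lead r (pairM (eps G) fun b => if b < r then fr t v j b else fr t v 0 b) :=
    lead_congr fun a b _ hb => by simp only [pairM, hb, if_true]
  rw [e1, ← lead_of_cols hr, lead_eps, det_mix]
  · ring
  · intro a b h1 h2 h3
    have := congrFun (congrFun ((pair_eps G _).trans hG) ⟨a, h3⟩) ⟨b, h2⟩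
    simp only [Matrix.of_apply, Matrix.one_apply, Fin.mk.injEq] at this
    rw [← this]
    simp only [pairM, show ¬ b < r by omega, if_false]

def TT (t : ℕ → Rˣ) (m : ℕ) : Rˣ := ∏ a ∈ Finset.range m, t a

lemma tau_eq (t : ℕ → Rˣ) (a i j : ℕ) :
    tau t (a + i) i j = TT t a * TT t (a + i + j) / TT t (a + j) := by
  rw [tau, Finset.prod_range_add, show a + i + j = a + j + i by omega, TT, TT, TT,
    Finset.prod_range_add, eq_div_iff_mul_eq']
  have e1 : ∏ b ∈ Finset.range a, t (ix (a + i) i j b) = ∏ b ∈ Finset.range a, t b :=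
    Finset.prod_congr rfl fun b hb => by
      have := Finset.mem_range.1 hb
      unfold ix; rw [if_pos (by omega)]
  have e2 : ∏ b ∈ Finset.range i, t (ix (a + i) i j (a + b)) =
      ∏ b ∈ Finset.range i, t (a + j + b) :=
    Finset.prod_congr rfl fun b _ => by
      unfold ix; rw [if_neg (by omega)]; congr 1; omega
  rw [e1, e2]
  ac_rfl

lemma tau_balance (t : ℕ → Rˣ) {r : ℕ} (hr : r + 2 ≤ k) (j : ℕ) :
    tau t k r (j + 1) * tau t k (r + 1) j * tau t k (r + 2) (j + 2) =
      tau t k (r + 2) (j + 1) * tau t k (r + 1) (j + 2) * tau t k r j := by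
  obtain ⟨a, rfl⟩ : ∃ a, k = a + (r + 2) := ⟨k - (r + 2), by omega⟩
  have e0 := fun j => tau_eq t (a + 2) r j
  have e1 := fun j => tau_eq t (a + 1) (r + 1) j
  rw [show a + 2 + r = a + (r + 2) by omega] at e0
  rw [show a + 1 + (r + 1) = a + (r + 2) by omega] at e1
  rw [e0, e0, e1, e1, tau_eq, tau_eq, show a + 2 + (j + 1) = a + 1 + (j + 2) by omega,
    show a + 1 + j = a + (j + 1) by omega, show a + 2 + j = a + (j + 2) by omega]
  simp only [div_eq_mul_inv]
  ac_rfl

def tt (d : ℕ → Rˣ) (k : ℕ) (m : ℕ) : Rˣ :=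
  if m < k + 1 then 1 else tt d k (m - (k + 1)) * d (m - (k + 1)) / d (m - (k + 1) + 1)
termination_by m
decreasing_by omega

lemma tau_tt (d : ℕ → Rˣ) (k j : ℕ) :
    tau (tt d k) (k + 1) (k + 1) (j + 1) * d (j + 1) = tau (tt d k) (k + 1) (k + 1) j * d j := by
  have e := fun j => tau_eq (tt d k) 0 (k + 1) j
  simp only [zero_add] at e
  rw [e, e, ← add_assoc]
  have e1 : TT (tt d k) (k + 1 + j + 1) = TT (tt d k) (k + 1 + j) * tt d k (k + 1 + j) :=
    Finset.prod_range_succ _ _
  have e2 : TT (tt d k) (j + 1) = TT (tt d k) j * tt d k j := Finset.prod_range_succ _ _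
  have e3 : tt d k (k + 1 + j) = tt d k j * d j / d (j + 1) := by
    rw [tt, if_neg (by omega), show k + 1 + j - (k + 1) = j by omega]
  rw [e1, e2, e3]
  apply Units.ext
  simp only [div_eq_mul_inv, mul_inv, Units.val_mul]
  have h1 := (tt d k j).mul_inv
  have h2 := (d (j + 1)).inv_mul
  linear_combination ((TT (tt d k) 0 : R) * TT (tt d k) (k + 1 + j) * ↑(TT (tt d k) j)⁻¹ * d j *
    (↑(d (j + 1))⁻¹ * d (j + 1))) * h1 +
    ((TT (tt d k) 0 : R) * TT (tt d k) (k + 1 + j) * ↑(TT (tt d k) j)⁻¹ * d j) * h2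

lemma fr_step {G : Matrix (Fin (k + 1)) (Fin (k + 1)) R} {t : ℕ → Rˣ} {v : ℕ → Fin (k + 1) → R}
    (hG : IsUnit G.det) {j : ℕ} (h1 : lead (k + 1) (pairM (eps G) (fr t v j)) = 1)
    (h2 : lead (k + 1) (pairM (eps G) (fr t v (j + 1))) = 1) :
    ∃ c : ℕ → R, runV (fr t v j) (blk c k) = fr t v (j + 1) := by
  set f := fr t v j with hf
  set u := fr t v (j + 1) 0 with hu
  have shift : ∀ b, 1 ≤ b → fr t v (j + 1) b = if b ≤ k then -f (b - 1) else f b := by
    intro b hb
    simp only [hf, fr]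
    split_ifs with a1 a2 a3 a4
    all_goals first | omega | rfl | skip
    obtain ⟨b, rfl⟩ : ∃ b', b = b' + 1 := ⟨b - 1, by omega⟩
    rw [show k + 1 + (j + 1) - 1 - (b + 1) = k + 1 + j - 1 - (b + 1 - 1) by omega, ← neg_smul,
      pow_succ, Nat.add_sub_cancel]
    congr 1; ring
  let A : Matrix (Fin (k + 1)) (Fin (k + 1)) R := Matrix.of fun a b => pairM (eps G) f a b
  let c := A.cramer (G.mulVec u)
  have hA : A.det = 1 := h1
  have hc : A.mulVec c = G.mulVec u := by
    rw [Matrix.mulVec_cramer, hA, one_smul]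
  have hc' : (cols f).mulVec c = u := by
    have hinj : Function.Injective G.mulVec :=
      Matrix.mulVec_injective_of_isUnit ((Matrix.isUnit_iff_isUnit_det _).2 hG)
    apply hinj
    rw [Matrix.mulVec_mulVec, ← pair_eps]; exact hc
  have hl : c (Fin.last k) = 1 := by
    have e1 : c (Fin.last k) = lead (k + 1) (pairM (eps G) (Function.update f k u)) := by
      simp only [c, Matrix.cramer_apply, lead]
      congr 1
      ext a b
      simp only [Matrix.updateCol_apply, A, Matrix.of_apply, pairM, Function.update_apply,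
        Fin.ext_iff, Fin.val_last]
      split_ifs
      · exact (eps_apply G a u).symm
      · rfl
    have e2 : runV (Function.update f k u) (blk (fun _ => (0 : R)) k) = fr t v (j + 1) := by
      funext b
      rw [runV_blk]
      split_ifs with a1 a2
      · simp [a1, hu]
      · rw [shift b (by omega), if_pos a2, Function.update_of_ne (by omega)]
      · rw [shift b (by omega), if_neg a2, Function.update_of_ne (by omega)]
    rw [e1, ← h2, ← e2, pairM_runV, lead_run (by rw [cnt_blk]; simp)]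
  refine ⟨fun a => if h : a < k + 1 then c ⟨a, h⟩ else 0, ?_⟩
  funext b
  rw [runV_blk]
  split_ifs with a1 a2
  · rw [a1, ← hu, ← hc']
    funext a
    simp only [Pi.add_apply, Finset.sum_apply, Pi.smul_apply, smul_eq_mul, Matrix.mulVec,
      dotProduct, cols, Matrix.of_apply]
    rw [Fin.sum_univ_castSucc, hl, ← Fin.sum_univ_eq_sum_range
      (fun x => (if h : x < k + 1 then c ⟨x, h⟩ else 0) * f x a)]
    simp only [Fin.val_castSucc, Fin.val_last, mul_one, add_left_inj]
    refine Finset.sum_congr rfl fun x _ => ?_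
    rw [dif_pos (by have := x.2; omega), mul_comm]
    rfl
  · rw [shift b (by omega), if_pos a2]
  · rw [shift b (by omega), if_neg a2]

theorem exists_frames (N : ℕ) (v : ℕ → Fin (k + 1) → R)
    (hv : ∀ j, j ≤ N → IsUnit (Pl v (k + 1) j)) :
    ∃ (t : ℕ → Rˣ) (G : Matrix (Fin (k + 1)) (Fin (k + 1)) R) (c : ℕ → ℕ → R),
      IsUnit G.det ∧ G * cols (fr t v 0) = 1 ∧
      ∀ μ, μ < N → runV (fr t v (N - (μ + 1))) (blk (c μ) k) = fr t v (N - μ) := by
  classical
  let d : ℕ → Rˣ := fun j => if h : j ≤ N then (hv j h).unit else 1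
  have hd : ∀ j, j ≤ N → (d j : R) = Pl v (k + 1) j := fun j h => by simp [d, h]
  let t := tt d k
  have u0 : IsUnit (cols (fr t v 0)).det := by
    have := det_mix t v 0 0
    simp only [Nat.not_lt_zero, if_false] at this
    rw [this, ← Pl_zero_right v (k + 1)]
    exact (isUnit_sgn.mul (Units.isUnit _)).mul (hv 0 (by omega))
  have hG := Matrix.nonsing_inv_mul _ u0
  set G := (cols (fr t v 0))⁻¹
  have uG : IsUnit G.det := Matrix.isUnit_det_of_right_inverse hG
  have one : ∀ j, j ≤ N → lead (k + 1) (pairM (eps G) (fr t v j)) = 1 := by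
    intro j
    induction j with
    | zero => intro _; rw [lead, pair_eps, hG, Matrix.det_one]
    | succ j ih =>
      intro hj
      rw [← ih (by omega), lead_fr hG le_rfl, lead_fr hG le_rfl, ← hd _ hj, ← hd j (by omega),
        mul_assoc, mul_assoc _ _ (d j : R), ← Units.val_mul, ← Units.val_mul, tau_tt]
  have ex : ∀ μ, ∃ c : ℕ → R, μ < N →
      runV (fr t v (N - (μ + 1))) (blk c k) = fr t v (N - μ) := by
    intro μ
    by_cases h : μ < N
    · obtain ⟨c, hc⟩ := fr_step uG (one (N - (μ + 1)) (by omega)) (one _ (by omega))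
      exact ⟨c, fun _ => by rw [hc]; congr 1; omega⟩
    · exact ⟨0, fun h' => absurd h' h⟩
  choose c hc using ex
  exact ⟨t, G, c, uG, hG, hc⟩

end Pool.Agent.MP_122b1e_ag
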