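import Pool.Agent.MP_122b1e_ag.Cstar

set_option autoImplicit false

namespace Pool.Agent.MP_122b1e_ag

variable {κ V : Type} [Field κ] [AddCommGroup V] [Module κ V] {k : ℕ}

theorem cstar [FiniteDimensional κ V] (l : ℕ) : ∀ (p : ℕ → ℕ) (E F : ℕ → Fl κ V),
    Chain k l p E F → (∀ t, t < l → NZ (p t) (E t) (F (t + 1)) → Bad l p E F t) →
    ∀ s, s < l → ¬ NZ (p s) (E s) (F (s + 1)) →
      ∃ π, Alg l E F π ∧ ¬ Scalar π (F s (p s + 2)) (E s (p s)) := by
  induction l with
  | zero => intro p E F _ _ s hs; omega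
  | succ l ih =>
  intro p E F h hbad s hs hzs
  by_cases ex : ∃ j, j < l + 1 ∧ NZ (p j) (E j) (F (j + 1))
  swap
  · exact all_zero h (fun t ht H => ex ⟨t, ht, H⟩) hs
  classical
  obtain ⟨j, ⟨hj, nz⟩, hmin⟩ : ∃ j, (j < l + 1 ∧ NZ (p j) (E j) (F (j + 1))) ∧
      ∀ t, t < j → ¬ NZ (p t) (E t) (F (t + 1)) :=
    ⟨Nat.find ex, Nat.find_spec ex, fun t ht H =>
      Nat.find_min ex ht ⟨by have := (Nat.find_spec ex).1; omega, H⟩⟩
  obtain ⟨α, b, a, β, π, α1, α2, aα, ka1, ka2, b1, b2, βb, kb1, kb2, y1, y2, hi, pE, pF, πα, πb,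
    hβ, ha⟩ := bad_data h hj nz (hbad j hj nz)
  have st := h.step j hj
  have hq := st.lt
  have pz := st.pairNZ nz
  have βα : β α = 0 := kb1 α α1
  have ab : a b = 0 := ka2 b b2
  have α0 : α ≠ 0 := by rintro rfl; simp at aα
  set u := tv α β βα with hu
  set v := tv b a ab with hv
  have juE : cm u (E (j + 1)) = E j := by
    funext r
    by_cases e : r = p j + 1
    · subst e
      exact tv_move βα βb (st.a.covE _ hq) st.cov3 kb2 b2 y2
    · simp only [cm, st.adjE r e]
      refine tv_fix βα ?_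
      rcases Nat.lt_or_gt_of_ne e with e | e
      · exact Or.inl (pz.antiE (by omega) α2)
      · exact Or.inr fun y hy => kb2 y (pz.antiE (by omega) hy)
  have jvF : cm v (F j) = F (j + 1) := by
    funext r
    by_cases e : r = p j + 1
    · subst e
      exact tv_move ab aα st.cov1 (st.a.covF _ (by omega)) ka1 α1 (by rwa [add_comm b α])
    · simp only [cm, ← st.adjF r e]
      refine tv_fix ab ?_
      rcases Nat.lt_or_gt_of_ne e with e | e
      · right
        intro y hy
        rw [st.adjF r (by omega)] at hy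
        exact ka1 y (st.a.monoF (by omega) hy)
      · exact Or.inl (pz.monoF (by omega) b1)
  have cπ : ∀ t, t < l + 1 → ∀ π', (∀ s, s ≤ t → PresF π' (E s)) →
      (∀ s, t + 1 ≤ s → s ≤ l + 1 → PresF π' (F s)) → Comm π π' := fun t ht π' h1 h2 =>
    h.fin.comm (pE 0 (by omega)) (pF _ hj le_rfl) (h1 0 (by omega)) (h2 _ ht le_rfl)
  have fw : ∀ t, j + 1 ≤ t → t ≤ l + 1 → SU α β (F t) ∧ PresF π (cm u (E t)) := by
    intro t ht
    induction ht with
    | refl =>
      intro _
      refine ⟨fun r => ?_, by rw [juE]; exact pE j le_rfl⟩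
      rcases le_or_gt (p j + 1) r with e | e
      · exact Or.inl (pz.monoF e α1)
      · exact Or.inr fun y hy => kb1 y (pz.monoF (by omega) hy)
    | @step t ht ih' =>
      intro hl
      have ht' : j + 1 ≤ t := ht
      have hl' : t < l + 1 := hl
      obtain ⟨su, pe⟩ := ih' hl'.le
      have s1 := h.step t hl'
      have fx : cm u (F t) = F t := su.fix s1.a βα
      refine ⟨?_, (s1.cm u).fwdE pe (by rw [fx]; exact pF t ht' hl'.le)⟩
      by_contra hn
      obtain ⟨t1, t2, t3, t4⟩ := s1.su su hn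
      have nz' : NZ (p t) (E t) (F (t + 1)) :=
        disj_of_abs s1.cov1 (s1.a.covF _ s1.lt) (s1.a.monoF (by omega)) s1.cov2.le (s1.a.disj _)
          t1 t2 t3 t4 πα hβ (pF _ (by omega) hl _) (pF _ ht' hl'.le _) (pres_tv_form βα (pe _))
      obtain ⟨π', _, qE, qF, qn⟩ := hbad t hl' nz'
      exact qn (s1.lemma1 (pF _ ht' hl'.le) (pF _ (by omega) hl)
        (sep_of_abs (s1.a.monoF (by omega) t1) t2 (fun y hy => t3 y (s1.a.monoF (by omega) hy))
          t4 πα hβ) (cπ t hl' π' qE qF) (qF _ le_rfl hl))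
  have bw : ∀ t, t ≤ j → SL b a (E t) ∧ PresF π (cm v (F t)) := by
    intro t ht
    induction ht using Nat.decreasingInduction with
    | self =>
      refine ⟨fun r => ?_, by rw [jvF]; exact pF _ le_rfl hj⟩
      rcases le_or_gt (p j + 1) r with e | e
      · exact Or.inr fun y hy => ka2 y (pz.antiE e hy)
      · exact Or.inl (pz.antiE (by omega) b2)
    | of_succ t ht ih' =>
      obtain ⟨sl, pf⟩ := ih'
      have s1 := h.step t (by omega)
      have fx : cm v (E (t + 1)) = E (t + 1) := sl.fix s1.b ab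
      refine ⟨?_, (s1.cm v).bwdF (by rw [fx]; exact pE _ ht) pf⟩
      by_contra hn
      obtain ⟨t1, t2, t3, t4⟩ := s1.sl sl hn
      refine hmin t ht (Disjoint.symm ?_)
      exact disj_of_abs (π := LinearMap.id - π) (s1.a.covE _ s1.lt) s1.cov4 s1.cov3.le
        (s1.a.antiE (by omega)) (s1.b.disj _).symm t1 t2 t3 t4 (by simp [πb]) ha
        (pE _ ht.le _).compl (pE _ ht.le _).compl (pres_tv_form ab (pf _).compl)
  let E' : ℕ → Fl κ V := fun t => if t ≤ j then E t else cm u (E (t + 1))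
  let F' : ℕ → Fl κ V := fun t => if t < j then cm v (F t) else F (t + 1)
  let p' : ℕ → ℕ := fun t => if t < j then p t else p (t + 1)
  have E0 : ∀ t, t ≤ j → E' t = E t := fun t ht => if_pos ht
  have F0 : ∀ t, j ≤ t → F' t = F (t + 1) := fun t ht => if_neg (by omega)
  have p1 : ∀ t, t < j → p' t = p t := fun t ht => if_pos ht
  have p2 : ∀ t, j ≤ t → p' t = p (t + 1) := fun t ht => if_neg (by omega)
  have E1 : ∀ t, t ≤ j → E' t = cm v (E t) := fun t ht => by
    rw [E0 t ht, (bw t ht).1.fix (h.pair t (by omega)) ab]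
  have F1 : ∀ t, t ≤ j → F' t = cm v (F t) := fun t ht => by
    rcases Nat.lt_or_eq_of_le ht with e | e
    · exact if_pos e
    · rw [e, F0 j le_rfl, jvF]
  have E2 : ∀ t, j ≤ t → E' t = cm u (E (t + 1)) := fun t ht => by
    rcases Nat.lt_or_eq_of_le ht with e | e
    · exact if_neg (by omega)
    · rw [← e, E0 j le_rfl, juE]
  have F2 : ∀ t, j ≤ t → t ≤ l → F' t = cm u (F (t + 1)) := fun t ht hl => by
    rw [F0 t ht, (fw (t + 1) (by omega) (by omega)).1.fix (h.pair _ (by omega)) βα]
  have h' : Chain k l p' E' F' := by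
    refine ⟨fun t ht => ?_, fun t ht => ?_, ?_⟩
    · rcases le_total t j with e | e
      · rw [E1 t e, F1 t e]; exact (h.pair t (by omega)).cm v
      · rw [E2 t e, F2 t e ht]; exact (h.pair _ (by omega)).cm u
    · rcases lt_or_ge t j with e | e
      · rw [E1 t e.le, F1 t e.le, E1 _ e, F1 _ e, p1 t e]
        exact (h.step t (by omega)).cm v
      · rw [E2 t e, F2 t e ht.le, E2 _ (by omega), F2 _ (by omega) ht, p2 t e]
        exact (h.step _ (by omega)).cm u
    · rw [E0 0 (by omega), F0 l (by omega)]; exact h.fin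
  have nz1 : ∀ t, t < j → (NZ (p' t) (E' t) (F' (t + 1)) ↔ NZ (p t) (E t) (F (t + 1))) := by
    intro t ht
    rw [E1 t ht.le, F1 _ ht, p1 t ht]; exact NZ.cm v
  have nz2 : ∀ t, j ≤ t → t < l →
      (NZ (p' t) (E' t) (F' (t + 1)) ↔ NZ (p (t + 1)) (E (t + 1)) (F (t + 1 + 1))) := by
    intro t ht hl
    rw [E2 t ht, F2 _ (by omega) hl, p2 t ht]; exact NZ.cm u
  have gr : ∀ t, t < l + 1 → ∀ π', (∀ s, s ≤ t → PresF π' (E s)) →
      (∀ s, t + 1 ≤ s → s ≤ l + 1 → PresF π' (F s)) →
      ∀ s, j + 1 ≤ s → s ≤ t → PresF π' (cm u (E s)) := fun t ht π' h1 h2 s hs hs' r =>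
    pres_gr hi πα hβ (cπ t ht π' h1 h2) (h1 s hs' r) (fun _ => mem_tv)
      ((fw s hs (by omega)).2 r)
  have IH := ih p' E' F' h' (by
    intro t ht hn
    have hjt : j ≤ t := by
      by_contra hlt
      exact hmin t (by omega) ((nz1 t (by omega)).1 hn)
    obtain ⟨π', i', qE, qF, qn⟩ := hbad (t + 1) (by omega) ((nz2 t hjt ht).1 hn)
    refine ⟨π', i', fun s hs => ?_, fun s hs hs' => ?_, ?_⟩
    · rcases le_total s j with e | e
      · rw [E0 s e]; exact qE s (by omega)
      · rw [E2 s e]; exact gr (t + 1) (by omega) π' qE qF _ (by omega) (by omega)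
    · rw [F0 s (by omega)]; exact qF _ (by omega) (by omega)
    · rw [F0 t hjt, p2 t hjt]; exact qn)
  have L4 : ∀ t, j + 1 ≤ t → t < l + 1 → NZ (p t) (E t) (F (t + 1)) →
      (α ∈ F t (p t + 1) → α ∈ F t (p t)) ∧
      (Kills β (F t (p t + 1)) → Kills β (F t (p t + 2))) := by
    intro t ht hl hn
    have s1 := h.step t hl
    obtain ⟨π', _, qE, qF, qn⟩ := hbad t hl hn
    obtain ⟨c, c1, c2⟩ := eig_of_pres (s1.pairNZ hn) βα βb α0 (fw (t + 1) (by omega) hl).1
      (qE t le_rfl) (qF _ le_rfl hl) (gr t hl π' qE qF t ht le_rfl)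
    have q1 : Pres π' (F t (p t)) := by rw [← s1.adjF _ (by omega)]; exact qF _ le_rfl hl _
    have q2 : Pres π' (F t (p t + 2)) := by rw [← s1.adjF _ (by omega)]; exact qF _ le_rfl hl _
    constructor
    · intro H
      by_contra H'
      exact qn ((s1.a.covF _ (by have := s1.lt; omega)).pres q1 H H'
        (by rw [c1]; exact Submodule.smul_mem _ _ H))
    · intro H
      by_contra H'
      exact qn fun y hy => (s1.a.covF _ s1.lt).mem_of_kills H H'
        (q2 y (s1.a.monoF (by omega) hy)) (by rw [c2, H y hy, mul_zero])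
  have aπ : Alg l E' F' π := by
    refine ⟨hi, fun t ht => ?_, fun t ht => ?_⟩
    · rcases le_total t j with e | e
      · rw [E0 t e]; exact pE t e
      · rw [E2 t e]; exact (fw _ (by omega) (by omega)).2
    · rcases le_total t j with e | e
      · rw [F1 t e]; exact (bw t e).2
      · rw [F0 t e]; exact pF _ (by omega) (by omega)
  have NO := fun s' (hs' : s' < l) (hz' : ¬ NZ (p' s') (E' s') (F' (s' + 1))) =>
    noAB h' (j := j) (q := p j) (by omega) hq (a := a) (β := β)
      (by rw [F0 j le_rfl]; exact α1) (by rw [E0 j le_rfl]; exact α2) aα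
      (by rw [F0 j le_rfl]; exact b1) (by rw [E0 j le_rfl]; exact b2) βb
      (by rw [F0 j le_rfl]; exact kb1) (by rw [E0 j le_rfl]; exact kb2)
      (fun t ht hl => by rw [F0 t ht]; exact (fw _ (by omega) (by omega)).1)
      (fun t ht => by rw [E0 t ht]; exact (bw t ht).1)
      (fun t ht H => hmin t ht ((nz1 t ht).1 H))
      (fun t ht hl H => by
        rw [F0 t ht, p2 t ht]; exact (L4 _ (by omega) (by omega) ((nz2 t ht hl).1 H)).1)
      (fun t ht hl H => by
        rw [F0 t ht, p2 t ht]; exact (L4 _ (by omega) (by omega) ((nz2 t ht hl).1 H)).2)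
      IH aπ πα πb hs' hz'
  have conv : ∀ π', Alg l E' F' π' → ((π' α = α ∧ π' b = b) ∨ (π' α = 0 ∧ π' b = 0)) →
      Alg (l + 1) E F π' := by
    intro π' a' he
    have f1 : ∀ t, j + 1 ≤ t → t ≤ l + 1 → PresF π' (F t) := by
      intro t ht hl
      obtain ⟨t, rfl⟩ : ∃ t', t = t' + 1 := ⟨t - 1, by omega⟩
      rw [← F0 t (by omega)]; exact a'.pF t (by omega)
    have e1 : PresF π' (E j) := by rw [← E0 j le_rfl]; exact a'.pE j (by omega)
    have f2 : PresF π' (F j) := by
      refine presF_adj (fun r hr => (st.adjF r hr).symm) (f1 _ le_rfl hj) ?_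
      refine (st.a.covF (p j) (by omega)).pres ?_ y1 (fun H' => ?_) ?_
      · rw [← st.adjF _ (by omega)]; exact f1 _ le_rfl hj _
      · have := ka1 _ H'
        rw [map_add, aα, ab, add_zero] at this
        exact one_ne_zero this
      · rcases he with he | he
        · rw [map_add, he.1, he.2]; exact y1
        · rw [map_add, he.1, he.2, add_zero]; exact Submodule.zero_mem _
    have f3 : ∀ t, j ≤ t → t ≤ l + 1 → PresF π' (F t) := by
      intro t ht hl
      rcases Nat.lt_or_eq_of_le ht with e | e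
      · exact f1 t e hl
      · rw [← e]; exact f2
    refine ⟨a'.idem, fun t ht => ?_, fun t ht => ?_⟩
    · rcases le_total t j with e | e
      · exact (h.back hj.le hmin e1 f2 t e).1
      · exact h.forw e1 f3 t e ht
    · rcases le_total t j with e | e
      · exact (h.back hj.le hmin e1 f2 t e).2
      · exact f3 t e ht
  have ps := h.pair s hs.le
  rcases lt_trichotomy s j with e | e | e
  · obtain ⟨π', a', sep, he⟩ := NO s (by omega) (fun H => hzs ((nz1 s e).1 H))
    have A := conv π' a' he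
    refine ⟨π', A, fun H => sep ?_⟩
    rw [← ps.nonSepE (A.pE s hs.le) (A.pF s hs.le), ← E0 s e.le, ← p1 s e,
      (h'.pair s (by omega)).nonSepE (a'.pE s (by omega)) (a'.pF s (by omega))] at H
    exact H
  · subst e; exact absurd nz hzs
  · obtain ⟨s, rfl⟩ : ∃ s', s = s' + 1 := ⟨s - 1, by omega⟩
    obtain ⟨π', a', sep, he⟩ := NO s (by omega) (fun H => hzs ((nz2 s (by omega) (by omega)).1 H))
    have A := conv π' a' he
    refine ⟨π', A, fun H => sep ?_⟩
    rw [← ps.nonSepF (A.pE _ hs.le) (A.pF _ hs.le), ← F0 s (by omega), ← p2 s (by omega),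
      (h'.pair s (by omega)).nonSepF (a'.pE s (by omega)) (a'.pF s (by omega))] at H
    exact H

/-- The infinite strip of flags obtained by rotating a configuration. -/
structure Strip (k l : ℕ) (p : ℕ → ℕ) (E F : ℕ → Fl κ V) : Prop where
  step : ∀ t, Step k (p t) (E t) (F t) (E (t + 1)) (F (t + 1))
  far : ∀ t, Pair k (E t) (F (t + l))
  ntr : ∀ t, ¬ Disjoint (F (t + 1 + l) (p t + 1)) (E t (p t + 1))
  per : ∀ t, p (t + l) = p t

/-- No idempotent preserving the configuration separates a crossing. -/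
def Conn (E₀ : Fl κ V) (F : ℕ → Fl κ V) (p : ℕ → ℕ) (b c : ℕ) : Prop :=
  ∀ π : V →ₗ[κ] V, Idem π → PresF π E₀ → (∀ s, b ≤ s → s ≤ c → PresF π (F s)) →
    ∀ s, b ≤ s → s < c → NonSep π (F s (p s)) (F s (p s + 2))

theorem key [FiniteDimensional κ V] {l : ℕ} {p : ℕ → ℕ} {E F : ℕ → Fl κ V}
    (h : Strip k l p E F) (hl : 0 < l) (H : Conn (E 0) F p 0 l) :
    ∃ t, t < l ∧ NZ (p t) (E t) (F (t + 1)) ∧ Conn (E t) F p (t + 1) (t + l) := by
  by_contra hn
  push Not at hn
  have ch : Chain k l p E F :=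
    ⟨fun t _ => (h.step t).a, fun t _ => h.step t, by simpa using h.far 0⟩
  have data : ∀ t, t < l → NZ (p t) (E t) (F (t + 1)) → ∃ π : V →ₗ[κ] V, Idem π ∧
      (∀ s, s ≤ t → PresF π (E s)) ∧ (∀ s, t + 1 ≤ s → s ≤ t + l → PresF π (F s)) ∧
      ∃ s, t + 1 ≤ s ∧ s < t + l ∧ ¬ NonSep π (F s (p s)) (F s (p s + 2)) := by
    intro t ht nz
    have := hn t ht nz
    unfold Conn at this
    push Not at this
    obtain ⟨π, hi, pE, pF, hs⟩ := this
    refine ⟨π, hi, fun s hs => ?_, pF, hs⟩
    induction hs using Nat.decreasingInduction with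
    | self => exact pE
    | of_succ s hs ih =>
      have st := h.step s
      exact (h.far (s + 1)).presE_ntr st.lt (fun r hr => (st.adjE r hr).symm) (st.a.covE _ st.lt)
        (st.a.antiE (by omega)) (h.ntr s) ih (pF _ (by omega) (by omega))
  have bad : ∀ t, t < l → NZ (p t) (E t) (F (t + 1)) → Bad l p E F t := by
    intro t ht nz
    obtain ⟨π, hi, pE, pF, s, s1, s2, sep⟩ := data t ht nz
    refine ⟨π, hi, pE, fun s hs hs' => pF s hs (by omega), fun hp => sep ?_⟩
    have f0 : PresF π (F t) :=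
      presF_adj (fun r hr => ((h.step t).adjF r hr).symm) (pF _ le_rfl (by omega)) hp
    have f1 : ∀ s, s ≤ t → PresF π (F s) := by
      intro s hs
      induction hs using Nat.decreasingInduction with
      | self => exact f0
      | of_succ s hs ih => exact (h.step s).bwdF (pE _ hs) ih
    have f2 : ∀ s, s ≤ t + l → PresF π (F s) := by
      intro s hs
      rcases le_or_gt s t with e | e
      · exact f1 s e
      · exact pF s e hs
    have H' := H π hi (pE 0 (by omega)) (fun s _ hs => f2 s (by omega))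
    rcases lt_or_ge s l with e | e
    · exact H' s (by omega) e
    · obtain ⟨s, rfl⟩ : ∃ s', s = s' + l := ⟨s - l, by omega⟩
      have e1 := H' s (by omega) (by omega)
      rw [(h.step s).a.nonSepF (pE s (by omega)) (f2 s (by omega)),
        ← (h.step s).a.nonSepE (pE s (by omega)) (f2 s (by omega)),
        (h.far s).nonSepE (pE s (by omega)) (f2 _ (by omega)),
        ← (h.far s).nonSepF (pE s (by omega)) (f2 _ (by omega))] at e1
      rw [h.per]; exact e1
  have allnz : ∀ s, s < l → NZ (p s) (E s) (F (s + 1)) := by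
    intro s hs
    by_contra hz
    obtain ⟨π, a, sep⟩ := cstar l p E F ch bad s hs hz
    apply sep
    rw [← (h.step s).a.nonSepF (a.pE s hs.le) (a.pF s hs.le)]
    exact H π a.idem (a.pE 0 (by omega)) (fun s _ hs => a.pF s hs) s (by omega) hs
  obtain ⟨π, _, pE, pF, s, s1, s2, sep⟩ := data 0 hl (allnz 0 hl)
  obtain ⟨π', _, qE, qF, qn⟩ := bad s (by omega) (allnz s (by omega))
  exact qn ((h.step s).lemma1 (pF s s1 (by omega)) (pF _ (by omega) (by omega)) sep
    (ch.fin.comm (pE 0 le_rfl) (pF l (by omega) (by omega)) (qE 0 (by omega))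
      (qF l (by omega) le_rfl)) (qF _ le_rfl (by omega)))

end Pool.Agent.MP_122b1e_ag
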