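import Mathlib

set_option autoImplicit false

namespace Pool.Agent.MP_122b1e_ag

variable {κ V : Type} [Field κ] [AddCommGroup V] [Module κ V]

/-- `B` has dimension one more than `A`. -/
structure Cov (A B : Submodule κ V) : Prop where
  le : A ≤ B
  ex : ∃ y ∈ B, y ∉ A
  line : ∀ y ∈ B, y ∉ A → ∀ x ∈ B, ∃ c : κ, x - c • y ∈ A

/-- `g` preserves `G`. -/
def Pres (g : V →ₗ[κ] V) (G : Submodule κ V) : Prop := ∀ y ∈ G, g y ∈ G

def PresF (g : V →ₗ[κ] V) (F : ℕ → Submodule κ V) : Prop := ∀ r, Pres g (F r)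

def Kills (φ : V →ₗ[κ] κ) (G : Submodule κ V) : Prop := ∀ y ∈ G, φ y = 0

/-- `g` acts as a scalar on `C / A`. -/
def NonSep (g : V →ₗ[κ] V) (A C : Submodule κ V) : Prop := ∃ c : κ, ∀ y ∈ C, g y - c • y ∈ A

def Scalar (g : V →ₗ[κ] V) (C C' : Submodule κ V) : Prop :=
  ∃ c : κ, ∀ y ∈ C, y ∈ C' → g y = c • y

def Idem (g : V →ₗ[κ] V) : Prop := ∀ y, g (g y) = g y

def Comm (g h : V →ₗ[κ] V) : Prop := ∀ y, g (h y) = h (g y)

lemma Comm.symm {g h : V →ₗ[κ] V} (H : Comm g h) : Comm h g := fun y => (H y).symm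

lemma mem_of_sub_smul {A : Submodule κ V} {x y : V} {c : κ} (h : x - c • y ∈ A) (hy : y ∈ A) :
    x ∈ A := by
  have := A.add_mem h (A.smul_mem c hy)
  simpa using this

lemma mem_of_smul {A : Submodule κ V} {y : V} {c : κ} (h : c • y ∈ A) (hy : y ∉ A) : c = 0 := by
  by_contra hc
  exact hy ((A.smul_mem_iff hc).1 h)

lemma disj_zero {A B : Submodule κ V} (h : Disjoint A B) {y : V} (ha : y ∈ A) (hb : y ∈ B) :
    y = 0 := (Submodule.disjoint_def.1 h) y ha hb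

lemma not_disj {A B : Submodule κ V} (h : ¬ Disjoint A B) : ∃ y, y ∈ A ∧ y ∈ B ∧ y ≠ 0 := by
  rw [Submodule.disjoint_def] at h
  push Not at h
  exact h

lemma cpl_decomp {A B : Submodule κ V} (h : IsCompl A B) (y : V) :
    ∃ a ∈ A, ∃ b ∈ B, a + b = y := by
  have : y ∈ A ⊔ B := by rw [h.sup_eq_top]; trivial
  exact Submodule.mem_sup.1 this

/-- Two covers of `A` sharing a vector outside `A`. -/
lemma Cov.le_of_mem {A B B' : Submodule κ V} (h : Cov A B) (hA : A ≤ B') {y : V} (hy : y ∈ B)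
    (hy' : y ∈ B') (hn : y ∉ A) : B ≤ B' := by
  intro x hx
  obtain ⟨c, hc⟩ := h.line y hy hn x hx
  exact mem_of_sub_smul (hA hc) hy'

lemma Cov.pres {A B : Submodule κ V} (h : Cov A B) {g : V →ₗ[κ] V} (hA : Pres g A) {y : V}
    (hy : y ∈ B) (hn : y ∉ A) (hg : g y ∈ B) : Pres g B := by
  intro x hx
  obtain ⟨c, hc⟩ := h.line y hy hn x hx
  have := h.le (hA _ hc)
  rw [map_sub, map_smul] at this
  exact mem_of_sub_smul this hg

lemma Cov.kills {A B : Submodule κ V} (h : Cov A B) {φ : V →ₗ[κ] κ} (hA : Kills φ A) {y : V}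
    (hy : y ∈ B) (hn : y ∉ A) (hg : φ y = 0) : Kills φ B := by
  intro x hx
  obtain ⟨c, hc⟩ := h.line y hy hn x hx
  have := hA _ hc
  rw [map_sub, map_smul, hg] at this
  simpa using this

lemma Cov.mem_of_kills {A B : Submodule κ V} (h : Cov A B) {φ : V →ₗ[κ] κ} (hA : Kills φ A)
    (hB : ¬ Kills φ B) {y : V} (hy : y ∈ B) (hg : φ y = 0) : y ∈ A := by
  by_contra hn
  exact hB (h.kills hA hy hn hg)

/-- The intersection of a cover with a complement of the smaller space is a line. -/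
lemma Cov.on_line {A B E : Submodule κ V} (h : Cov A B) (hd : Disjoint A E) {y : V} (hy : y ∈ B)
    (hy' : y ∈ E) (h0 : y ≠ 0) {x : V} (hx : x ∈ B) (hx' : x ∈ E) : ∃ c : κ, x = c • y := by
  obtain ⟨c, hc⟩ := h.line y hy (fun hA => h0 (disj_zero hd hA hy')) x hx
  exact ⟨c, sub_eq_zero.1 (disj_zero hd hc (E.sub_mem hx' (E.smul_mem c hy')))⟩

lemma Cov.exists_line {A B E : Submodule κ V} (h : Cov A B) (hd : IsCompl A E) :
    ∃ y, y ∈ B ∧ y ∈ E ∧ y ≠ 0 := by
  obtain ⟨y, hy, hn⟩ := h.ex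
  obtain ⟨a, ha, b, hb, rfl⟩ := cpl_decomp hd y
  refine ⟨b, ?_, hb, ?_⟩
  · have := B.sub_mem hy (h.le ha)
    simpa using this
  · rintro rfl
    exact hn (by simpa using ha)

/-- The adjacent non-transverse subspace is preserved. -/
lemma pres_ntr {A B B₀ C E : Submodule κ V} (h1 : Cov A B) (h2 : Cov B₀ C) (hA : A ≤ B₀)
    (hB : B ≤ C) (hd : Disjoint B₀ E) (hn : ¬ Disjoint B E) {g : V →ₗ[κ] V} (gA : Pres g A)
    (gC : Pres g C) (gE : Pres g E) : Pres g B := by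
  obtain ⟨y, hy, hy', h0⟩ := not_disj hn
  obtain ⟨c, hc⟩ := h2.on_line hd (hB hy) hy' h0 (gC y (hB hy)) (gE y hy')
  exact h1.pres gA hy (fun h => h0 (disj_zero hd (hA h) hy')) (by rw [hc]; exact B.smul_mem c hy)

lemma isCompl_of_disj {A B E E' : Submodule κ V} (h1 : Cov A B) (h2 : Cov E' E)
    (hc : IsCompl A E) (hd : Disjoint B E') : IsCompl B E' := by
  refine ⟨hd, codisjoint_iff.2 (eq_top_iff.2 fun x _ => ?_)⟩
  obtain ⟨y, hy, hy', h0⟩ := h1.exists_line hc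
  obtain ⟨a, ha, e, he, rfl⟩ := cpl_decomp hc x
  obtain ⟨c, hc⟩ := h2.line y hy' (fun h => h0 (disj_zero hd hy h)) e he
  refine Submodule.mem_sup.2 ⟨a + c • y, B.add_mem (h1.le ha) (B.smul_mem c hy), _, hc, ?_⟩
  abel

lemma nonSep_iff {A C C' : Submodule κ V} (hc : IsCompl A C') (hA : A ≤ C) {g : V →ₗ[κ] V}
    (gA : Pres g A) (gC : Pres g C') : NonSep g A C ↔ Scalar g C C' := by
  constructor
  · rintro ⟨c, h⟩
    exact ⟨c, fun y hy hy' => sub_eq_zero.1
      (disj_zero hc.disjoint (h y hy) (C'.sub_mem (gC y hy') (C'.smul_mem c hy')))⟩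
  · rintro ⟨c, h⟩
    refine ⟨c, fun y hy => ?_⟩
    obtain ⟨a, ha, e, he, rfl⟩ := cpl_decomp hc y
    have he' : e ∈ C := by simpa using C.sub_mem hy (hA ha)
    rw [map_add, h e he' he, smul_add]
    have := A.sub_mem (gA a ha) (A.smul_mem c ha)
    convert this using 1; abel

lemma Scalar.symm {g : V →ₗ[κ] V} {C C' : Submodule κ V} (h : Scalar g C C') : Scalar g C' C := by
  obtain ⟨c, h⟩ := h
  exact ⟨c, fun y hy hy' => h y hy' hy⟩

/-- An endomorphism commuting with a separating one preserves its invariant lines. -/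
lemma pres_of_comm {A B₁ B₂ C : Submodule κ V} (h1 : Cov A B₁) (h2 : Cov A B₂) (h3 : Cov B₂ C)
    (hB : B₁ ≤ C) (hne : ¬ B₁ ≤ B₂) {g g' : V →ₗ[κ] V} (gA : Pres g A) (g1 : Pres g B₁)
    (g2 : Pres g B₂) (hs : ¬ NonSep g A C) (hc : Comm g g') (gA' : Pres g' A)
    (gC' : Pres g' C) : Pres g' B₁ := by
  obtain ⟨y₁, hy₁, hn₁⟩ := SetLike.not_le_iff_exists.1 hne
  obtain ⟨y₂, hy₂, hn₂⟩ := h2.ex
  have hn₁' : y₁ ∉ A := fun h => hn₁ (h2.le h)
  obtain ⟨c₁, hc₁⟩ := h1.line y₁ hy₁ hn₁' _ (g1 _ hy₁)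
  obtain ⟨c₂, hc₂⟩ := h2.line y₂ hy₂ hn₂ _ (g2 _ hy₂)
  have dec : ∀ x ∈ C, ∃ a b : κ, x - a • y₁ - b • y₂ ∈ A := by
    intro x hx
    obtain ⟨a, ha⟩ := h3.line y₁ (hB hy₁) hn₁ x hx
    obtain ⟨b, hb⟩ := h2.line y₂ hy₂ hn₂ _ ha
    exact ⟨a, b, hb⟩
  have hcc : c₁ ≠ c₂ := by
    rintro rfl
    refine hs ⟨c₁, fun x hx => ?_⟩
    obtain ⟨a, b, hab⟩ := dec x hx
    have := A.add_mem (A.add_mem (A.sub_mem (gA _ hab) (A.smul_mem c₁ hab)) (A.smul_mem a hc₁))
      (A.smul_mem b hc₂)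
    convert this using 1
    simp only [map_sub, map_smul, smul_sub, smul_smul, mul_comm]
    abel
  obtain ⟨a, b, hab⟩ := dec _ (gC' _ (hB hy₁))
  have hb : (b * (c₁ - c₂)) • y₂ ∈ A := by
    have t1 := gA _ hab
    have t2 := gA' _ hc₁
    rw [map_sub, map_sub, map_smul, map_smul, hc] at t1
    rw [map_sub, map_smul] at t2
    have := A.add_mem (A.sub_mem (A.add_mem (A.add_mem (A.sub_mem t1 t2) (A.smul_mem a hc₁))
      (A.smul_mem b hc₂)) (A.smul_mem c₁ hab)) A.zero_mem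
    convert this using 1
    simp only [smul_sub, smul_smul, mul_sub, sub_smul, mul_comm]
    abel
  have hb0 : b = 0 := by
    have := mem_of_smul hb hn₂
    rcases mul_eq_zero.1 this with h | h
    · exact h
    · exact absurd (sub_eq_zero.1 h) hcc
  rw [hb0, zero_smul, sub_zero] at hab
  exact h1.pres gA' hy₁ hn₁' (mem_of_sub_smul (h1.le hab) hy₁)

lemma sep_of_abs {A C : Submodule κ V} {π : V →ₗ[κ] V} {α : V} {β : V →ₗ[κ] κ}
    (hα : α ∈ C) (hα' : α ∉ A) (hβ : Kills β A) (hβ' : ¬ Kills β C) (h1 : π α = α)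
    (h2 : ∀ y, β (π y) = 0) : ¬ NonSep π A C := by
  rintro ⟨c, hc⟩
  have e := hc α hα
  rw [h1, show α - c • α = (1 - c) • α by rw [sub_smul, one_smul]] at e
  have e' := mem_of_smul e hα'
  have : c = 1 := by linear_combination -e'
  subst this
  refine hβ' fun y hy => ?_
  have := hβ _ (hc y hy)
  rw [map_sub, h2, one_smul] at this
  simpa using this

/-- An absorbing crossing is nonzero. -/
lemma disj_of_abs {A B₁ B₂ C E : Submodule κ V} (h2 : Cov A B₂) (h3 : Cov B₁ C) (hA : A ≤ B₁)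
    (hB : B₂ ≤ C) (hd : Disjoint B₁ E) {π : V →ₗ[κ] V} {α : V} {β : V →ₗ[κ] κ}
    (hα : α ∈ B₁) (hα' : α ∉ A) (hβ : Kills β B₁) (hβ' : ¬ Kills β C) (h1 : π α = α)
    (hπ : ∀ y, β (π y) = 0) (p2 : Pres π B₂) (pC : Pres π C)
    (pE : ∀ y ∈ E, ∃ y' ∈ E, π (y - β y • α) = y' - β y' • α) : Disjoint B₂ E := by
  by_contra hn
  obtain ⟨y, hy, hy', h0⟩ := not_disj hn
  have hαC := h3.le hα
  have hyB : y ∉ B₁ := fun h => h0 (disj_zero hd h hy')
  have hβy : β y ≠ 0 := fun h => hyB (h3.mem_of_kills hβ hβ' (hB hy) h)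
  obtain ⟨y', hy1, hy2⟩ := pE y hy'
  have t1 : y' - β y' • α ∈ C := by
    rw [← hy2]; exact pC _ (C.sub_mem (hB hy) (C.smul_mem _ hαC))
  have t2 : β y' = 0 := by
    have := hπ (y - β y • α)
    rw [hy2, map_sub, map_smul, hβ α hα] at this
    simpa using this
  have t3 : y' = 0 := disj_zero hd (h3.mem_of_kills hβ hβ' (mem_of_sub_smul t1 hαC) t2) hy1
  rw [t3, map_sub, map_smul, h1] at hy2
  simp only [map_zero, zero_smul, sub_zero] at hy2
  have t4 : α ∈ B₂ := by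
    have := p2 y hy
    rw [sub_eq_zero.1 hy2] at this
    exact (B₂.smul_mem_iff hβy).1 this
  exact hyB (h2.le_of_mem hA t4 hα hα' hy)

/-- The graded piece argument. -/
lemma pres_gr {E : Submodule κ V} {π π' : V →ₗ[κ] V} {α : V} {β : V →ₗ[κ] κ}
    (hi : Idem π) (h1 : π α = α) (hπ : ∀ y, β (π y) = 0) (hc : Comm π π') (pE : Pres π' E)
    {G : Submodule κ V} (hG : ∀ y, y ∈ G ↔ y + β y • α ∈ E) (pG : Pres π G) : Pres π' G := by
  have hβα : β α = 0 := by rw [← h1]; exact hπ α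
  intro g hg
  have t1 : π' (π g) ∈ G := by
    have a1 := (hG _).1 (pG g hg)
    rw [hπ, zero_smul, add_zero] at a1
    rw [hG, ← hc, hπ, zero_smul, add_zero, hc]
    exact pE _ a1
  have t2 : π' (g - π g) ∈ G := by
    have a1 := pE _ ((hG _).1 (G.sub_mem hg (pG g hg)))
    set e := π' (g - π g + β (g - π g) • α) with he
    have a2 : e - β e • α ∈ G := by
      rw [hG, map_sub, map_smul, hβα]
      simpa using a1
    have a3 := G.sub_mem a2 (pG _ a2)
    convert a3 using 1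
    rw [map_sub π e, map_smul π, h1, he, hc]
    simp only [map_add, map_sub, map_smul, hi g, h1]
    abel
  have := G.add_mem t1 t2
  rw [← map_add] at this
  simpa using this

/-- Projection onto `A` along `B`. -/
structure IsPr (P : V →ₗ[κ] V) (A B : Submodule κ V) : Prop where
  cpl : IsCompl A B
  one : ∀ y ∈ A, P y = y
  zero : ∀ y ∈ B, P y = 0

lemma exists_isPr {A B : Submodule κ V} (h : IsCompl A B) : ∃ P, IsPr P A B :=
  ⟨A.projection B h, h, fun _ hy => Submodule.projection_apply_of_mem_left h hy,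
    fun _ hy => (Submodule.projection_apply_eq_zero_iff h).2 hy⟩

lemma IsPr.mem {P : V →ₗ[κ] V} {A B : Submodule κ V} (h : IsPr P A B) (y : V) : P y ∈ A := by
  obtain ⟨a, ha, b, hb, rfl⟩ := cpl_decomp h.cpl y
  rw [map_add, h.one a ha, h.zero b hb, add_zero]; exact ha

lemma IsPr.sub_mem {P : V →ₗ[κ] V} {A B : Submodule κ V} (h : IsPr P A B) (y : V) :
    y - P y ∈ B := by
  obtain ⟨a, ha, b, hb, rfl⟩ := cpl_decomp h.cpl y
  rw [map_add, h.one a ha, h.zero b hb, add_zero]; simpa using hb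

lemma IsPr.idem {P : V →ₗ[κ] V} {A B : Submodule κ V} (h : IsPr P A B) : Idem P :=
  fun y => h.one _ (h.mem y)

lemma IsPr.comm {P g : V →ₗ[κ] V} {A B : Submodule κ V} (h : IsPr P A B) (gA : Pres g A)
    (gB : Pres g B) : Comm g P := by
  intro y
  obtain ⟨a, ha, b, hb, rfl⟩ := cpl_decomp h.cpl y
  simp only [map_add, h.one a ha, h.zero b hb, h.one _ (gA a ha), h.zero _ (gB b hb), map_zero]

lemma Idem.eig {π : V →ₗ[κ] V} (h : Idem π) {y : V} {c : κ} (hy : π y = c • y) :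
    π y = y ∨ π y = 0 := by
  have := h y
  rw [hy, map_smul, hy, smul_smul, ← sub_eq_zero, ← sub_smul, smul_eq_zero] at this
  rcases this with h1 | h1
  · have : c = 1 ∨ c = 0 := by
      rcases eq_or_ne c 0 with h | h
      · exact Or.inr h
      · left; exact mul_left_cancel₀ h (by linear_combination h1)
    rcases this with rfl | rfl
    · left; simpa using hy
    · right; simpa using hy
  · left; simp [h1]

lemma Idem.compl {π : V →ₗ[κ] V} (h : Idem π) : Idem (LinearMap.id - π) := by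
  intro y; simp [h y]

lemma Pres.compl {π : V →ₗ[κ] V} {G : Submodule κ V} (h : Pres π G) :
    Pres (LinearMap.id - π) G := fun y hy => by simpa using G.sub_mem hy (h y hy)

lemma Pres.of_compl {π : V →ₗ[κ] V} {G : Submodule κ V} (h : Pres (LinearMap.id - π) G) :
    Pres π G := fun y hy => by simpa using G.sub_mem hy (h y hy)

lemma Pres.comp {g h : V →ₗ[κ] V} {G : Submodule κ V} (hg : Pres g G) (hh : Pres h G) :
    Pres (g ∘ₗ h) G := fun y hy => hg _ (hh y hy)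

lemma exists_dual {A E : Submodule κ V} {y : V} (h : y ∉ A ⊔ E) :
    ∃ φ : V →ₗ[κ] κ, φ y = 1 ∧ Kills φ A ∧ Kills φ E := by
  obtain ⟨f, hf, hf'⟩ := Submodule.exists_dual_map_eq_bot_of_notMem h inferInstance
  have hk : ∀ x ∈ A ⊔ E, f x = 0 := fun x hx => by
    have : f x ∈ (A ⊔ E).map f := Submodule.mem_map_of_mem hx
    rwa [hf', Submodule.mem_bot] at this
  refine ⟨(f y)⁻¹ • f, by simp [hf], fun x hx => ?_, fun x hx => ?_⟩
  · simp [hk x (Submodule.mem_sup_left hx)]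
  · simp [hk x (Submodule.mem_sup_right hx)]

end Pool.Agent.MP_122b1e_ag
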