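import Pool.Agent.MP_122b1e_ag.Scott

set_option autoImplicit false

namespace Pool.Agent.MP_122b1e_ag

section MapV
variable {R R' : Type} [CommRing R] [CommRing R'] (f : R →+* R') {k : ℕ}

def mapV (g : ℕ → Fin k → R) : ℕ → Fin k → R' := fun m a => f (g m a)

lemma mapV_fr (t : ℕ → Rˣ) (v : ℕ → Fin k → R) (j : ℕ) :
    mapV f (fr t v j) = fr (fun m => Units.map (f : R →* R') (t m)) (mapV f v) j := by
  funext b a
  simp only [mapV, fr]
  split_ifs <;> simp [mapV]

lemma mapV_opV (p : ℕ) (z : R) (g : ℕ → Fin k → R) :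
    mapV f (opV p z g) = opV p (f z) (mapV f g) := by
  funext b a
  simp only [mapV, opV]
  split_ifs <;> simp [mapV]

lemma mapV_runV (g : ℕ → Fin k → R) (w : List (ℕ × R)) :
    mapV f (runV g w) = runV (mapV f g) (mapW f w) := by
  induction w generalizing g with
  | nil => rfl
  | cons s w ih => simp only [runV, ih, mapV_opV, mapW, List.map_cons]

lemma mapM_pairM (G : Matrix (Fin k) (Fin k) R) (g : ℕ → Fin k → R) :
    mapM f (pairM (eps G) g) = pairM (eps (G.map f)) (mapV f g) := by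
  funext a b
  simp only [mapM, pairM, eps]
  split_ifs <;> simp [Matrix.mulVec, dotProduct, mapV]

end MapV

/-- Frame data of a point of the open cell. -/
structure FrData {R : Type} [CommRing R] {k : ℕ} (N : ℕ) (v : ℕ → Fin (k + 1) → R)
    (t : ℕ → Rˣ) (G : Matrix (Fin (k + 1)) (Fin (k + 1)) R) (c : ℕ → ℕ → R) : Prop where
  hG : G * cols (fr t v 0) = 1
  hc : ∀ μ, μ < N → runV (fr t v (N - (μ + 1))) (blk (c μ) k) = fr t v (N - μ)

lemma FrData.map {R R' : Type} [CommRing R] [CommRing R'] (f : R →+* R') {k N : ℕ}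
    {v : ℕ → Fin (k + 1) → R} {t : ℕ → Rˣ} {G : Matrix (Fin (k + 1)) (Fin (k + 1)) R}
    {c : ℕ → ℕ → R} (h : FrData N v t G c) :
    FrData N (mapV f v) (fun m => Units.map (f : R →* R') (t m)) (G.map f)
      (fun μ a => f (c μ a)) where
  hG := by
    rw [← mapV_fr]
    have : cols (mapV f (fr t v 0)) = (cols (fr t v 0)).map f := rfl
    rw [this, ← Matrix.map_mul, h.hG]
    simp
  hc μ hμ := by rw [← mapV_fr, ← mapV_fr, ← mapW_blk, ← mapV_runV, h.hc μ hμ]

lemma FrData.unitG {R : Type} [CommRing R] {k N : ℕ}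
    {v : ℕ → Fin (k + 1) → R} {t : ℕ → Rˣ} {G : Matrix (Fin (k + 1)) (Fin (k + 1)) R}
    {c : ℕ → ℕ → R} (h : FrData N v t G c) : IsUnit G.det :=
  Matrix.isUnit_det_of_right_inverse h.hG

lemma FrData.full {R : Type} [CommRing R] {k N : ℕ}
    {v : ℕ → Fin (k + 1) → R} {t : ℕ → Rˣ} {G : Matrix (Fin (k + 1)) (Fin (k + 1)) R}
    {c : ℕ → ℕ → R} (h : FrData N v t G c) {ν : ℕ} (hν : ν ≤ N) :
    ∃ pre, wrd c k N = pre ++ wrd c k ν ∧ runV (fr t v 0) pre = fr t v (N - ν) := by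
  have := wrd_split c k N (fun μ => fr t v (N - μ)) h.hc ν N hν le_rfl
  simpa using this

variable {k n : ℕ}

lemma connected_idem {κ : Type} [Field κ] (hkn : k ≤ n) {X : Matrix (Fin k) (Fin n) κ}
    (hX : ¬ MatroidDisconnected X) (hs : Submodule.span κ (Set.range X.col) = ⊤)
    {π : (Fin k → κ) →ₗ[κ] (Fin k → κ)} (hi : Idem π)
    (he : ∀ m, ∃ c : κ, π (X.col m) = c • X.col m) : (∀ y, π y = y) ∨ (∀ y, π y = 0) := by
  let A : Set (Fin n) := {m | π (X.col m) = X.col m}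
  have hA : ∀ y ∈ Submodule.span κ (X.col '' A), π y = y := by
    intro y hy
    refine (Submodule.span_le (p := LinearMap.eqLocus π LinearMap.id)).2 ?_ hy
    rintro _ ⟨m, hm, rfl⟩; exact hm
  have hB : ∀ y ∈ Submodule.span κ (X.col '' Aᶜ), π y = 0 := by
    intro y hy
    refine (Submodule.span_le (p := LinearMap.ker π)).2 ?_ hy
    rintro _ ⟨m, hm, rfl⟩
    obtain ⟨c, hc⟩ := he m
    exact (hi.eig hc).resolve_left hm
  by_cases h1 : A.Nonempty
  · by_cases h2 : Aᶜ.Nonempty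
    · refine absurd ⟨A, h1, h2, ?_⟩ hX
      rw [← Submodule.finrank_sup_add_finrank_inf_eq, ← Submodule.span_union, ← Set.image_union,
        Set.union_compl_self, Set.image_univ, hs]
      have : Submodule.span κ (X.col '' A) ⊓ Submodule.span κ (X.col '' Aᶜ) = ⊥ :=
        eq_bot_iff.2 fun y hy => by
          have := hA y hy.1
          rw [hB y hy.2] at this
          exact this.symm
      rw [this]; simp
    · left
      intro y
      apply hA
      rw [Set.not_nonempty_iff_eq_empty, Set.compl_empty_iff] at h2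
      rw [h2, Set.image_univ, hs]; trivial
  · right
    intro y
    apply hB
    rw [Set.not_nonempty_iff_eq_empty] at h1
    rw [h1, Set.compl_empty, Set.image_univ, hs]; trivial

lemma EE_eps {κ : Type} [Field κ] {G : Matrix (Fin k) (Fin k) κ} (hG : IsUnit G.det) :
    EE (eps G) k = ⊥ := by
  refine eq_bot_iff.2 fun y hy => ?_
  have hinj : Function.Injective G.mulVec :=
    Matrix.mulVec_injective_of_isUnit ((Matrix.isUnit_iff_isUnit_det _).2 hG)
  apply hinj
  funext a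
  rw [← eps_apply, mem_EE.1 hy a a.2]; simp

lemma good_start (hkn : k + 1 < n) {X : Matrix (Fin (k + 1)) (Fin n) ℂ} (hX : InOpenCell X)
    (hc : ¬ MatroidDisconnected X) {t : ℕ → ℂˣ} {G : Matrix (Fin (k + 1)) (Fin (k + 1)) ℂ}
    {c : ℕ → ℕ → ℂ} (h : FrData (n - (k + 1)) (colv X) t G c) :
    Valid (k + 1) (nzU ℂ) (pairM (eps G) (fr t (colv X) 0)) (tops (wrd c k (n - (k + 1)))) ∧
    Good (pairM (eps G) (fr t (colv X) 0)) (wrd c k (n - (k + 1))) := by
  set N := n - (k + 1) with hN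
  have s0 : G.det * sgn ℂ (k + 1) ≠ 0 := (h.unitG.mul isUnit_sgn).ne_zero
  have val : Valid (k + 1) (nzU ℂ) (pairM (eps G) (fr t (colv X) 0)) (tops (wrd c k N)) := by
    refine ⟨fun s hs => ?_, fun r hr => ?_, fun r hr => ?_⟩
    · obtain ⟨e, he, rfl⟩ := List.mem_map.1 hs
      have := mem_wrd c k N e he
      simp only [Letter.pos]; omega
    · rw [lead_fr h.hG hr, Pl_zero_right]
      exact mul_ne_zero (mul_ne_zero s0 (Units.ne_zero _)) (Pl_empty (by omega) hkn hX)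
    · obtain ⟨pre, h1, h2⟩ := h.full (ν := 0) (by omega)
      rw [← pairM_runV, h1, wrd, List.append_nil, h2, lead_fr h.hG hr]
      exact mul_ne_zero (mul_ne_zero s0 (Units.ne_zero _)) (Pl_wrap (by omega) hkn hX hr)
  refine ⟨val, good_of_conn (k := k + 1) _ ⟨eps G, fr t (colv X) 0, wrd c k N⟩ rfl
    ⟨val, EE_eps h.unitG⟩ ?_⟩
  intro π hi pE pF s _ _
  have pr := pair_of_lead val.start (EE_eps h.unitG)
  have col : ∀ (m : Fin n) (j b : ℕ), b < k + 1 → m.val = k + 1 + j - 1 - b →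
      ∃ u : ℂ, u ≠ 0 ∧ fr t (colv X) j b = u • X.col m := by
    intro m j b hb hm
    refine ⟨(-1) ^ b * t m, mul_ne_zero (pow_ne_zero _ (by norm_num)) (Units.ne_zero _), ?_⟩
    simp only [fr, hb, if_true, ← hm]
    congr 1
    funext a
    exact colv_eq X m rfl a
  have eig : ∀ (m : Fin n) (j b : ℕ), b < k + 1 → m.val = k + 1 + j - 1 - b →
      (∃ d : ℂ, π (fr t (colv X) j b) = d • fr t (colv X) j b) →
      ∃ d : ℂ, π (X.col m) = d • X.col m := by
    rintro m j b hb hm ⟨d, hd⟩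
    obtain ⟨u, hu, e⟩ := col m j b hb hm
    rw [e, map_smul, smul_comm] at hd
    exact ⟨d, smul_right_injective _ hu hd⟩
  have := connected_idem (by omega) hc ?_ hi ?_
  · rcases this with H | H
    · exact ⟨1, fun y _ => by simp [H]⟩
    · exact ⟨0, fun y _ => by simp [H]⟩
  · rw [eq_top_iff, ← pr.top (k + 1) le_rfl]
    refine FF_le fun b hb => ?_
    obtain ⟨u, _, e⟩ := col ⟨k - b, by omega⟩ 0 b hb (by simp)
    rw [e]
    exact Submodule.smul_mem _ _ (Submodule.subset_span ⟨_, rfl⟩)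
  · intro m
    have hm := m.2
    rcases le_total m.val k with e | e
    · refine eig m 0 (k - m) (by omega) (by omega) ?_
      refine pr.eig pE (by simpa [runV] using pF 0 le_rfl (by omega)) (r := k - m) (by omega)
        (self_mem_FF _ (by omega)) (mem_EE.2 fun a ha => ?_)
      have := congrFun (congrFun ((pair_eps G _).trans h.hG) ⟨a, by omega⟩) ⟨k - m, by omega⟩
      simp only [Matrix.of_apply, Matrix.one_apply, Fin.mk.injEq] at this
      rw [if_neg (by omega)] at this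
      exact this
    · refine eig m (m - k) 0 (by omega) (by omega) ?_
      obtain ⟨pre, h1, h2⟩ := h.full (ν := N - (m - k)) (by omega)
      have p1 := pF pre.length (by omega) (by simp only [h1]; simp) 1
      simp only [h1, List.take_left', h2] at p1
      rw [show N - (N - (m - k)) = m - k by omega] at p1
      obtain ⟨d, hd⟩ := mem_FF.1 (p1 _ (self_mem_FF _ (b := 0) (by omega)))
      exact ⟨d 0, by simpa using hd.symm⟩

/-- Functions defined and nonzero at `X`. -/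
noncomputable def nzAt (X : Matrix (Fin k) (Fin n) ℂ) : UnitSet (RatFn k n) where
  mem f := NonzeroAt f X
  one := ⟨1, 1, by simp, by simp, by simp⟩
  mul := by
    rintro _ _ ⟨p, q, hp, hq, rfl⟩ ⟨p', q', hp', hq', rfl⟩
    exact ⟨p * p', q * q', by simp [hp, hp'], by simp [hq, hq'], by simp [div_mul_div_comm]⟩
  inv := by
    rintro _ ⟨p, q, hp, hq, rfl⟩
    exact ⟨q, p, hq, hp, by rw [inv_div]⟩
  ne := by
    have inj := IsFractionRing.injective (MvPolynomial (Fin k × Fin n) ℂ) (RatFn k n)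
    rintro _ ⟨p, q, hp, hq, rfl⟩
    refine div_ne_zero (fun e => hp ?_) (fun e => hq ?_) <;>
      rw [(map_eq_zero_iff _ inj).1 e, map_zero]

lemma exists_local (X : Matrix (Fin k) (Fin n) ℂ) :
    ∃ (O : Type) (_ : CommRing O) (a : MvPolynomial (Fin k × Fin n) ℂ →+* O)
      (j : O →+* RatFn k n) (ρ : O →+* ℂ), (∀ p, j (a p) = algebraMap _ (RatFn k n) p) ∧
      (∀ p, ρ (a p) = MvPolynomial.eval (fun e => X e.1 e.2) p) ∧
      (∀ o, ρ o ≠ 0 → IsUnit o) ∧ ∀ o, IsUnit o → NonzeroAt (j o) X := by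
  let ev : MvPolynomial (Fin k × Fin n) ℂ →+* ℂ := MvPolynomial.eval fun e => X e.1 e.2
  let S : Submonoid (MvPolynomial (Fin k × Fin n) ℂ) := (nonZeroDivisors ℂ).comap ev
  have hS : ∀ p, p ∈ S ↔ ev p ≠ 0 := fun p => mem_nonZeroDivisors_iff_ne_zero
  have inj := IsFractionRing.injective (MvPolynomial (Fin k × Fin n) ℂ) (RatFn k n)
  have h1 : ∀ y : S, IsUnit (algebraMap _ (RatFn k n) y.1) := fun y =>
    isUnit_iff_ne_zero.2 fun e => (hS _).1 y.2 (by rw [(map_eq_zero_iff _ inj).1 e, map_zero])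
  have h2 : ∀ y : S, IsUnit (ev y.1) := fun y => isUnit_iff_ne_zero.2 ((hS _).1 y.2)
  have key : ∀ o : Localization S, IsLocalization.lift h2 o ≠ 0 → ∃ p : S, ∃ q : S,
      o = IsLocalization.mk' (Localization S) p.1 q := by
    intro o ho
    obtain ⟨⟨p, q⟩, rfl⟩ := IsLocalization.mk'_surjective S o
    refine ⟨⟨p, (hS p).2 fun e => ho ?_⟩, q, rfl⟩
    simp only [IsLocalization.lift_mk', e, zero_mul]
  refine ⟨Localization S, inferInstance, algebraMap _ _, IsLocalization.lift h1,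
    IsLocalization.lift h2, fun p => IsLocalization.lift_eq _ _,
    fun p => IsLocalization.lift_eq _ _, fun o ho => ?_, fun o ho => ?_⟩
  · obtain ⟨p, q, rfl⟩ := key o ho
    exact IsUnit.of_mul_eq_one _ (IsLocalization.mk'_mul_mk'_eq_one p q)
  · obtain ⟨p, q, rfl⟩ := key o (ho.map _).ne_zero
    refine ⟨p, q, (hS _).1 p.2, (hS _).1 q.2, ?_⟩
    rw [eq_div_iff (h1 q).ne_zero, ← IsLocalization.lift_eq (S := Localization S) h1 q.1,
      ← map_mul, IsLocalization.mk'_spec, IsLocalization.lift_eq]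

lemma ite_or3 {P Q T : Prop} [Decidable P] [Decidable Q] [Decidable T] (h1 : ¬ (P ∧ Q))
    (h2 : ¬ (P ∧ T)) (h3 : ¬ (Q ∧ T)) : (if P ∨ Q ∨ T then (1 : ℤ) else 0) =
      (if P then 1 else 0) + (if Q then 1 else 0) + (if T then 1 else 0) := by
  by_cases P <;> by_cases Q <;> by_cases T <;> simp_all

lemma arrow_eq {r m r' m' i j i' j' N : ℕ} (h1 : r = i + 1) (h2 : N = m + j + 1)
    (h3 : r' = i' + 1) (h4 : N = m' + j' + 1) :
    ((if (i' = i ∧ j' = j + 1) ∨ (i' = i + 1 ∧ j' = j) ∨ (i = i' + 1 ∧ j = j' + 1) then 1 else 0) -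
      if (i = i' ∧ j = j' + 1) ∨ (i = i' + 1 ∧ j = j') ∨ (i' = i + 1 ∧ j' = j + 1) then 1
      else 0 : ℤ) =
      (if r = r' ∧ m = m' + 1 then 1 else 0) + (if r' = r + 1 ∧ m = m' then 1 else 0) +
      (if r = r' + 1 ∧ m' = m + 1 then 1 else 0) - (if r = r' ∧ m' = m + 1 then 1 else 0) -
      (if r = r' + 1 ∧ m = m' then 1 else 0) - (if r' = r + 1 ∧ m = m' + 1 then 1 else 0) := by
  rw [ite_or3 (by omega) (by omega) (by omega), ite_or3 (by omega) (by omega) (by omega),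
    if_congr (show (i' = i ∧ j' = j + 1) ↔ (r = r' ∧ m = m' + 1) by omega) rfl rfl,
    if_congr (show (i' = i + 1 ∧ j' = j) ↔ (r' = r + 1 ∧ m = m') by omega) rfl rfl,
    if_congr (show (i = i' + 1 ∧ j = j' + 1) ↔ (r = r' + 1 ∧ m' = m + 1) by omega) rfl rfl,
    if_congr (show (i = i' ∧ j = j' + 1) ↔ (r = r' ∧ m' = m + 1) by omega) rfl rfl,
    if_congr (show (i = i' + 1 ∧ j = j') ↔ (r = r' + 1 ∧ m = m') by omega) rfl rfl,
    if_congr (show (i' = i + 1 ∧ j' = j + 1) ↔ (r' = r + 1 ∧ m = m' + 1) by omega) rfl rfl]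
  ring

lemma rel_start (hkn : k + 1 < n) (U : UnitSet (RatFn (k + 1) n)) {N : ℕ} (hN : N = n - (k + 1))
    {v : ℕ → Fin (k + 1) → RatFn (k + 1) n} {t : ℕ → (RatFn (k + 1) n)ˣ}
    {G : Matrix (Fin (k + 1)) (Fin (k + 1)) (RatFn (k + 1) n)} {c : ℕ → ℕ → RatFn (k + 1) n}
    (h : FrData N v t G c)
    (hx : ∀ i j, i ≤ k + 1 → j ≤ N → (rectSeed hkn).x (nu (k + 1) n i j) = Pl v i j)
    (ht : ∀ m, U.mem (t m)) (hs : U.mem (G.det * sgn _ (k + 1)))
    (f1 : ∀ j, j ≤ N → U.mem (Pl v (k + 1) j))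
    (f2 : ∀ i, i ≤ k + 1 → U.mem (Pl v i N)) :
    Rel U IsMutable (fun a => nu (k + 1) n a.1 (N - a.2)) (rectSeed hkn)
      (model (pairM (eps G) (fr t v 0)) (tops (wrd c k N))) := by
  let M : ℕ → Mat (RatFn (k + 1) n) := fun μ => pairM (eps G) (fr t v (N - μ))
  have hM : ∀ μ, μ < N → run (M (μ + 1)) (tops (blk (c μ) k)) = M μ := by
    intro μ hμ
    simp only [M]
    rw [← pairM_runV, h.hc μ hμ]
  have M0 : pairM (eps G) (fr t v 0) = M N := by simp [M]
  have hact : ∀ r m, act (tops (wrd c k N)) (r, m) ↔ 1 ≤ r ∧ r ≤ k ∧ 1 ≤ m ∧ m < N := by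
    intro r m
    simp only [act, cnt_wrd]
    split_ifs <;> omega
  have nz : ∀ u, (rectSeed hkn).x u ≠ 0 := reach_ne_zero hkn _ Reachable.refl
  have hτ : ∀ i j, U.mem (tau t (k + 1) i j : (RatFn (k + 1) n)ˣ) := by
    intro i j
    rw [tau, Units.coe_prod]
    exact Finset.prod_induction _ U.mem U.mul U.one fun m _ => ht _
  have form : ∀ r m, 1 ≤ r → r ≤ k → 1 ≤ m → m < N → ∃ (i : Fin (k + 1)) (j : Fin (n - (k + 1))),
      nu (k + 1) n r (N - m) = some (i, j) ∧ r = i + 1 ∧ N - m = j + 1 := by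
    intro r m h1 h2 h3 h4
    exact ⟨⟨r - 1, by omega⟩, ⟨N - m - 1, by omega⟩,
      (some_eq_nu.2 ⟨by simp only; omega, by simp only; omega⟩).symm, by simp only; omega,
      by simp only; omega⟩
  refine ⟨?_, ?_, ?_, ?_, ?_, ?_⟩
  · rintro ⟨r, m⟩ ⟨r', m'⟩ ha hb e
    obtain ⟨a1, a2, a3, a4⟩ := (hact _ _).1 ha
    obtain ⟨b1, b2, b3, b4⟩ := (hact _ _).1 hb
    obtain ⟨i, j, e1, e2, e3⟩ := form r m a1 a2 a3 a4
    simp only [e1, some_eq_nu] at e
    simp only [Prod.mk.injEq]; omega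
  · rintro ⟨r, m⟩ ha
    obtain ⟨a1, a2, a3, a4⟩ := (hact _ _).1 ha
    obtain ⟨i, j, e1, e2, e3⟩ := form r m a1 a2 a3 a4
    simp only [e1, IsMutable]; omega
  · intro u hu
    rcases u with _ | ⟨i, j⟩
    · rw [none_eq_nu.2 (show ¬ (1 ≤ 0 ∧ 0 ≤ k + 1 ∧ 1 ≤ N ∧ N ≤ n - (k + 1)) by omega),
        hx _ _ (by omega) le_rfl]
      exact f2 0 (by omega)
    · have hi := i.2
      have hj := j.2
      rw [some_eq_nu.2 ⟨rfl, rfl⟩, hx (i + 1) (j + 1) (by omega) (by omega)]
      by_cases e1 : i.val = k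
      · rw [e1]; exact f1 _ (by omega)
      · by_cases e2 : j.val + 1 = N
        · rw [e2]; exact f2 _ (by omega)
        · refine absurd ?_ (hu (i + 1, N - (j + 1)) ((hact _ _).2 (by omega)))
          exact (some_eq_nu.2 ⟨rfl, by simp only; omega⟩).symm
  · rintro ⟨r, m⟩ ha
    obtain ⟨a1, a2, a3, a4⟩ := (hact _ _).1 ha
    simp only [model, M0]
    rw [mX_wrd c k N M hM N le_rfl a1 a2 a4.le, lead_fr h.hG (by omega),
      hx _ _ (by omega) (by omega)]
    exact UnitSet.Eqv.symm ⟨_, U.mul _ _ hs (hτ _ _), rfl⟩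
  · rintro ⟨r, m⟩ ⟨r', m'⟩ ha hb
    obtain ⟨a1, a2, a3, a4⟩ := (hact _ _).1 ha
    obtain ⟨b1, b2, b3, b4⟩ := (hact _ _).1 hb
    obtain ⟨i, j, e1, e2, e3⟩ := form r m a1 a2 a3 a4
    obtain ⟨i', j', e1', e2', e3'⟩ := form r' m' b1 b2 b3 b4
    simp only [model, mB_wrd c k N a1 a2 a4 b1 b2 b4, e1, e1', rectSeed, arrowCount]
    exact arrow_eq (N := N) e2 (by omega) e2' (by omega)
  · rintro ⟨r, m⟩ ha
    obtain ⟨a1, a2, a3, a4⟩ := (hact _ _).1 ha
    obtain ⟨r, rfl⟩ : ∃ r', r = r' + 1 := ⟨r - 1, by omega⟩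
    obtain ⟨m, rfl⟩ : ∃ m', m = m' + 1 := ⟨m - 1, by omega⟩
    obtain ⟨j, hj⟩ : ∃ j, N = m + 2 + j := ⟨N - (m + 2), by omega⟩
    simp only [model, M0]
    rw [mY_wrd c k N M hM a2 a4, show N - (m + 1) = j + 1 by omega,
      rect_yhat hkn nz (by omega) (by omega)]
    simp only [M]
    rw [show N - m = j + 2 by omega, show N - (m + 1) = j + 1 by omega,
      show N - (m + 2) = j by omega]
    rw [lead_fr h.hG (by omega), lead_fr h.hG (by omega), lead_fr h.hG (by omega),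
      lead_fr h.hG (by omega), lead_fr h.hG (by omega), lead_fr h.hG (by omega),
      ← hx (r + 2) (j + 2) (by omega) (by omega), ← hx (r + 1) (j + 2) (by omega) (by omega),
      ← hx (r + 1) j (by omega) (by omega), ← hx (r + 2) (j + 1) (by omega) (by omega),
      ← hx r (j + 1) (by omega) (by omega), ← hx r j (by omega) (by omega)]
    have bal := congrArg Units.val (tau_balance t (k := k + 1) (r := r) (by omega) j)
    simp only [Units.val_mul] at bal
    have s0 := U.ne _ hs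
    generalize G.det * sgn (RatFn (k + 1) n) (k + 1) = s at s0
    have := nz (nu (k + 1) n (r + 2) (j + 1))
    have := nz (nu (k + 1) n (r + 1) (j + 2))
    have := nz (nu (k + 1) n r j)
    have := (tau t (k + 1) (r + 2) (j + 1)).ne_zero
    have := (tau t (k + 1) (r + 1) (j + 2)).ne_zero
    have := (tau t (k + 1) r j).ne_zero
    field_simp
    linear_combination (-((rectSeed hkn).x (nu (k + 1) n r (j + 1)) *
      (rectSeed hkn).x (nu (k + 1) n (r + 1) j) *
      (rectSeed hkn).x (nu (k + 1) n (r + 2) (j + 2)))) * bal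

/-- A point of the open cell with connected matroid lies in some cluster torus. -/
theorem connected_in_torus (hk : 1 ≤ k) (hkn : k < n) (X : Matrix (Fin k) (Fin n) ℂ)
    (hX : InOpenCell X) (hc : ¬ MatroidDisconnected X) :
    ∃ S, Reachable IsMutable (rectSeed hkn) S ∧ ∀ v, NonzeroAt (S.x v) X := by
  obtain ⟨k, rfl⟩ : ∃ k', k = k' + 1 := ⟨k - 1, by omega⟩
  obtain ⟨O, _, a, j, ρ, ja, ρa, hρ, hU⟩ := exists_local X
  let v : ℕ → Fin (k + 1) → O := colv ((Matrix.mvPolynomialX (Fin (k + 1)) (Fin n) ℂ).map a)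
  have vρ : mapV ρ v = colv X := by
    refine (colv_map ρ _).trans ?_
    congr 1
    ext i l
    simp [ρa]
  have plρ : ∀ i l, ρ (Pl v i l) = Pl (colv X) i l := fun i l => by rw [Pl_map, ← vρ]; rfl
  have u1 : ∀ l, l ≤ n - (k + 1) → IsUnit (Pl v (k + 1) l) := fun l hl =>
    hρ _ (by rw [plρ]; exact Pl_window hk hkn hX hl)
  have u2 : ∀ i, i ≤ k + 1 → IsUnit (Pl v i (n - (k + 1))) := fun i hi =>
    hρ _ (by rw [plρ]; exact Pl_wrap hk hkn hX hi)
  obtain ⟨t, G, c, uG, hG, hc'⟩ := exists_frames (n - (k + 1)) v u1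
  have D : FrData (n - (k + 1)) v t G c := ⟨hG, hc'⟩
  have Dρ := D.map ρ
  rw [vρ] at Dρ
  obtain ⟨val, good⟩ := good_start hkn hX hc Dρ
  let C : Ctx (Vertex (k + 1) n) (RatFn (k + 1) n) :=
    ⟨nzAt X, IsMutable, fun a => nu (k + 1) n a.1 (n - (k + 1) - a.2), rectSeed hkn,
      rect_skew hkn, reach_ne_zero hkn⟩
  refine good.lift C j ρ hρ hU (pairM (eps G) (fr t v 0)) (wrd c k (n - (k + 1))) ?_ ?_ val ?_
  · rw [mapM_pairM, mapV_fr, vρ]
  · rw [mapW_wrd]
  · refine ⟨_, Reachable.refl, ?_⟩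
    rw [mapM_pairM, mapV_fr, mapW_wrd]
    have plj : ∀ i l, Pl (mapV j v) i l = j (Pl v i l) := fun i l => (Pl_map j v i l).symm
    refine rel_start hkn (nzAt X) rfl (D.map j) ?_ (fun m => hU _ (t m).isUnit) ?_
      (fun l hl => by rw [plj]; exact hU _ (u1 l hl))
      (fun i hi => by rw [plj]; exact hU _ (u2 i hi))
    · intro i l hi hl
      simp only [rectSeed]
      rw [det_rectCol hkn _ hi hl, plj, ← ja, Pl_map a, colv_map]
    · have := hU _ (uG.mul (isUnit_sgn (R := O) (k := k + 1)))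
      rw [map_mul, RingHom.map_det] at this
      have e : j (sgn O (k + 1)) = sgn (RatFn (k + 1) n) (k + 1) := by simp [sgn]
      rw [e] at this
      exact this

end Pool.Agent.MP_122b1e_ag
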