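import Mathlib

set_option autoImplicit false

namespace Pool.Agent.MP_122b1e_ag

variable {R : Type} [CommRing R]

/-- Infinite matrices. -/
abbrev Mat (R : Type) : Type := ℕ → ℕ → R

/-- Leading principal minor of size `r`. -/
def lead (r : ℕ) (M : Mat R) : R := (Matrix.of fun i j : Fin r => M i j).det

def tr (M : Mat R) : Mat R := fun i j => M j i

/-- Column operation of the braid letter `p` with parameter `z`. -/
def colOp (p : ℕ) (z : R) (M : Mat R) : Mat R := fun i j =>
  if j = p then z * M i p + M i (p + 1) else if j = p + 1 then -M i p else M i j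

def rowOp (p : ℕ) (w : R) (M : Mat R) : Mat R := fun i j =>
  if i = p then w * M p j + M (p + 1) j else if i = p + 1 then -M p j else M i j

def rowInv (p : ℕ) (w : R) (M : Mat R) : Mat R := fun i j =>
  if i = p then -M (p + 1) j else if i = p + 1 then M p j + w * M (p + 1) j else M i j

lemma rowOp_eq (p : ℕ) (w : R) (M : Mat R) : rowOp p w M = tr (colOp p w (tr M)) := rfl

lemma rowOp_rowInv (p : ℕ) (w : R) (M : Mat R) : rowOp p w (rowInv p w M) = M := by
  funext i j
  simp only [rowOp, rowInv]
  split_ifs with h1 h2 <;> simp_all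

lemma rowInv_rowOp (p : ℕ) (w : R) (M : Mat R) : rowInv p w (rowOp p w M) = M := by
  funext i j
  simp only [rowOp, rowInv]
  split_ifs with h1 h2 <;> simp_all

lemma rowOp_colOp (p q : ℕ) (w z : R) (M : Mat R) :
    rowOp p w (colOp q z M) = colOp q z (rowOp p w M) := by
  funext i j
  simp only [rowOp, colOp]
  split_ifs <;> ring

lemma rowInv_colOp (p q : ℕ) (w z : R) (M : Mat R) :
    rowInv p w (colOp q z M) = colOp q z (rowInv p w M) := by
  funext i j
  simp only [rowInv, colOp]
  split_ifs <;> ring

lemma lead_tr (r : ℕ) (M : Mat R) : lead r (tr M) = lead r M := by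
  unfold lead
  rw [← Matrix.det_transpose]; rfl

@[simp] lemma lead_zero (M : Mat R) : lead 0 M = 1 := by simp [lead]

lemma lead_congr {r : ℕ} {M M' : Mat R} (h : ∀ i j, i < r → j < r → M i j = M' i j) :
    lead r M = lead r M' := by
  unfold lead
  congr 1
  ext i j
  exact h _ _ i.2 j.2

def addCol (i j : ℕ) (c : R) (M : Mat R) : Mat R := fun a b =>
  if b = i then M a i + c * M a j else M a b

lemma lead_addCol {r i j : ℕ} (hi : i < r) (hj : j < r) (hij : i ≠ j) (c : R) (M : Mat R) :
    lead r (addCol i j c M) = lead r M := by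
  unfold lead
  have := Matrix.det_updateCol_add_smul_self (Matrix.of fun a b : Fin r => M a b)
    (i := ⟨i, hi⟩) (j := ⟨j, hj⟩) (by simpa using hij) c
  rw [← this]
  congr 1
  ext a b
  simp only [Matrix.of_apply, addCol, Matrix.updateCol_apply, Fin.ext_iff, smul_eq_mul]

lemma colOp_eq_addCol (p : ℕ) (z : R) (M : Mat R) :
    colOp p z M = addCol (p + 1) p (-1) (addCol p (p + 1) 1 (addCol (p + 1) p (z - 1) M)) := by
  funext i j
  simp only [colOp, addCol]
  split_ifs <;> first | omega | ring | simp_all

lemma lead_colOp {r p : ℕ} (h : r ≠ p + 1) (z : R) (M : Mat R) :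
    lead r (colOp p z M) = lead r M := by
  rcases Nat.lt_or_gt_of_ne h with h | h
  · refine lead_congr fun i j _ hj => ?_
    simp only [colOp]
    rw [if_neg (by omega), if_neg (by omega)]
  · rw [colOp_eq_addCol, lead_addCol h (by omega) (by omega),
      lead_addCol (by omega) h (by omega), lead_addCol h (by omega) (by omega)]

lemma lead_rowOp {r p : ℕ} (h : r ≠ p + 1) (z : R) (M : Mat R) :
    lead r (rowOp p z M) = lead r M := by
  rw [rowOp_eq, lead_tr, lead_colOp h, lead_tr]

lemma lead_rowInv {r p : ℕ} (h : r ≠ p + 1) (z : R) (M : Mat R) :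
    lead r (rowInv p z M) = lead r M := by
  conv_rhs => rw [← rowOp_rowInv p z M]
  rw [lead_rowOp h]

/-- Schur complement of the leading `p × p` block. -/
noncomputable def schur (p : ℕ) (M : Mat R) : Mat R := fun i j =>
  M i j - ∑ a : Fin p, ∑ b : Fin p,
    M i a * (Matrix.of fun a b : Fin p => M a b)⁻¹ a b * M b j

lemma lead_add {p : ℕ} {M : Mat R} (h : IsUnit (lead p M)) (q : ℕ) :
    lead (p + q) M =
      lead p M * (Matrix.of fun i j : Fin q => schur p M (p + i) (p + j)).det := by
  let A : Matrix (Fin p) (Fin p) R := Matrix.of fun a b : Fin p => M a b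
  haveI : Invertible A := Matrix.invertibleOfIsUnitDet A h
  have e : (Matrix.of fun i j : Fin (p + q) => M i j).submatrix finSumFinEquiv finSumFinEquiv =
      Matrix.fromBlocks A (Matrix.of fun (i : Fin p) (j : Fin q) => M i (p + j))
        (Matrix.of fun (i : Fin q) (j : Fin p) => M (p + i) j)
        (Matrix.of fun i j : Fin q => M (p + i) (p + j)) := by
    ext i j
    rcases i with i | i <;> rcases j with j | j <;> simp [A]
  rw [lead, ← Matrix.det_submatrix_equiv_self finSumFinEquiv, e, Matrix.det_fromBlocks₁₁]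
  congr 2
  ext i j
  simp only [Matrix.sub_apply, Matrix.of_apply, schur, Matrix.mul_apply, Finset.sum_mul,
    Matrix.invOf_eq_nonsing_inv]
  rw [Finset.sum_comm]

lemma lead_succ {p : ℕ} {M : Mat R} (h : IsUnit (lead p M)) :
    lead (p + 1) M = lead p M * schur p M p p := by
  rw [lead_add h 1]; simp

lemma lead_succ_succ {p : ℕ} {M : Mat R} (h : IsUnit (lead p M)) :
    lead (p + 2) M = lead p M * (schur p M p p * schur p M (p + 1) (p + 1) -
      schur p M p (p + 1) * schur p M (p + 1) p) := by
  rw [lead_add h 2, Matrix.det_fin_two]; simp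

lemma schur_colOp (p : ℕ) (z : R) (M : Mat R) :
    schur p (colOp p z M) = colOp p z (schur p M) := by
  have e : (Matrix.of fun a b : Fin p => colOp p z M a b) = Matrix.of fun a b : Fin p => M a b := by
    ext a b
    have := b.2
    simp only [Matrix.of_apply, colOp]
    rw [if_neg (by omega), if_neg (by omega)]
  have e' : ∀ i (a : Fin p), colOp p z M i a = M i a := by
    intro i a
    have := a.2
    simp only [colOp]
    rw [if_neg (by omega), if_neg (by omega)]
  funext i j
  simp only [schur, e, e']
  simp only [colOp]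
  split_ifs
  · simp only [mul_add, Finset.sum_add_distrib, mul_sub, Finset.mul_sum, schur]
    have : ∀ a b : Fin p, M i a * (Matrix.of fun a b : Fin p => M a b)⁻¹ a b * (z * M b p) =
      z * (M i a * (Matrix.of fun a b : Fin p => M a b)⁻¹ a b * M b p) := by intros; ring
    simp only [this]; ring
  · simp only [mul_neg, Finset.sum_neg_distrib, schur]; ring
  · rfl

lemma schur_rowOp (p : ℕ) (z : R) (M : Mat R) :
    schur p (rowOp p z M) = rowOp p z (schur p M) := by
  have e : (Matrix.of fun a b : Fin p => rowOp p z M a b) = Matrix.of fun a b : Fin p => M a b := by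
    ext a b
    have := a.2
    simp only [Matrix.of_apply, rowOp]
    rw [if_neg (by omega), if_neg (by omega)]
  have e' : ∀ i (a : Fin p), rowOp p z M a i = M a i := by
    intro i a
    have := a.2
    simp only [rowOp]
    rw [if_neg (by omega), if_neg (by omega)]
  funext i j
  simp only [schur, e, e']
  simp only [rowOp]
  split_ifs
  · simp only [add_mul, Finset.sum_add_distrib, mul_sub, Finset.mul_sum, schur]
    have : ∀ a b : Fin p, z * M p a * (Matrix.of fun a b : Fin p => M a b)⁻¹ a b * M b j =
      z * (M p a * (Matrix.of fun a b : Fin p => M a b)⁻¹ a b * M b j) := by intros; ring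
    simp only [this]; ring
  · simp only [neg_mul, Finset.sum_neg_distrib, schur]; ring
  · rfl

lemma lead_succ_colOp {p : ℕ} {M : Mat R} (h : IsUnit (lead p M)) (z : R) :
    lead (p + 1) (colOp p z M) = lead p M * (z * schur p M p p + schur p M p (p + 1)) := by
  rw [lead_succ (by rwa [lead_colOp (by omega)]), lead_colOp (by omega), schur_colOp]
  simp [colOp]

lemma lead_succ_rowOp {p : ℕ} {M : Mat R} (h : IsUnit (lead p M)) (z : R) :
    lead (p + 1) (rowOp p z M) = lead p M * (z * schur p M p p + schur p M (p + 1) p) := by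
  rw [lead_succ (by rwa [lead_rowOp (by omega)]), lead_rowOp (by omega), schur_rowOp]
  simp [rowOp]

/-- The exchange identity. -/
lemma lead_key {p : ℕ} {M : Mat R} (h : IsUnit (lead p M)) (w z : R) :
    lead (p + 1) M * lead (p + 1) (rowOp p w (colOp p z M)) =
      lead (p + 1) (rowOp p w M) * lead (p + 1) (colOp p z M) + lead p M * lead (p + 2) M := by
  rw [lead_succ_rowOp (M := colOp p z M) (by rwa [lead_colOp (by omega)]), lead_colOp (by omega),
    schur_colOp, lead_succ_rowOp h, lead_succ_colOp h, lead_succ_succ h, lead_succ h]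
  simp only [colOp, if_true, Nat.add_eq_left, one_ne_zero, if_false]
  ring

lemma lead_colOp_lin {p : ℕ} {M : Mat R} (h : IsUnit (lead p M)) (z : R) :
    lead (p + 1) (colOp p z M) = z * lead (p + 1) M + lead (p + 1) (colOp p 0 M) := by
  rw [lead_succ_colOp h, lead_succ_colOp h, lead_succ h]; ring

lemma lead_rowOp_lin {p : ℕ} {M : Mat R} (h : IsUnit (lead p M)) (z : R) :
    lead (p + 1) (rowOp p z M) = z * lead (p + 1) M + lead (p + 1) (rowOp p 0 M) := by
  rw [lead_succ_rowOp h, lead_succ_rowOp h, lead_succ h]; ring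

lemma exists_colOp_zero {p : ℕ} {M : Mat R} (h : IsUnit (lead p M))
    (h' : IsUnit (lead (p + 1) M)) : ∃ z, lead (p + 1) (colOp p z M) = 0 := by
  obtain ⟨u, hu⟩ := h'
  refine ⟨-(lead (p + 1) (colOp p 0 M)) * ↑u⁻¹, ?_⟩
  rw [lead_colOp_lin h, ← hu, mul_assoc, Units.inv_mul]; ring

lemma exists_rowOp_zero {p : ℕ} {M : Mat R} (h : IsUnit (lead p M))
    (h' : IsUnit (lead (p + 1) M)) : ∃ z, lead (p + 1) (rowOp p z M) = 0 := by
  obtain ⟨u, hu⟩ := h'
  refine ⟨-(lead (p + 1) (rowOp p 0 M)) * ↑u⁻¹, ?_⟩
  rw [lead_rowOp_lin h, ← hu, mul_assoc, Units.inv_mul]; ring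

section Map
variable {R' : Type} [CommRing R'] (f : R →+* R')

def mapM (M : Mat R) : Mat R' := fun i j => f (M i j)

lemma lead_map (r : ℕ) (M : Mat R) : lead r (mapM f M) = f (lead r M) := by
  unfold lead
  rw [RingHom.map_det]; rfl

lemma mapM_colOp (p : ℕ) (z : R) (M : Mat R) :
    mapM f (colOp p z M) = colOp p (f z) (mapM f M) := by
  funext i j
  simp only [mapM, colOp]
  split_ifs <;> simp

lemma mapM_rowOp (p : ℕ) (z : R) (M : Mat R) :
    mapM f (rowOp p z M) = rowOp p (f z) (mapM f M) := by
  funext i j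
  simp only [mapM, rowOp]
  split_ifs <;> simp

lemma mapM_rowInv (p : ℕ) (z : R) (M : Mat R) :
    mapM f (rowInv p z M) = rowInv p (f z) (mapM f M) := by
  funext i j
  simp only [mapM, rowInv]
  split_ifs <;> simp

end Map

end Pool.Agent.MP_122b1e_ag
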