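import Pool.Agent.MP_122b1e_ag.Tri
import Pool.Agent.MP_122b1e_ag.Minor

set_option autoImplicit false

namespace Pool.Agent.MP_122b1e_ag

/-- Letters of a double braid word, with parameters. -/
inductive Letter (R : Type) where
  | top (p : ℕ) (z : R) : Letter R
  | bot (p : ℕ) (z : R) : Letter R

section Ring
variable {R : Type} [CommRing R]

def Letter.pos : Letter R → ℕ
  | .top p _ => p
  | .bot p _ => p

def Letter.step : Letter R → Mat R → Mat R
  | .top p z, M => colOp p z M
  | .bot p z, M => rowInv p z M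

def run : Mat R → List (Letter R) → Mat R
  | M, [] => M
  | M, s :: w => run (s.step M) w

def cnt (r : ℕ) : List (Letter R) → ℕ
  | [] => 0
  | s :: w => cnt r w + if s.pos + 1 = r then 1 else 0

lemma run_append (M : Mat R) (w w' : List (Letter R)) :
    run M (w ++ w') = run (run M w) w' := by
  induction w generalizing M with
  | nil => rfl
  | cons s w ih => exact ih _

omit [CommRing R] in
lemma cnt_append (r : ℕ) (w w' : List (Letter R)) : cnt r (w ++ w') = cnt r w + cnt r w' := by
  induction w with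
  | nil => simp [cnt]
  | cons s w ih => simp only [List.cons_append, cnt, ih]; omega

lemma lead_step {r : ℕ} {s : Letter R} (h : s.pos + 1 ≠ r) (M : Mat R) :
    lead r (s.step M) = lead r M := by
  cases s with
  | top p z => exact lead_colOp (Ne.symm h) _ _
  | bot p z => exact lead_rowInv (Ne.symm h) _ _

lemma lead_run {r : ℕ} {w : List (Letter R)} (h : cnt r w = 0) (M : Mat R) :
    lead r (run M w) = lead r M := by
  induction w generalizing M with
  | nil => rfl
  | cons s w ih =>
    simp only [cnt] at h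
    have h1 : s.pos + 1 ≠ r := by intro e; simp [e] at h
    rw [run, ih (by omega), lead_step h1]

end Ring

variable {K : Type} [Field K]

abbrev Name : Type := ℕ × ℕ

def triS : Letter K → List (Letter K) → Name → Name → ℤ
  | .top p _, w => triB (p + 1, cnt (p + 1) w + 1) (p + 1, cnt (p + 1) w) (p + 2, cnt (p + 2) w)
  | .bot p _, w => triB (p + 1, cnt (p + 1) w) (p + 1, cnt (p + 1) w + 1) (p, cnt p w)

def triYS : Letter K → List (Letter K) → Mat K → Name → K
  | .top p z, w, M => triY (p + 1, cnt (p + 1) w + 1) (p + 1, cnt (p + 1) w)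
      (p + 2, cnt (p + 2) w) (lead (p + 1) M) (lead (p + 1) (colOp p z M)) (lead (p + 2) M)
  | .bot p z, w, M => triY (p + 1, cnt (p + 1) w) (p + 1, cnt (p + 1) w + 1) (p, cnt p w)
      (lead (p + 1) (rowInv p z M)) (lead (p + 1) M) (lead p M)

def mB : List (Letter K) → Name → Name → ℤ
  | [], _, _ => 0
  | s :: w, u, v => triS s w u v + mB w u v

def mY : Mat K → List (Letter K) → Name → K
  | _, [], _ => 1
  | M, s :: w, v => triYS s w M v * mY (s.step M) w v

def mX : Mat K → List (Letter K) → Name → K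
  | M, [], v => lead v.1 M
  | M, s :: w, v => if v.2 ≤ cnt v.1 w then mX (s.step M) w v else lead v.1 M

def act (w : List (Letter K)) (v : Name) : Prop := 1 ≤ v.2 ∧ v.2 < cnt v.1 w

/-- The reduced seed of a matrix and a double word. -/
def model (M : Mat K) (w : List (Letter K)) : RSeed Name K := ⟨act w, mX M w, mB w, mY M w⟩

omit [Field K] in
lemma triS_big (s : Letter K) (w : List (Letter K)) {u : Name} (h : cnt u.1 (s :: w) < u.2)
    (v : Name) : triS s w u v = 0 ∧ triS s w v u = 0 := by
  obtain ⟨r, m⟩ := u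
  cases s with
  | top p z =>
    simp only [cnt, Letter.pos] at h
    have h1 : (r, m) ≠ (p + 1, cnt (p + 1) w + 1) := by
      intro e; simp only [Prod.mk.injEq] at e; obtain ⟨rfl, rfl⟩ := e; simp at h
    have h2 : (r, m) ≠ (p + 1, cnt (p + 1) w) := by
      intro e; simp only [Prod.mk.injEq] at e; obtain ⟨rfl, rfl⟩ := e; omega
    have h3 : (r, m) ≠ (p + 2, cnt (p + 2) w) := by
      intro e; simp only [Prod.mk.injEq] at e; obtain ⟨rfl, rfl⟩ := e; omega
    exact ⟨triB_left h1 h2 h3 _, triB_right h1 h2 h3 _⟩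
  | bot p z =>
    simp only [cnt, Letter.pos] at h
    have h1 : (r, m) ≠ (p + 1, cnt (p + 1) w + 1) := by
      intro e; simp only [Prod.mk.injEq] at e; obtain ⟨rfl, rfl⟩ := e; simp at h
    have h2 : (r, m) ≠ (p + 1, cnt (p + 1) w) := by
      intro e; simp only [Prod.mk.injEq] at e; obtain ⟨rfl, rfl⟩ := e; omega
    have h3 : (r, m) ≠ (p, cnt p w) := by
      intro e; simp only [Prod.mk.injEq] at e; obtain ⟨rfl, rfl⟩ := e; omega
    exact ⟨triB_left h2 h1 h3 _, triB_right h2 h1 h3 _⟩

lemma triYS_big (s : Letter K) (w : List (Letter K)) (M : Mat K) {u : Name}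
    (h : cnt u.1 (s :: w) < u.2) : triYS s w M u = 1 := by
  obtain ⟨r, m⟩ := u
  cases s with
  | top p z =>
    simp only [cnt, Letter.pos] at h
    have h1 : (r, m) ≠ (p + 1, cnt (p + 1) w + 1) := by
      intro e; simp only [Prod.mk.injEq] at e; obtain ⟨rfl, rfl⟩ := e; simp at h
    have h2 : (r, m) ≠ (p + 1, cnt (p + 1) w) := by
      intro e; simp only [Prod.mk.injEq] at e; obtain ⟨rfl, rfl⟩ := e; omega
    have h3 : (r, m) ≠ (p + 2, cnt (p + 2) w) := by
      intro e; simp only [Prod.mk.injEq] at e; obtain ⟨rfl, rfl⟩ := e; omega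
    exact triY_ne h1 h2 h3 _ _ _
  | bot p z =>
    simp only [cnt, Letter.pos] at h
    have h1 : (r, m) ≠ (p + 1, cnt (p + 1) w + 1) := by
      intro e; simp only [Prod.mk.injEq] at e; obtain ⟨rfl, rfl⟩ := e; simp at h
    have h2 : (r, m) ≠ (p + 1, cnt (p + 1) w) := by
      intro e; simp only [Prod.mk.injEq] at e; obtain ⟨rfl, rfl⟩ := e; omega
    have h3 : (r, m) ≠ (p, cnt p w) := by
      intro e; simp only [Prod.mk.injEq] at e; obtain ⟨rfl, rfl⟩ := e; omega
    exact triY_ne h2 h1 h3 _ _ _

omit [Field K] in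
lemma triS_small (s : Letter K) (w : List (Letter K)) {u : Name} (h : u.2 < cnt u.1 w)
    (v : Name) : triS s w u v = 0 ∧ triS s w v u = 0 := by
  obtain ⟨r, m⟩ := u
  have h0 : ∀ r' m', cnt r' w ≤ m' → (r, m) ≠ (r', m') := by
    intro r' m' hm e; simp only [Prod.mk.injEq] at e; obtain ⟨rfl, rfl⟩ := e
    simp only at h; omega
  cases s with
  | top p z =>
    exact ⟨triB_left (h0 _ _ (by omega)) (h0 _ _ le_rfl) (h0 _ _ le_rfl) _,
      triB_right (h0 _ _ (by omega)) (h0 _ _ le_rfl) (h0 _ _ le_rfl) _⟩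
  | bot p z =>
    exact ⟨triB_left (h0 _ _ le_rfl) (h0 _ _ (by omega)) (h0 _ _ le_rfl) _,
      triB_right (h0 _ _ le_rfl) (h0 _ _ (by omega)) (h0 _ _ le_rfl) _⟩

lemma triYS_small (s : Letter K) (w : List (Letter K)) (M : Mat K) {u : Name}
    (h : u.2 < cnt u.1 w) : triYS s w M u = 1 := by
  obtain ⟨r, m⟩ := u
  have h0 : ∀ r' m', cnt r' w ≤ m' → (r, m) ≠ (r', m') := by
    intro r' m' hm e; simp only [Prod.mk.injEq] at e; obtain ⟨rfl, rfl⟩ := e
    simp only at h; omega
  cases s with
  | top p z => exact triY_ne (h0 _ _ (by omega)) (h0 _ _ le_rfl) (h0 _ _ le_rfl) _ _ _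
  | bot p z => exact triY_ne (h0 _ _ le_rfl) (h0 _ _ (by omega)) (h0 _ _ le_rfl) _ _ _

omit [Field K] in
lemma cnt_le_cons (r : ℕ) (s : Letter K) (w : List (Letter K)) : cnt r w ≤ cnt r (s :: w) := by
  simp [cnt]

omit [Field K] in
lemma mB_big (w : List (Letter K)) {u : Name} (h : cnt u.1 w < u.2) (v : Name) :
    mB w u v = 0 ∧ mB w v u = 0 := by
  induction w with
  | nil => simp [mB]
  | cons s w ih =>
    have := cnt_le_cons u.1 s w
    simp [mB, triS_big s w h v, ih (by omega)]

lemma mY_big (M : Mat K) (w : List (Letter K)) {u : Name} (h : cnt u.1 w < u.2) :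
    mY M w u = 1 := by
  induction w generalizing M with
  | nil => simp [mY]
  | cons s w ih =>
    have := cnt_le_cons u.1 s w
    simp [mY, triYS_big s w M h, ih _ (by omega)]

lemma mX_big (M : Mat K) (w : List (Letter K)) {u : Name} (h : cnt u.1 w ≤ u.2) :
    mX M w u = lead u.1 M := by
  induction w generalizing M with
  | nil => rfl
  | cons s w ih =>
    have := cnt_le_cons u.1 s w
    simp only [mX]
    split_ifs with h1
    · rw [ih _ (by omega), lead_step]
      intro e
      simp only [cnt, e, if_true] at h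
      omega
    · rfl

lemma mX_append (M : Mat K) (pre suf : List (Letter K)) {u : Name} (h : u.2 ≤ cnt u.1 suf) :
    mX M (pre ++ suf) u = mX (run M pre) suf u := by
  induction pre generalizing M with
  | nil => rfl
  | cons s w ih =>
    simp only [List.cons_append, mX, run]
    rw [if_pos (by rw [cnt_append]; omega), ih]

lemma mX_split (M : Mat K) (pre suf : List (Letter K)) (r : ℕ) :
    mX M (pre ++ suf) (r, cnt r suf) = lead r (run M pre) := by
  rw [mX_append _ _ _ le_rfl, mX_big _ _ le_rfl]

lemma mX_append_big (M : Mat K) (pre suf suf' : List (Letter K))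
    (hc : ∀ r, cnt r suf = cnt r suf') {u : Name} (h : cnt u.1 suf ≤ u.2) :
    mX M (pre ++ suf) u = mX M (pre ++ suf') u := by
  induction pre generalizing M with
  | nil => simp only [List.nil_append]; rw [mX_big _ _ h, mX_big _ _ (by rw [← hc]; exact h)]
  | cons s w ih =>
    simp only [List.cons_append, mX, cnt_append, hc, ih]

lemma pre_split (M : Mat K) (pre suf suf' : List (Letter K))
    (hc : ∀ r, cnt r suf = cnt r suf') :
    ∃ (Bp : Name → Name → ℤ) (Yp : Name → K),
      (∀ u v, mB (pre ++ suf) u v = Bp u v + mB suf u v) ∧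
      (∀ u v, mB (pre ++ suf') u v = Bp u v + mB suf' u v) ∧
      (∀ v, mY M (pre ++ suf) v = Yp v * mY (run M pre) suf v) ∧
      (∀ v, mY M (pre ++ suf') v = Yp v * mY (run M pre) suf' v) ∧
      (∀ u : Name, u.2 < cnt u.1 suf → (∀ v, Bp u v = 0 ∧ Bp v u = 0) ∧ Yp u = 1) := by
  induction pre generalizing M with
  | nil => exact ⟨fun _ _ => 0, fun _ => 1, by simp, by simp, by simp [run], by simp [run],
      by simp⟩
  | cons s w ih =>
    obtain ⟨Bp, Yp, h1, h2, h3, h4, h5⟩ := ih (s.step M)
    have e1 : triS s (w ++ suf') = triS s (w ++ suf) := by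
      cases s <;> simp only [triS, cnt_append, hc]
    have e2 : triYS s (w ++ suf') M = triYS s (w ++ suf) M := by
      cases s <;> simp only [triYS, cnt_append, hc]
    refine ⟨fun u v => triS s (w ++ suf) u v + Bp u v,
      fun v => triYS s (w ++ suf) M v * Yp v, ?_, ?_, ?_, ?_, ?_⟩
    · intro u v; simp only [List.cons_append, mB, h1, add_assoc]
    · intro u v; simp only [List.cons_append, mB, h2, add_assoc, e1]
    · intro v; simp only [List.cons_append, mY, h3, mul_assoc, run]
    · intro v; simp only [List.cons_append, mY, h4, mul_assoc, run, e2]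
    · intro u hu
      have hu' : u.2 < cnt u.1 (w ++ suf) := by rw [cnt_append]; omega
      refine ⟨fun v => ?_, ?_⟩
      · simp [triS_small s _ hu' v, (h5 u hu).1 v]
      · simp [triYS_small s _ M hu', (h5 u hu).2]

end Pool.Agent.MP_122b1e_ag
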