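import Pool.Agent.MP_122b1e_ag.Model

set_option autoImplicit false

namespace Pool.Agent.MP_122b1e_ag

variable {ι K : Type} [Fintype ι] [DecidableEq ι] [Field K]

/-- Frozen values are units. -/
structure Valid (k : ℕ) (U : UnitSet K) (M : Mat K) (w : List (Letter K)) : Prop where
  pos : ∀ s ∈ w, s.pos + 1 < k
  start : ∀ r ≤ k, U.mem (lead r M)
  stop : ∀ r ≤ k, U.mem (lead r (run M w))

lemma Valid.unit {k : ℕ} {U : UnitSet K} {M : Mat K} {pre suf : List (Letter K)}
    (h : Valid k U M (pre ++ suf)) {r : ℕ} (hr : r ≤ k) (ha : ¬ act (pre ++ suf) (r, cnt r suf)) :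
    U.mem (lead r (run M pre)) := by
  simp only [act, cnt_append, not_and, not_lt] at ha
  by_cases h0 : cnt r suf = 0
  · have := h.stop r hr
    rwa [run_append, lead_run h0] at this
  · rw [lead_run (by omega)]
    exact h.start r hr

/-- Global data: the initial seed and the labelling of vertices. -/
structure Ctx (ι K : Type) [Fintype ι] [DecidableEq ι] [Field K] where
  U : UnitSet K
  mu : ι → Prop
  φ : Name → ι
  S₀ : Seed ι K
  skew : S₀.Skew
  nz : ∀ S, Reachable mu S₀ S → ∀ v, S.x v ≠ 0

/-- Some reachable seed is modelled by the matrix and the word. -/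
def Ctx.Mod (C : Ctx ι K) (M : Mat K) (w : List (Letter K)) : Prop :=
  ∃ S, Reachable C.mu C.S₀ S ∧ Rel C.U C.mu C.φ S (model M w)

lemma Ctx.Mod.nz {C : Ctx ι K} {k : ℕ} {M : Mat K} {pre suf : List (Letter K)}
    (h : C.Mod M (pre ++ suf)) (hv : Valid k C.U M (pre ++ suf)) {r : ℕ} (hr : r ≤ k) :
    lead r (run M pre) ≠ 0 := by
  by_cases ha : act (pre ++ suf) (r, cnt r suf)
  · obtain ⟨S, hS, hR⟩ := h
    obtain ⟨u, _, hu⟩ := hR.x _ ha
    intro e
    apply C.nz S hS (C.φ (r, cnt r suf))
    rw [hu]
    simp only [model, mX_split, e, mul_zero]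
  · exact C.U.ne _ (hv.unit hr ha)

lemma Ctx.Mod.nil {C : Ctx ι K} {M : Mat K} (h : C.Mod M []) :
    ∃ S, Reachable C.mu C.S₀ S ∧ ∀ v, C.U.mem (S.x v) := by
  obtain ⟨S, hS, hR⟩ := h
  refine ⟨S, hS, fun v => hR.unit v fun a ha => ?_⟩
  simp [model, act, cnt] at ha

lemma Ctx.Mod.delete {C : Ctx ι K} {M : Mat K} {p : ℕ} {z : K} {w : List (Letter K)}
    (h : C.Mod M (.top p z :: w)) (hu : C.U.mem (lead (p + 1) (colOp p z M))) :
    C.Mod (colOp p z M) w := by
  obtain ⟨S, hS, hR⟩ := h
  refine ⟨S, hS, hR.shrink ?_ ?_ ?_ ?_ ?_⟩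
  · intro a ha
    have := cnt_le_cons a.1 (.top p z) w
    exact ⟨ha.1, by have := ha.2; omega⟩
  · rintro ⟨r, m⟩ ha hb
    simp only [model, act, cnt, Letter.pos, not_and, not_lt] at ha hb
    have h1 : p + 1 = r := by
      by_contra h1
      simp only [h1, if_false] at ha
      omega
    subst h1
    simp only [if_true] at ha
    have h2 : m = cnt (p + 1) w := by omega
    subst h2
    have := mX_split M [.top p z] w (p + 1)
    simp only [List.singleton_append, run, Letter.step] at this
    simp only [model, this]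
    exact hu
  · intro a ha
    simp only [model, mX, Letter.step]
    rw [if_pos ha.2.le]
  · intro a b ha hb
    simp only [model, mB, (triS_small _ _ ha.2 b).1, zero_add]
  · intro a ha
    simp only [model, mY, triYS_small _ _ _ ha.2, one_mul, Letter.step]

lemma Ctx.Mod.left {C : Ctx ι K} {k : ℕ} {M : Mat K} {p : ℕ} {z ω : K} {w : List (Letter K)}
    (h : C.Mod M (.top p z :: w)) (hv : Valid k C.U M (.top p z :: w))
    (hω : lead (p + 1) (rowOp p ω M) = 0) :
    C.Mod (rowOp p ω (colOp p z M)) (.bot p ω :: w) := by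
  obtain ⟨S, hS, hR⟩ := h
  have hp : p + 1 < k := hv.pos (.top p z) (by simp)
  have hc : ∀ r, cnt r (.bot p ω :: w) = cnt r (.top p z :: w) := fun r => rfl
  have hne : ∀ a : Name, act (.bot p ω :: w) a → ∀ r, a ≠ (r, cnt r (.bot p ω :: w)) := by
    rintro a ha r rfl
    exact lt_irrefl _ ha.2
  have n1 : ∀ a : Name, act (.bot p ω :: w) a → a ≠ (p + 1, cnt (p + 1) w + 1) := by
    intro a ha; simpa [cnt, Letter.pos] using hne a ha (p + 1)
  have n2 : ∀ a : Name, act (.bot p ω :: w) a → a ≠ (p + 2, cnt (p + 2) w) := by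
    intro a ha; simpa [cnt, Letter.pos] using hne a ha (p + 2)
  have n3 : ∀ a : Name, act (.bot p ω :: w) a → a ≠ (p, cnt p w) := by
    intro a ha; simpa [cnt, Letter.pos] using hne a ha p
  refine ⟨S, hS, hR.shrink (fun a ha => ha) (fun a ha hb => absurd ha hb) ?_ ?_ ?_⟩
  · intro a ha
    have h1 : a.2 ≤ cnt a.1 w := by
      have := ha.2
      simp only [cnt] at this
      split_ifs at this <;> omega
    simp only [model, mX, Letter.step, rowInv_rowOp, if_pos h1]
  · intro a b ha hb
    simp only [model, mB, triS]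
    rw [triB_bc (n1 a ha) (n3 a ha) (n1 b hb) (n3 b hb),
      triB_ac (n1 a ha) (n2 a ha) (n1 b hb) (n2 b hb)]
  · intro a ha
    simp only [model, mY, triYS, Letter.step, rowInv_rowOp]
    congr 1
    have u0 := C.U.ne _ (hv.start p (by omega))
    have u1 := C.U.ne _ (hv.start (p + 1) (by omega))
    have u2 := C.U.ne _ (hv.start (p + 2) (by omega))
    have key := lead_key (isUnit_iff_ne_zero.2 u0) ω z
    rw [hω, zero_mul, zero_add] at key
    simp only [triY, n1 a ha, n2 a ha, n3 a ha, if_false, mul_one, one_mul]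
    split_ifs
    · rw [lead_rowOp (by omega), lead_colOp (by omega)]
      have : lead (p + 1) (rowOp p ω (colOp p z M)) ≠ 0 := by
        intro e; rw [e, mul_zero] at key
        exact mul_ne_zero u0 u2 key.symm
      field_simp
      rw [← key]; ring
    · rfl

lemma Ctx.Mod.right {C : Ctx ι K} {k : ℕ} {M : Mat K} {p : ℕ} {z ω : K} {w : List (Letter K)}
    (h : C.Mod M (w ++ [.bot p ω])) (hv : Valid k C.U M (w ++ [.bot p ω]))
    (hz : lead (p + 1) (colOp p z (run M (w ++ [.bot p ω]))) = 0) :
    C.Mod M (w ++ [.top p z]) := by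
  obtain ⟨S, hS, hR⟩ := h
  have hp : p + 1 < k := hv.pos (.bot p ω) (by simp)
  have hc : ∀ r, cnt r [(.bot p ω : Letter K)] = cnt r [(.top p z : Letter K)] := fun r => rfl
  have hact : ∀ a, act (w ++ [.top p z]) a → act (w ++ [.bot p ω]) a := by
    intro a ha; simpa only [act, cnt_append, hc] using ha
  have hact' : ∀ a, act (w ++ [.bot p ω]) a → act (w ++ [.top p z]) a := by
    intro a ha; simpa only [act, cnt_append, hc] using ha
  have n0 : ∀ a : Name, act (w ++ [.top p z]) a → ∀ r, a ≠ (r, 0) := by
    rintro a ha r rfl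
    exact absurd ha.1 (by simp)
  obtain ⟨Bp, Yp, h1, h2, h3, h4, -⟩ := pre_split M w _ _ hc
  refine ⟨S, hS, hR.shrink hact (fun a ha hb => absurd (hact' a ha) hb) ?_ ?_ ?_⟩
  · intro a ha
    refine (mX_append_big M w _ _ hc ?_).symm
    have := ha.1
    simp only [cnt]
    split_ifs <;> omega
  · intro a b ha hb
    simp only [model, h1, h2, mB, triS, cnt]
    rw [triB_bc (n0 a ha _) (n0 a ha _) (n0 b hb _) (n0 b hb _),
      triB_ac (n0 a ha _) (n0 a ha _) (n0 b hb _) (n0 b hb _)]
  · intro a ha
    simp only [model, h3, h4, mY, triYS, cnt, mul_one]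
    congr 1
    rw [run_append] at hz
    have u0 := C.U.ne _ (hv.stop p (by omega))
    have u1 := C.U.ne _ (hv.stop (p + 1) (by omega))
    have u2 := C.U.ne _ (hv.stop (p + 2) (by omega))
    rw [run_append] at u0 u1 u2
    simp only [run, Letter.step] at hz u0 u1 u2
    have key := lead_key (isUnit_iff_ne_zero.2 u0) ω z
    rw [hz, mul_zero, zero_add, rowOp_colOp, rowOp_rowInv] at key
    simp only [triY, n0 a ha, if_false, mul_one, one_mul]
    split_ifs
    · have : lead (p + 1) (colOp p z (run M w)) ≠ 0 := by
        intro e; rw [e, mul_zero] at key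
        exact mul_ne_zero u0 u2 key.symm
      rw [lead_rowInv (r := p) (by omega), lead_rowInv (r := p + 2) (by omega)] at key
      rw [lead_rowInv (by omega)] at u0
      field_simp
      rw [mul_comm (lead (p + 2) _), ← key]; ring
    · rfl

lemma Ctx.Mod.swap_diff {C : Ctx ι K} {k : ℕ} {M : Mat K} {p q : ℕ} {z ω : K}
    {pre post : List (Letter K)} (hpq : p ≠ q)
    (h : C.Mod M (pre ++ .bot p ω :: .top q z :: post))
    (hv : Valid k C.U M (pre ++ .bot p ω :: .top q z :: post)) :
    C.Mod M (pre ++ .top q z :: .bot p ω :: post) := by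
  have hp : p + 1 < k := hv.pos (.bot p ω) (by simp)
  have hq : q + 1 < k := hv.pos (.top q z) (by simp)
  have nz0 : ∀ r ≤ k, lead r (run M pre) ≠ 0 := fun r hr => h.nz hv hr
  have nz1 : ∀ r ≤ k, lead r (rowInv p ω (run M pre)) ≠ 0 := by
    intro r hr
    have e : pre ++ .bot p ω :: .top q z :: post = (pre ++ [.bot p ω]) ++ .top q z :: post := by
      simp
    have := Ctx.Mod.nz (e ▸ h) (e ▸ hv) hr
    rwa [run_append] at this
  have nz2 : ∀ r ≤ k, lead r (colOp q z (rowInv p ω (run M pre))) ≠ 0 := by
    intro r hr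
    have e : pre ++ .bot p ω :: .top q z :: post = (pre ++ [.bot p ω, .top q z]) ++ post := by
      simp
    have := Ctx.Mod.nz (e ▸ h) (e ▸ hv) hr
    rwa [run_append] at this
  obtain ⟨S, hS, hR⟩ := h
  have hc : ∀ r, cnt r (.bot p ω :: .top q z :: post) = cnt r (.top q z :: .bot p ω :: post) := by
    intro r; simp only [cnt, Letter.pos]; omega
  obtain ⟨Bp, Yp, h1, h2, h3, h4, -⟩ := pre_split M pre _ _ hc
  have hact : ∀ a, act (pre ++ .top q z :: .bot p ω :: post) a ↔
      act (pre ++ .bot p ω :: .top q z :: post) a := by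
    intro a; simp only [act, cnt_append, hc]
  refine ⟨S, hS, hR.shrink (fun a => (hact a).1) (fun a ha hb => absurd ((hact a).2 ha) hb)
    ?_ ?_ ?_⟩
  · rintro ⟨r, m⟩ -
    simp only [model]
    by_cases hm : cnt r (.bot p ω :: .top q z :: post) ≤ m
    · exact (mX_append_big M pre _ _ hc hm).symm
    · rw [mX_append _ _ _ (by rw [← hc]; simp only; omega),
        mX_append _ _ _ (by simp only; omega)]
      simp only [mX, Letter.step, cnt, Letter.pos, rowInv_colOp] at hm ⊢
      by_cases e1 : p + 1 = r <;> by_cases e2 : q + 1 = r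
      · omega
      · simp only [e1, e2, if_true, if_false] at hm ⊢
        rw [if_pos (by omega), if_pos (by omega), if_pos (by omega), if_pos (by omega)]
      · simp only [e1, e2, if_true, if_false] at hm ⊢
        rw [if_pos (by omega), if_pos (by omega), if_pos (by omega), if_pos (by omega)]
      · simp only [e1, e2, if_false] at hm ⊢
        rw [if_pos (by omega), if_pos (by omega), if_pos (by omega), if_pos (by omega)]
  · intro a b _ _
    have key : triS (.top q z) (.bot p ω :: post) a b + triS (.bot p ω) post a b =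
        triS (.bot p ω) (.top q z :: post) a b + triS (.top q z) post a b := by
      simp only [triS, cnt, Letter.pos]
      by_cases e : p = q + 1
      · subst e
        simp only [show ¬ (q + 1 + 1 = q + 1) by omega, show ¬ (q + 1 = q + 1 + 1) by omega,
          if_true, if_false, add_zero]
        exact (square_B _ _ _ _ _ _).symm
      · simp only [show ¬ (p + 1 = q + 1) by omega, show ¬ (q + 1 = p + 1) by omega,
          show ¬ (p + 1 = q + 2) by omega, show ¬ (q + 1 = p) by omega, if_false, add_zero]
        exact add_comm _ _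
    simp only [model, h1, h2, mB]
    omega
  · intro a _
    simp only [model, h3, h4, mY, triYS, cnt, Letter.pos, Letter.step, rowInv_colOp,
      ← mul_assoc]
    congr 1
    rw [mul_assoc, mul_assoc]
    congr 1
    set A := run M pre
    by_cases e : p = q + 1
    · subst e
      simp only [show ¬ (q + 1 + 1 = q + 1) by omega, show ¬ (q + 1 = q + 1 + 1) by omega,
        if_true, if_false, add_zero]
      rw [lead_colOp (r := q + 1 + 1) (by omega), lead_colOp (r := q + 1 + 1) (by omega),
        lead_rowInv (r := q + 1) (by omega), ← rowInv_colOp,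
        lead_rowInv (r := q + 1) (by omega)]
      refine (square_Y (nz0 _ (by omega)) (nz1 _ (by omega)) (nz0 _ (by omega)) ?_ _).symm
      have := nz2 (q + 1) (by omega)
      rwa [← rowInv_colOp, lead_rowInv (by omega)] at this
    · simp only [show ¬ (p + 1 = q + 1) by omega, show ¬ (q + 1 = p + 1) by omega,
        show ¬ (p + 1 = q + 2) by omega, show ¬ (q + 1 = p) by omega, if_false, add_zero]
      rw [lead_colOp (r := p + 1) (by omega), lead_colOp (r := p + 1) (by omega),
        lead_colOp (r := p) (by omega), lead_rowInv (r := q + 1) (by omega), ← rowInv_colOp,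
        lead_rowInv (r := q + 1) (by omega), lead_rowInv (r := q + 2) (by omega)]
      ring

lemma Ctx.Mod.swap_same {C : Ctx ι K} {k : ℕ} {M : Mat K} {p : ℕ} {z ω : K}
    {pre post : List (Letter K)}
    (h : C.Mod M (pre ++ .bot p ω :: .top p z :: post))
    (hv : Valid k C.U M (pre ++ .bot p ω :: .top p z :: post)) :
    C.Mod M (pre ++ .top p z :: .bot p ω :: post) := by
  have hp : p + 1 < k := hv.pos (.bot p ω) (by simp)
  have nz0 : ∀ r ≤ k, lead r (run M pre) ≠ 0 := fun r hr => h.nz hv hr
  have nz1 : ∀ r ≤ k, lead r (rowInv p ω (run M pre)) ≠ 0 := by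
    intro r hr
    have e : pre ++ .bot p ω :: .top p z :: post = (pre ++ [.bot p ω]) ++ .top p z :: post := by
      simp
    have := Ctx.Mod.nz (e ▸ h) (e ▸ hv) hr
    rwa [run_append] at this
  have nz2 : ∀ r ≤ k, lead r (colOp p z (rowInv p ω (run M pre))) ≠ 0 := by
    intro r hr
    have e : pre ++ .bot p ω :: .top p z :: post = (pre ++ [.bot p ω, .top p z]) ++ post := by
      simp
    have := Ctx.Mod.nz (e ▸ h) (e ▸ hv) hr
    rwa [run_append] at this
  obtain ⟨S, hS, hR⟩ := h
  have hc : ∀ r, cnt r (.bot p ω :: .top p z :: post) = cnt r (.top p z :: .bot p ω :: post) :=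
    fun r => rfl
  obtain ⟨Bp, Yp, h1, h2, h3, h4, h5⟩ := pre_split M pre _ _ hc
  have hact : ∀ a, act (pre ++ .top p z :: .bot p ω :: post) a ↔
      act (pre ++ .bot p ω :: .top p z :: post) a := by
    intro a; simp only [act, cnt_append, hc]
  set A := run M pre with hA
  set c := cnt (p + 1) post with hcdef
  let a : Name := (p + 1, c + 1 + 1)
  let m : Name := (p + 1, c + 1)
  let d : Name := (p + 1, c)
  let cp : Name := (p + 2, cnt (p + 2) post)
  let cm : Name := (p, cnt p post)
  have hD : Dist5 a m d cp cm := by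
    constructor <;> simp only [a, m, d, cp, cm, ne_eq, Prod.mk.injEq] <;> omega
  have hm : act (pre ++ .bot p ω :: .top p z :: post) m := by
    simp only [act, m, cnt_append, cnt, Letter.pos, if_true]; omega
  have hms : m.2 < cnt m.1 (.bot p ω :: .top p z :: post) := by
    simp only [m, cnt, Letter.pos, if_true]; omega
  have hmb : cnt m.1 post < m.2 := by simp only [m]; omega
  have eB : ∀ u v, mB (pre ++ .bot p ω :: .top p z :: post) u v =
      (Bp u v + mB post u v) + (triB m a cm u v + triB m d cp u v) := by
    intro u v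
    simp only [h1, mB, triS, cnt, Letter.pos, if_true, show ¬ (p + 1 = p) by omega, if_false,
      add_zero]
    have := square_B m d cp cp u v
    have e : triB m d cp u v = triB (p + 1, c + 1) (p + 1, c) (p + 2, cnt (p + 2) post) u v := rfl
    have e' : triB m a cm u v =
      triB (p + 1, c + 1) (p + 1, c + 1 + 1) (p, cnt p post) u v := rfl
    rw [e, e']; ring
  have eB' : ∀ u v, mB (pre ++ .top p z :: .bot p ω :: post) u v =
      (Bp u v + mB post u v) + (triB a m cp u v + triB d m cm u v) := by
    intro u v
    simp only [h2, mB, triS, cnt, Letter.pos, if_true, show ¬ (p + 1 = p + 2) by omega, if_false,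
      add_zero]
    have e : triB a m cp u v =
      triB (p + 1, c + 1 + 1) (p + 1, c + 1) (p + 2, cnt (p + 2) post) u v := rfl
    have e' : triB d m cm u v = triB (p + 1, c) (p + 1, c + 1) (p, cnt p post) u v := rfl
    rw [e, e']; ring
  set xa := lead (p + 1) A with hxa
  set xm := lead (p + 1) (rowInv p ω A) with hxm
  set xd := lead (p + 1) (colOp p z (rowInv p ω A)) with hxd
  set xp := lead (p + 2) A with hxp
  set xc := lead p A with hxc
  set xm' := lead (p + 1) (colOp p z A) with hxm'
  have ha0 : xa ≠ 0 := nz0 _ (by omega)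
  have hm0 : xm ≠ 0 := nz1 _ (by omega)
  have hd0 : xd ≠ 0 := nz2 _ (by omega)
  have hp0 : xp ≠ 0 := nz0 _ (by omega)
  have hc0 : xc ≠ 0 := nz0 _ (by omega)
  have key : xm * xm' = xa * xd + xc * xp := by
    have := lead_key (isUnit_iff_ne_zero.2 (nz1 p (by omega))) ω z
    rwa [rowOp_colOp, rowOp_rowInv, lead_rowInv (r := p) (by omega),
      lead_rowInv (r := p + 2) (by omega)] at this
  have eY : ∀ v, mY M (pre ++ .bot p ω :: .top p z :: post) v =
      (Yp v * mY (colOp p z (rowInv p ω A)) post v) *
        (triY m a cm xm xa xc v * triY m d cp xm xd xp v) := by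
    intro v
    simp only [h3, mY, triYS, cnt, Letter.pos, if_true, show ¬ (p + 1 = p) by omega, if_false,
      add_zero, Letter.step]
    rw [lead_rowInv (r := p + 2) (by omega)]
    simp only [a, m, d, cp, cm]
    ring
  have eY' : ∀ v, mY M (pre ++ .top p z :: .bot p ω :: post) v =
      (Yp v * mY (colOp p z (rowInv p ω A)) post v) *
        (triY a m cp xa xm' xp v * triY d m cm xd xm' xc v) := by
    intro v
    simp only [h4, mY, triYS, cnt, Letter.pos, if_true, show ¬ (p + 1 = p + 2) by omega,
      if_false, add_zero, Letter.step, rowInv_colOp]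
    rw [lead_colOp (r := p) (by omega)]
    simp only [a, m, d, cp, cm]
    ring
  have z1 : ∀ u, Bp u m + mB post u m = 0 := by
    intro u; rw [((h5 m hms).1 u).2, (mB_big post hmb u).2]; rfl
  have z2 : ∀ u, Bp m u + mB post m u = 0 := by
    intro u; rw [((h5 m hms).1 u).1, (mB_big post hmb u).1]; rfl
  have z3 : Yp m * mY (colOp p z (rowInv p ω A)) post m = 1 := by
    rw [(h5 m hms).2, mY_big _ _ hmb, one_mul]
  have Ym : mY M (pre ++ .bot p ω :: .top p z :: post) m = xc * xp / (xa * xd) := by
    rw [eY, z3, one_mul, flip_Y_self hD]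
  have hm0' : xm' ≠ 0 := by
    intro e
    have h6 := C.nz _ (hS.step (C.φ m) (hR.mutable m hm)) (C.φ m)
    rw [S.mutate_x_self (C.nz S hS), hR.Y m hm] at h6
    simp only [model, Ym] at h6
    apply h6
    have : 1 + xc * xp / (xa * xd) = 0 := by
      field_simp
      rw [← key, e]; ring
    rw [this]; simp
  have Xa : mX M (pre ++ .bot p ω :: .top p z :: post) a = xa := by
    have := mX_split M pre (.bot p ω :: .top p z :: post) (p + 1)
    simpa only [cnt, Letter.pos, if_true] using this
  have Xm : mX M (pre ++ .bot p ω :: .top p z :: post) m = xm := by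
    have := mX_split M (pre ++ [.bot p ω]) (.top p z :: post) (p + 1)
    simp only [cnt, Letter.pos, if_true, run_append, List.append_assoc, List.singleton_append]
      at this
    exact this
  have Xm' : mX M (pre ++ .top p z :: .bot p ω :: post) m = xm' := by
    have := mX_split M (pre ++ [.top p z]) (.bot p ω :: post) (p + 1)
    simp only [cnt, Letter.pos, if_true, run_append, List.append_assoc, List.singleton_append]
      at this
    exact this
  have Xd : mX M (pre ++ .bot p ω :: .top p z :: post) d = xd := by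
    have := mX_split M (pre ++ [.bot p ω, .top p z]) post (p + 1)
    simp only [run_append, List.append_assoc, List.cons_append, List.nil_append] at this
    exact this
  refine ⟨_, hS.step (C.φ m) (hR.mutable m hm), hR.mutate (hS.skew C.skew) (C.nz S hS) m hm hact
    ?_ {a, d} ?_ ?_ ?_ ?_ ?_ ?_⟩
  · rintro ⟨r, μ⟩ - hne
    simp only [model]
    by_cases hμ : cnt r (.bot p ω :: .top p z :: post) ≤ μ
    · exact (mX_append_big M pre _ _ hc hμ).symm
    · rw [mX_append _ _ _ (by rw [← hc]; simp only; omega),
        mX_append _ _ _ (by simp only; omega)]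
      simp only [mX, Letter.step, cnt, Letter.pos, rowInv_colOp] at hμ ⊢
      by_cases e1 : p + 1 = r
      · subst e1
        have : μ ≠ c + 1 := fun e => hne (by rw [e])
        simp only [if_true] at hμ ⊢
        rw [if_pos (by omega), if_pos (by omega), if_pos (by omega), if_pos (by omega)]
      · simp only [e1, if_false] at hμ ⊢
        rw [if_pos (by omega), if_pos (by omega), if_pos (by omega), if_pos (by omega)]
  · intro u _ hu
    simp only [Finset.mem_insert, Finset.mem_singleton, not_or] at hu
    simp only [model, eB, z1, flip_col hD, hu.1, hu.2, if_false]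
    split_ifs <;> omega
  · intro u hu hna
    simp only [Finset.mem_insert, Finset.mem_singleton] at hu
    rcases hu with rfl | rfl
    · simp only [model, Xa]
      refine hv.unit (by omega) ?_
      simp only [cnt, Letter.pos, if_true]
      exact hna
    · simp only [model, Xd]
      have e : pre ++ .bot p ω :: .top p z :: post = (pre ++ [.bot p ω, .top p z]) ++ post := by
        simp
      have := Valid.unit (e ▸ hv) (r := p + 1) (by omega) (e ▸ hna)
      rwa [run_append] at this
  · rw [Finset.prod_pair hD.h2]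
    simp only [model, Xm, Xm', Xa, Xd, Ym, eB, z1, flip_col hD, hD.h2, hD.h2.symm, hD.h3, hD.h4,
      hD.h8, hD.h9, if_true, if_false]
    norm_num
    field_simp
    rw [mul_comm, key]
  · intro u v _ _
    simp only [model, eB']
    exact flip_B hD (fun u v => Bp u v + mB post u v) _ z1 z2 eB u v
  · simp only [model, Ym, eY', z3, one_mul, flip_Y_self' hD]
  · intro v _ hvm
    simp only [model, Ym, eY' v, eY v, eB, z2, zero_add]
    rw [flip_Y hD ha0 hm0 hd0 hp0 hc0 hm0' key hvm]
    ring

/-- Words with only top letters. -/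
def tops {R : Type} (w : List (ℕ × R)) : List (Letter R) := w.map fun e => .top e.1 e.2

lemma run_tops_rowInv {R : Type} [CommRing R] (M : Mat R) (p : ℕ) (ω : R) (w : List (ℕ × R)) :
    run (rowInv p ω M) (tops w) = rowInv p ω (run M (tops w)) := by
  induction w generalizing M with
  | nil => rfl
  | cons s w ih => simp only [tops, List.map_cons, run, Letter.step, ← rowInv_colOp]; exact ih _

lemma run_tops_rowOp {R : Type} [CommRing R] (M : Mat R) (p : ℕ) (ω : R) (w : List (ℕ × R)) :
    run (rowOp p ω M) (tops w) = rowOp p ω (run M (tops w)) := by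
  induction w generalizing M with
  | nil => rfl
  | cons s w ih => simp only [tops, List.map_cons, run, Letter.step, ← rowOp_colOp]; exact ih _

lemma Ctx.Mod.move {C : Ctx ι K} {k : ℕ} {M : Mat K} {p : ℕ} {ω : K} (post : List (ℕ × K))
    (pre : List (Letter K)) (h : C.Mod M (pre ++ .bot p ω :: tops post))
    (hv : Valid k C.U M (pre ++ .bot p ω :: tops post)) :
    C.Mod M (pre ++ tops post ++ [.bot p ω]) := by
  induction post generalizing pre with
  | nil => simpa [tops] using h
  | cons s post ih =>
    obtain ⟨q, z⟩ := s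
    have e0 : tops ((q, z) :: post) = .top q z :: tops post := rfl
    rw [e0] at h hv ⊢
    have h' : C.Mod M (pre ++ .top q z :: .bot p ω :: tops post) := by
      by_cases e : p = q
      · subst e; exact h.swap_same hv
      · exact h.swap_diff e hv
    have hv' : Valid k C.U M (pre ++ .top q z :: .bot p ω :: tops post) := by
      refine ⟨fun s hs => hv.pos s ?_, hv.start, ?_⟩
      · simp only [List.mem_append, List.mem_cons] at hs ⊢; tauto
      · have := hv.stop
        simpa only [run_append, run, Letter.step, rowInv_colOp] using this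
    have e : pre ++ .top q z :: .bot p ω :: tops post =
      (pre ++ [.top q z]) ++ .bot p ω :: tops post := by simp
    have := ih (pre ++ [.top q z]) (e ▸ h') (e ▸ hv')
    simpa using this

lemma Valid.left {k : ℕ} {U : UnitSet K} {M : Mat K} {p : ℕ} {z ω : K} {w : List (Letter K)}
    (hv : Valid k U M (.top p z :: w)) (hω : lead (p + 1) (rowOp p ω M) = 0) :
    Valid k U (rowOp p ω (colOp p z M)) (.bot p ω :: w) := by
  have hp : p + 1 < k := hv.pos (.top p z) (by simp)
  refine ⟨?_, ?_, ?_⟩
  · intro s hs
    rcases List.mem_cons.1 hs with rfl | hs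
    · exact hp
    · exact hv.pos s (by simp [hs])
  · intro r hr
    by_cases e : r = p + 1
    · subst e
      have u0 := hv.start p (by omega)
      have u1 := hv.start (p + 1) (by omega)
      have u2 := hv.start (p + 2) (by omega)
      have key := lead_key (isUnit_iff_ne_zero.2 (U.ne _ u0)) ω z
      rw [hω, zero_mul, zero_add] at key
      have := U.mul _ _ (U.inv _ u1) (U.mul _ _ u0 u2)
      rwa [← key, ← mul_assoc, inv_mul_cancel₀ (U.ne _ u1), one_mul] at this
    · rw [lead_rowOp e, lead_colOp e]; exact hv.start r hr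
  · have := hv.stop
    simpa only [run, Letter.step, rowInv_rowOp] using this

lemma Valid.rot {k : ℕ} {U : UnitSet K} {M : Mat K} {p : ℕ} {z ω z' : K} {w : List (ℕ × K)}
    (hv : Valid k U M (tops ((p, z) :: w))) (hω : lead (p + 1) (rowOp p ω M) = 0)
    (hz : lead (p + 1) (colOp p z' (run M (tops ((p, z) :: w)))) = 0) :
    Valid k U (rowOp p ω (colOp p z M)) (tops (w ++ [(p, z')])) := by
  have hp : p + 1 < k := hv.pos (.top p z) (by simp [tops])
  refine ⟨?_, (Valid.left hv hω).start, ?_⟩
  · intro s hs
    simp only [tops, List.map_append, List.mem_append, List.map_cons, List.map_nil,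
      List.mem_singleton] at hs
    rcases hs with hs | rfl
    · exact hv.pos s (by simp only [tops, List.map_cons, List.mem_cons]; exact Or.inr hs)
    · exact hp
  · intro r hr
    have e0 : run (rowOp p ω (colOp p z M)) (tops (w ++ [(p, z')])) =
        rowOp p ω (colOp p z' (run M (tops ((p, z) :: w)))) := by
      rw [run_tops_rowOp]
      simp only [tops, List.map_append, run_append, List.map_cons, List.map_nil, run, Letter.step]
    rw [e0]
    by_cases e : r = p + 1
    · subst e
      have u0 := hv.stop p (by omega)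
      have u1 := hv.stop (p + 1) (by omega)
      have u2 := hv.stop (p + 2) (by omega)
      have key := lead_key (isUnit_iff_ne_zero.2 (U.ne _ u0)) ω z'
      rw [hz, mul_zero, zero_add] at key
      have := U.mul _ _ (U.inv _ u1) (U.mul _ _ u0 u2)
      rwa [← key, ← mul_assoc, inv_mul_cancel₀ (U.ne _ u1), one_mul] at this
    · rw [lead_rowOp e, lead_colOp e]; exact hv.stop r hr

lemma Ctx.Mod.rot {C : Ctx ι K} {k : ℕ} {M : Mat K} {p : ℕ} {z ω z' : K} {w : List (ℕ × K)}
    (h : C.Mod M (tops ((p, z) :: w))) (hv : Valid k C.U M (tops ((p, z) :: w)))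
    (hω : lead (p + 1) (rowOp p ω M) = 0)
    (hz : lead (p + 1) (colOp p z' (run M (tops ((p, z) :: w)))) = 0) :
    C.Mod (rowOp p ω (colOp p z M)) (tops (w ++ [(p, z')])) := by
  have h1 := Ctx.Mod.left h hv hω
  have v1 := Valid.left hv hω
  have h2 : C.Mod (rowOp p ω (colOp p z M)) (tops w ++ [.bot p ω]) := Ctx.Mod.move w [] h1 v1
  have er : run (rowOp p ω (colOp p z M)) (tops w ++ [.bot p ω]) =
      run M (tops ((p, z) :: w)) := by
    rw [run_append, run_tops_rowOp]
    simp only [run, Letter.step, rowInv_rowOp, tops, List.map_cons]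
  have v2 : Valid k C.U (rowOp p ω (colOp p z M)) (tops w ++ [.bot p ω]) := by
    refine ⟨fun s hs => v1.pos s ?_, v1.start, ?_⟩
    · simp only [List.mem_append, List.mem_cons, List.not_mem_nil, or_false] at hs ⊢
      exact hs.symm
    · rw [er]; exact hv.stop
  have := Ctx.Mod.right h2 v2 (z := z') (by rw [er]; exact hz)
  simpa [tops] using this

end Pool.Agent.MP_122b1e_ag
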