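import Pool.Agent.MP_122b1e_ag.Atoms

set_option autoImplicit false

namespace Pool.Agent.MP_122b1e_ag

variable {κ V : Type} [Field κ] [AddCommGroup V] [Module κ V]

def SU (α : V) (β : V →ₗ[κ] κ) (F : Fl κ V) : Prop := ∀ r, α ∈ F r ∨ Kills β (F (r + 1))

def SL (b : V) (a : V →ₗ[κ] κ) (E : Fl κ V) : Prop := ∀ r, b ∈ E (r + 1) ∨ Kills a (E r)

lemma dual_zero {A E₁ E₂ : Submodule κ V} (hc : IsCompl A E₁) (hv : Cov E₂ E₁) {b : V}
    (hb : b ∈ E₁) (hb' : b ∉ E₂) {φ : V →ₗ[κ] κ} (k1 : Kills φ A) (k2 : Kills φ E₂)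
    (k3 : φ b = 0) (y : V) : φ y = 0 := by
  obtain ⟨x, hx, e, he, rfl⟩ := cpl_decomp hc y
  rw [map_add, k1 x hx, hv.kills k2 hb hb' k3 e he, add_zero]

variable {k l : ℕ} {p : ℕ → ℕ} {E F : ℕ → Fl κ V}

lemma Alg.eig (h : Chain k l p E F) {π : V →ₗ[κ] V} (a : Alg l E F π) {j r : ℕ} (hj : j ≤ l)
    (hr : r < k) {v : V} (h1 : v ∈ F j (r + 1)) (h2 : v ∈ E j r) : π v = v ∨ π v = 0 := by
  obtain ⟨c, hc⟩ := (h.pair j hj).eig (a.pE j hj) (a.pF j hj) hr h1 h2
  exact a.idem.eig hc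

lemma Atom.scalar {θ π : V →ₗ[κ] V} {v : V} (a : Atom l E F θ v) (hπ : Alg l E F π)
    (hv : π v = v ∨ π v = 0) {C C' : Submodule κ V} (hf : Fixes θ C C') : Scalar π C C' := by
  rcases hv with hv | hv
  · exact ⟨1, fun y h1 h2 => by rw [a.one π hπ hv y (hf y h1 h2), one_smul]⟩
  · exact ⟨0, fun y h1 h2 => by rw [a.zero hπ hv (hf y h1 h2), zero_smul]⟩

lemma noAB [FiniteDimensional κ V] (h : Chain k l p E F) {j q : ℕ} (hj : j ≤ l) (hq : q + 1 < k)
    {α b : V} {a β : V →ₗ[κ] κ}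
    (α1 : α ∈ F j (q + 1)) (α2 : α ∈ E j q) (aα : a α = 1)
    (b1 : b ∈ F j (q + 2)) (b2 : b ∈ E j (q + 1)) (βb : β b = 1)
    (k1 : Kills β (F j (q + 1))) (k2 : Kills β (E j (q + 2)))
    (su : ∀ s, j ≤ s → s ≤ l → SU α β (F s)) (sl : ∀ s, s ≤ j → SL b a (E s))
    (hz : ∀ s, s < j → ¬ NZ (p s) (E s) (F (s + 1)))
    (L4a : ∀ s, j ≤ s → s < l → NZ (p s) (E s) (F (s + 1)) → α ∈ F s (p s + 1) →
      α ∈ F s (p s))
    (L4b : ∀ s, j ≤ s → s < l → NZ (p s) (E s) (F (s + 1)) → Kills β (F s (p s + 1)) →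
      Kills β (F s (p s + 2)))
    (IH : ∀ s, s < l → ¬ NZ (p s) (E s) (F (s + 1)) →
      ∃ π, Alg l E F π ∧ ¬ Scalar π (F s (p s + 2)) (E s (p s)))
    {π₀ : V →ₗ[κ] V} (a₀ : Alg l E F π₀) (π1 : π₀ α = α) (π2 : π₀ b = 0)
    {s : ℕ} (hs : s < l) (hzs : ¬ NZ (p s) (E s) (F (s + 1))) :
    ∃ π, Alg l E F π ∧ ¬ Scalar π (F s (p s + 2)) (E s (p s)) ∧
      ((π α = α ∧ π b = b) ∨ (π α = 0 ∧ π b = 0)) := by
  have pj := h.pair j hj
  have α0 : α ≠ 0 := by rintro rfl; simp at aα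
  have b0 : b ≠ 0 := by rintro rfl; simp at βb
  obtain ⟨θ, A⟩ := exists_atom h α
  obtain ⟨η, B⟩ := exists_atom h b
  have eα : ∀ π, Alg l E F π → π α = α ∨ π α = 0 := fun π hπ =>
    hπ.eig h hj (by omega) α1 α2
  have eb : ∀ π, Alg l E F π → π b = b ∨ π b = 0 := fun π hπ => hπ.eig h hj hq b1 b2
  have nzA : ∀ t, t < l → Fixes θ (F t (p t + 2)) (E t (p t)) → NZ (p t) (E t) (F (t + 1)) := by
    intro t ht hf
    by_contra hn
    obtain ⟨π, h1, h2⟩ := IH t ht hn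
    exact h2 (A.scalar h1 (eα π h1) hf)
  have nzB : ∀ t, t < l → Fixes η (F t (p t + 2)) (E t (p t)) → NZ (p t) (E t) (F (t + 1)) := by
    intro t ht hf
    by_contra hn
    obtain ⟨π, h1, h2⟩ := IH t ht hn
    exact h2 (B.scalar h1 (eb π h1) hf)
  have nA : ∀ t, t < j → ¬ Fixes θ (F t (p t + 2)) (E t (p t)) :=
    fun t ht hf => hz t ht (nzA t (by omega) hf)
  have nB : ∀ t, t < j → ¬ Fixes η (F t (p t + 2)) (E t (p t)) :=
    fun t ht hf => hz t ht (nzB t (by omega) hf)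
  have hη : ∀ y, β (η y) = β y := by
    intro y
    have := dual_zero (pj.cpl (q + 1)) (pj.covE (q + 1) hq) b2 (fun H => b0 (pj.zero b1 H))
      (φ := β ∘ₗ η - β) (fun x hx => by simp [k1 x hx, k1 _ (B.alg.pF j hj _ x hx)])
      (fun x hx => by simp [k2 x hx, k2 _ (B.alg.pE j hj _ x hx)]) (by simp [B.fix]) y
    simpa [sub_eq_zero] using this
  have TA := atom_top h A hj (by omega) α1 α2 α0 nA
    (fun t h1 h2 hf => L4a t h1 h2 (nzA t h2 hf))
  have TB := atom_bot h B hj hq b1 b2 βb k1 k2 hη nB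
    (fun t h1 h2 hf => L4b t h1 h2 (nzB t h2 hf))
  have toE : ∀ {ζ : V →ₗ[κ] V}, Alg l E F ζ → ∀ t, t ≤ l → ∀ r,
      (∀ y, ζ y = y → y ∈ F t r → y = 0) → ∀ y, ζ y = y → y ∈ E t r := by
    intro ζ hζ t ht r H y hy
    obtain ⟨x, hx, e, he, fx, _, rfl⟩ := decomp_fix ((h.pair t ht).cpl r) hζ.idem
      (hζ.pF t ht r) (hζ.pE t ht r) hy
    rw [H x fx hx, zero_add]; exact he
  have toF : ∀ {ζ : V →ₗ[κ] V}, Alg l E F ζ → ∀ t, t ≤ l → ∀ r,
      (∀ y, ζ y = y → y ∈ E t r → y = 0) → ∀ y, ζ y = y → y ∈ F t r := by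
    intro ζ hζ t ht r H y hy
    obtain ⟨x, hx, e, he, _, fe, rfl⟩ := decomp_fix ((h.pair t ht).cpl r) hζ.idem
      (hζ.pF t ht r) (hζ.pE t ht r) hy
    rw [H e fe he, add_zero]; exact hx
  have AB : ∀ t, t ≤ l → ∃ r, (∀ y, θ y = y → y ∈ F t r) ∧ (∀ y, η y = y → y ∈ E t r) := by
    intro t ht
    have pt := h.pair t ht
    rcases le_total j t with e | e
    · classical
      have ex : ∃ r, α ∈ F t r := ⟨k, by rw [pt.top k le_rfl]; trivial⟩
      have h1 := Nat.find_spec ex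
      have h2 : Nat.find ex ≠ 0 := by
        intro e0; rw [e0, pt.bot] at h1; exact α0 h1
      obtain ⟨r, hr⟩ := Nat.exists_eq_succ_of_ne_zero h2
      have h3 : α ∉ F t r := Nat.find_min ex (by omega)
      rw [hr] at h1
      exact ⟨r + 1, TA t e ht _ h1,
        toE B.alg t ht _ (TB t e ht _ ((su t e ht r).resolve_left h3))⟩
    · classical
      have ex : ∃ r, Kills a (E t r) := ⟨k, by
        rw [pt.botE le_rfl]; intro y hy; rw [(Submodule.mem_bot κ).1 hy, map_zero]⟩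
      have h1 := Nat.find_spec ex
      have h2 : Nat.find ex ≠ 0 := by
        intro e0; rw [e0, pt.topE] at h1
        have := h1 α trivial
        rw [aα] at this
        exact one_ne_zero this
      obtain ⟨r, hr⟩ := Nat.exists_eq_succ_of_ne_zero h2
      have h3 : ¬ Kills a (E t r) := Nat.find_min ex (by omega)
      rw [hr] at h1
      have h4 := (sl t e r).resolve_right h3
      refine ⟨r + 1, ?_, ?_⟩
      · obtain ⟨r', e'⟩ := (same_init h A.alg hj nA t e).1 (r + 1)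
        have : q + 1 ≤ r' := by
          by_contra hlt
          have := h1 α ((e' α A.fix).2.2 (pj.antiE (by omega) α2))
          rw [aα] at this
          exact one_ne_zero this
        intro y hy
        exact (e' y hy).1.2 (pj.monoF this (TA j le_rfl hj _ α1 y hy))
      · obtain ⟨r', e'⟩ := (same_init h B.alg hj nB t e).1 (r + 1)
        have : r' ≤ q + 1 := by
          by_contra hlt
          exact b0 (pj.zero (pj.monoF (by omega) b1) ((e' b B.fix).2.1 h4))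
        intro y hy
        exact (e' y hy).2.2 (pj.antiE this (toE B.alg j hj _ (TB j le_rfl hj _ k1) y hy))
  have st := h.step s hs
  have cross : (∀ y ∈ F s (p s + 2), y ∈ E s (p s) → θ y = 0) ∨
      (∀ y ∈ F s (p s + 2), y ∈ E s (p s) → η y = 0) := by
    by_contra hn
    push Not at hn
    obtain ⟨⟨x, x1, x2, x0⟩, ⟨y, y1, y2, y0⟩⟩ := hn
    have x1' := A.alg.pF s hs.le _ x x1
    have x2' := A.alg.pE s hs.le _ x x2
    have y1' := B.alg.pF s hs.le _ y y1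
    have y2' := B.alg.pE s hs.le _ y y2
    have key : ∀ t, t ≤ l → F t (p s + 2) = F s (p s + 2) → E t (p s) = E s (p s) →
        θ x ∈ F t (p s + 1) := by
      intro t ht e1 e2
      obtain ⟨r, r1, r2⟩ := AB t ht
      have pt := h.pair t ht
      refine pt.monoF ?_ (r1 _ (A.alg.idem x))
      by_contra hlt
      refine y0 (pt.zero (r := r) (pt.monoF (r := p s + 2) (by omega) ?_) (r2 _ (B.alg.idem y)))
      rw [e1]; exact y1'
    have t1 := key s hs.le rfl rfl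
    have t2 := key (s + 1) hs (st.adjF _ (by omega)) (st.adjE _ (by omega))
    exact st.neF ((st.a.covF (p s) (by have := st.lt; omega)).le_of_mem st.cov1.le t1 t2
      (fun H => x0 (st.a.zero H x2')))
  have θb : θ b = 0 := by
    rcases eb θ A.alg with e | e
    · have := A.one π₀ a₀ π1 b e
      rw [π2] at this
      exact absurd this.symm b0
    · exact e
  have ηα : η α = 0 := by
    rcases eα η B.alg with e | e
    · have := B.zero a₀ π2 e
      rw [π1] at this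
      exact absurd this α0
    · exact e
  have main : ∀ π, Alg l E F π → ¬ Scalar π (F s (p s + 2)) (E s (p s)) → π α = α → π b = 0 →
      ∃ π, Alg l E F π ∧ ¬ Scalar π (F s (p s + 2)) (E s (p s)) ∧
      ((π α = α ∧ π b = b) ∨ (π α = 0 ∧ π b = 0)) := by
    intro π h1 h2 h3 h4
    rcases cross with c | c
    · refine ⟨π ∘ₗ (LinearMap.id - θ), h1.comp h A.alg.compl, ?_, Or.inr ⟨?_, ?_⟩⟩
      · rintro ⟨d, hd⟩
        exact h2 ⟨d, fun y y1 y2 => by simpa [c y y1 y2] using hd y y1 y2⟩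
      · simp [A.fix]
      · simp [θb, h4]
    · refine ⟨LinearMap.id - (LinearMap.id - π) ∘ₗ (LinearMap.id - η),
        (h1.compl.comp h B.alg.compl).compl, ?_, Or.inl ⟨?_, ?_⟩⟩
      · rintro ⟨d, hd⟩
        exact h2 ⟨d, fun y y1 y2 => by simpa [c y y1 y2] using hd y y1 y2⟩
      · simp [ηα, h3]
      · simp [B.fix]
  obtain ⟨π, h1, h2⟩ := IH s hs hzs
  rcases eα π h1 with e1 | e1 <;> rcases eb π h1 with e2 | e2
  · exact ⟨π, h1, h2, Or.inl ⟨e1, e2⟩⟩
  · exact main π h1 h2 e1 e2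
  · refine main _ h1.compl ?_ (by simp [e1]) (by simp [e2])
    rintro ⟨d, hd⟩
    refine h2 ⟨1 - d, fun y y1 y2 => ?_⟩
    have := hd y y1 y2
    simp only [LinearMap.sub_apply, LinearMap.id_coe, id_eq] at this
    rw [sub_smul, one_smul, ← this]; abel
  · exact ⟨π, h1, h2, Or.inr ⟨e1, e2⟩⟩

end Pool.Agent.MP_122b1e_ag
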