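import Mathlib
import Pool.Agent.MP_122b1e_ag.Defs

set_option autoImplicit false

namespace Pool.Agent.MP_122b1e_ag

/-- The Plücker coordinate of `X` at the set `I` of `k` columns, taken in increasing order, is
nonzero. -/
def PluckerNonzero {k n : ℕ} (X : Matrix (Fin k) (Fin n) ℂ) (I : Finset (Fin n)) : Prop :=
  ∃ h : I.card = k, (X.submatrix id (I.orderEmbOfFin h)).det ≠ 0

/-- The column sets of the Plücker coordinates of the rectangles seed. -/
def rectCollection {k n : ℕ} (hkn : k < n) : Set (Finset (Fin n)) :=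
  Set.range fun v : Vertex k n => Finset.univ.image (rectCol hkn v)

/-- The square move: for `a, b, c, d` outside `L` in cyclic order, with `Lab, Lbc, Lcd, Lad` and
`Lac` in `C`, replace `Lac` by `Lbd`. -/
def SquareMove {n : ℕ} (C C' : Set (Finset (Fin n))) : Prop :=
  ∃ (L : Finset (Fin n)) (a b c d : Fin n),
    ((a < b ∧ b < c ∧ c < d) ∨ (b < c ∧ c < d ∧ d < a)) ∧
    a ∉ L ∧ b ∉ L ∧ c ∉ L ∧ d ∉ L ∧
    insert a (insert b L) ∈ C ∧ insert b (insert c L) ∈ C ∧ insert c (insert d L) ∈ C ∧
    insert a (insert d L) ∈ C ∧ insert a (insert c L) ∈ C ∧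
    C' = insert (insert b (insert d L)) (C \ {insert a (insert c L)})

end Pool.Agent.MP_122b1e_ag
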