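import Mathlib
import Pool.Agent.MP_122b1e_ag.PDefs

/- Pluecker tori: working definitions, linear algebra, Gale duality. -/

set_option autoImplicit false

namespace Pool.Agent.MP_122b1e_ag.PT

open Finset

/-- The rectangle set `[0, k - i) ∪ [k - i + j, k + j)`. -/
def rectSet (k n i j : ℕ) : Finset (Fin n) :=
  univ.filter fun x => x.val + i < k ∨ (k + j ≤ x.val + i ∧ x.val < k + j)

def rectC (k n : ℕ) : Set (Finset (Fin n)) :=
  {I | ∃ i j, i ≤ k ∧ k + j ≤ n ∧ I = rectSet k n i j}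

/-- The cyclic window of length `k` starting at `i`. -/
def win (k n i : ℕ) : Finset (Fin n) :=
  univ.filter fun y => (i ≤ y.val ∧ y.val < i + k) ∨ y.val + n < i + k

/-- Connectedness in terms of the bases. -/
def Conn {n : ℕ} (B : Finset (Fin n) → Prop) : Prop :=
  ∀ S : Finset (Fin n), S.Nonempty → Sᶜ.Nonempty →
    ∃ J J', B J ∧ B J' ∧ (J ∩ S).card ≠ (J' ∩ S).card

/-- Pluecker clusters. -/
def PC (k : ℕ) {n : ℕ} (C : Set (Finset (Fin n))) : Prop :=
  Relation.ReflTransGen SquareMove (rectC k n) C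

/-- Every connected point of the open cell lies in a Pluecker torus. -/
def P (k n : ℕ) : Prop :=
  ∀ X : Matrix (Fin k) (Fin n) ℂ, (∀ i < n, PluckerNonzero X (win k n i)) →
    Conn (PluckerNonzero X) → ∃ C, PC k C ∧ ∀ I ∈ C, PluckerNonzero X I

/-- `U` and `T` are not weakly separated. -/
def Cross {n : ℕ} (U T : Finset (Fin n)) : Prop :=
  ∃ p p' q q' : Fin n, p ∈ U ∧ p ∉ T ∧ p' ∈ U ∧ p' ∉ T ∧ q ∈ T ∧ q ∉ U ∧ q' ∈ T ∧ q' ∉ U ∧
    ((p < q ∧ q < p' ∧ p' < q') ∨ (q < p ∧ p < q' ∧ q' < p'))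

/-- The first window with `t` replaced by `g`. -/
def nb (k : ℕ) {n : ℕ} (t g : Fin n) : Finset (Fin n) :=
  univ.filter fun x => (x.val < k ∧ x ≠ t) ∨ x = g

@[simp] theorem mem_rectSet {k n i j : ℕ} {x : Fin n} :
    x ∈ rectSet k n i j ↔ x.val + i < k ∨ (k + j ≤ x.val + i ∧ x.val < k + j) := by
  simp [rectSet]

@[simp] theorem mem_win {k n i : ℕ} {y : Fin n} :
    y ∈ win k n i ↔ (i ≤ y.val ∧ y.val < i + k) ∨ y.val + n < i + k := by
  simp [win]

@[simp] theorem mem_nb {k n : ℕ} {t g x : Fin n} :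
    x ∈ nb k t g ↔ (x.val < k ∧ x ≠ t) ∨ x = g := by
  simp [nb]

open Matrix

variable {k n : ℕ}

namespace LinX

theorem det_iff (X : Matrix (Fin k) (Fin n) ℂ) (f : Fin k → Fin n) :
    (X.submatrix id f).det ≠ 0 ↔ ∀ u : Fin k → ℂ, (∀ a, (u ᵥ* X) (f a) = 0) → u = 0 := by
  rw [Ne, ← Matrix.exists_vecMul_eq_zero_iff]
  constructor
  · intro h u hu
    by_contra hne
    exact h ⟨u, hne, funext fun a => hu a⟩
  · rintro h ⟨u, hne, hu⟩
    exact hne (h u fun a => congrFun hu a)

theorem mulVec_supp (X : Matrix (Fin k) (Fin n) ℂ) {f : Fin k → Fin n}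
    (hf : Function.Injective f) {v : Fin n → ℂ} (hv : ∀ j, j ∉ Set.range f → v j = 0) :
    X *ᵥ v = X.submatrix id f *ᵥ (v ∘ f) := by
  funext i
  exact (Fintype.sum_of_injective f hf (fun a => X i (f a) * v (f a)) (fun j => X i j * v j)
    (fun j hj => by rw [hv j hj, mul_zero]) fun _ => rfl).symm

theorem det_iff' (X : Matrix (Fin k) (Fin n) ℂ) {f : Fin k → Fin n} (hf : Function.Injective f) :
    (X.submatrix id f).det ≠ 0 ↔
      ∀ v : Fin n → ℂ, X *ᵥ v = 0 → (∀ j, j ∉ Set.range f → v j = 0) → v = 0 := by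
  rw [Ne, ← Matrix.exists_mulVec_eq_zero_iff]
  constructor
  · intro h v hv hs
    have h0 : v ∘ f = 0 := by
      by_contra hne
      exact h ⟨v ∘ f, hne, by rw [← mulVec_supp X hf hs, hv]⟩
    funext j
    by_cases hj : j ∈ Set.range f
    · obtain ⟨a, rfl⟩ := hj
      exact congrFun h0 a
    · exact hs j hj
  · rintro h ⟨w, hne, hw⟩
    have e : Function.extend f w 0 ∘ f = w := Function.extend_comp hf w 0
    have hs : ∀ j, j ∉ Set.range f → Function.extend f w (0 : Fin n → ℂ) j = 0 :=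
      fun j hj => Function.extend_apply' _ _ _ hj
    have h0 := h _ (by rw [mulVec_supp X hf hs, e, hw]) hs
    apply hne
    rw [← e, h0]
    rfl

theorem mod_eq {i a : ℕ} (hi : i < n) (ha : a < n) :
    (i + a < n ∧ (i + a) % n = i + a) ∨ (n ≤ i + a ∧ (i + a) % n = i + a - n) := by
  rcases lt_or_ge (i + a) n with h | h
  · exact Or.inl ⟨h, Nat.mod_eq_of_lt h⟩
  · exact Or.inr ⟨h, by rw [Nat.mod_eq_sub_mod h, Nat.mod_eq_of_lt (by omega)]⟩

theorem win_fun (hkn : k ≤ n) {i : ℕ} (hi : i < n) {f : Fin k → Fin n}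
    (hf : ∀ a, (f a).val = (i + a.val) % n) :
    Function.Injective f ∧ univ.image f = win k n i := by
  have hm : ∀ a : Fin k, (i + a.val < n ∧ (f a).val = i + a.val) ∨
      (n ≤ i + a.val ∧ (f a).val = i + a.val - n) := fun a => by
    rw [hf]
    exact mod_eq hi (by omega)
  constructor
  · intro a b hab
    have h1 := hm a
    have h2 := hm b
    rw [hab] at h1
    apply Fin.ext
    omega
  · ext y
    simp only [mem_image, mem_univ, true_and, mem_win]
    constructor
    · rintro ⟨a, rfl⟩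
      have h1 := hm a
      omega
    · rintro (h | h)
      · refine ⟨⟨y.val - i, by omega⟩, Fin.ext ?_⟩
        have h1 := hm ⟨y.val - i, by omega⟩
        simp only at h1
        omega
      · refine ⟨⟨y.val + n - i, by omega⟩, Fin.ext ?_⟩
        have h1 := hm ⟨y.val + n - i, by omega⟩
        simp only at h1
        omega

theorem rect_fun {i j : ℕ} (hi : i ≤ k) {f : Fin k → Fin n}
    (hf : ∀ a : Fin k, (a.val + i < k ∧ (f a).val = a.val) ∨
      (k ≤ a.val + i ∧ (f a).val = a.val + j)) :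
    Function.Injective f ∧ univ.image f = rectSet k n i j := by
  constructor
  · intro a b hab
    have h1 := hf a
    have h2 := hf b
    rw [hab] at h1
    apply Fin.ext
    omega
  · ext y
    simp only [mem_image, mem_univ, true_and, mem_rectSet]
    constructor
    · rintro ⟨a, rfl⟩
      have h1 := hf a
      omega
    · rintro (h | h)
      · refine ⟨⟨y.val, by omega⟩, Fin.ext ?_⟩
        have h1 := hf ⟨y.val, by omega⟩
        simp only at h1
        omega
      · refine ⟨⟨y.val - j, by omega⟩, Fin.ext ?_⟩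
        have h1 := hf ⟨y.val - j, by omega⟩
        simp only at h1
        omega

theorem card_im {f : Fin k → Fin n} (hf : Function.Injective f) : (univ.image f).card = k := by
  rw [card_image_of_injective _ hf, card_univ, Fintype.card_fin]

theorem rect_none (hkn : k < n) {i j : ℕ} (hi : i ≤ k) (h : i = 0 ∨ j = 0) :
    univ.image (rectCol hkn none) = rectSet k n i j :=
  (rect_fun hi fun a => by
    have e : (rectCol hkn none a).val = a.val := rfl
    omega).2

theorem rect_some (hkn : k < n) (i : Fin k) (j : Fin (n - k)) :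
    univ.image (rectCol hkn (some (i, j))) = rectSet k n (i.val + 1) (j.val + 1) :=
  (rect_fun (by omega) fun a => by
    by_cases h : a.val + i.val + 1 < k
    · exact Or.inl ⟨by omega, by simp only [rectCol, if_pos h]⟩
    · exact Or.inr ⟨by omega, by simp only [rectCol, if_neg h]; omega⟩).2

end LinX

open LinX

theorem pn_iff_vec (X : Matrix (Fin k) (Fin n) ℂ) (I : Finset (Fin n)) :
    PluckerNonzero X I ↔ I.card = k ∧
      ∀ u : Fin k → ℂ, (∀ j ∈ I, (u ᵥ* X) j = 0) → u = 0 := by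
  constructor
  · rintro ⟨h, hd⟩
    exact ⟨h, fun u hu => (det_iff X _).1 hd u fun a => hu _ (orderEmbOfFin_mem I h a)⟩
  · rintro ⟨h, hu⟩
    refine ⟨h, (det_iff X _).2 fun u ha => hu u fun j hj => ?_⟩
    have hj' : j ∈ Set.range (I.orderEmbOfFin h) := by
      rw [range_orderEmbOfFin]
      exact hj
    obtain ⟨a, rfl⟩ := hj'
    exact ha a

theorem pn_iff_det (X : Matrix (Fin k) (Fin n) ℂ) {f : Fin k → Fin n} (hf : Function.Injective f) :
    PluckerNonzero X (univ.image f) ↔ (X.submatrix id f).det ≠ 0 := by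
  rw [pn_iff_vec, det_iff]
  constructor
  · rintro ⟨-, h⟩ u hu
    refine h u fun j hj => ?_
    obtain ⟨a, -, rfl⟩ := mem_image.1 hj
    exact hu a
  · intro h
    exact ⟨card_im hf, fun u hu => h u fun a => hu _ (mem_image_of_mem f (mem_univ a))⟩

theorem pn_iff_ker (X : Matrix (Fin k) (Fin n) ℂ) (I : Finset (Fin n)) :
    PluckerNonzero X I ↔ I.card = k ∧
      ∀ v : Fin n → ℂ, X *ᵥ v = 0 → (∀ j, j ∉ I → v j = 0) → v = 0 := by
  have key : ∀ h : I.card = k, (X.submatrix id (I.orderEmbOfFin h)).det ≠ 0 ↔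
      ∀ v : Fin n → ℂ, X *ᵥ v = 0 → (∀ j, j ∉ I → v j = 0) → v = 0 := fun h => by
    rw [det_iff' X (I.orderEmbOfFin h).injective, range_orderEmbOfFin]
    rfl
  exact ⟨fun ⟨h, hd⟩ => ⟨h, (key h).1 hd⟩, fun ⟨h, hd⟩ => ⟨h, (key h).2 hd⟩⟩

theorem open_iff (hkn : k < n) (X : Matrix (Fin k) (Fin n) ℂ) :
    InOpenCell X ↔ ∀ i < n, PluckerNonzero X (win k n i) := by
  have key : ∀ i : Fin n, PluckerNonzero X (win k n i.val) ↔ (X.submatrix id fun a : Fin k =>
      (⟨(i.val + a.val) % n, Nat.mod_lt _ i.pos⟩ : Fin n)).det ≠ 0 := fun i => by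
    obtain ⟨h1, h2⟩ := win_fun hkn.le i.2
      (f := fun a : Fin k => (⟨(i.val + a.val) % n, Nat.mod_lt _ i.pos⟩ : Fin n)) fun _ => rfl
    rw [← h2, pn_iff_det X h1]
  exact ⟨fun h i hi => (key ⟨i, hi⟩).2 (h _), fun h i => (key i).1 (h _ i.2)⟩

theorem rect_eq (hkn : k < n) : rectCollection hkn = rectC k n := by
  ext I
  constructor
  · rintro ⟨_ | ⟨i, j⟩, rfl⟩
    · exact ⟨0, 0, by omega, by omega, rect_none hkn (by omega) (Or.inl rfl)⟩
    · exact ⟨i.val + 1, j.val + 1, by omega, by omega, rect_some hkn i j⟩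
  · rintro ⟨i, j, hi, hj, rfl⟩
    by_cases h : i = 0 ∨ j = 0
    · exact ⟨none, rect_none hkn hi h⟩
    · obtain ⟨i, rfl⟩ : ∃ i', i = i' + 1 := ⟨i - 1, by omega⟩
      obtain ⟨j, rfl⟩ : ∃ j', j = j' + 1 := ⟨j - 1, by omega⟩
      exact ⟨some (⟨i, by omega⟩, ⟨j, by omega⟩), rect_some hkn _ _⟩

theorem card_rectSet {i j : ℕ} (hi : i ≤ k) (hj : k + j ≤ n) : (rectSet k n i j).card = k := by
  obtain ⟨h1, h2⟩ := rect_fun (n := n) (j := j) hi
    (f := fun a => if a.val + i < k then ⟨a.val, by omega⟩ else ⟨a.val + j, by omega⟩) fun a => by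
      by_cases h : a.val + i < k
      · exact Or.inl ⟨h, by simp only [if_pos h]⟩
      · exact Or.inr ⟨by omega, by simp only [if_neg h]⟩
  rw [← h2, card_im h1]

theorem card_win (hkn : k ≤ n) {i : ℕ} (hi : i < n) : (win k n i).card = k := by
  obtain ⟨h1, h2⟩ := win_fun hkn hi
    (f := fun a : Fin k => (⟨(i + a.val) % n, Nat.mod_lt _ (by omega)⟩ : Fin n)) fun _ => rfl
  rw [← h2, card_im h1]

namespace DiscX

/-- The rank of a set of columns. -/
noncomputable abbrev rk (X : Matrix (Fin k) (Fin n) ℂ) (A : Set (Fin n)) : ℕ :=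
  Module.finrank ℂ (Submodule.span ℂ (X.col '' A))

variable (X : Matrix (Fin k) (Fin n) ℂ)

theorem rk_span {A B : Set (Fin n)} (h : X.col '' A ⊆ Submodule.span ℂ (X.col '' B)) :
    rk X A ≤ rk X B := Submodule.finrank_mono (Submodule.span_le.2 h)

theorem rk_mono {A B : Set (Fin n)} (h : A ⊆ B) : rk X A ≤ rk X B :=
  rk_span X ((Set.image_mono h).trans Submodule.subset_span)

theorem rk_le (A : Set (Fin n)) : rk X A ≤ k :=
  (Submodule.finrank_le _).trans (Module.finrank_fin_fun ℂ).le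

theorem rk_ind {T : Finset (Fin n)} (h : LinearIndepOn ℂ X.col (T : Set (Fin n))) :
    rk X T = T.card := by
  have := finrank_span_eq_card h.linearIndependent
  rw [← Set.image_eq_range] at this
  simpa using this

theorem pn_iff (J : Finset (Fin n)) :
    PluckerNonzero X J ↔ J.card = k ∧ LinearIndepOn ℂ X.col (J : Set (Fin n)) := by
  rw [PluckerNonzero, ← exists_prop]
  refine exists_congr fun h => ?_
  rw [← isUnit_iff_ne_zero, ← isUnit_iff_isUnit_det, ← linearIndependent_cols_iff_isUnit,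
    ← Finset.range_orderEmbOfFin J h, linearIndepOn_range_iff (J.orderEmbOfFin h).injective]
  rfl

theorem card_le {J : Finset (Fin n)} (hJ : PluckerNonzero X J) (S : Finset (Fin n)) :
    (J ∩ S).card ≤ rk X S := by
  rw [← rk_ind X (((pn_iff X J).1 hJ).2.mono (coe_subset.2 inter_subset_left))]
  exact rk_mono X (coe_subset.2 inter_subset_right)

theorem card_add {J : Finset (Fin n)} (hJ : PluckerNonzero X J) (S : Finset (Fin n)) :
    (J ∩ S).card + (J ∩ Sᶜ).card = k := by
  rw [← ((pn_iff X J).1 hJ).1, ← card_inter_add_card_sdiff J S, sdiff_eq_inter_compl]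

theorem exists_basis (h : ∃ J, PluckerNonzero X J) (S : Finset (Fin n)) :
    ∃ J, PluckerNonzero X J ∧ (J ∩ S).card = rk X S := by
  obtain ⟨J0, h0⟩ := h
  obtain ⟨T, t1, -, t2, t3⟩ := exists_linearIndepOn_extension (linearIndepOn_empty ℂ X.col)
    (Set.empty_subset (S : Set (Fin n)))
  obtain ⟨J, -, j1, j2, j3⟩ := exists_linearIndepOn_extension t3 (Set.subset_univ T)
  lift J to Finset (Fin n) using Set.toFinite J
  have h1 := (pn_iff X J0).1 h0
  have h2 : J.card = k := by
    have a1 := rk_ind X h1.2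
    have a2 := rk_mono X (Set.subset_univ (J0 : Set (Fin n)))
    have a3 := rk_span X j2
    have a4 := rk_le X J
    have a5 := rk_ind X j3
    omega
  have hJ := (pn_iff X J).2 ⟨h2, j3⟩
  refine ⟨J, hJ, le_antisymm (card_le X hJ S) ?_⟩
  rw [← rk_ind X (j3.mono (coe_subset.2 inter_subset_left)), coe_inter]
  exact (rk_span X t2).trans (rk_mono X (Set.subset_inter j1 t1))

end DiscX

open DiscX in
theorem disc_iff (X : Matrix (Fin k) (Fin n) ℂ) (h : ∃ J, PluckerNonzero X J) :
    ¬ MatroidDisconnected X ↔ Conn (PluckerNonzero X) := by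
  constructor
  · intro hd S h1 h2
    by_contra hn
    obtain ⟨J, j1, j2⟩ := exists_basis X h S
    obtain ⟨J', j1', j2'⟩ := exists_basis X h Sᶜ
    have e : (J ∩ S).card = (J' ∩ S).card := by
      by_contra hne
      exact hn ⟨J, J', j1, j1', hne⟩
    have e' := card_add X j1' S
    rw [coe_compl] at j2'
    refine hd ⟨S, h1, by rw [← coe_compl]; exact h2, ?_⟩
    show rk X S + rk X (S : Set (Fin n))ᶜ = k
    omega
  · rintro hc ⟨A, h1, h2, h3⟩
    lift A to Finset (Fin n) using Set.toFinite A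
    rw [← coe_compl] at h2 h3
    obtain ⟨J, J', j1, j2, j3⟩ := hc A h1 h2
    have e : rk X A + rk X (Aᶜ : Finset (Fin n)) = k := h3
    have a1 := card_le X j1 A
    have a2 := card_le X j1 Aᶜ
    have a3 := card_add X j1 A
    have b1 := card_le X j2 A
    have b2 := card_le X j2 Aᶜ
    have b3 := card_add X j2 A
    omega

namespace DualX

/-- Reversal of a set of columns. -/
def rv (S : Finset (Fin n)) : Finset (Fin n) := S.map Fin.revPerm.toEmbedding

/-- The complement of the reversal. -/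
def phi (J : Finset (Fin n)) : Finset (Fin n) := (rv J)ᶜ

theorem mem_rv {S : Finset (Fin n)} {x : Fin n} : x ∈ rv S ↔ x.rev ∈ S := by
  simp [rv, Finset.mem_map_equiv]

theorem mem_phi {J : Finset (Fin n)} {x : Fin n} : x ∈ phi J ↔ x.rev ∉ J := by
  simp [phi, mem_rv]

theorem card_rv (S : Finset (Fin n)) : (rv S).card = S.card := card_map _

theorem phi_phi (J : Finset (Fin n)) : phi (phi J) = J := by
  ext x; simp [mem_phi]

theorem phi_inj : Function.Injective (phi (n := n)) := Function.LeftInverse.injective phi_phi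

theorem card_phi (J : Finset (Fin n)) : (phi J).card + J.card = n := by
  have h1 : (phi J).card = n - J.card := by
    rw [phi, card_compl, card_rv, Fintype.card_fin]
  have h2 : J.card ≤ n := by simpa using J.card_le_univ
  omega

theorem card_phi_inter (J S : Finset (Fin n)) :
    (phi J ∩ S).card + (J ∩ rv S).card = S.card := by
  have h1 : J ∩ rv S = rv (S ∩ rv J) := by
    ext x; simp [mem_rv, and_comm]
  have h2 : phi J ∩ S = S \ rv J := by
    ext x; simp [mem_rv, mem_phi, and_comm]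
  rw [h1, h2, card_rv, card_sdiff_add_card_inter]

theorem phi_win {k' : ℕ} (h : k + k' = n) {i : ℕ} (hi : i < n) :
    phi (win k' n i) = win k n ((n - i) % n) := by
  ext x
  have hx := x.isLt
  rw [mem_phi, mem_win, mem_win, Fin.val_rev]
  rcases Nat.eq_zero_or_pos i with rfl | hi0
  · rw [Nat.sub_zero, Nat.mod_self]; omega
  · rw [Nat.mod_eq_of_lt (by omega)]; omega

theorem phi_rect {k' : ℕ} (h : k + k' = n) (i j : ℕ) :
    phi (rectSet k' n i j) = rectSet k n j i := by
  ext x
  have hx := x.isLt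
  rw [mem_phi, mem_rectSet, mem_rectSet, Fin.val_rev]
  omega

theorem image_rect {k' : ℕ} (h : k + k' = n) : phi '' rectC k' n = rectC k n := by
  ext I
  constructor
  · rintro ⟨J, ⟨i, j, hi, hj, rfl⟩, rfl⟩
    exact ⟨j, i, by omega, by omega, phi_rect h i j⟩
  · rintro ⟨i, j, hi, hj, rfl⟩
    exact ⟨rectSet k' n j i, ⟨j, i, by omega, by omega, rfl⟩, phi_rect h j i⟩

theorem phi_two {L M : Finset (Fin n)} {p q r s : Fin n}
    (hM : ∀ y : Fin n, y.rev ∈ M ↔ y ≠ p ∧ y ≠ q ∧ y ≠ r ∧ y ≠ s ∧ y ∉ L)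
    (hr : r ∉ L) (hs : s ∉ L) (h1 : r ≠ p) (h2 : r ≠ q) (h3 : s ≠ p) (h4 : s ≠ q) :
    phi (insert p (insert q L)) = insert r.rev (insert s.rev M) := by
  ext x
  obtain ⟨y, rfl⟩ : ∃ y : Fin n, x = y.rev := ⟨x.rev, by simp⟩
  simp only [mem_phi, Fin.rev_rev, mem_insert, Fin.rev_inj, hM]
  by_cases e1 : y = r
  · subst e1; tauto
  by_cases e2 : y = s
  · subst e2; tauto
  tauto

theorem move {C C' : Set (Finset (Fin n))} (h : SquareMove C C') :
    SquareMove (phi '' C) (phi '' C') := by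
  obtain ⟨L, a, b, c, d, ho, ha, hb, hc, hd, h1, h2, h3, h4, h5, rfl⟩ := h
  have hab : a ≠ b := by rcases ho with h | h <;> (intro e; subst e; omega)
  have hac : a ≠ c := by rcases ho with h | h <;> (intro e; subst e; omega)
  have had : a ≠ d := by rcases ho with h | h <;> (intro e; subst e; omega)
  have hbc : b ≠ c := by rcases ho with h | h <;> (intro e; subst e; omega)
  have hbd : b ≠ d := by rcases ho with h | h <;> (intro e; subst e; omega)
  have hcd : c ≠ d := by rcases ho with h | h <;> (intro e; subst e; omega)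
  obtain ⟨M, hM⟩ : ∃ M : Finset (Fin n),
      ∀ y : Fin n, y.rev ∈ M ↔ y ≠ a ∧ y ≠ b ∧ y ≠ c ∧ y ≠ d ∧ y ∉ L :=
    ⟨phi (insert a (insert b (insert c (insert d L)))), fun y => by
      simp only [mem_phi, Fin.rev_rev, mem_insert]; tauto⟩
  have e1 : phi (insert a (insert b L)) = insert c.rev (insert d.rev M) :=
    phi_two hM hc hd hac.symm hbc.symm had.symm hbd.symm
  have e2 : phi (insert b (insert c L)) = insert a.rev (insert d.rev M) :=
    phi_two (fun y => by rw [hM]; tauto) ha hd hab hac hbd.symm hcd.symm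
  have e3 : phi (insert c (insert d L)) = insert a.rev (insert b.rev M) :=
    phi_two (fun y => by rw [hM]; tauto) ha hb hac had hbc hbd
  have e4 : phi (insert a (insert d L)) = insert b.rev (insert c.rev M) :=
    phi_two (fun y => by rw [hM]; tauto) hb hc hab.symm hbd hac.symm hcd
  have e5 : phi (insert a (insert c L)) = insert b.rev (insert d.rev M) :=
    phi_two (fun y => by rw [hM]; tauto) hb hd hab.symm hbc had.symm hcd.symm
  have e6 : phi (insert b (insert d L)) = insert a.rev (insert c.rev M) :=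
    phi_two (fun y => by rw [hM]; tauto) ha hc hab had hbc.symm hcd
  have f1 := Set.mem_image_of_mem phi h1
  have f2 := Set.mem_image_of_mem phi h2
  have f3 := Set.mem_image_of_mem phi h3
  have f4 := Set.mem_image_of_mem phi h4
  have f5 := Set.mem_image_of_mem phi h5
  rw [e1] at f1; rw [e2] at f2; rw [e3] at f3; rw [e4] at f4; rw [e5] at f5
  have ga : a.rev ∉ M := by rw [hM]; tauto
  have gb : b.rev ∉ M := by rw [hM]; tauto
  have gc : c.rev ∉ M := by rw [hM]; tauto
  have gd : d.rev ∉ M := by rw [hM]; tauto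
  rw [Set.image_insert_eq, Set.image_sdiff phi_inj, Set.image_singleton, e5, e6]
  rcases ho with ⟨o1, o2, o3⟩ | ⟨o1, o2, o3⟩
  · refine ⟨M, d.rev, c.rev, b.rev, a.rev, Or.inl ⟨?_, ?_, ?_⟩, gd, gc, gb, ga, ?_, ?_, ?_, ?_, ?_,
      ?_⟩
    · exact Fin.rev_lt_rev.2 o3
    · exact Fin.rev_lt_rev.2 o2
    · exact Fin.rev_lt_rev.2 o1
    · rwa [Finset.insert_comm]
    · rwa [Finset.insert_comm]
    · rwa [Finset.insert_comm]
    · rwa [Finset.insert_comm]
    · rwa [Finset.insert_comm]
    · rw [Finset.insert_comm c.rev, Finset.insert_comm d.rev]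
  · refine ⟨M, b.rev, a.rev, d.rev, c.rev, Or.inr ⟨?_, ?_, ?_⟩, gb, ga, gd, gc, ?_, f2, ?_, f4, f5,
      rfl⟩
    · exact Fin.rev_lt_rev.2 o3
    · exact Fin.rev_lt_rev.2 o2
    · exact Fin.rev_lt_rev.2 o1
    · rwa [Finset.insert_comm]
    · rwa [Finset.insert_comm]

theorem gale {k' : ℕ} (h : k + k' = n) (X : Matrix (Fin k) (Fin n) ℂ) {I : Finset (Fin n)}
    (hI : PluckerNonzero X I) :
    ∃ Y : Matrix (Fin k') (Fin n) ℂ, ∀ J, PluckerNonzero Y J ↔ PluckerNonzero X (phi J) := by
  have hinj : Function.Injective X.vecMul := by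
    intro u u' e
    have := ((pn_iff_vec X I).1 hI).2 (u - u') fun j _ => by
      have e' : u ᵥ* X = u' ᵥ* X := e
      rw [Matrix.sub_vecMul, e', sub_self]; rfl
    exact sub_eq_zero.1 this
  have hr : X.rank = k := by
    rw [(Matrix.vecMul_injective_iff.1 hinj).rank_matrix, Fintype.card_fin]
  have hk : Module.finrank ℂ (LinearMap.ker X.mulVecLin) = k' := by
    have h1 := LinearMap.finrank_range_add_finrank_ker X.mulVecLin
    have h2 : Module.finrank ℂ (LinearMap.range X.mulVecLin) = k := hr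
    rw [h2, Module.finrank_fin_fun] at h1
    omega
  let b := Module.finBasisOfFinrankEq ℂ _ hk
  refine ⟨Matrix.of fun i j => (b i : Fin n → ℂ) j.rev, fun J => ?_⟩
  have key : ∀ (u : Fin k' → ℂ) (j : Fin n),
      (u ᵥ* (Matrix.of fun i (j : Fin n) => (b i : Fin n → ℂ) j.rev)) j =
        (b.equivFun.symm u : Fin n → ℂ) j.rev := by
    intro u j
    rw [Module.Basis.equivFun_symm_apply]
    simp [Matrix.vecMul, dotProduct]
  rw [pn_iff_vec, pn_iff_ker]
  have hc := card_phi J
  refine and_congr (by omega) ⟨fun H v hv h0 => ?_, fun H u hu => ?_⟩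
  · have h1 := H (b.equivFun ⟨v, hv⟩) fun j hj => by
      rw [key, LinearEquiv.symm_apply_apply]
      exact h0 _ (by simpa [mem_phi] using hj)
    have h2 := b.equivFun.map_eq_zero_iff.1 h1
    exact congrArg Subtype.val h2
  · have h1 := H (b.equivFun.symm u) (b.equivFun.symm u).2 fun j hj => by
      have := hu j.rev (by simpa [mem_phi] using hj)
      rwa [key, Fin.rev_rev] at this
    exact b.equivFun.symm.map_eq_zero_iff.1 (Subtype.ext h1)

end DualX

open DualX in
theorem dual {k' : ℕ} (h : k + k' = n) (hn : 0 < n) (H : P k' n) : P k n := by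
  intro X hw hc
  obtain ⟨Y, hY⟩ := gale h X (hw 0 hn)
  obtain ⟨C, hC, hC'⟩ := H Y
    (fun i hi => by rw [hY, phi_win h hi]; exact hw _ (Nat.mod_lt _ hn))
    (fun S h1 h2 => by
      obtain ⟨x, hx⟩ := h1
      obtain ⟨y, hy⟩ := h2
      obtain ⟨J, J', hJ, hJ', hne⟩ := hc (rv S) ⟨x.rev, by simpa [mem_rv] using hx⟩
        ⟨y.rev, by simpa [mem_rv] using hy⟩
      refine ⟨phi J, phi J', by rwa [hY, phi_phi], by rwa [hY, phi_phi], ?_⟩
      have e1 := card_phi_inter J S
      have e2 := card_phi_inter J' S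
      omega)
  refine ⟨phi '' C, ?_, ?_⟩
  · unfold PC at hC ⊢
    rw [← image_rect h]
    clear hC'
    induction hC with
    | refl => exact Relation.ReflTransGen.refl
    | tail _ h2 ih => exact ih.tail (move h2)
  · rintro I ⟨J, hJ, rfl⟩
    exact (hY J).1 (hC' J hJ)

end Pool.Agent.MP_122b1e_ag.PT
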