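import Mathlib
import Pool.Agent.MP_122b1e_ag.PT1

/- Pluecker tori: the cases of full cover, and the bad points. -/

set_option autoImplicit false

namespace Pool.Agent.MP_122b1e_ag.PT

open Finset Matrix

variable {k n : ℕ}

namespace TwoX

/-- `x < y` are consecutive in `W` -/
def Con (W : Finset (Fin n)) (x y : Fin n) : Prop :=
  x ∈ W ∧ y ∈ W ∧ x < y ∧ ∀ z ∈ W, z ≤ x ∨ y ≤ z

theorem ex_pred {W : Finset (Fin n)} {a b : Fin n} (ha : a ∈ W) (hb : b ∈ W) (h : a < b) :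
    ∃ p, Con W p b := by
  obtain ⟨p, h1, h2⟩ := exists_max_image (W.filter (· < b)) id ⟨a, mem_filter.2 ⟨ha, h⟩⟩
  exact ⟨p, (mem_filter.1 h1).1, hb, (mem_filter.1 h1).2, fun z hz =>
    (lt_or_ge z b).imp_left fun h => h2 z (mem_filter.2 ⟨hz, h⟩)⟩

theorem ex_succ {W : Finset (Fin n)} {a b : Fin n} (ha : a ∈ W) (hb : b ∈ W) (h : a < b) :
    ∃ s, Con W a s := by
  obtain ⟨p, h1, h2⟩ := exists_min_image (W.filter (a < ·)) id ⟨b, mem_filter.2 ⟨hb, h⟩⟩
  exact ⟨p, ha, (mem_filter.1 h1).1, (mem_filter.1 h1).2, fun z hz =>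
    (le_or_gt z a).imp_right fun h => h2 z (mem_filter.2 ⟨hz, h⟩)⟩

theorem pick {Q : Type} (c : Fin n → Q) (A : Q) (W : Finset (Fin n))
    (h3 : ∀ x y, Con W x y → c x ≠ c y) {j p0 s0 u w : Fin n} (hj : j ∈ W) (cj : c j = A)
    (hp : p0 ∈ W) (hp' : p0 < j) (hs : s0 ∈ W) (hs' : j < s0) (hu : u ∈ W) (hw : w ∈ W)
    (cu : c u ≠ A) (cw : c w ≠ A) (cuw : c u ≠ c w) :
    ∃ x y z, Con W x y ∧ Con W y z ∧ c x ≠ c z ∧
      ∃ u ∈ W.erase y, ∃ w ∈ W.erase y, c u ≠ A ∧ c w ≠ A ∧ c u ≠ c w := by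
  classical
  obtain ⟨p, hp⟩ := ex_pred hp hj hp'
  obtain ⟨s, hs⟩ := ex_succ hj hs hs'
  have cp : c p ≠ A := cj ▸ h3 p j hp
  have cs : c s ≠ A := cj ▸ (h3 j s hs).symm
  by_cases e : c p = c s
  swap
  · exact ⟨p, j, s, hp, hs, e, p, mem_erase.2 ⟨hp.2.2.1.ne, hp.1⟩, s,
      mem_erase.2 ⟨hs.2.2.1.ne', hs.2.1⟩, cp, cs, e⟩
  obtain ⟨v, hv, v1, v2⟩ : ∃ v ∈ W, c v ≠ A ∧ c v ≠ c p := by
    by_cases h : c u = c p
    · exact ⟨w, hw, cw, fun h' => cuw (h.trans h'.symm)⟩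
    · exact ⟨u, hu, cu, h⟩
  rcases lt_trichotomy j v with h | h | h
  · obtain ⟨t, t1, t2⟩ := exists_min_image (W.filter fun t => j < t ∧ c t ≠ A ∧ c t ≠ c p) id
      ⟨v, mem_filter.2 ⟨hv, h, v1, v2⟩⟩
    obtain ⟨t1, t3, t4, t5⟩ := mem_filter.1 t1
    obtain ⟨q, hq⟩ := ex_pred hj t1 t3
    have a1 : j ≤ q := (hq.2.2.2 j hj).resolve_right t3.not_ge
    obtain ⟨r, hr⟩ := ex_pred hp.1 hq.1 (hp.2.2.1.trans_le a1)
    have a2 : p ≤ r := (hr.2.2.2 p hp.1).resolve_right (hp.2.2.1.trans_le a1).not_ge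
    refine ⟨r, q, t, hr, hq, fun h' => ?_, p, mem_erase.2 ⟨(hp.2.2.1.trans_le a1).ne, hp.1⟩, t,
      mem_erase.2 ⟨hq.2.2.1.ne', t1⟩, cp, t4, t5.symm⟩
    rcases hp.2.2.2 r hr.1 with a3 | a3
    · exact t5 (by rw [← h', le_antisymm a3 a2])
    rcases a3.eq_or_lt with a3 | a3
    · exact t4 (by rw [← h', ← a3, cj])
    · exact (hr.2.2.1.trans hq.2.2.1).not_ge
        (t2 r (mem_filter.2 ⟨hr.1, a3, h' ▸ t4, h' ▸ t5⟩))
  · exact absurd (h ▸ cj) v1
  · obtain ⟨t, t1, t2⟩ := exists_max_image (W.filter fun t => t < j ∧ c t ≠ A ∧ c t ≠ c p) id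
      ⟨v, mem_filter.2 ⟨hv, h, v1, v2⟩⟩
    obtain ⟨t1, t3, t4, t5⟩ := mem_filter.1 t1
    obtain ⟨q, hq⟩ := ex_succ t1 hj t3
    have a1 : q ≤ j := (hq.2.2.2 j hj).resolve_left t3.not_ge
    obtain ⟨r, hr⟩ := ex_succ hq.2.1 hs.2.1 (a1.trans_lt hs.2.2.1)
    have a2 : r ≤ s := (hr.2.2.2 s hs.2.1).resolve_left (a1.trans_lt hs.2.2.1).not_ge
    refine ⟨t, q, r, hq, hr, fun h' => ?_, s, mem_erase.2 ⟨(a1.trans_lt hs.2.2.1).ne', hs.2.1⟩, t,
      mem_erase.2 ⟨hq.2.2.1.ne, t1⟩, cs, t4, e ▸ t5.symm⟩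
    rcases hs.2.2.2 r hr.2.1 with a3 | a3
    · rcases a3.eq_or_lt with a3 | a3
      · exact t4 (by rw [h', a3, cj])
      · exact (hq.2.2.1.trans hr.2.2.1).not_ge
          (t2 r (mem_filter.2 ⟨hr.2.1, a3, h' ▸ t4, h' ▸ t5⟩))
    · exact t5 (by rw [h', le_antisymm a2 a3, e])

theorem core {Q : Type} (c : Fin n → Q) (m : Fin n) (G : Finset (Fin n) → Prop)
    (hG : ∀ x y, c x ≠ c y → G {x, y}) (N : ℕ) : ∀ (W : Finset (Fin n)) (C : Set (Finset (Fin n))),
    #W = N → PC 2 C → (∀ x ∈ W, m < x ∧ {m, x} ∈ C) →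
    (∀ x y, Con W x y → {x, y} ∈ C ∧ c x ≠ c y) → (∀ I ∈ C, G I ∨ ∃ x ∈ W, I = {m, x}) →
    (∀ j ∈ W, c j = c m → (∃ p ∈ W, p < j) ∧ ∃ s ∈ W, j < s) →
    (∃ u ∈ W, ∃ w ∈ W, c u ≠ c m ∧ c w ≠ c m ∧ c u ≠ c w) → ∃ C, PC 2 C ∧ ∀ I ∈ C, G I := by
  induction N with
  | zero =>
    intro W C h0 _ _ _ _ _ ⟨u, hu, _⟩
    rw [card_eq_zero] at h0
    exact absurd (h0 ▸ hu) (notMem_empty u)
  | succ N ih =>
    intro W C h0 h1 h2 h3 h4 h5 ⟨u, hu, w, hw, cu, cw, cuw⟩
    by_cases hb : ∃ j ∈ W, c j = c m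
    swap
    · refine ⟨C, h1, fun I hI => (h4 I hI).elim id ?_⟩
      rintro ⟨x, hx, rfl⟩
      exact hG m x fun e => hb ⟨x, hx, e.symm⟩
    obtain ⟨j, hj, cj⟩ := hb
    obtain ⟨⟨p, hp, hp'⟩, s, hs, hs'⟩ := h5 j hj cj
    obtain ⟨x, y, z, a1, a2, a3, a4⟩ := pick c (c m) W (fun x y h => (h3 x y h).2) hj cj hp hp'
      hs hs' hu hw cu cw cuw
    have m1 := (h2 x a1.1).1
    have m2 := (h2 y a2.1).1
    have m3 := (h2 z a2.2.1).1
    have xy := a1.2.2.1
    have yz := a2.2.2.1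
    refine ih (W.erase y) (insert {x, z} (C \ {{m, y}})) (by rw [card_erase_of_mem a2.1]; omega)
      (h1.tail ⟨∅, m, x, y, z, Or.inl ⟨m1, xy, yz⟩, by simp, by simp, by simp, by simp,
        (h2 x a1.1).2, (h3 x y a1).1, (h3 y z a2).1, (h2 z a2.2.1).2, (h2 y a2.1).2, rfl⟩)
      (fun t ht => ?_) (fun a b hab => ?_) (fun I hI => ?_) (fun t ht ct => ?_) a4
    · obtain ⟨t1, t2⟩ := mem_erase.1 ht
      refine ⟨(h2 t t2).1, Or.inr ⟨(h2 t t2).2, fun e => ?_⟩⟩
      have : t ∈ ({m, y} : Finset (Fin n)) := Set.mem_singleton_iff.1 e ▸ by simp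
      rcases mem_insert.1 this with e | e
      · exact (h2 t t2).1.ne' e
      · exact t1 (mem_singleton.1 e)
    · obtain ⟨b1, b2, b3, b4⟩ := hab
      obtain ⟨b5, b1⟩ := mem_erase.1 b1
      obtain ⟨b6, b2⟩ := mem_erase.1 b2
      by_cases h : y ≤ a ∨ b ≤ y
      · have hc : Con W a b := ⟨b1, b2, b3, fun t ht => by
          by_cases e : t = y
          · exact e ▸ h
          · exact b4 t (mem_erase.2 ⟨e, ht⟩)⟩
        refine ⟨Or.inr ⟨(h3 a b hc).1, fun e => ?_⟩, (h3 a b hc).2⟩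
        have : m ∈ ({a, b} : Finset (Fin n)) := Set.mem_singleton_iff.1 e ▸ by simp
        rcases mem_insert.1 this with e | e
        · exact (h2 a b1).1.ne e
        · exact (h2 b b2).1.ne (mem_singleton.1 e)
      · rw [not_or, not_le, not_le] at h
        obtain rfl : a = x := le_antisymm ((a1.2.2.2 a b1).resolve_right h.1.not_ge)
          ((b4 x (mem_erase.2 ⟨xy.ne, a1.1⟩)).resolve_right (xy.trans h.2).not_ge)
        obtain rfl : b = z := le_antisymm
          ((b4 z (mem_erase.2 ⟨yz.ne', a2.2.1⟩)).resolve_left (xy.trans yz).not_ge)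
          ((a2.2.2.2 b b2).resolve_left h.2.not_ge)
        exact ⟨Or.inl rfl, a3⟩
    · rcases hI with rfl | ⟨b1, b2⟩
      · exact Or.inl (hG x z a3)
      · refine (h4 I b1).imp_right ?_
        rintro ⟨t, ht, rfl⟩
        exact ⟨t, mem_erase.2 ⟨fun e => b2 (by rw [e]; rfl), ht⟩, rfl⟩
    · obtain ⟨⟨p, hp, hp'⟩, s, hs, hs'⟩ := h5 t (mem_of_mem_erase ht) ct
      constructor
      · by_cases e : p = y
        · exact ⟨x, mem_erase.2 ⟨xy.ne, a1.1⟩, xy.trans (e ▸ hp')⟩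
        · exact ⟨p, mem_erase.2 ⟨e, hp⟩, hp'⟩
      · by_cases e : s = y
        · exact ⟨z, mem_erase.2 ⟨yz.ne', a2.2.1⟩, (e ▸ hs' : t < y).trans yz⟩
        · exact ⟨s, mem_erase.2 ⟨e, hs⟩, hs'⟩

theorem pn_pair (X : Matrix (Fin 2) (Fin n) ℂ) {x y : Fin n} (h : x ≠ y) :
    PluckerNonzero X {x, y} ↔ X 0 x * X 1 y - X 0 y * X 1 x ≠ 0 := by
  have h1 : Function.Injective ![x, y] := by
    intro a b e
    fin_cases a <;> fin_cases b <;> simp_all [eq_comm]
  have h2 : univ.image ![x, y] = {x, y} := by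
    ext t
    simp [Fin.exists_fin_two, eq_comm]
  rw [← h2, pn_iff_det X h1, det_fin_two]
  simp

open Classical in
/-- the direction of a nonzero vector -/
noncomputable def dir (a b : ℂ) : Option ℂ := if a = 0 then none else some (b / a)

theorem dir_eq {a b a' b' : ℂ} (h : a ≠ 0 ∨ b ≠ 0) (h' : a' ≠ 0 ∨ b' ≠ 0) :
    dir a b = dir a' b' ↔ a * b' - a' * b = 0 := by
  unfold dir
  split_ifs with h1 h2 h2
  · simp [h1, h2]
  · simp [h1, h2, h.resolve_left (not_not.2 h1)]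
  · simp [h1, h2, h'.resolve_left (not_not.2 h2)]
  · rw [Option.some.injEq, div_eq_div_iff h1 h2, sub_eq_zero]
    constructor <;> intro e <;> linear_combination -e

end TwoX

theorem P_one (hn : 1 < n) : P 1 n := by
  intro X h _
  refine ⟨_, .refl, ?_⟩
  rintro I ⟨i, j, hi, hj, rfl⟩
  obtain rfl | rfl : i = 0 ∨ i = 1 := by omega
  · convert h 0 (by omega) using 1
    ext x
    simp only [mem_rectSet, mem_win]
    omega
  · convert h j (by omega) using 1
    ext x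
    simp only [mem_rectSet, mem_win]
    omega

theorem P_two (hn : 2 < n) : P 2 n := by
  intro X h hc
  obtain ⟨m, hm⟩ : ∃ m : Fin n, m.val = 0 := ⟨⟨0, by omega⟩, rfl⟩
  obtain ⟨o, ho⟩ : ∃ o : Fin n, o.val = 1 := ⟨⟨1, by omega⟩, rfl⟩
  obtain ⟨l, hl⟩ : ∃ l : Fin n, l.val + 1 = n := ⟨⟨n - 1, by omega⟩, by simp; omega⟩
  have w1 : ∀ x y : Fin n, y.val = x.val + 1 ∨ (y = m ∧ x = l) →
      x ≠ y ∧ PluckerNonzero X {x, y} := fun x y e => by
    refine ⟨by omega, ?_⟩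
    convert h x x.2 using 1
    ext t
    simp only [mem_insert, mem_singleton, mem_win]
    omega
  have w2 : ∀ x, X 0 x ≠ 0 ∨ X 1 x ≠ 0 := fun x => by
    obtain ⟨y, hy⟩ : ∃ y : Fin n, y.val = x.val + 1 ∨ (y = m ∧ x = l) := by
      by_cases e : x.val + 1 < n
      · exact ⟨⟨_, e⟩, Or.inl rfl⟩
      · exact ⟨m, Or.inr ⟨rfl, by omega⟩⟩
    obtain ⟨a1, a2⟩ := w1 x y hy
    by_contra e
    rw [not_or, not_not, not_not] at e
    exact (TwoX.pn_pair X a1).1 a2 (by simp [e.1, e.2])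
  obtain ⟨c, hc'⟩ : ∃ c : Fin n → Option ℂ, ∀ x y, x ≠ y →
      (PluckerNonzero X {x, y} ↔ c x ≠ c y) :=
    ⟨fun x => TwoX.dir (X 0 x) (X 1 x), fun x y e =>
      (TwoX.pn_pair X e).trans (TwoX.dir_eq (w2 x) (w2 y)).not.symm⟩
  have w3 : ∀ x y : Fin n, y.val = x.val + 1 ∨ (y = m ∧ x = l) → c x ≠ c y :=
    fun x y e => (hc' x y (w1 x y e).1).1 (w1 x y e).2
  have c1 := w3 m o (by omega)
  have c2 := w3 l m (by simp)
  refine TwoX.core c m _ (fun x y e => (hc' x y fun e' => e (by rw [e'])).2 e) _ (univ.erase m) _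
    rfl .refl (fun x hx => ?_) (fun x y hxy => ?_) ?_ (fun j hj cj => ?_) ?_
  · have := ne_of_mem_erase hx
    refine ⟨by omega, 1, x.val - 1, by omega, by omega, ?_⟩
    ext t
    simp only [mem_insert, mem_singleton, mem_rectSet]
    omega
  · obtain ⟨a1, a2, a3, a4⟩ := hxy
    have a5 : y.val = x.val + 1 := by
      have := a4 ⟨x.val + 1, by omega⟩ (mem_erase.2 ⟨by simp [Fin.ext_iff]; omega, mem_univ _⟩)
      simp only [Fin.le_def] at this
      omega
    refine ⟨⟨2, x.val, le_rfl, by omega, ?_⟩, w3 x y (Or.inl a5)⟩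
    ext t
    simp only [mem_insert, mem_singleton, mem_rectSet]
    omega
  · rintro I ⟨i, j, hi, hj, rfl⟩
    obtain rfl | rfl | rfl : i = 0 ∨ i = 1 ∨ i = 2 := by omega
    · refine Or.inr ⟨o, mem_erase.2 ⟨by omega, mem_univ _⟩, ?_⟩
      ext t
      simp only [mem_insert, mem_singleton, mem_rectSet]
      omega
    · refine Or.inr ⟨⟨j + 1, by omega⟩, mem_erase.2 ⟨by simp [Fin.ext_iff]; omega, mem_univ _⟩, ?_⟩
      ext t
      simp only [mem_insert, mem_singleton, mem_rectSet, Fin.ext_iff]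
      omega
    · left
      convert h j (by omega) using 1
      ext t
      simp only [mem_rectSet, mem_win]
      omega
  · have a1 := ne_of_mem_erase hj
    have a2 : j ≠ o := fun e => c1 (by rw [← cj, e])
    have a3 : j ≠ l := fun e => c2 (by rw [← cj, e])
    exact ⟨⟨o, mem_erase.2 ⟨by omega, mem_univ _⟩, by omega⟩,
      l, mem_erase.2 ⟨by omega, mem_univ _⟩, by omega⟩
  · classical
    by_contra hne
    have key : ∀ J, PluckerNonzero X J → #(J ∩ univ.filter fun x => c x = c m) = 1 := by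
      intro J hJ
      obtain ⟨x, y, e, rfl⟩ := card_eq_two.1 hJ.1
      have a1 := (hc' x y e).1 hJ
      have mem : ∀ t, c t ≠ c m → t ∈ univ.erase m :=
        fun t ht => mem_erase.2 ⟨fun e => ht (by rw [e]), mem_univ _⟩
      by_cases hx : c x = c m
      · have hy : c y ≠ c m := fun e => a1 (hx.trans e.symm)
        simp [hx, hy]
      · by_cases hy : c y = c m
        · simp [hx, hy]
        · exact absurd ⟨x, mem x hx, y, mem y hy, hx, hy, a1⟩ hne
    obtain ⟨J, J', a1, a2, a3⟩ := hc (univ.filter fun x => c x = c m) ⟨m, by simp⟩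
      ⟨o, by simpa using c1.symm⟩
    exact a3 ((key J a1).trans (key J' a2).symm)

namespace SixX

/-- Not exactly one of the three products is nonzero. -/
def Rl (a a' b b' c c' : Bool) : Bool :=
  (!(a && a') || (b && b') || (c && c')) && (!(b && b') || (a && a') || (c && c')) &&
    (!(c && c') || (a && a') || (b && b'))

open Classical in
/-- The support of the Pluecker vector. -/
noncomputable def β (X : Matrix (Fin 3) (Fin 6) ℂ) (I : Finset (Fin 6)) : Bool :=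
  decide (PluckerNonzero X I)

variable (X : Matrix (Fin 3) (Fin 6) ℂ)

theorem β_iff {I : Finset (Fin 6)} : β X I = true ↔ PluckerNonzero X I := by simp [β]

theorem pn3 {x y z : Fin 6} (h1 : x ≠ y) (h2 : x ≠ z) (h3 : y ≠ z) :
    β X {x, y, z} = true ↔ (X.submatrix id ![x, y, z]).det ≠ 0 := by
  have e : univ.image ![x, y, z] = {x, y, z} := by
    ext w
    simp [Fin.exists_fin_succ, eq_comm]
  rw [β_iff, ← e]
  refine pn_iff_det X fun i j => ?_
  fin_cases i <;> fin_cases j <;> simp [h1, h2, h3, h1.symm, h2.symm, h3.symm]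

theorem rule (l a b c d : Fin 6) (I1 I2 I3 I4 I5 I6 : Finset (Fin 6))
    (h : (l ≠ a ∧ l ≠ b ∧ l ≠ c ∧ l ≠ d ∧ a ≠ b ∧ c ≠ d ∧ a ≠ c ∧ b ≠ d ∧ a ≠ d ∧ b ≠ c) ∧
      I1 = {l, a, b} ∧ I2 = {l, c, d} ∧ I3 = {l, a, c} ∧ I4 = {l, b, d} ∧ I5 = {l, a, d} ∧
      I6 = {l, b, c}) :
    Rl (β X I1) (β X I2) (β X I3) (β X I4) (β X I5) (β X I6) = true := by
  obtain ⟨⟨h1, h2, h3, h4, a1, a2, a3, a4, a5, a6⟩, rfl, rfl, rfl, rfl, rfl, rfl⟩ := h
  have e : (X.submatrix id ![l, a, c]).det * (X.submatrix id ![l, b, d]).det =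
      (X.submatrix id ![l, a, b]).det * (X.submatrix id ![l, c, d]).det +
        (X.submatrix id ![l, a, d]).det * (X.submatrix id ![l, b, c]).det := by
    simp only [det_fin_three, submatrix_apply, id, cons_val_zero, cons_val_one, cons_val_two,
      Nat.succ_eq_add_one, tail_cons, head_cons]
    ring
  simp only [Rl, Bool.and_eq_true, Bool.or_eq_true, Bool.not_eq_true', ← Bool.not_eq_true,
    pn3 X h1 h2 a1, pn3 X h3 h4 a2, pn3 X h1 h3 a3, pn3 X h2 h4 a4, pn3 X h1 h4 a5,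
    pn3 X h2 h3 a6, ← mul_ne_zero_iff]
  generalize (X.submatrix id ![l, a, c]).det * (X.submatrix id ![l, b, d]).det = u at e
  generalize (X.submatrix id ![l, a, b]).det * (X.submatrix id ![l, c, d]).det = v at e
  generalize (X.submatrix id ![l, a, d]).det * (X.submatrix id ![l, b, c]).det = w at e
  subst e
  by_cases hv : v = 0 <;> by_cases hw : w = 0 <;> simp [hv, hw]

theorem conn (h : Conn (PluckerNonzero X)) (S : Finset (Fin 6)) (l : List (Finset (Fin 6)))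
    (hS : S.Nonempty ∧ Sᶜ.Nonempty ∧ ∀ J : Finset (Fin 6), J.card = 3 → (J ∩ S).card ≠ 1 → J ∈ l) :
    l.any (β X) = true := by
  obtain ⟨J, J', h1, h2, h3⟩ := h S hS.1 hS.2.1
  rw [List.any_eq_true]
  by_cases h4 : (J ∩ S).card = 1
  · exact ⟨J', hS.2.2 J' h2.1 (by omega), (β_iff X).2 h2⟩
  · exact ⟨J, hS.2.2 J h1.1 h4, (β_iff X).2 h1⟩

/-- The six windows and four more sets. -/
def cl (a b c d : Finset (Fin 6)) : Finset (Finset (Fin 6)) :=
  {{0, 1, 2}, {1, 2, 3}, {2, 3, 4}, {3, 4, 5}, {0, 4, 5}, {0, 1, 5}, a, b, c, d}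

theorem step {C C' : Finset (Finset (Fin 6))} (hC : PC 3 (C : Set (Finset (Fin 6))))
    (l a b c d : Fin 6) (h : (a < b ∧ b < c ∧ c < d) ∧ (a ≠ l ∧ b ≠ l ∧ c ≠ l ∧ d ≠ l) ∧
      {a, b, l} ∈ C ∧ {b, c, l} ∈ C ∧ {c, d, l} ∈ C ∧ {a, d, l} ∈ C ∧ {a, c, l} ∈ C ∧
      C' = insert {b, d, l} (C.erase {a, c, l})) : PC 3 (C' : Set (Finset (Fin 6))) := by
  obtain ⟨h1, ⟨a1, a2, a3, a4⟩, h2, h3, h4, h5, h6, rfl⟩ := h
  exact Relation.ReflTransGen.tail hC ⟨{l}, a, b, c, d, Or.inl h1, by simpa, by simpa, by simpa,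
    by simpa, h2, h3, h4, h5, h6, by rw [coe_insert, coe_erase]⟩

theorem fin (hw : ∀ i < 6, PluckerNonzero X (win 3 6 i)) {a b c d : Finset (Fin 6)}
    (hC : PC 3 (cl a b c d : Set (Finset (Fin 6))))
    (h : (β X a && β X b && β X c && β X d) = true) :
    ∃ C, PC 3 C ∧ ∀ I ∈ C, PluckerNonzero X I := by
  simp only [Bool.and_eq_true, β_iff] at h
  refine ⟨_, hC, fun I hI => ?_⟩
  simp only [cl, coe_insert, coe_singleton, Set.mem_insert_iff, Set.mem_singleton_iff] at hI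
  rcases hI with rfl | rfl | rfl | rfl | rfl | rfl | rfl | rfl | rfl | rfl

  · exact (show win 3 6 0 = {0, 1, 2} by decide) ▸ hw 0 (by decide)
  · exact (show win 3 6 1 = {1, 2, 3} by decide) ▸ hw 1 (by decide)
  · exact (show win 3 6 2 = {2, 3, 4} by decide) ▸ hw 2 (by decide)
  · exact (show win 3 6 3 = {3, 4, 5} by decide) ▸ hw 3 (by decide)
  · exact (show win 3 6 4 = {0, 4, 5} by decide) ▸ hw 4 (by decide)
  · exact (show win 3 6 5 = {0, 1, 5} by decide) ▸ hw 5 (by decide)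
  exacts [h.1.1.1, h.1.1.2, h.1.2, h.2]

theorem c0 : PC 3 (cl {0, 1, 3} {0, 1, 4} {0, 2, 3} {0, 3, 4} : Set (Finset (Fin 6))) := by
  have e : rectC 3 6 = (cl {0, 1, 3} {0, 1, 4} {0, 2, 3} {0, 3, 4} : Set (Finset (Fin 6))) := by
    have h1 : ∀ i j : Fin 4, rectSet 3 6 i j ∈ cl {0, 1, 3} {0, 1, 4} {0, 2, 3} {0, 3, 4} := by
      decide +kernel
    have h2 : ∀ I ∈ cl {0, 1, 3} {0, 1, 4} {0, 2, 3} {0, 3, 4},
        ∃ i j : Fin 4, I = rectSet 3 6 i j := by decide +kernel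
    ext I
    constructor
    · rintro ⟨i, j, hi, hj, rfl⟩
      exact h1 ⟨i, by omega⟩ ⟨j, by omega⟩
    · intro hI
      obtain ⟨i, j, h⟩ := h2 I hI
      exact ⟨i, j, by omega, by omega, h⟩
  rw [← e]
  exact Relation.ReflTransGen.refl

theorem c1 : PC 3 (cl {0, 1, 4} {0, 2, 3} {0, 2, 4} {0, 3, 4} : Set (Finset (Fin 6))) :=
  step c0 0 1 2 3 4 (by decide +kernel)

theorem c2 : PC 3 (cl {0, 1, 3} {0, 2, 3} {0, 3, 4} {0, 3, 5} : Set (Finset (Fin 6))) :=
  step c0 0 1 3 4 5 (by decide +kernel)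

theorem c3 : PC 3 (cl {0, 1, 3} {0, 1, 4} {0, 3, 4} {1, 3, 4} : Set (Finset (Fin 6))) :=
  step c0 3 0 1 2 4 (by decide +kernel)

theorem c4 : PC 3 (cl {0, 2, 3} {0, 2, 4} {0, 2, 5} {0, 3, 4} : Set (Finset (Fin 6))) :=
  step c1 0 1 2 4 5 (by decide +kernel)

theorem c5 : PC 3 (cl {0, 1, 4} {0, 2, 4} {0, 3, 4} {1, 2, 4} : Set (Finset (Fin 6))) :=
  step c1 2 0 1 3 4 (by decide +kernel)

theorem c6 : PC 3 (cl {0, 1, 4} {0, 2, 3} {0, 2, 4} {2, 4, 5} : Set (Finset (Fin 6))) :=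
  step c1 4 0 2 3 5 (by decide +kernel)

theorem c7 : PC 3 (cl {0, 2, 3} {0, 2, 5} {0, 3, 4} {0, 3, 5} : Set (Finset (Fin 6))) :=
  step c2 0 1 2 3 5 (by decide +kernel)

theorem c8 : PC 3 (cl {0, 1, 3} {0, 3, 4} {0, 3, 5} {1, 3, 4} : Set (Finset (Fin 6))) :=
  step c2 3 0 1 2 4 (by decide +kernel)

theorem c9 : PC 3 (cl {0, 1, 3} {0, 2, 3} {0, 3, 5} {2, 3, 5} : Set (Finset (Fin 6))) :=
  step c2 3 0 2 4 5 (by decide +kernel)

theorem c10 : PC 3 (cl {0, 1, 4} {0, 3, 4} {1, 2, 4} {1, 3, 4} : Set (Finset (Fin 6))) :=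
  step c3 1 0 2 3 4 (by decide +kernel)

theorem c11 : PC 3 (cl {0, 1, 3} {0, 1, 4} {1, 3, 4} {1, 4, 5} : Set (Finset (Fin 6))) :=
  step c3 4 0 1 3 5 (by decide +kernel)

theorem c12 : PC 3 (cl {0, 2, 4} {0, 2, 5} {0, 3, 4} {1, 2, 4} : Set (Finset (Fin 6))) :=
  step c4 2 0 1 3 4 (by decide +kernel)

theorem c13 : PC 3 (cl {0, 2, 3} {0, 2, 4} {0, 2, 5} {2, 4, 5} : Set (Finset (Fin 6))) :=
  step c4 4 0 2 3 5 (by decide +kernel)

theorem c14 : PC 3 (cl {0, 1, 4} {0, 2, 4} {1, 2, 4} {2, 4, 5} : Set (Finset (Fin 6))) :=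
  step c5 4 0 2 3 5 (by decide +kernel)

theorem c15 : PC 3 (cl {0, 2, 3} {0, 2, 5} {0, 3, 5} {2, 3, 5} : Set (Finset (Fin 6))) :=
  step c7 3 0 2 4 5 (by decide +kernel)

theorem c16 : PC 3 (cl {0, 1, 3} {0, 3, 5} {1, 3, 4} {1, 3, 5} : Set (Finset (Fin 6))) :=
  step c8 3 0 1 4 5 (by decide +kernel)

theorem c17 : PC 3 (cl {0, 1, 3} {0, 3, 5} {1, 3, 5} {2, 3, 5} : Set (Finset (Fin 6))) :=
  step c9 3 0 1 2 5 (by decide +kernel)

theorem c18 : PC 3 (cl {0, 1, 4} {1, 2, 4} {1, 3, 4} {1, 4, 5} : Set (Finset (Fin 6))) :=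
  step c10 4 0 1 3 5 (by decide +kernel)

theorem c19 : PC 3 (cl {0, 1, 3} {1, 3, 4} {1, 3, 5} {1, 4, 5} : Set (Finset (Fin 6))) :=
  step c11 1 0 3 4 5 (by decide +kernel)

theorem c20 : PC 3 (cl {0, 2, 4} {0, 2, 5} {1, 2, 4} {2, 4, 5} : Set (Finset (Fin 6))) :=
  step c12 4 0 2 3 5 (by decide +kernel)

theorem c21 : PC 3 (cl {0, 2, 3} {0, 2, 5} {2, 3, 5} {2, 4, 5} : Set (Finset (Fin 6))) :=
  step c13 2 0 3 4 5 (by decide +kernel)

theorem c22 : PC 3 (cl {0, 1, 4} {1, 2, 4} {1, 4, 5} {2, 4, 5} : Set (Finset (Fin 6))) :=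
  step c14 4 0 1 2 5 (by decide +kernel)

theorem c23 : PC 3 (cl {0, 2, 5} {0, 3, 5} {1, 2, 5} {2, 3, 5} : Set (Finset (Fin 6))) :=
  step c15 2 0 1 3 5 (by decide +kernel)

theorem c24 : PC 3 (cl {0, 3, 5} {1, 2, 5} {1, 3, 4} {1, 3, 5} : Set (Finset (Fin 6))) :=
  step c16 1 0 2 3 5 (by decide +kernel)

theorem c25 : PC 3 (cl {0, 3, 5} {1, 2, 5} {1, 3, 5} {2, 3, 5} : Set (Finset (Fin 6))) :=
  step c17 1 0 2 3 5 (by decide +kernel)

theorem c26 : PC 3 (cl {0, 1, 3} {1, 3, 5} {1, 4, 5} {2, 3, 5} : Set (Finset (Fin 6))) :=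
  step c17 5 0 1 3 4 (by decide +kernel)

theorem c27 : PC 3 (cl {1, 2, 4} {1, 2, 5} {1, 3, 4} {1, 4, 5} : Set (Finset (Fin 6))) :=
  step c18 1 0 2 4 5 (by decide +kernel)

theorem c28 : PC 3 (cl {1, 2, 5} {1, 3, 4} {1, 3, 5} {1, 4, 5} : Set (Finset (Fin 6))) :=
  step c19 1 0 2 3 5 (by decide +kernel)

theorem c29 : PC 3 (cl {0, 2, 5} {1, 2, 4} {1, 2, 5} {2, 4, 5} : Set (Finset (Fin 6))) :=
  step c20 2 0 1 4 5 (by decide +kernel)

theorem c30 : PC 3 (cl {0, 2, 5} {1, 2, 5} {2, 3, 5} {2, 4, 5} : Set (Finset (Fin 6))) :=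
  step c21 2 0 1 3 5 (by decide +kernel)

theorem c31 : PC 3 (cl {1, 2, 4} {1, 2, 5} {1, 4, 5} {2, 4, 5} : Set (Finset (Fin 6))) :=
  step c22 1 0 2 4 5 (by decide +kernel)

theorem c32 : PC 3 (cl {1, 2, 5} {1, 3, 5} {1, 4, 5} {2, 3, 5} : Set (Finset (Fin 6))) :=
  step c25 5 0 1 3 4 (by decide +kernel)

theorem c33 : PC 3 (cl {1, 2, 5} {1, 4, 5} {2, 3, 5} {2, 4, 5} : Set (Finset (Fin 6))) :=
  step c30 5 0 1 2 4 (by decide +kernel)

theorem fact : ∀ b013 b014 b023 b024 b025 b034 b035 b124 b125 b134 b135 b145 b235 b245 : Bool,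
    (!(Rl true b034 b013 b024 b014 b023 && Rl true b035 b013 b025 true b023 &&
      Rl true true b014 b025 true b024 && Rl b013 true b014 b035 true b034 &&
      Rl b023 true b024 b035 b025 b034 && Rl true b134 b013 b124 b014 true &&
      Rl true b135 b013 b125 true true && Rl true b145 b014 b125 true b124 &&
      Rl b013 b145 b014 b135 true b134 && Rl true b145 b124 b135 b125 b134 &&
      Rl true true b023 b124 b024 true && Rl true b235 b023 b125 b025 true &&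
      Rl true b245 b024 b125 b025 b124 && Rl b023 b245 b024 b235 b025 true &&
      Rl true b245 b124 b235 b125 true && Rl b013 true b023 b134 b034 true &&
      Rl b013 b235 b023 b135 b035 true && Rl b013 true b034 b135 b035 b134 &&
      Rl b023 true b034 b235 b035 true && Rl true true b134 b235 b135 true &&
      Rl b014 true b024 b134 b034 b124 && Rl b014 b245 b024 b145 true b124 &&
      Rl b014 true b034 b145 true b134 && Rl b024 true b034 b245 true true &&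
      Rl b124 true b134 b245 b145 true && Rl true b235 b025 b135 b035 b125 &&
      Rl true b245 b025 b145 true b125 && Rl true true b035 b145 true b135 &&
      Rl b025 true b035 b245 true b235 && Rl b125 true b135 b245 b145 b235 &&
      [b013, b023, b034, b035, b124, b125, b145, b245].any id &&
      [b014, b023, b025, b035, b124, b134, b145, b235].any id &&
      [b013, b014, b025, b034, b125, b134, b235, b245].any id) ||
      (b013 && b014 && b023 && b034) || (b014 && b023 && b024 && b034) ||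
      (b013 && b023 && b034 && b035) || (b013 && b014 && b034 && b134) ||
      (b023 && b024 && b025 && b034) || (b014 && b024 && b034 && b124) ||
      (b014 && b023 && b024 && b245) || (b023 && b025 && b034 && b035) ||
      (b013 && b034 && b035 && b134) || (b013 && b023 && b035 && b235) ||
      (b014 && b034 && b124 && b134) || (b013 && b014 && b134 && b145) ||
      (b024 && b025 && b034 && b124) || (b023 && b024 && b025 && b245) ||
      (b014 && b024 && b124 && b245) || (b023 && b025 && b035 && b235) ||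
      (b013 && b035 && b134 && b135) || (b013 && b035 && b135 && b235) ||
      (b014 && b124 && b134 && b145) || (b013 && b134 && b135 && b145) ||
      (b024 && b025 && b124 && b245) || (b023 && b025 && b235 && b245) ||
      (b014 && b124 && b145 && b245) || (b025 && b035 && b125 && b235) ||
      (b035 && b125 && b134 && b135) || (b035 && b125 && b135 && b235) ||
      (b013 && b135 && b145 && b235) || (b124 && b125 && b134 && b145) ||
      (b125 && b134 && b135 && b145) || (b025 && b124 && b125 && b245) ||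
      (b025 && b125 && b235 && b245) || (b124 && b125 && b145 && b245) ||
      (b125 && b135 && b145 && b235) || (b125 && b145 && b235 && b245)) = true := by
  decide +kernel

end SixX

open SixX in
theorem P_six : P 3 6 := by
  intro X hw hc
  have w0 : β X {0, 1, 2} = true :=
    (β_iff X).2 ((show win 3 6 0 = {0, 1, 2} by decide) ▸ hw 0 (by decide))
  have w1 : β X {1, 2, 3} = true :=
    (β_iff X).2 ((show win 3 6 1 = {1, 2, 3} by decide) ▸ hw 1 (by decide))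
  have w2 : β X {2, 3, 4} = true :=
    (β_iff X).2 ((show win 3 6 2 = {2, 3, 4} by decide) ▸ hw 2 (by decide))
  have w3 : β X {3, 4, 5} = true :=
    (β_iff X).2 ((show win 3 6 3 = {3, 4, 5} by decide) ▸ hw 3 (by decide))
  have w4 : β X {0, 4, 5} = true :=
    (β_iff X).2 ((show win 3 6 4 = {0, 4, 5} by decide) ▸ hw 4 (by decide))
  have w5 : β X {0, 1, 5} = true :=
    (β_iff X).2 ((show win 3 6 5 = {0, 1, 5} by decide) ▸ hw 5 (by decide))
  have r0 := rule X 0 1 2 3 4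
    {0, 1, 2} {0, 3, 4} {0, 1, 3} {0, 2, 4} {0, 1, 4} {0, 2, 3} (by decide +kernel)
  have r1 := rule X 0 1 2 3 5
    {0, 1, 2} {0, 3, 5} {0, 1, 3} {0, 2, 5} {0, 1, 5} {0, 2, 3} (by decide +kernel)
  have r2 := rule X 0 1 2 4 5
    {0, 1, 2} {0, 4, 5} {0, 1, 4} {0, 2, 5} {0, 1, 5} {0, 2, 4} (by decide +kernel)
  have r3 := rule X 0 1 3 4 5
    {0, 1, 3} {0, 4, 5} {0, 1, 4} {0, 3, 5} {0, 1, 5} {0, 3, 4} (by decide +kernel)
  have r4 := rule X 0 2 3 4 5
    {0, 2, 3} {0, 4, 5} {0, 2, 4} {0, 3, 5} {0, 2, 5} {0, 3, 4} (by decide +kernel)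
  have r5 := rule X 1 0 2 3 4
    {0, 1, 2} {1, 3, 4} {0, 1, 3} {1, 2, 4} {0, 1, 4} {1, 2, 3} (by decide +kernel)
  have r6 := rule X 1 0 2 3 5
    {0, 1, 2} {1, 3, 5} {0, 1, 3} {1, 2, 5} {0, 1, 5} {1, 2, 3} (by decide +kernel)
  have r7 := rule X 1 0 2 4 5
    {0, 1, 2} {1, 4, 5} {0, 1, 4} {1, 2, 5} {0, 1, 5} {1, 2, 4} (by decide +kernel)
  have r8 := rule X 1 0 3 4 5
    {0, 1, 3} {1, 4, 5} {0, 1, 4} {1, 3, 5} {0, 1, 5} {1, 3, 4} (by decide +kernel)
  have r9 := rule X 1 2 3 4 5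
    {1, 2, 3} {1, 4, 5} {1, 2, 4} {1, 3, 5} {1, 2, 5} {1, 3, 4} (by decide +kernel)
  have r10 := rule X 2 0 1 3 4
    {0, 1, 2} {2, 3, 4} {0, 2, 3} {1, 2, 4} {0, 2, 4} {1, 2, 3} (by decide +kernel)
  have r11 := rule X 2 0 1 3 5
    {0, 1, 2} {2, 3, 5} {0, 2, 3} {1, 2, 5} {0, 2, 5} {1, 2, 3} (by decide +kernel)
  have r12 := rule X 2 0 1 4 5
    {0, 1, 2} {2, 4, 5} {0, 2, 4} {1, 2, 5} {0, 2, 5} {1, 2, 4} (by decide +kernel)
  have r13 := rule X 2 0 3 4 5
    {0, 2, 3} {2, 4, 5} {0, 2, 4} {2, 3, 5} {0, 2, 5} {2, 3, 4} (by decide +kernel)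
  have r14 := rule X 2 1 3 4 5
    {1, 2, 3} {2, 4, 5} {1, 2, 4} {2, 3, 5} {1, 2, 5} {2, 3, 4} (by decide +kernel)
  have r15 := rule X 3 0 1 2 4
    {0, 1, 3} {2, 3, 4} {0, 2, 3} {1, 3, 4} {0, 3, 4} {1, 2, 3} (by decide +kernel)
  have r16 := rule X 3 0 1 2 5
    {0, 1, 3} {2, 3, 5} {0, 2, 3} {1, 3, 5} {0, 3, 5} {1, 2, 3} (by decide +kernel)
  have r17 := rule X 3 0 1 4 5
    {0, 1, 3} {3, 4, 5} {0, 3, 4} {1, 3, 5} {0, 3, 5} {1, 3, 4} (by decide +kernel)
  have r18 := rule X 3 0 2 4 5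
    {0, 2, 3} {3, 4, 5} {0, 3, 4} {2, 3, 5} {0, 3, 5} {2, 3, 4} (by decide +kernel)
  have r19 := rule X 3 1 2 4 5
    {1, 2, 3} {3, 4, 5} {1, 3, 4} {2, 3, 5} {1, 3, 5} {2, 3, 4} (by decide +kernel)
  have r20 := rule X 4 0 1 2 3
    {0, 1, 4} {2, 3, 4} {0, 2, 4} {1, 3, 4} {0, 3, 4} {1, 2, 4} (by decide +kernel)
  have r21 := rule X 4 0 1 2 5
    {0, 1, 4} {2, 4, 5} {0, 2, 4} {1, 4, 5} {0, 4, 5} {1, 2, 4} (by decide +kernel)
  have r22 := rule X 4 0 1 3 5
    {0, 1, 4} {3, 4, 5} {0, 3, 4} {1, 4, 5} {0, 4, 5} {1, 3, 4} (by decide +kernel)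
  have r23 := rule X 4 0 2 3 5
    {0, 2, 4} {3, 4, 5} {0, 3, 4} {2, 4, 5} {0, 4, 5} {2, 3, 4} (by decide +kernel)
  have r24 := rule X 4 1 2 3 5
    {1, 2, 4} {3, 4, 5} {1, 3, 4} {2, 4, 5} {1, 4, 5} {2, 3, 4} (by decide +kernel)
  have r25 := rule X 5 0 1 2 3
    {0, 1, 5} {2, 3, 5} {0, 2, 5} {1, 3, 5} {0, 3, 5} {1, 2, 5} (by decide +kernel)
  have r26 := rule X 5 0 1 2 4
    {0, 1, 5} {2, 4, 5} {0, 2, 5} {1, 4, 5} {0, 4, 5} {1, 2, 5} (by decide +kernel)
  have r27 := rule X 5 0 1 3 4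
    {0, 1, 5} {3, 4, 5} {0, 3, 5} {1, 4, 5} {0, 4, 5} {1, 3, 5} (by decide +kernel)
  have r28 := rule X 5 0 2 3 4
    {0, 2, 5} {3, 4, 5} {0, 3, 5} {2, 4, 5} {0, 4, 5} {2, 3, 5} (by decide +kernel)
  have r29 := rule X 5 1 2 3 4
    {1, 2, 5} {3, 4, 5} {1, 3, 5} {2, 4, 5} {1, 4, 5} {2, 3, 5} (by decide +kernel)
  have k0 := conn X hc {0, 3} [{0, 1, 3}, {0, 2, 3}, {0, 3, 4}, {0, 3, 5}, {1, 2, 4}, {1, 2, 5},
    {1, 4, 5}, {2, 4, 5}]
    (by decide +kernel)
  have k1 := conn X hc {1, 4} [{0, 1, 4}, {0, 2, 3}, {0, 2, 5}, {0, 3, 5}, {1, 2, 4}, {1, 3, 4},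
    {1, 4, 5}, {2, 3, 5}]
    (by decide +kernel)
  have k2 := conn X hc {2, 5} [{0, 1, 3}, {0, 1, 4}, {0, 2, 5}, {0, 3, 4}, {1, 2, 5}, {1, 3, 4},
    {2, 3, 5}, {2, 4, 5}]
    (by decide +kernel)
  have h := fact (β X {0, 1, 3}) (β X {0, 1, 4}) (β X {0, 2, 3}) (β X {0, 2, 4}) (β X {0, 2, 5})
    (β X {0, 3, 4}) (β X {0, 3, 5}) (β X {1, 2, 4}) (β X {1, 2, 5}) (β X {1, 3, 4})
    (β X {1, 3, 5}) (β X {1, 4, 5}) (β X {2, 3, 5}) (β X {2, 4, 5})
  simp only [w0, w1, w2, w4, w5] at r0 r1 r2 r3 r4 r5 r6 r7 r8 r9 r10 r11 r12 r13 r14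
  simp only [w1, w2, w3, w4, w5] at r15 r16 r17 r18 r19 r20 r21 r22 r23 r24 r25 r26 r27 r28 r29
  simp only [List.any_cons, List.any_nil] at k0 k1 k2
  simp only [List.any_cons, List.any_nil, id, k0, k1, k2, r0, r1, r2, r3, r4, r5, r6, r7, r8,
    r9, r10, r11, r12, r13, r14, r15,
    r16, r17, r18, r19, r20, r21, r22,
    r23, r24, r25, r26, r27, r28, r29,
    Bool.and_self, Bool.not_true, Bool.false_or, Bool.or_eq_true, or_assoc] at h
  rcases h with h | h | h | h | h | h | h | h | h | h | h | h | h | h | h | h | h | h | h |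
    h | h | h | h | h | h | h | h | h | h | h | h | h | h | h
  exacts [fin X hw c0 h, fin X hw c1 h, fin X hw c2 h, fin X hw c3 h, fin X hw c4 h,
    fin X hw c5 h, fin X hw c6 h, fin X hw c7 h, fin X hw c8 h, fin X hw c9 h,
    fin X hw c10 h, fin X hw c11 h, fin X hw c12 h, fin X hw c13 h, fin X hw c14 h,
    fin X hw c15 h, fin X hw c16 h, fin X hw c17 h, fin X hw c18 h, fin X hw c19 h,
    fin X hw c20 h, fin X hw c21 h, fin X hw c22 h, fin X hw c23 h, fin X hw c24 h,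
    fin X hw c25 h, fin X hw c26 h, fin X hw c27 h, fin X hw c28 h, fin X hw c29 h,
    fin X hw c30 h, fin X hw c31 h, fin X hw c32 h, fin X hw c33 h]

namespace WSX

/-- The chords `p p'` and `q q'` cross. -/
def X (p p' q q' : ℕ) : Prop :=
  (p < q ∧ q < p' ∧ (q' < p ∨ p' < q')) ∨ (p' < q ∧ q < p ∧ (q' < p' ∨ p < q')) ∨
  (p < q' ∧ q' < p' ∧ (q < p ∨ p' < q)) ∨ (p' < q' ∧ q' < p ∧ (q < p' ∨ p < q))

theorem X.sw1 {p p' q q' : ℕ} (h : X p p' q q') : X p' p q q' := by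
  unfold X at *; omega

theorem X.sw2 {p p' q q' : ℕ} (h : X p p' q q') : X p p' q' q := by
  unfold X at *; omega

theorem X.sw3 {p p' q q' : ℕ} (h : X p p' q q') : X q q' p p' := by
  unfold X at *; omega

theorem X.ne {p p' q q' : ℕ} (h : X p p' q q') :
    p ≠ p' ∧ p ≠ q ∧ p ≠ q' ∧ p' ≠ q ∧ p' ≠ q' ∧ q ≠ q' := by
  unfold X at *; omega

theorem g2 {a c q q' : ℕ} (h : X a c q q') (e : ℕ) (h1 : e ≠ q) (h2 : e ≠ q') :
    X e c q q' ∨ X a e q q' := by
  rcases h with ⟨h3, h4, h5 | h5⟩ | ⟨h3, h4, h5 | h5⟩ | ⟨h3, h4, h5 | h5⟩ | ⟨h3, h4, h5 | h5⟩ <;>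
    rcases Nat.lt_or_gt_of_ne h1 with h6 | h6 <;> rcases Nat.lt_or_gt_of_ne h2 with h7 | h7 <;>
    first
      | (left; unfold X; omega)
      | (right; unfold X; omega)

theorem g1 {p p' b d : ℕ} (h : X p p' b d) (a : ℕ) (h1 : a ≠ p) (h2 : a ≠ p') :
    X p p' a d ∨ X p p' a b := by
  rcases g2 h.sw3 a h1 h2 with h | h
  · exact Or.inl h.sw3
  · exact Or.inr h.sw3.sw2

theorem mk {U T : Finset (Fin n)} {p p' q q' : Fin n} (h1 : p ∈ U) (h2 : p ∉ T) (h3 : p' ∈ U)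
    (h4 : p' ∉ T) (h5 : q ∈ T) (h6 : q ∉ U) (h7 : q' ∈ T) (h8 : q' ∉ U)
    (h : X p.val p'.val q.val q'.val) : Cross U T := by
  rcases h with ⟨a, b, c | c⟩ | ⟨a, b, c | c⟩ | ⟨a, b, c | c⟩ | ⟨a, b, c | c⟩
  · exact ⟨p, p', q', q, h1, h2, h3, h4, h7, h8, h5, h6, Or.inr ⟨c, a, b⟩⟩
  · exact ⟨p, p', q, q', h1, h2, h3, h4, h5, h6, h7, h8, Or.inl ⟨a, b, c⟩⟩
  · exact ⟨p', p, q', q, h3, h4, h1, h2, h7, h8, h5, h6, Or.inr ⟨c, a, b⟩⟩
  · exact ⟨p', p, q, q', h3, h4, h1, h2, h5, h6, h7, h8, Or.inl ⟨a, b, c⟩⟩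
  · exact ⟨p, p', q, q', h1, h2, h3, h4, h5, h6, h7, h8, Or.inr ⟨c, a, b⟩⟩
  · exact ⟨p, p', q', q, h1, h2, h3, h4, h7, h8, h5, h6, Or.inl ⟨a, b, c⟩⟩
  · exact ⟨p', p, q, q', h3, h4, h1, h2, h5, h6, h7, h8, Or.inr ⟨c, a, b⟩⟩
  · exact ⟨p', p, q', q, h3, h4, h1, h2, h7, h8, h5, h6, Or.inl ⟨a, b, c⟩⟩

theorem cross_symm {U T : Finset (Fin n)} (h : Cross U T) : Cross T U := by
  obtain ⟨p, p', q, q', h1, h2, h3, h4, h5, h6, h7, h8, h⟩ := h
  exact ⟨q, q', p, p', h5, h6, h7, h8, h1, h2, h3, h4, h.symm⟩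

theorem cross_irrefl (U : Finset (Fin n)) : ¬ Cross U U := by
  rintro ⟨p, -, -, -, h1, h2, -⟩
  exact h2 h1

/-- `U` does not cross `L x y`, in unfolded form. -/
def N (U L : Finset (Fin n)) (x y : Fin n) : Prop :=
  ∀ r r' s s' : Fin n, r ∈ U → r ∉ L → r ≠ x → r ≠ y → r' ∈ U → r' ∉ L → r' ≠ x → r' ≠ y →
    s ∉ U → (s = x ∨ s = y ∨ s ∈ L) → s' ∉ U → (s' = x ∨ s' = y ∨ s' ∈ L) →
    X r.val r'.val s.val s'.val → False

theorem N_of {U L : Finset (Fin n)} {x y : Fin n} (h : ¬ Cross U (insert x (insert y L))) :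
    N U L x y := by
  intro r r' s s' h1 h2 h3 h4 h5 h6 h7 h8 h9 h10 h11 h12 hX
  refine h (mk h1 ?_ h5 ?_ ?_ h9 ?_ h11 hX)
  · simp [h2, h3, h4]
  · simp [h6, h7, h8]
  · simpa using h10
  · simpa using h12

theorem N.symm {U L : Finset (Fin n)} {x y : Fin n} (h : N U L x y) : N U L y x := by
  intro r r' s s' h1 h2 h3 h4 h5 h6 h7 h8 h9 h10 h11 h12 hX
  exact h r r' s s' h1 h2 h4 h3 h5 h6 h8 h7 h9 (or_left_comm.1 h10) h11 (or_left_comm.1 h12) hX

theorem vne {x y : Fin n} (h : x ≠ y) : x.val ≠ y.val := fun e => h (Fin.ext e)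

theorem fne {x y : Fin n} (h : x.val ≠ y.val) : x ≠ y := fun e => h (congrArg Fin.val e)

/-- both `a` and `c` lie in `U`, the chord `a c` crosses `q q'` inside `L y` -/
theorem caseC {U L : Finset (Fin n)} {a c y e q q' : Fin n} (hay : N U L a y) (hcy : N U L c y)
    (ha : a ∈ U) (hc : c ∈ U) (haL : a ∉ L) (hcL : c ∉ L) (hay' : a ≠ y) (hcy' : c ≠ y)
    (he : e ∈ U) (heL : e ∉ L) (hea : e ≠ a) (hec : e ≠ c) (hey : e ≠ y)
    (hq : q ∉ U) (hqL : q = y ∨ q ∈ L) (hq' : q' ∉ U) (hqL' : q' = y ∨ q' ∈ L)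
    (h : X a.val c.val q.val q'.val) : False := by
  have hac : a ≠ c := fne h.ne.1
  have h1 : e ≠ q := fun h => hq (h ▸ he)
  have h2 : e ≠ q' := fun h => hq' (h ▸ he)
  rcases g2 h e.val (vne h1) (vne h2) with h | h
  · exact hay e c q q' he heL hea hey hc hcL hac.symm hcy' hq (Or.inr hqL) hq' (Or.inr hqL') h
  · exact hcy a e q q' ha haL hac hay' he heL hec hey hq (Or.inr hqL) hq' (Or.inr hqL') h

/-- `b` and `d` are outside `U`, and so is `a` -/
theorem caseB {U L : Finset (Fin n)} {a b d p p' : Fin n} (hab : N U L a b) (had : N U L a d)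
    (ha : a ∉ U) (hb : b ∉ U) (hd : d ∉ U) (hp : p ∈ U) (hpL : p ∉ L) (hp' : p' ∈ U)
    (hpL' : p' ∉ L) (h : X p.val p'.val b.val d.val) : False := by
  have ne : ∀ {r s : Fin n}, r ∈ U → s ∉ U → r ≠ s := fun h1 h2 e => h2 (e ▸ h1)
  rcases g1 h a.val (vne (ne hp ha).symm) (vne (ne hp' ha).symm) with h | h
  · exact had p p' a d hp hpL (ne hp ha) (ne hp hd) hp' hpL' (ne hp' ha) (ne hp' hd) ha
      (Or.inl rfl) hd (Or.inr (Or.inl rfl)) h
  · exact hab p p' a b hp hpL (ne hp ha) (ne hp hb) hp' hpL' (ne hp' ha) (ne hp' hb) ha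
      (Or.inl rfl) hb (Or.inr (Or.inl rfl)) h

/-- the chord `q q'` lies inside `L y` -/
theorem caseA {U L : Finset (Fin n)} {a c y y' p p' q q' : Fin n} (hay : N U L a y)
    (hcy : N U L c y) (hay2 : N U L a y') (hcy2 : N U L c y') (haL : a ∉ L) (hcL : c ∉ L)
    (hX : X a.val c.val y.val y'.val)
    (hE : a ∈ U → c ∈ U → ∃ e ∈ U, e ∉ L ∧ e ≠ a ∧ e ≠ c)
    (hp : p ∈ U) (hpL : p ∉ L) (hpy : p ≠ y) (hp' : p' ∈ U) (hpL' : p' ∉ L) (hpy' : p' ≠ y)
    (hq : q ∉ U) (hqL : q = y ∨ q ∈ L) (hq' : q' ∉ U) (hqL' : q' = y ∨ q' ∈ L)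
    (h : X p.val p'.val q.val q'.val) : False := by
  obtain ⟨n1, n2, n3, n4, n5, n6⟩ := hX.ne
  by_cases h1 : p ≠ a ∧ p' ≠ a
  · exact hay p p' q q' hp hpL h1.1 hpy hp' hpL' h1.2 hpy' hq (Or.inr hqL) hq' (Or.inr hqL') h
  by_cases h2 : p ≠ c ∧ p' ≠ c
  · exact hcy p p' q q' hp hpL h2.1 hpy hp' hpL' h2.2 hpy' hq (Or.inr hqL) hq' (Or.inr hqL') h
  have hac : a ≠ c := fne n1
  have key : a ∈ U ∧ c ∈ U ∧ X a.val c.val q.val q'.val := by
    by_cases h3 : p = a
    · have h4 : p' = c := by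
        by_contra h5
        exact h2 ⟨h3 ▸ hac, h5⟩
      exact ⟨h3 ▸ hp, h4 ▸ hp', h3 ▸ h4 ▸ h⟩
    · have h4 : p' = a := by
        by_contra h5
        exact h1 ⟨h3, h5⟩
      have h5 : p = c := by
        by_contra h6
        exact h2 ⟨h6, h4 ▸ hac⟩
      exact ⟨h4 ▸ hp', h5 ▸ hp, h4 ▸ h5 ▸ h.sw1⟩
  obtain ⟨ha, hc, h⟩ := key
  obtain ⟨e, he, heL, hea, hec⟩ := hE ha hc
  by_cases hey : e = y
  · have hyU : y ∈ U := hey ▸ he
    have k1 : q ∈ L := hqL.resolve_left fun h => hq (h ▸ hyU)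
    have k2 : q' ∈ L := hqL'.resolve_left fun h => hq' (h ▸ hyU)
    exact caseC hay2 hcy2 ha hc haL hcL (fne n3) (fne n5) he heL hea hec (hey ▸ fne n6)
      hq (Or.inr k1) hq' (Or.inr k2) h
  · exact caseC hay hcy ha hc haL hcL (fne n2) (fne n4) he heL hea hec hey hq hqL hq' hqL' h

theorem caseD {U L : Finset (Fin n)} {a b c d p p' : Fin n} (hab : N U L a b) (hcb : N U L c b)
    (had : N U L a d) (hcd : N U L c d) (haL : a ∉ L) (hcL : c ∉ L)
    (hX : X a.val c.val b.val d.val)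
    (hE : a ∈ U → c ∈ U → ∃ e ∈ U, e ∉ L ∧ e ≠ a ∧ e ≠ c)
    (hF : a ∈ U → c ∈ U → ∃ f ∈ L, f ∉ U)
    (hb : b ∉ U) (hd : d ∉ U) (hp : p ∈ U) (hpL : p ∉ L) (hp' : p' ∈ U)
    (hpL' : p' ∉ L) (h : X p.val p'.val b.val d.val) : False := by
  by_cases ha : a ∈ U
  swap
  · exact caseB hab had ha hb hd hp hpL hp' hpL' h
  by_cases hc : c ∈ U
  swap
  · exact caseB hcb hcd hc hb hd hp hpL hp' hpL' h
  obtain ⟨e, he, heL, hea, hec⟩ := hE ha hc
  obtain ⟨f, hfL, hf⟩ := hF ha hc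
  have ne : ∀ {r s : Fin n}, r ∈ U → s ∉ U → r ≠ s := fun h1 h2 e => h2 (e ▸ h1)
  rcases g1 hX f.val (vne (ne ha hf).symm) (vne (ne hc hf).symm) with h | h
  · exact caseC had hcd ha hc haL hcL (ne ha hd) (ne hc hd) he heL hea hec (ne he hd)
      hf (Or.inr hfL) hd (Or.inl rfl) h
  · exact caseC hab hcb ha hc haL hcL (ne ha hb) (ne hc hb) he heL hea hec (ne he hb)
      hf (Or.inr hfL) hb (Or.inl rfl) h

/-- The exchange lemma of Leclerc and Zelevinsky. -/
theorem lz {U L : Finset (Fin n)} {a b c d : Fin n} (hX : X a.val c.val b.val d.val)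
    (haL : a ∉ L) (hcL : c ∉ L)
    (hab : ¬ Cross U (insert a (insert b L))) (hbc : ¬ Cross U (insert b (insert c L)))
    (hcd : ¬ Cross U (insert c (insert d L))) (had : ¬ Cross U (insert a (insert d L)))
    (hcard : U.card = (insert a (insert c L)).card) (hne : U ≠ insert a (insert c L)) :
    ¬ Cross U (insert b (insert d L)) := by
  have nab := N_of hab
  have ncb := (N_of hbc).symm
  have ncd := N_of hcd
  have nad := N_of had
  have hE : a ∈ U → c ∈ U → ∃ e ∈ U, e ∉ L ∧ e ≠ a ∧ e ≠ c := by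
    intro _ _
    by_contra hcon
    push Not at hcon
    refine hne (eq_of_subset_of_card_le (fun e he => ?_) hcard.ge)
    by_cases h1 : e ∈ L
    · simp [h1]
    · by_cases h2 : e = a
      · simp [h2]
      · simp [hcon e he h1 h2]
  have hF : a ∈ U → c ∈ U → ∃ f ∈ L, f ∉ U := by
    intro ha hc
    by_contra hcon
    push Not at hcon
    refine hne (eq_of_subset_of_card_le (fun e he => ?_) hcard.le).symm
    simp only [mem_insert] at he
    rcases he with rfl | rfl | he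
    exacts [ha, hc, hcon e he]
  rintro ⟨p, p', q, q', h1, h2, h3, h4, h5, h6, h7, h8, h⟩
  have h : X p.val p'.val q.val q'.val := by
    simp only [Fin.lt_def] at h
    unfold X
    omega
  simp only [mem_insert, not_or] at h2 h4 h5 h7
  have hqq : q ≠ q' := fne h.ne.2.2.2.2.2
  by_cases k1 : q ≠ d ∧ q' ≠ d
  · exact caseA nab ncb nad ncd haL hcL hX hE h1 h2.2.2 h2.1 h3 h4.2.2 h4.1 h6
      ((or_left_comm.1 h5).resolve_left k1.1) h8 ((or_left_comm.1 h7).resolve_left k1.2) h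
  by_cases k2 : q ≠ b ∧ q' ≠ b
  · exact caseA nad ncd nab ncb haL hcL hX.sw2 hE h1 h2.2.2 h2.2.1 h3 h4.2.2 h4.2.1 h6
      (h5.resolve_left k2.1) h8 (h7.resolve_left k2.2) h
  have hbd : b ≠ d := fne hX.ne.2.2.2.2.2
  have key : b ∉ U ∧ d ∉ U ∧ X p.val p'.val b.val d.val := by
    by_cases k3 : q = b
    · have k4 : q' = d := by
        by_contra k5
        exact k1 ⟨k3 ▸ hbd, k5⟩
      exact ⟨k3 ▸ h6, k4 ▸ h8, k3 ▸ k4 ▸ h⟩
    · have k4 : q' = b := by
        by_contra k5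
        exact k2 ⟨k3, k5⟩
      have k5 : q = d := by
        by_contra k6
        exact k1 ⟨k6, k4 ▸ hbd⟩
      exact ⟨k4 ▸ h8, k5 ▸ h6, k4 ▸ k5 ▸ h.sw2⟩
  exact caseD nab ncb nad ncd haL hcL hX hE hF key.1 key.2.1 h1 h2.2.2 h3 h4.2.2 key.2.2

theorem rect_nc (i j i' j' : ℕ) : ¬ Cross (rectSet k n i j) (rectSet k n i' j') := by
  rintro ⟨p, p', q, q', h1, h2, h3, h4, h5, h6, h7, h8, h⟩
  simp only [mem_rectSet, Fin.lt_def] at h1 h2 h3 h4 h5 h6 h7 h8 h
  omega

end WSX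

theorem pc_ws {C : Set (Finset (Fin n))} (hC : PC k C) :
    (∀ U ∈ C, U.card = k) ∧ ∀ U ∈ C, ∀ T ∈ C, ¬ Cross U T := by
  unfold PC at hC
  induction hC with
  | refl =>
    refine ⟨?_, ?_⟩
    · rintro U ⟨i, j, hi, hj, rfl⟩
      exact card_rectSet hi hj
    · rintro U ⟨i, j, -, -, rfl⟩ T ⟨i', j', -, -, rfl⟩
      exact WSX.rect_nc i j i' j'
  | tail _ hs ih =>
    obtain ⟨ih1, ih2⟩ := ih
    obtain ⟨L, a, b, c, d, hord, ha, hb, hc, hd, hab, hbc, hcd, had, hac, rfl⟩ := hs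
    have hX : WSX.X a.val c.val b.val d.val := by
      simp only [Fin.lt_def] at hord
      unfold WSX.X
      omega
    obtain ⟨n1, -, -, -, -, n6⟩ := hX.ne
    have key : ∀ U ∈ _ \ ({insert a (insert c L)} : Set (Finset (Fin n))),
        ¬ Cross U (insert b (insert d L)) := fun U hU =>
      WSX.lz hX ha hc (ih2 U hU.1 _ hab) (ih2 U hU.1 _ hbc) (ih2 U hU.1 _ hcd) (ih2 U hU.1 _ had)
        ((ih1 U hU.1).trans (ih1 _ hac).symm) hU.2
    refine ⟨?_, ?_⟩
    · rintro U (rfl | hU)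
      · rw [← ih1 _ hac, card_insert_of_notMem (by simp [hb, WSX.fne n6]), card_insert_of_notMem hd,
          card_insert_of_notMem (by simp [ha, WSX.fne n1]), card_insert_of_notMem hc]
      · exact ih1 U hU.1
    · rintro U (rfl | hU) T (rfl | hT)
      · exact WSX.cross_irrefl _
      · exact fun h => key T hT (WSX.cross_symm h)
      · exact key U hU
      · exact ih2 U hU.1 T hT.1

namespace InvX

/-- The chords `p p'` and `q q'` cross (parity form, for `p, p'` different from `q, q'`). -/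
def Alt (p p' q q' : ℕ) : Prop := ¬ ((p < q ↔ p' < q) ↔ (p < q' ↔ p' < q'))

theorem mk {U T : Finset (Fin n)} {p p' q q' : Fin n} (h1 : p ∈ U) (h2 : p ∉ T) (h3 : p' ∈ U)
    (h4 : p' ∉ T) (h5 : q ∈ T) (h6 : q ∉ U) (h7 : q' ∈ T) (h8 : q' ∉ U)
    (h : Alt p.val p'.val q.val q'.val) : Cross U T := by
  have n1 : p.val ≠ q.val := fun e => h6 (Fin.ext e ▸ h1)
  have n2 : p.val ≠ q'.val := fun e => h8 (Fin.ext e ▸ h1)
  have n3 : p'.val ≠ q.val := fun e => h6 (Fin.ext e ▸ h3)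
  have n4 : p'.val ≠ q'.val := fun e => h8 (Fin.ext e ▸ h3)
  unfold Alt at h
  by_cases c1 : p.val < q.val <;> by_cases c2 : p'.val < q.val <;>
    by_cases c3 : p.val < q'.val <;> by_cases c4 : p'.val < q'.val <;>
    simp only [c1, c2, c3, c4, iff_self, not_true_eq_false, iff_false, iff_true,
      not_false_eq_true] at h <;>
    first
    | exact ⟨p, p', q, q', h1, h2, h3, h4, h5, h6, h7, h8, by simp only [Fin.lt_def]; omega⟩
    | exact ⟨p', p, q, q', h3, h4, h1, h2, h5, h6, h7, h8, by simp only [Fin.lt_def]; omega⟩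
    | exact ⟨p, p', q', q, h1, h2, h3, h4, h7, h8, h5, h6, by simp only [Fin.lt_def]; omega⟩
    | exact ⟨p', p, q', q, h3, h4, h1, h2, h7, h8, h5, h6, by simp only [Fin.lt_def]; omega⟩

def Cyc (a b c d : ℕ) : Prop :=
  (a < b ∧ b < c ∧ c < d) ∨ (b < c ∧ c < d ∧ d < a) ∨ (c < d ∧ d < a ∧ a < b) ∨
    (d < a ∧ a < b ∧ b < c)

theorem Cyc.alt {a b c d : ℕ} (h : Cyc a b c d) : Alt a c b d := by
  unfold Alt
  rcases h with h | h | h | h <;> omega

set_option synthInstance.maxSize 4000 in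
theorem parB : ∀ xy cy ay xb xd ab cb ad cd : Bool,
    ¬ ((ab = true ↔ cb = true) ↔ (ad = true ↔ cd = true)) →
    ¬ ((xy = true ↔ cy = true) ↔ (xb = true ↔ cb = true)) ∨
    ¬ ((xy = true ↔ ay = true) ↔ (xb = true ↔ ab = true)) ∨
    ¬ ((xy = true ↔ ay = true) ↔ (xd = true ↔ ad = true)) ∨
    ¬ ((xy = true ↔ cy = true) ↔ (xd = true ↔ cd = true)) := by decide

theorem par {a b c d x y : ℕ} (h : Cyc a b c d) :
    Alt x c y b ∨ Alt x a y b ∨ Alt x a y d ∨ Alt x c y d := by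
  have h1 := h.alt
  have := parB (decide (x < y)) (decide (c < y)) (decide (a < y)) (decide (x < b))
    (decide (x < d)) (decide (a < b)) (decide (c < b)) (decide (a < d)) (decide (c < d))
  simp only [decide_eq_true_eq] at this
  exact this h1

/-- Johnson neighbours of `Lac` that are weakly separated from the four sides. -/
theorem nbr {L U : Finset (Fin n)} {a b c d x y : Fin n} (cyc : Cyc a.val b.val c.val d.val)
    (ha : a ∉ L) (hb : b ∉ L) (hc : c ∉ L) (hd : d ∉ L)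
    (hU : ∀ z, z ∈ U ↔ (z ∈ insert a (insert c L) ∧ z ≠ y) ∨ z = x)
    (hy : y ∈ insert a (insert c L)) (hx : x ∉ insert a (insert c L))
    (h1 : ¬ Cross U (insert a (insert b L))) (h2 : ¬ Cross U (insert b (insert c L)))
    (h3 : ¬ Cross U (insert c (insert d L))) (h4 : ¬ Cross U (insert a (insert d L))) :
    (y = a ∨ y = c) ∨ x = b ∨ x = d := by
  by_contra hn
  simp only [not_or] at hn
  obtain ⟨⟨ya, yc⟩, xb, xd⟩ := hn
  simp only [mem_insert, not_or] at hx hy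
  obtain ⟨xa, xc, xL⟩ := hx
  have yL : y ∈ L := by tauto
  have yb : y ≠ b := fun h => hb (h ▸ yL)
  have yd : y ≠ d := fun h => hd (h ▸ yL)
  have xy : y ≠ x := fun h => xL (h ▸ yL)
  have ab : a ≠ b ∧ a ≠ c ∧ a ≠ d ∧ b ≠ c ∧ b ≠ d ∧ c ≠ d := by
    simp only [ne_eq, Fin.ext_iff]; unfold Cyc at cyc; omega
  obtain ⟨ab, ac, ad, bc, bd, cd⟩ := ab
  have xU : x ∈ U := by simp [hU]
  have aU : a ∈ U := by simp [hU, Ne.symm ya]
  have cU : c ∈ U := by simp [hU, Ne.symm yc]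
  have yU : y ∉ U := by simp [hU, xy]
  have bU : b ∉ U := by simp [hU, ab.symm, bc, hb, Ne.symm xb]
  have dU : d ∉ U := by simp [hU, ad.symm, cd.symm, hd, Ne.symm xd]
  have key : Alt x.val c.val y.val b.val ∨ Alt x.val a.val y.val b.val ∨
      Alt x.val a.val y.val d.val ∨ Alt x.val c.val y.val d.val := by
    exact par cyc
  rcases key with h | h | h | h
  · exact h1 (mk xU (by simp [xa, xb, xL]) cU (by simp [ac.symm, bc.symm, hc]) (by simp [yL]) yU
      (by simp) bU h)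
  · exact h2 (mk xU (by simp [xc, xb, xL]) aU (by simp [ac, ab, ha]) (by simp [yL]) yU
      (by simp) bU h)
  · exact h3 (mk xU (by simp [xc, xd, xL]) aU (by simp [ac, ad, ha]) (by simp [yL]) yU
      (by simp) dU h)
  · exact h4 (mk xU (by simp [xa, xd, xL]) cU (by simp [ac.symm, cd, hc]) (by simp [yL]) yU
      (by simp) dU h)

def Inv (k r : ℕ) (C : Set (Finset (Fin n))) : Prop :=
  ∃ g t t' : Fin n, k ≤ g.val ∧ t.val ≤ r ∧ r < t'.val ∧ t'.val < k ∧
    nb k t g ∈ C ∧ nb k t' g ∈ C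

theorem Inv.mk' {r : ℕ} {C : Set (Finset (Fin n))} (g t t' : Fin n) (hg : k ≤ g.val)
    (ht : t.val < k) (ht' : t'.val < k)
    (h : (t.val ≤ r ∧ r < t'.val) ∨ (t'.val ≤ r ∧ r < t.val))
    (h1 : nb k t g ∈ C) (h2 : nb k t' g ∈ C) : Inv k r C := by
  rcases h with h | h
  · exact ⟨g, t, t', hg, h.1, h.2, ht', h1, h2⟩
  · exact ⟨g, t', t, hg, h.1, h.2, ht, h2, h1⟩

theorem memL {L : Finset (Fin n)} {a c s g : Fin n} (ha : a ∉ L) (hc : c ∉ L)
    (e : nb k s g = insert a (insert c L)) (z : Fin n) :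
    z ∈ L ↔ ((z.val < k ∧ z ≠ s) ∨ z = g) ∧ z ≠ a ∧ z ≠ c := by
  rw [← mem_nb, e]
  simp only [mem_insert]
  constructor
  · exact fun h => ⟨Or.inr (Or.inr h), fun h' => ha (h' ▸ h), fun h' => hc (h' ▸ h)⟩
  · tauto

theorem step_b {r : ℕ} {C : Set (Finset (Fin n))} {L : Finset (Fin n)} {a b c d g s' : Fin n}
    (cyc : Cyc a.val b.val c.val d.val) (ha : a ∉ L) (hc : c ∉ L) (hd : d ∉ L)
    (e : nb k b g = insert a (insert c L)) (hg : k ≤ g.val) (hb : b.val < k) (hs : s'.val < k)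
    (h : (b.val ≤ r ∧ r < s'.val) ∨ (s'.val ≤ r ∧ r < b.val))
    (h0 : nb k s' g ∈ C) (h1 : insert a (insert b L) ∈ C) (h2 : insert b (insert c L) ∈ C)
    (h3 : insert c (insert d L) ∈ C) (h4 : insert a (insert d L) ∈ C)
    (h5 : insert b (insert d L) ∈ C) : Inv k r C := by
  have hL := memL ha hc e
  have ma : a ∈ nb k b g := by simp [e]
  have mc : c ∈ nb k b g := by simp [e]
  rw [hL] at hd
  simp only [mem_nb, ne_eq, Fin.ext_iff] at ma mc hd
  unfold Cyc at cyc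
  have dk : k ≤ d.val ∧ d.val ≠ g.val := by omega
  by_cases ag : a.val = g.val
  · have e1 : insert a (insert b L) = nb k c g := by
      ext z; simp only [mem_insert, mem_nb, hL, ne_eq, Fin.ext_iff]; omega
    have e2 : insert b (insert d L) = nb k c d := by
      ext z; simp only [mem_insert, mem_nb, hL, ne_eq, Fin.ext_iff]; omega
    have e3 : insert c (insert d L) = nb k b d := by
      ext z; simp only [mem_insert, mem_nb, hL, ne_eq, Fin.ext_iff]; omega
    rw [e1] at h1; rw [e2] at h5; rw [e3] at h3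
    by_cases hh : (c.val ≤ r ↔ b.val ≤ r)
    · exact Inv.mk' g c s' hg (by omega) hs (by omega) h1 h0
    · exact Inv.mk' d c b dk.1 (by omega) hb (by omega) h5 h3
  by_cases cg : c.val = g.val
  · have e1 : insert b (insert c L) = nb k a g := by
      ext z; simp only [mem_insert, mem_nb, hL, ne_eq, Fin.ext_iff]; omega
    have e2 : insert b (insert d L) = nb k a d := by
      ext z; simp only [mem_insert, mem_nb, hL, ne_eq, Fin.ext_iff]; omega
    have e3 : insert a (insert d L) = nb k b d := by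
      ext z; simp only [mem_insert, mem_nb, hL, ne_eq, Fin.ext_iff]; omega
    rw [e1] at h2; rw [e2] at h5; rw [e3] at h4
    by_cases hh : (a.val ≤ r ↔ b.val ≤ r)
    · exact Inv.mk' g a s' hg (by omega) hs (by omega) h2 h0
    · exact Inv.mk' d a b dk.1 (by omega) hb (by omega) h5 h4
  have e1 : insert a (insert b L) = nb k c g := by
    ext z; simp only [mem_insert, mem_nb, hL, ne_eq, Fin.ext_iff]; omega
  have e2 : insert b (insert c L) = nb k a g := by
    ext z; simp only [mem_insert, mem_nb, hL, ne_eq, Fin.ext_iff]; omega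
  rw [e1] at h1; rw [e2] at h2
  by_cases hh : b.val ≤ r
  · exact Inv.mk' g a s' hg (by omega) hs (by omega) h2 h0
  · exact Inv.mk' g c s' hg (by omega) hs (by omega) h1 h0

theorem win0 (T : Finset (Fin n)) : ¬ Cross (win k n 0) T := by
  rintro ⟨p, p', q, q', h1, -, h3, -, -, h6, -, h8, h⟩
  simp only [mem_win, Fin.lt_def] at *
  omega

theorem step_o {L : Finset (Fin n)} {a b c d g s s' : Fin n}
    (cyc : Cyc a.val b.val c.val d.val) (ha : a ∉ L) (hb : b ∉ L) (hc : c ∉ L) (hd : d ∉ L)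
    (e : nb k s g = insert a (insert c L)) (hg : k ≤ g.val) (hs : s.val < k) (hs' : s'.val < k)
    (hss : s.val ≠ s'.val)
    (h1 : ¬ Cross (nb k s' g) (insert a (insert b L)))
    (h2 : ¬ Cross (nb k s' g) (insert b (insert c L)))
    (h3 : ¬ Cross (nb k s' g) (insert c (insert d L)))
    (h4 : ¬ Cross (nb k s' g) (insert a (insert d L))) : s = b ∨ s = d := by
  by_contra hn
  have n1 := nbr (U := win k n 0) (x := s) (y := g) cyc ha hb hc hd
    (fun z => by
      have := z.isLt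
      rw [← e]; simp only [mem_win, mem_nb, ne_eq, Fin.ext_iff]; omega)
    (by simp [← e]) (by rw [← e]; simp only [mem_nb, ne_eq, Fin.ext_iff, not_true, and_false, false_or, and_true]; omega)
    (win0 _) (win0 _) (win0 _) (win0 _)
  have n2 := nbr (U := nb k s' g) (x := s) (y := s') cyc ha hb hc hd
    (fun z => by rw [← e]; simp only [mem_nb, ne_eq, Fin.ext_iff, not_true, and_false, false_or, and_true]; omega)
    (by rw [← e]; simp only [mem_nb, ne_eq, Fin.ext_iff, not_true, and_false, false_or, and_true]; omega)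
    (by rw [← e]; simp only [mem_nb, ne_eq, Fin.ext_iff, not_true, and_false, false_or, and_true]; omega) h1 h2 h3 h4
  replace n1 := n1.resolve_right hn
  replace n2 := n2.resolve_right hn
  have hL := memL ha hc e
  have hb' := hb
  have hd' := hd
  rw [hL] at hb' hd'
  simp only [ne_eq, Fin.ext_iff] at hb' hd' hn n1 n2
  have cy := cyc
  unfold Cyc at cy
  have key : Alt s.val g.val s'.val b.val ∨ Alt s.val g.val s'.val d.val := by
    unfold Alt; omega
  have m : ∀ (T : Finset (Fin n)) (x : Fin n), s ∉ T → g ∉ T → s' ∈ T → x ∈ T →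
      x ∉ nb k s' g → Alt s.val g.val s'.val x.val → Cross (nb k s' g) T :=
    fun T x t1 t2 t3 t4 t5 t6 => mk (by simp only [mem_nb, ne_eq, Fin.ext_iff, not_true, and_false, false_or, and_true]; omega) t1
      (by simp) t2 t3 (by simp only [mem_nb, ne_eq, Fin.ext_iff, not_true, and_false, false_or, and_true]; omega) t4 t5 t6
  rcases key with h | h <;> rcases n2 with n2 | n2
  · refine h1 (m _ b ?_ ?_ ?_ ?_ ?_ h) <;>
      simp only [mem_insert, mem_nb, hL, ne_eq, Fin.ext_iff, not_true, and_false, false_or,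
        or_true, true_or, true_and] <;> omega
  · refine h2 (m _ b ?_ ?_ ?_ ?_ ?_ h) <;>
      simp only [mem_insert, mem_nb, hL, ne_eq, Fin.ext_iff, not_true, and_false, false_or,
        or_true, true_or, true_and] <;> omega
  · refine h4 (m _ d ?_ ?_ ?_ ?_ ?_ h) <;>
      simp only [mem_insert, mem_nb, hL, ne_eq, Fin.ext_iff, not_true, and_false, false_or,
        or_true, true_or, true_and] <;> omega
  · refine h3 (m _ d ?_ ?_ ?_ ?_ ?_ h) <;>
      simp only [mem_insert, mem_nb, hL, ne_eq, Fin.ext_iff, not_true, and_false, false_or,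
        or_true, true_or, true_and] <;> omega

theorem step {r : ℕ} {C C' : Set (Finset (Fin n))}
    (ws : ∀ U ∈ C, ∀ T ∈ C, ¬ Cross U T) (hm : SquareMove C C') (h : Inv k r C) :
    Inv k r C' := by
  obtain ⟨L, a, b, c, d, cy, ha, hb, hc, hd, h1, h2, h3, h4, -, rfl⟩ := hm
  have cyc : Cyc a.val b.val c.val d.val := by
    simp only [Fin.lt_def] at cy; unfold Cyc; omega
  have cyc' : Cyc c.val d.val a.val b.val := by unfold Cyc at *; omega
  have ab : b ≠ a ∧ b ≠ c ∧ d ≠ a ∧ d ≠ c := by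
    simp only [ne_eq, Fin.ext_iff]; unfold Cyc at cyc; omega
  set C' := insert (insert b (insert d L)) (C \ {insert a (insert c L)}) with hC'
  have keep : ∀ T ∈ C, T ≠ insert a (insert c L) → T ∈ C' := fun T h1 h2 => Or.inr ⟨h1, h2⟩
  have kb : ∀ T ∈ C, b ∈ T → T ∈ C' := fun T h1 h2 => keep T h1 (by
    rintro rfl; simp [ab.1, ab.2.1, hb] at h2)
  have kd : ∀ T ∈ C, d ∈ T → T ∈ C' := fun T h1 h2 => keep T h1 (by
    rintro rfl; simp [ab.2.2.1, ab.2.2.2, hd] at h2)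
  have k1 := kb _ h1 (by simp)
  have k2 := kb _ h2 (by simp)
  have k3 := kd _ h3 (by simp)
  have k4 := kd _ h4 (by simp)
  have k5 : insert b (insert d L) ∈ C' := Or.inl rfl
  have main : ∀ g s s' : Fin n, k ≤ g.val → s.val < k → s'.val < k →
      ((s.val ≤ r ∧ r < s'.val) ∨ (s'.val ≤ r ∧ r < s.val)) →
      nb k s g = insert a (insert c L) → nb k s' g ∈ C → Inv k r C' := by
    intro g s s' hg hs hs' ho e h0
    have h0' : nb k s' g ∈ C' := keep _ h0 (by
      rw [← e]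
      intro h
      have : s ∈ nb k s' g := by simp only [mem_nb, ne_eq, Fin.ext_iff, not_true, and_false, false_or, and_true]; omega
      rw [h] at this
      simp only [mem_nb, ne_eq, Fin.ext_iff, not_true, and_false, false_or] at this; omega)
    rcases step_o cyc ha hb hc hd e hg hs hs' (by omega) (ws _ h0 _ h1) (ws _ h0 _ h2)
      (ws _ h0 _ h3) (ws _ h0 _ h4) with rfl | rfl
    · exact step_b cyc ha hc hd e hg hs hs' ho h0' k1 k2 k3 k4 k5
    · exact step_b cyc' hc ha hb (e.trans (Finset.insert_comm _ _ _)) hg hs hs' ho h0' k3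
        (Finset.insert_comm a s L ▸ k4) k1 (Finset.insert_comm b c L ▸ k2) (Finset.insert_comm b s L ▸ k5)
  obtain ⟨g, t, t', hg, ht, hr, ht', m1, m2⟩ := h
  by_cases e1 : nb k t g = insert a (insert c L)
  · exact main g t t' hg (by omega) ht' (by omega) e1 m2
  by_cases e2 : nb k t' g = insert a (insert c L)
  · exact main g t' t hg ht' (by omega) (by omega) e2 m1
  exact ⟨g, t, t', hg, ht, hr, ht', keep _ m1 e1, keep _ m2 e2⟩

end InvX

theorem pc_inv {C : Set (Finset (Fin n))} (hkn : k < n) (hC : PC k C) {r : ℕ} (hr : r + 1 < k) :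
    ∃ g t t' : Fin n, k ≤ g.val ∧ t.val ≤ r ∧ r < t'.val ∧ t'.val < k ∧
      nb k t g ∈ C ∧ nb k t' g ∈ C := by
  induction hC with
  | refl =>
    have h : ∀ t : Fin n, t.val < k → nb k t ⟨k, hkn⟩ ∈ rectC k n := fun t ht =>
      ⟨k - t.val, 1, by omega, hkn, by
        ext z; simp only [mem_nb, mem_rectSet, ne_eq, Fin.ext_iff]; omega⟩
    exact ⟨⟨k, hkn⟩, ⟨r, by omega⟩, ⟨r + 1, by omega⟩, le_rfl, le_rfl, Nat.lt_succ_self r, hr,
      h _ (by simp only; omega), h _ hr⟩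
  | tail h1 h2 ih => exact InvX.step (pc_ws h1).2 h2 ih

namespace BadX

theorem vand (s : Finset (Fin n)) (w : Fin n → ℂ) (hs : ∀ j, j ∉ s → w j = 0)
    (h : ∀ m < s.card, ∑ j, w j * (j.val : ℂ) ^ m = 0) (j : Fin n) : w j = 0 := by
  by_cases hj : j ∈ s
  swap
  · exact hs j hj
  have := Matrix.eq_zero_of_forall_pow_sum_mul_pow_eq_zero
    (f := fun i => ((s.orderEmbOfFin rfl i).val : ℂ)) (v := fun i => w (s.orderEmbOfFin rfl i))
    (fun i i' e => (s.orderEmbOfFin rfl).injective (Fin.ext (Nat.cast_injective e))) (fun m => by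
      rw [← h m m.isLt]
      refine Finset.sum_of_injOn (s.orderEmbOfFin rfl) (s.orderEmbOfFin rfl).injective.injOn
        (fun _ _ => mem_univ _) (fun x _ hx => ?_) (fun _ _ => rfl)
      rw [hs x, zero_mul]
      intro hx'
      apply hx
      rw [coe_univ, Set.image_univ, range_orderEmbOfFin]
      exact hx')
  have hj' : j ∈ Set.range (s.orderEmbOfFin rfl) := by rw [range_orderEmbOfFin]; exact hj
  obtain ⟨i, rfl⟩ := hj'
  exact congrFun this i

open Classical in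
/-- Column `j` is `[a j] e₁ + [b j] e₂ + [c j] (0, 0, 1, j, j ^ 2, …)`. -/
noncomputable def M (k : ℕ) {n : ℕ} (a b c : ℕ → Prop) : Matrix (Fin k) (Fin n) ℂ :=
  fun i j => if i.val = 0 then (if a j then 1 else 0) else if i.val = 1 then
    (if b j then 1 else 0) else if c j then (j.val : ℂ) ^ (i.val - 2) else 0

variable {a b c : ℕ → Prop}

theorem indep (hk : 2 ≤ k) {J : Finset (Fin n)} (hJ : J.card = k) {α β : Fin n} (hα : α ∈ J)
    (hβ : β ∈ J) (a1 : a α) (a2 : ¬ a β) (b1 : b β) (b2 : ¬ b α)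
    (hc : ∀ j ∈ J, j ≠ α → j ≠ β → c j) (ha : ¬ c α ∨ ∀ j ∈ J, j ≠ α → ¬ a j)
    (hb : ¬ c β ∨ ∀ j ∈ J, j ≠ β → ¬ b j) : PluckerNonzero (M k a b c) J := by
  classical
  have ne : α ≠ β := fun e => a2 (e ▸ a1)
  rw [pn_iff_ker]
  refine ⟨hJ, fun v hv hs => ?_⟩
  have r0 : ∑ j : Fin n, (if a j then 1 else 0) * v j = 0 := by
    simpa [Matrix.mulVec, dotProduct, M] using congrFun hv ⟨0, by omega⟩
  have r1 : ∑ j : Fin n, (if b j then 1 else 0) * v j = 0 := by
    simpa [Matrix.mulVec, dotProduct, M] using congrFun hv ⟨1, by omega⟩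
  have one : ∀ (p : ℕ → Prop) (γ : Fin n), p γ → ∑ j : Fin n, (if p j then 1 else 0) * v j = 0 →
      (∀ j ∈ J, j ≠ γ → p j → v j = 0) → v γ = 0 := by
    intro p γ h1 h2 h3
    rw [Finset.sum_eq_single γ] at h2
    · simpa [h1] using h2
    · intro j _ hj
      by_cases hp : p j
      · by_cases hjJ : j ∈ J
        · simp [h3 j hjJ hj hp]
        · simp [hs j hjJ]
      · simp [hp]
    · simp
  have wz := vand ((J.erase α).erase β) (fun j => if c j then v j else 0) (fun j hj => by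
      by_cases hjJ : j ∈ J
      swap
      · simp [hs j hjJ]
      by_cases e1 : j = α
      · subst e1
        rcases ha with ha | ha
        · simp [ha]
        · simp [one a j a1 r0 fun x hx hx' hp => absurd hp (ha x hx hx')]
      by_cases e2 : j = β
      · subst e2
        rcases hb with hb | hb
        · simp [hb]
        · simp [one b j b1 r1 fun x hx hx' hp => absurd hp (hb x hx hx')]
      simp [e1, e2, hjJ] at hj)
    (fun m hm => by
      rw [card_erase_of_mem (by simp [ne.symm, hβ]), card_erase_of_mem hα, hJ] at hm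
      have := congrFun hv ⟨m + 2, by omega⟩
      simp only [Matrix.mulVec, dotProduct, M, Pi.zero_apply] at this
      refine Eq.trans (Finset.sum_congr rfl fun j _ => ?_) this
      by_cases h : c j <;> simp [h, mul_comm])
  have rest : ∀ j ∈ J, j ≠ α → j ≠ β → v j = 0 := fun j h1 h2 h3 => by
    simpa [hc j h1 h2 h3] using wz j
  have vα := one a α a1 r0 fun x hx hx' hp => rest x hx hx' fun e => a2 (e ▸ hp)
  have vβ := one b β b1 r1 fun x hx hx' hp => rest x hx (fun e => b2 (e ▸ hp)) hx'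
  funext j
  by_cases hjJ : j ∈ J
  · by_cases e1 : j = α
    · exact e1 ▸ vα
    by_cases e2 : j = β
    · exact e2 ▸ vβ
    exact rest j hjJ e1 e2
  · exact hs j hjJ

theorem row_ne {X : Matrix (Fin k) (Fin n) ℂ} {J : Finset (Fin n)} (h : PluckerNonzero X J)
    (i : Fin k) : ∃ j ∈ J, X i j ≠ 0 := by
  by_contra hn
  push Not at hn
  have := ((pn_iff_vec X J).1 h).2 (Pi.single i 1) fun j hj => by
    simp [hn j hj]
  simpa using congrFun this i

theorem col_ne {X : Matrix (Fin k) (Fin n) ℂ} {J : Finset (Fin n)} (h : PluckerNonzero X J)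
    {x y : Fin n} (hx : x ∈ J) (hy : y ∈ J) (e : ∀ i, X i x = X i y) : x = y := by
  by_contra hn
  have := ((pn_iff_ker X J).1 h).2 (Pi.single x 1 - Pi.single y 1)
    (by ext i; simp [Matrix.mulVec_sub, e]) fun j hj => by
      have h1 : j ≠ x := fun e => hj (e ▸ hx)
      have h2 : j ≠ y := fun e => hj (e ▸ hy)
      simp [h1, h2]
  simpa [hn] using congrFun this x

theorem nb_eq (hkn : k ≤ n) (t g : Fin n) : nb k t g = insert g ((win k n 0).erase t) := by
  ext z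
  simp only [mem_nb, mem_insert, mem_erase, mem_win, ne_eq, Fin.ext_iff]
  omega

theorem card_nb (hkn : k ≤ n) {t g : Fin n} (ht : t.val < k) (hg : k ≤ g.val) :
    (nb k t g).card = k := by
  rw [nb_eq hkn, card_insert_of_notMem (by simp; omega), card_erase_of_mem (by simp; omega),
    card_win hkn (by omega)]
  omega

theorem exch (hkn : k ≤ n) {t g : Fin n} (ht : t.val < k) (hg : k ≤ g.val) {S : Finset (Fin n)}
    (h : (nb k t g ∩ S).card = (win k n 0 ∩ S).card) : t ∈ S ↔ g ∈ S := by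
  have tI : t ∈ win k n 0 := by simp; omega
  have gI : g ∉ win k n 0 := by simp; omega
  rw [nb_eq hkn] at h
  by_contra hn
  by_cases h1 : t ∈ S
  · have h2 : g ∉ S := by tauto
    rw [insert_inter_of_notMem h2, erase_inter, card_erase_of_mem (mem_inter.2 ⟨tI, h1⟩)] at h
    have := card_pos.2 ⟨t, mem_inter.2 ⟨tI, h1⟩⟩
    omega
  · have h2 : g ∈ S := by tauto
    rw [insert_inter_of_mem h2, erase_inter, erase_eq_of_notMem (by simp [h1]),
      card_insert_of_notMem (fun h => gI (mem_inter.1 h).1)] at h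
    omega

theorem core (hk : 3 ≤ k) {N e : ℕ} (T : ℕ → Prop) (T0 : T 0) (Tk : T k) (TN : ∀ x, T x → x ≤ N)
    (T1 : ∀ x y, T x → T y → x < y → x + k ≤ y) (T2 : ∀ i ≤ N, ∃ x, T x ∧ i ≤ x ∧ x < i + k)
    (h1 : N + k ≤ n) (h2 : N + 2 ≤ e) (h3 : n ≤ e + k) (h4 : e ≤ N + k) (h5 : e + 2 ≤ n) :
    ¬ P k n := by
  intro H
  have kN := TN k Tk
  have hkn : k < n := by omega
  have T1' : ∀ x y, T x → T y → x = y ∨ x + k ≤ y ∨ y + k ≤ x := fun x y hx hy => by
    rcases lt_trichotomy x y with h | h | h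
    exacts [Or.inr (Or.inl (T1 x y hx hy h)), Or.inl h, Or.inr (Or.inr (T1 y x hy hx h))]
  set A : ℕ → Prop := fun x => T (x + 1) ∨ x + 1 = n with hA
  set a : ℕ → Prop := fun x => A x ∨ x + 1 = e with ha
  set b : ℕ → Prop := fun x => T x ∨ x = e with hb
  set c : ℕ → Prop := fun x => ¬ A x ∧ ¬ T x with hc
  have dis : ∀ x, a x → b x → False := by
    rintro x ((p | p) | p) (q | q)
    · have := T1' _ _ p q; omega
    · have := TN _ p; omega
    · have := TN _ q; omega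
    · omega
    · have := TN _ q; omega
    · omega
  have rowA : ∀ x < k, a x → x + 1 = k := by
    rintro x hx ((p | p) | p)
    · have := T1' _ _ p T0; omega
    · omega
    · omega
  have rowB : ∀ x < k, b x → x = 0 := by
    rintro x hx (p | p)
    · have := T1' _ _ p T0; omega
    · omega
  have rowC : ∀ x < k, x ≠ 0 → x + 1 ≠ k → c x := fun x hx p q =>
    ⟨fun h => q (rowA x hx (Or.inl h)), fun h => p (rowB x hx (Or.inl h))⟩
  have Ak : A (k - 1) := Or.inl (by rwa [Nat.sub_add_cancel (by omega)])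
  let z : Fin n := ⟨0, by omega⟩
  let l : Fin n := ⟨k - 1, by omega⟩
  let o : Fin n := ⟨1, by omega⟩
  let E : Fin n := ⟨e, by omega⟩
  let D : Fin n := ⟨e - 1, by omega⟩
  have zv : z.val = 0 := rfl
  have lv : l.val = k - 1 := rfl
  have ov : o.val = 1 := rfl
  have Ev : E.val = e := rfl
  have Dv : D.val = e - 1 := rfl
  have al : a l := Or.inl Ak
  have bz : b z := Or.inl T0
  have wins : ∀ i < n, PluckerNonzero (M k a b c) (win k n i) := by
    intro i hi
    have eB : ∃ β ∈ win k n i, (T β.val ∧ ∀ y ∈ win k n i, T y.val → y = β) ∨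
        (β.val = e ∧ ∀ y ∈ win k n i, ¬ T y.val) := by
      by_cases c1 : i ≤ N
      · obtain ⟨x, p, q⟩ := T2 i c1
        have := TN x p
        refine ⟨⟨x, by omega⟩, by simp [q], Or.inl ⟨p, fun y hy ty => Fin.ext ?_⟩⟩
        have := T1' _ _ p ty
        simp only [mem_win] at hy ⊢
        omega
      by_cases c2 : n < i + k
      · refine ⟨z, by simp only [mem_win]; omega, Or.inl ⟨T0, fun y hy ty => Fin.ext ?_⟩⟩
        have := T1' _ _ T0 ty
        have := TN _ ty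
        simp only [mem_win] at hy
        omega
      · refine ⟨E, by simp only [mem_win]; omega, Or.inr ⟨rfl, fun y hy ty => ?_⟩⟩
        have := TN _ ty
        simp only [mem_win] at hy
        omega
    have eA : ∃ α ∈ win k n i, (A α.val ∧ ∀ y ∈ win k n i, A y.val → y = α) ∨
        (α.val + 1 = e ∧ ∀ y ∈ win k n i, ¬ A y.val) := by
      by_cases c1 : i + 1 ≤ N
      · obtain ⟨x, p, q⟩ := T2 _ c1
        have := TN x p
        refine ⟨⟨x - 1, by omega⟩, by simp only [mem_win]; omega,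
          Or.inl ⟨Or.inl (by rwa [Nat.sub_add_cancel (by omega)]), fun y hy ty => Fin.ext ?_⟩⟩
        simp only [mem_win] at hy ⊢
        rcases ty with ty | ty
        · have := T1' _ _ p ty; omega
        · omega
      by_cases c2 : n ≤ i + k
      · refine ⟨⟨n - 1, by omega⟩, by simp only [mem_win]; omega,
          Or.inl ⟨Or.inr (by simp only; omega), fun y hy ty => Fin.ext ?_⟩⟩
        simp only [mem_win] at hy ⊢
        rcases ty with ty | ty
        · have := T1' _ _ T0 ty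
          have := TN _ ty
          omega
        · omega
      · refine ⟨D, by simp only [mem_win]; omega, Or.inr ⟨by omega, fun y hy ty => ?_⟩⟩
        simp only [mem_win] at hy
        rcases ty with ty | ty
        · have := TN _ ty; omega
        · omega
    obtain ⟨β, hβ, pβ⟩ := eB
    obtain ⟨α, hα, pα⟩ := eA
    have a1 : a α := pα.imp And.left And.left
    have b1 : b β := pβ.imp And.left And.left
    refine indep (by omega) (card_win hkn.le hi) hα hβ a1 (fun h => dis _ h b1) b1 (dis _ a1)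
      (fun j hj n1 n2 => ⟨fun h => ?_, fun h => ?_⟩) ?_ ?_
    · exact pα.elim (fun p => n1 (p.2 j hj h)) fun p => p.2 j hj h
    · exact pβ.elim (fun p => n2 (p.2 j hj h)) fun p => p.2 j hj h
    · refine pα.imp (fun p h => h.1 p.1) fun p j hj n1 h => ?_
      exact h.elim (p.2 j hj) fun h => n1 (Fin.ext (by omega))
    · refine pβ.imp (fun p h => h.2 p.1) fun p j hj n1 h => ?_
      exact h.elim (p.2 j hj) fun h => n1 (Fin.ext (by omega))
  have row : ∀ {t g j : Fin n}, j ∈ nb k t g → j ≠ g → j.val < k ∧ j.val ≠ t.val :=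
    fun h1 h2 => by
      simp only [mem_nb, ne_eq, Fin.ext_iff] at h1 h2; omega
  have x1 : ∀ t g : Fin n, t.val < k → t.val ≠ 0 → t.val + 1 ≠ k → k ≤ g.val → c g →
      PluckerNonzero (M k a b c) (nb k t g) := fun t g p1 p2 p3 p4 p5 =>
    indep (α := l) (β := z) (by omega) (card_nb hkn.le p1 p4)
      (by simp only [mem_nb, ne_eq, Fin.ext_iff]; omega)
      (by simp only [mem_nb, ne_eq, Fin.ext_iff]; omega) al (fun h => dis _ h bz) bz (dis _ al)
      (fun j hj n1 n2 => by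
        by_cases e : j = g
        · exact e ▸ p5
        · simp only [ne_eq, Fin.ext_iff] at n1 n2
          exact rowC _ (row hj e).1 (by omega) (by omega))
      (Or.inl fun h => h.1 Ak) (Or.inl fun h => h.2 T0)
  have x2 : ∀ g : Fin n, k ≤ g.val → a g → PluckerNonzero (M k a b c) (nb k l g) :=
    fun g p4 p5 => indep (α := g) (β := z) (by omega) (card_nb hkn.le (by omega) p4) (by simp)
      (by simp only [mem_nb, ne_eq, Fin.ext_iff]; omega) p5 (fun h => dis _ h bz) bz (dis _ p5)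
      (fun j hj n1 n2 => by
        have := row hj n1
        simp only [ne_eq, Fin.ext_iff] at n2
        exact rowC _ this.1 (by omega) (by omega))
      (Or.inr fun j hj n1 h => by
        have := row hj n1
        have := rowA _ this.1 h
        omega) (Or.inl fun h => h.2 T0)
  have x3 : ∀ g : Fin n, k ≤ g.val → b g → PluckerNonzero (M k a b c) (nb k z g) :=
    fun g p4 p5 => indep (α := l) (β := g) (by omega) (card_nb hkn.le (by omega) p4)
      (by simp only [mem_nb, ne_eq, Fin.ext_iff]; omega) (by simp) al (fun h => dis _ h p5) p5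
      (dis _ al)
      (fun j hj n1 n2 => by
        have := row hj n2
        simp only [ne_eq, Fin.ext_iff] at n1
        exact rowC _ this.1 (by omega) (by omega))
      (Or.inl fun h => h.1 Ak) (Or.inr fun j hj n1 h => by
        have := row hj n1
        have := rowB _ this.1 h
        omega)
  have aD : a D := Or.inr (by omega)
  have bE : b E := Or.inr rfl
  have cD : c D := ⟨fun h => h.elim (fun h => by have := TN _ h; omega) (by omega),
    fun h => dis _ aD (Or.inl h)⟩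
  have cE : c E := ⟨fun h => dis _ (Or.inl h) bE, fun h => by have := TN _ h; omega⟩
  have conn : Conn (PluckerNonzero (M k a b c : Matrix (Fin k) (Fin n) ℂ)) := by
    intro S s1 s2
    by_contra hn
    push Not at hn
    have ex : ∀ t g : Fin n, t.val < k → k ≤ g.val → PluckerNonzero (M k a b c) (nb k t g) →
        (t ∈ S ↔ g ∈ S) := fun t g p q r => exch hkn.le p q (hn _ _ r (wins 0 (by omega)))
    have y1 : ∀ g : Fin n, k ≤ g.val → c g → (o ∈ S ↔ g ∈ S) := fun g p q =>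
      ex o g (by omega) p (x1 o g (by omega) (by omega) (by omega) p q)
    have yD := y1 D (by omega) cD
    have yE := y1 E (by omega) cE
    have yl := ex l D (by omega) (by omega) (x2 D (by omega) aD)
    have yz := ex z E (by omega) (by omega) (x3 E (by omega) bE)
    have all : ∀ x : Fin n, o ∈ S ↔ x ∈ S := by
      intro x
      by_cases p : x.val < k
      · by_cases q : x.val = 0
        · rw [show x = z from Fin.ext q, yz, yE]
        by_cases r : x.val + 1 = k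
        · rw [show x = l from Fin.ext (by omega), yl, yD]
        rw [ex x D p (by omega) (x1 x D p q r (by omega) cD), yD]
      by_cases q : A x
      · rw [← ex l x (by omega) (by omega) (x2 x (by omega) (Or.inl q)), yl, yD]
      by_cases r : T x
      · rw [← ex z x (by omega) (by omega) (x3 x (by omega) (Or.inl r)), yz, yE]
      exact y1 x (by omega) ⟨q, r⟩
    obtain ⟨x, hx⟩ := s1
    obtain ⟨y, hy⟩ := s2
    exact mem_compl.1 hy ((all y).1 ((all x).2 hx))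
  obtain ⟨C, hC, hB⟩ := H _ wins conn
  obtain ⟨g, t, t', p1, p2, p3, p4, p5, p6⟩ := pc_inv hkn hC (r := 0) (by omega)
  obtain ⟨f, s, s', q1, q2, q3, q4, q5, q6⟩ := pc_inv hkn hC (r := k - 2) (by omega)
  have ge : g.val = e := by
    obtain ⟨j, hj, hj'⟩ := row_ne (hB _ p5) ⟨1, by omega⟩
    have bj : b j := by
      by_contra h
      simp [M, h] at hj'
    have jg : j = g := by
      by_contra h
      have := row hj h
      have := rowB _ this.1 bj
      omega
    subst jg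
    refine bj.resolve_left fun h => ?_
    have := col_ne (hB _ p6) (x := z) (y := j)
      (by simp only [mem_nb, ne_eq, Fin.ext_iff]; omega) (by simp) fun i => by
        have n1 : ¬ a z := fun h => dis _ h bz
        have n2 : ¬ a j := fun h => dis _ h bj
        have n3 : ¬ c z := fun h => h.2 T0
        have n4 : ¬ c j := fun h' => h'.2 h
        simp only [M, if_neg n1, if_neg n2, if_neg n3, if_neg n4, if_pos bz, if_pos bj]
    have := congrArg Fin.val this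
    omega
  have fe : f.val + 1 = e := by
    obtain ⟨j, hj, hj'⟩ := row_ne (hB _ q6) ⟨0, by omega⟩
    have aj : a j := by
      by_contra h
      simp [M, h] at hj'
    have jg : j = f := by
      by_contra h
      have := row hj h
      have := rowA _ this.1 aj
      omega
    subst jg
    refine aj.resolve_left fun h => ?_
    have := col_ne (hB _ q5) (x := l) (y := j)
      (by simp only [mem_nb, ne_eq, Fin.ext_iff]; omega) (by simp) fun i => by
        have n1 : ¬ b l := dis _ al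
        have n2 : ¬ b j := dis _ aj
        have n3 : ¬ c l := fun h => h.1 Ak
        have n4 : ¬ c j := fun h' => h'.1 h
        simp only [M, if_neg n1, if_neg n2, if_neg n3, if_neg n4, if_pos al, if_pos aj]
    have := congrArg Fin.val this
    omega
  refine (pc_ws hC).2 _ p5 _ q6 ⟨s', g, t, f, ?_, ?_, ?_, ?_, ?_, ?_, ?_, ?_, Or.inr ?_⟩ <;>
    simp only [mem_nb, ne_eq, Fin.ext_iff, Fin.lt_def, not_true, and_false, false_or, or_true] <;>
    omega

end BadX

theorem not_P (hk : 3 ≤ k) (h2 : 2 * k ≤ n) (h7 : 7 ≤ n) : ¬ P k n := by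
  obtain ⟨m, hm⟩ : ∃ m, m = max k 4 := ⟨_, rfl⟩
  have hq : 1 ≤ (n - m) / k := (Nat.le_div_iff_mul_le (by omega)).2 (by omega)
  have d1 := Nat.div_add_mod (n - m) k
  have d2 := Nat.mod_lt (n - m) (show 0 < k by omega)
  have d3 : k ≤ k * ((n - m) / k) := Nat.le_mul_of_pos_right _ hq
  have d4 : k ∣ k * ((n - m) / k) := dvd_mul_right _ _
  generalize k * ((n - m) / k) = N at *
  refine BadX.core hk (N := N) (e := max (N + 2) (n - k)) (fun x => k ∣ x ∧ x ≤ N)
    ⟨dvd_zero _, by omega⟩ ⟨dvd_rfl, d3⟩ (fun _ h => h.2) (fun x y hx hy h => ?_) (fun i hi => ?_)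
    (by omega) (by omega) (by omega) (by omega) (by omega)
  · have := Nat.le_of_dvd (by omega) (Nat.dvd_sub hy.1 hx.1)
    omega
  · have e1 := Nat.div_add_mod (N - i) k
    have e2 := Nat.mod_lt (N - i) (show 0 < k by omega)
    refine ⟨N - k * ((N - i) / k), ⟨Nat.dvd_sub d4 (dvd_mul_right _ _), by omega⟩, ?_⟩
    omega

theorem P_iff (hk : 1 ≤ k) (hkn : k < n) :
    P k n ↔ (k ≤ 2 ∨ n - k ≤ 2 ∨ (k = 3 ∧ n = 6)) := by
  constructor
  · intro H
    by_contra hc
    by_cases h2 : 2 * k ≤ n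
    · exact not_P (by omega) h2 (by omega) H
    · exact not_P (k := n - k) (by omega) (by omega) (by omega)
        (dual (k' := k) (by omega) (by omega) H)
  · rintro (h | h | ⟨rfl, rfl⟩)
    · obtain rfl | rfl : k = 1 ∨ k = 2 := by omega
      exacts [P_one hkn, P_two hkn]
    · obtain h | h : k + 1 = n ∨ k + 2 = n := by omega
      exacts [dual h (by omega) (P_one (by omega)), dual h (by omega) (P_two (by omega))]
    · exact P_six

theorem main (hk : 1 ≤ k) (hkn : k < n) :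
    (∀ X : Matrix (Fin k) (Fin n) ℂ, InOpenCell X → ¬ MatroidDisconnected X →
      ∃ C, Relation.ReflTransGen SquareMove (rectCollection hkn) C ∧
        ∀ I ∈ C, PluckerNonzero X I) ↔ (k ≤ 2 ∨ n - k ≤ 2 ∨ (k = 3 ∧ n = 6)) := by
  rw [← P_iff hk hkn, rect_eq]
  refine forall_congr' fun X => ?_
  rw [open_iff hkn]
  refine forall_congr' fun hX => ?_
  rw [disc_iff X ⟨_, hX 0 (by omega)⟩]
  rfl

end Pool.Agent.MP_122b1e_ag.PT
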