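import Pool.Agent.MP_122b1e_ag.Defs

set_option autoImplicit false

namespace Pool.Agent.MP_122b1e_ag

variable {ι K : Type} [Fintype ι] [DecidableEq ι] [Field K]

/-- The y-hat variable of a seed. -/
noncomputable def Seed.yhat (S : Seed ι K) (v : ι) : K := ∏ u, S.x u ^ (S.B u v)

def Seed.Skew (S : Seed ι K) : Prop := ∀ u v, S.B u v = -S.B v u

/-- The mutation rule on integer matrices. -/
def mutB {N : Type} [DecidableEq N] (B : N → N → ℤ) (m u v : N) : ℤ :=
  if u = m ∨ v = m then -B u v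
  else B u v + max (B u m) 0 * max (B m v) 0 - max (-B u m) 0 * max (-B m v) 0

omit [Fintype ι] [DecidableEq ι] [Field K] in
lemma Seed.Skew.diag {S : Seed ι K} (h : S.Skew) (m : ι) : S.B m m = 0 := by
  have := h m m; omega

lemma Seed.Skew.mutate {S : Seed ι K} (h : S.Skew) (m : ι) : (S.mutate m).Skew := by
  intro u v
  simp only [Seed.mutate]
  by_cases h1 : u = m ∨ v = m
  · rw [if_pos h1, if_pos h1.symm, h u v]
  · rw [if_neg h1, if_neg (fun h => h1 h.symm), h u v, h u m, h m v]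
    simp only [neg_neg]; ring

lemma Seed.mutate_x_ne (S : Seed ι K) {m v : ι} (h : v ≠ m) : (S.mutate m).x v = S.x v := by
  simp [Seed.mutate, h]

lemma Seed.pos_eq (S : Seed ι K) (hx : ∀ u, S.x u ≠ 0) (m : ι) :
    (∏ u, S.x u ^ (S.B u m).toNat) = S.yhat m * ∏ u, S.x u ^ (-S.B u m).toNat := by
  rw [Seed.yhat, ← Finset.prod_mul_distrib]
  refine Finset.prod_congr rfl fun u _ => ?_
  rw [← zpow_natCast, ← zpow_natCast, ← zpow_add₀ (hx u)]
  congr 1; omega

lemma Seed.mutate_x_self (S : Seed ι K) (hx : ∀ u, S.x u ≠ 0) (m : ι) :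
    (S.mutate m).x m = (1 + S.yhat m) * (∏ u, S.x u ^ (-S.B u m).toNat) / S.x m := by
  simp only [Seed.mutate, if_true]
  rw [S.pos_eq hx]; ring

lemma Seed.yhat_mutate_self (S : Seed ι K) (hs : S.Skew) (m : ι) :
    (S.mutate m).yhat m = (S.yhat m)⁻¹ := by
  rw [Seed.yhat, Seed.yhat, ← Finset.prod_inv_distrib]
  refine Finset.prod_congr rfl fun u _ => ?_
  by_cases h : u = m
  · subst h
    simp [Seed.mutate, hs.diag u]
  · rw [S.mutate_x_ne h]
    simp [Seed.mutate]

lemma Seed.yhat_mutate_ne (S : Seed ι K) (hs : S.Skew) (hx : ∀ u, S.x u ≠ 0) {m v : ι}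
    (hv : v ≠ m) :
    (S.mutate m).yhat v =
      S.yhat v * S.yhat m ^ (max (S.B m v) 0) * (1 + S.yhat m) ^ (-S.B m v) := by
  set N : K := ∏ u, S.x u ^ (-S.B u m).toNat with hN
  have hN0 : N ≠ 0 := Finset.prod_ne_zero_iff.2 fun u _ => pow_ne_zero _ (hx u)
  have hP := S.pos_eq hx m
  rw [← hN] at hP
  set b := S.B m v with hb
  have key : (S.mutate m).yhat v = (S.mutate m).x m ^ (-b) * (S.x m ^ (-b) * S.yhat v *
      (∏ u, S.x u ^ (S.B u m).toNat) ^ (max b 0) * N ^ (-(max (-b) 0))) := by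
    rw [Seed.yhat, Seed.yhat, hN, ← Finset.prod_zpow, ← Finset.prod_zpow, mul_assoc, mul_assoc,
      ← Finset.prod_mul_distrib, ← Finset.prod_mul_distrib,
      ← Finset.mul_prod_erase _ _ (Finset.mem_univ m),
      ← Finset.mul_prod_erase _ _ (Finset.mem_univ m)]
    have e1 : (S.mutate m).B m v = -b := by simp [Seed.mutate, hb]
    rw [e1, hs.diag m]
    simp only [neg_zero, Int.toNat_zero, pow_zero, one_zpow, mul_one]
    rw [← mul_assoc (S.x m ^ (-b)), ← zpow_add₀ (hx m), ← hb, neg_add_cancel, zpow_zero, one_mul]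
    congr 1
    refine Finset.prod_congr rfl fun u hu => ?_
    have hum : u ≠ m := Finset.ne_of_mem_erase hu
    rw [S.mutate_x_ne hum, ← zpow_natCast, ← zpow_natCast, ← zpow_mul, ← zpow_mul,
      ← zpow_add₀ (hx u), ← zpow_add₀ (hx u)]
    congr 1
    simp only [Seed.mutate, hum, hv, or_self, if_false, Int.ofNat_toNat, ← hb]
    ring
  rw [key, S.mutate_x_self hx, ← hN, hP, div_zpow, mul_zpow, mul_zpow]
  have h1 : S.x m ^ (-b) ≠ 0 := zpow_ne_zero _ (hx m)
  have h2 : N ^ (-b) * N ^ (max b 0) * N ^ (-(max (-b) 0)) = 1 := by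
    rw [← zpow_add₀ hN0, ← zpow_add₀ hN0]
    have : -b + max b 0 + -(max (-b) 0) = 0 := by omega
    rw [this, zpow_zero]
  field_simp
  calc _ = (1 + S.yhat m) ^ (-b) * S.yhat v * S.yhat m ^ (max b 0) *
      (N ^ (-b) * N ^ (max b 0) * N ^ (-(max (-b) 0))) := by ring
    _ = _ := by rw [h2]; ring

lemma Reachable.skew {mu : ι → Prop} {S₀ S : Seed ι K} (h : Reachable mu S₀ S) (h0 : S₀.Skew) :
    S.Skew := by
  induction h with
  | refl => exact h0
  | step m _ _ ih => exact ih.mutate m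

lemma Reachable.pos {mu : ι → Prop} {S₀ S : Seed ι K} (h : Reachable mu S₀ S) (P : K → Prop)
    (h1 : P 1) (hadd : ∀ a b, P a → P b → P (a + b)) (hmul : ∀ a b, P a → P b → P (a * b))
    (hinv : ∀ a, P a → P a⁻¹) (h0 : ∀ v, P (S₀.x v)) : ∀ v, P (S.x v) := by
  induction h with
  | refl => exact h0
  | @step S m _ _ ih =>
    intro v
    have hpow : ∀ a (n : ℕ), P a → P (a ^ n) := by
      intro a n ha
      induction n with
      | zero => simpa using h1
      | succ n ihn => rw [pow_succ]; exact hmul _ _ ihn ha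
    have hprod : ∀ e : ι → ℕ, P (∏ u, S.x u ^ e u) := fun e =>
      Finset.prod_induction _ P hmul h1 fun u _ => hpow _ _ (ih u)
    by_cases hv : v = m
    · subst hv
      simp only [Seed.mutate, if_true, div_eq_mul_inv]
      exact hmul _ _ (hadd _ _ (hprod _) (hprod _)) (hinv _ (ih v))
    · rw [S.mutate_x_ne hv]; exact ih v

/-- A multiplicative group of nonzero elements of `K`. -/
structure UnitSet (K : Type) [Field K] where
  mem : K → Prop
  one : mem 1
  mul : ∀ a b, mem a → mem b → mem (a * b)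
  inv : ∀ a, mem a → mem a⁻¹
  ne : ∀ a, mem a → a ≠ 0

/-- Equality up to a unit. -/
def UnitSet.Eqv (U : UnitSet K) (a b : K) : Prop := ∃ u, U.mem u ∧ a = u * b

lemma UnitSet.Eqv.refl (U : UnitSet K) (a : K) : U.Eqv a a := ⟨1, U.one, by simp⟩

lemma UnitSet.Eqv.symm {U : UnitSet K} {a b : K} (h : U.Eqv a b) : U.Eqv b a := by
  obtain ⟨u, hu, rfl⟩ := h
  exact ⟨u⁻¹, U.inv _ hu, by have := U.ne _ hu; field_simp⟩

lemma UnitSet.Eqv.trans {U : UnitSet K} {a b c : K} (h : U.Eqv a b) (h' : U.Eqv b c) :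
    U.Eqv a c := by
  obtain ⟨u, hu, rfl⟩ := h
  obtain ⟨v, hv, rfl⟩ := h'
  exact ⟨u * v, U.mul _ _ hu hv, by ring⟩

lemma UnitSet.Eqv.mul {U : UnitSet K} {a b c d : K} (h : U.Eqv a b) (h' : U.Eqv c d) :
    U.Eqv (a * c) (b * d) := by
  obtain ⟨u, hu, rfl⟩ := h
  obtain ⟨v, hv, rfl⟩ := h'
  exact ⟨u * v, U.mul _ _ hu hv, by ring⟩

lemma UnitSet.Eqv.inv {U : UnitSet K} {a b : K} (h : U.Eqv a b) : U.Eqv a⁻¹ b⁻¹ := by
  obtain ⟨u, hu, rfl⟩ := h
  exact ⟨u⁻¹, U.inv _ hu, by rw [mul_inv]⟩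

lemma UnitSet.Eqv.pow {U : UnitSet K} {a b : K} (h : U.Eqv a b) (n : ℕ) :
    U.Eqv (a ^ n) (b ^ n) := by
  induction n with
  | zero => simpa using UnitSet.Eqv.refl U 1
  | succ n ih => rw [pow_succ, pow_succ]; exact ih.mul h

lemma UnitSet.eqv_one {U : UnitSet K} {a : K} : U.Eqv a 1 ↔ U.mem a :=
  ⟨fun ⟨u, hu, h⟩ => by rw [h, mul_one]; exact hu, fun h => ⟨a, h, by simp⟩⟩

lemma UnitSet.Eqv.mem {U : UnitSet K} {a b : K} (h : U.Eqv a b) (hb : U.mem b) : U.mem a :=
  UnitSet.eqv_one.1 (h.trans (UnitSet.eqv_one.2 hb))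

lemma UnitSet.Eqv.prod {U : UnitSet K} {α : Type} (T : Finset α) (f g : α → K)
    (h : ∀ a ∈ T, U.Eqv (f a) (g a)) : U.Eqv (∏ a ∈ T, f a) (∏ a ∈ T, g a) := by
  classical
  induction T using Finset.induction_on with
  | empty => simpa using UnitSet.Eqv.refl U 1
  | insert a T ha ih =>
    rw [Finset.prod_insert ha, Finset.prod_insert ha]
    exact (h a (by simp)).mul (ih fun b hb => h b (by simp [hb]))

/-- A reduced seed: active names, values up to units, exchange matrix and y-hat values. -/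
structure RSeed (N K : Type) where
  act : N → Prop
  X : N → K
  B : N → N → ℤ
  Y : N → K

/-- The seed `S` is modelled by the reduced seed `R`. -/
structure Rel {N : Type} (U : UnitSet K) (mu : ι → Prop) (φ : N → ι) (S : Seed ι K)
    (R : RSeed N K) : Prop where
  inj : ∀ a b, R.act a → R.act b → φ a = φ b → a = b
  mutable : ∀ a, R.act a → mu (φ a)
  unit : ∀ v, (∀ a, R.act a → φ a ≠ v) → U.mem (S.x v)
  x : ∀ a, R.act a → U.Eqv (S.x (φ a)) (R.X a)
  B : ∀ a b, R.act a → R.act b → S.B (φ a) (φ b) = R.B a b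
  Y : ∀ a, R.act a → S.yhat (φ a) = R.Y a

/-- Change of model, possibly dropping active names whose value is a unit. -/
lemma Rel.shrink {N : Type} {U : UnitSet K} {mu : ι → Prop} {φ : N → ι} {S : Seed ι K}
    {R R' : RSeed N K} (h : Rel U mu φ S R) (hact : ∀ a, R'.act a → R.act a)
    (hu : ∀ a, R.act a → ¬ R'.act a → U.mem (R.X a))
    (hX : ∀ a, R'.act a → R'.X a = R.X a)
    (hB : ∀ a b, R'.act a → R'.act b → R'.B a b = R.B a b)
    (hY : ∀ a, R'.act a → R'.Y a = R.Y a) : Rel U mu φ S R' where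
  inj a b ha hb := h.inj a b (hact a ha) (hact b hb)
  mutable a ha := h.mutable a (hact a ha)
  unit v hv := by
    by_cases h1 : ∃ a, R.act a ∧ φ a = v
    · obtain ⟨a, ha, rfl⟩ := h1
      exact (h.x a ha).mem (hu a ha fun h' => hv a h' rfl)
    · exact h.unit v fun a ha e => h1 ⟨a, ha, e⟩
  x a ha := by rw [hX a ha]; exact h.x a (hact a ha)
  B a b ha hb := by rw [hB a b ha hb]; exact h.B a b (hact a ha) (hact b hb)
  Y a ha := by rw [hY a ha]; exact h.Y a (hact a ha)

lemma Rel.mutate {N : Type} [DecidableEq N] {U : UnitSet K} {mu : ι → Prop} {φ : N → ι}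
    {S : Seed ι K} {R R' : RSeed N K} (h : Rel U mu φ S R) (hs : S.Skew) (hx : ∀ u, S.x u ≠ 0)
    (m : N) (hm : R.act m) (hact : ∀ a, R'.act a ↔ R.act a)
    (hX : ∀ a, R.act a → a ≠ m → R'.X a = R.X a)
    (T : Finset N) (hT : ∀ a, R.act a → a ∉ T → 0 ≤ R.B a m)
    (hT' : ∀ a ∈ T, ¬ R.act a → U.mem (R.X a))
    (hXm : R'.X m * R.X m = (1 + R.Y m) * ∏ a ∈ T, R.X a ^ (-R.B a m).toNat)
    (hB : ∀ a b, R.act a → R.act b → R'.B a b = mutB R.B m a b)
    (hYm : R'.Y m = (R.Y m)⁻¹)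
    (hY : ∀ a, R.act a → a ≠ m →
      R'.Y a = R.Y a * R.Y m ^ (max (R.B m a) 0) * (1 + R.Y m) ^ (-R.B m a)) :
    Rel U mu φ (S.mutate (φ m)) R' where
  inj a b ha hb := h.inj a b ((hact a).1 ha) ((hact b).1 hb)
  mutable a ha := h.mutable a ((hact a).1 ha)
  unit v hv := by
    have h1 : ∀ a, R.act a → φ a ≠ v := fun a ha => hv a ((hact a).2 ha)
    rw [S.mutate_x_ne (h1 m hm).symm]
    exact h.unit v h1
  x a ha := by
    classical
    have ha' := (hact a).1 ha
    by_cases ham : a = m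
    · subst ham
      have hXa : R.X a ≠ 0 := by
        intro e
        obtain ⟨u, _, hu⟩ := h.x a ha'
        exact hx (φ a) (by rw [hu, e, mul_zero])
      have e1 : R'.X a = (1 + R.Y a) * (∏ b ∈ T, R.X b ^ (-R.B b a).toNat) * (R.X a)⁻¹ := by
        rw [← hXm]; field_simp
      rw [S.mutate_x_self hx, e1, h.Y a ha', div_eq_mul_inv]
      refine UnitSet.Eqv.mul (UnitSet.Eqv.mul (UnitSet.Eqv.refl _ _) ?_) (h.x a ha').inv
      have s1 : U.Eqv (∏ u, S.x u ^ (-S.B u (φ a)).toNat)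
          (∏ u ∈ (T.filter R.act).image φ, S.x u ^ (-S.B u (φ a)).toNat) := by
        rw [← Finset.prod_mul_prod_compl ((T.filter R.act).image φ)]
        conv_rhs => rw [← mul_one (∏ u ∈ (T.filter R.act).image φ, _)]
        refine (UnitSet.Eqv.refl _ _).mul (UnitSet.eqv_one.2 ?_)
        refine Finset.prod_induction _ U.mem U.mul U.one fun u hu => ?_
        by_cases h1 : ∃ b, R.act b ∧ φ b = u
        · obtain ⟨b, hb, rfl⟩ := h1
          have hbT : b ∉ T := by
            intro hbT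
            rw [Finset.mem_compl] at hu
            exact hu (Finset.mem_image_of_mem φ (Finset.mem_filter.2 ⟨hbT, hb⟩))
          have := hT b hb hbT
          rw [h.B b a hb ha']
          have e : (-R.B b a).toNat = 0 := by omega
          rw [e, pow_zero]; exact U.one
        · have := (UnitSet.eqv_one.2 (h.unit u fun b hb e => h1 ⟨b, hb, e⟩)).pow
            (-S.B u (φ a)).toNat
          rw [one_pow] at this
          exact UnitSet.eqv_one.1 this
      refine s1.trans ?_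
      rw [Finset.prod_image (fun b hb c hc e => h.inj b c (Finset.mem_filter.1 hb).2
        (Finset.mem_filter.1 hc).2 e), Finset.prod_filter]
      refine UnitSet.Eqv.prod _ _ _ fun b hb => ?_
      split_ifs with hb'
      · rw [h.B b a hb' ha']; exact (h.x b hb').pow _
      · have := (UnitSet.eqv_one.2 (hT' b hb hb')).pow (-R.B b a).toNat
        rw [one_pow] at this
        exact this.symm
    · rw [S.mutate_x_ne (fun e => ham (h.inj a m ha' hm e)), hX a ha' ham]
      exact h.x a ha'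
  B a b ha hb := by
    have ha' := (hact a).1 ha
    have hb' := (hact b).1 hb
    rw [hB a b ha' hb']
    have e1 : φ a = φ m ↔ a = m := ⟨h.inj a m ha' hm, fun e => by rw [e]⟩
    have e2 : φ b = φ m ↔ b = m := ⟨h.inj b m hb' hm, fun e => by rw [e]⟩
    simp only [Seed.mutate, mutB, e1, e2, h.B a b ha' hb', h.B a m ha' hm, h.B m b hm hb']
  Y a ha := by
    have ha' := (hact a).1 ha
    by_cases ham : a = m
    · subst ham
      rw [S.yhat_mutate_self hs, hYm, h.Y a ha']
    · rw [S.yhat_mutate_ne hs hx (fun e => ham (h.inj a m ha' hm e)), hY a ha' ham,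
        h.Y a ha', h.Y m hm, h.B m a hm ha']

end Pool.Agent.MP_122b1e_ag
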