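import Pool.Agent.MP_122b1e_ag.Seed

set_option autoImplicit false

namespace Pool.Agent.MP_122b1e_ag

variable {N K : Type} [DecidableEq N] [Field K]

/-- Exchange matrix of the oriented triangle `a → b → c → a`. -/
def triB (a b c u v : N) : ℤ :=
  (if u = a ∧ v = b then 1 else 0) + (if u = b ∧ v = c then 1 else 0) +
    (if u = c ∧ v = a then 1 else 0) - (if u = b ∧ v = a then 1 else 0) -
    (if u = c ∧ v = b then 1 else 0) - (if u = a ∧ v = c then 1 else 0)

/-- Contribution of the oriented triangle `a → b → c → a` to the y-hat variables. -/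
def triY (a b c : N) (xa xb xc : K) (v : N) : K :=
  (if v = a then xc / xb else 1) * (if v = b then xa / xc else 1) *
    (if v = c then xb / xa else 1)

lemma triB_left {a b c u : N} (ha : u ≠ a) (hb : u ≠ b) (hc : u ≠ c) (v : N) :
    triB a b c u v = 0 := by simp [triB, ha, hb, hc]

lemma triB_right {a b c v : N} (ha : v ≠ a) (hb : v ≠ b) (hc : v ≠ c) (u : N) :
    triB a b c u v = 0 := by simp [triB, ha, hb, hc]

lemma triY_ne {a b c v : N} (ha : v ≠ a) (hb : v ≠ b) (hc : v ≠ c) (xa xb xc : K) :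
    triY a b c xa xb xc v = 1 := by simp [triY, ha, hb, hc]

lemma triB_ac {a b c u v : N} (hu : u ≠ a) (hu' : u ≠ c) (hv : v ≠ a) (hv' : v ≠ c) :
    triB a b c u v = 0 := by simp [triB, hu, hu', hv, hv']

lemma triB_bc {a b c u v : N} (hu : u ≠ b) (hu' : u ≠ c) (hv : v ≠ b) (hv' : v ≠ c) :
    triB a b c u v = 0 := by simp [triB, hu, hu', hv, hv']

/-- Five pairwise distinct names. -/
structure Dist5 (a m d cp cm : N) : Prop where
  h1 : a ≠ m
  h2 : a ≠ d
  h3 : a ≠ cp
  h4 : a ≠ cm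
  h5 : m ≠ d
  h6 : m ≠ cp
  h7 : m ≠ cm
  h8 : d ≠ cp
  h9 : d ≠ cm
  h10 : cp ≠ cm

lemma flip_col {a m d cp cm : N} (h : Dist5 a m d cp cm) (u : N) :
    triB m a cm u m + triB m d cp u m =
      (if u = cp then 1 else 0) + (if u = cm then 1 else 0) - (if u = a then 1 else 0) -
        (if u = d then 1 else 0) := by
  obtain ⟨h1, h2, h3, h4, h5, h6, h7, h8, h9, h10⟩ := h
  simp only [triB, h1.symm, h5, h6, h7, and_false, and_true, if_false]
  ring

lemma flip_row {a m d cp cm : N} (h : Dist5 a m d cp cm) (u : N) :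
    triB m a cm m u + triB m d cp m u =
      (if u = a then 1 else 0) + (if u = d then 1 else 0) - (if u = cp then 1 else 0) -
        (if u = cm then 1 else 0) := by
  obtain ⟨h1, h2, h3, h4, h5, h6, h7, h8, h9, h10⟩ := h
  simp only [triB, h1.symm, h5, h6, h7, false_and, true_and, if_false]
  ring

lemma flip_B {a m d cp cm : N} (h : Dist5 a m d cp cm) (B₀ B : N → N → ℤ)
    (h0 : ∀ u, B₀ u m = 0) (h0' : ∀ u, B₀ m u = 0)
    (hB : ∀ u v, B u v = B₀ u v + (triB m a cm u v + triB m d cp u v)) (u v : N) :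
    B₀ u v + (triB a m cp u v + triB d m cm u v) = mutB B m u v := by
  unfold mutB
  rw [hB u m, hB m v, hB u v, h0, h0', flip_col h, flip_row h]
  obtain ⟨h1, h2, h3, h4, h5, h6, h7, h8, h9, h10⟩ := h
  have hu : u = a ∨ u = m ∨ u = d ∨ u = cp ∨ u = cm ∨
      (u ≠ a ∧ u ≠ m ∧ u ≠ d ∧ u ≠ cp ∧ u ≠ cm) := by tauto
  have hv : v = a ∨ v = m ∨ v = d ∨ v = cp ∨ v = cm ∨
      (v ≠ a ∧ v ≠ m ∧ v ≠ d ∧ v ≠ cp ∧ v ≠ cm) := by tauto
  have := h1.symm; have := h2.symm; have := h3.symm; have := h4.symm; have := h5.symm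
  have := h6.symm; have := h7.symm; have := h8.symm; have := h9.symm; have := h10.symm
  rcases hu with hu | hu | hu | hu | hu | ⟨hu1, hu2, hu3, hu4, hu5⟩ <;>
  rcases hv with hv | hv | hv | hv | hv | ⟨hv1, hv2, hv3, hv4, hv5⟩ <;>
  simp [triB, sub_eq_add_neg, *]

lemma flip_Y_self {a m d cp cm : N} (h : Dist5 a m d cp cm) (xa xm xd xp xc : K) :
    triY m a cm xm xa xc m * triY m d cp xm xd xp m = xc * xp / (xa * xd) := by
  obtain ⟨h1, h2, h3, h4, h5, h6, h7, h8, h9, h10⟩ := h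
  simp only [triY, h1.symm, h5, h6, h7, if_true, if_false]
  ring

lemma flip_Y_self' {a m d cp cm : N} (h : Dist5 a m d cp cm) (xa xm xd xp xc : K) :
    triY a m cp xa xm xp m * triY d m cm xd xm xc m = (xc * xp / (xa * xd))⁻¹ := by
  obtain ⟨h1, h2, h3, h4, h5, h6, h7, h8, h9, h10⟩ := h
  simp only [triY, h1.symm, h5, h6, h7, if_true, if_false]
  rw [inv_div]
  ring

lemma flip_Y {a m d cp cm : N} (h : Dist5 a m d cp cm) {xa xm xd xp xc xm' : K}
    (ha : xa ≠ 0) (hm : xm ≠ 0) (hd : xd ≠ 0) (hp : xp ≠ 0) (hc : xc ≠ 0) (hm' : xm' ≠ 0)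
    (e : xm * xm' = xa * xd + xc * xp) {v : N} (hv : v ≠ m) :
    triY a m cp xa xm' xp v * triY d m cm xd xm' xc v =
      triY m a cm xm xa xc v * triY m d cp xm xd xp v *
        (xc * xp / (xa * xd)) ^ (max (triB m a cm m v + triB m d cp m v) 0) *
        (1 + xc * xp / (xa * xd)) ^ (-(triB m a cm m v + triB m d cp m v)) := by
  rw [flip_row h]
  have e1 : 1 + xc * xp / (xa * xd) = xm * xm' / (xa * xd) := by rw [e]; field_simp
  rw [e1]
  clear e e1
  obtain ⟨h1, h2, h3, h4, h5, h6, h7, h8, h9, h10⟩ := h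
  have := h1.symm; have := h2.symm; have := h3.symm; have := h4.symm; have := h5.symm
  have := h6.symm; have := h7.symm; have := h8.symm; have := h9.symm; have := h10.symm
  have hv : v = a ∨ v = d ∨ v = cp ∨ v = cm ∨ (v ≠ a ∧ v ≠ d ∧ v ≠ cp ∧ v ≠ cm) := by tauto
  rcases hv with hv | hv | hv | hv | ⟨hv1, hv2, hv3, hv4⟩ <;> simp [triY, *] <;> field_simp

lemma square_B (a b a' b' u v : N) :
    triB b a a' u v + triB a' b' b u v = triB a' b' a u v + triB b a b' u v := by
  simp only [triB]; ring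

lemma square_Y {a b a' b' : N} {xa xb xa' xb' : K} (ha : xa ≠ 0) (hb : xb ≠ 0) (ha' : xa' ≠ 0)
    (hb' : xb' ≠ 0) (v : N) :
    triY b a a' xb xa xa' v * triY a' b' b xa' xb' xb v =
      triY a' b' a xa' xb' xa v * triY b a b' xb xa xb' v := by
  simp only [triY]
  split_ifs <;> field_simp

end Pool.Agent.MP_122b1e_ag
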